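import Pool.Agent.Q258.MT.Rot

set_option autoImplicit false

/-!
Further operators on functions of lists: the symmetric cubic relation, multiplicative operators,
reflection, and the insertion of an entry.
-/

noncomputable section

namespace Pool.Agent.Q258.MT

/-- the symmetric cubic relation -/
theorem sym3 {f : List ℤ → ℚ} (hf : Anti f) (x y z : ℤ) :
    T [x, y, z] f + T [x, z, y] f + T [y, x, z] f + T [y, z, x] f + T [z, x, y] f + T [z, y, x] f = 0 := by
  simp only [T_three, K3_eq]
  have hl := fun x y z => K3s_anti_left hf x y z []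
  have hr := fun x y z => K3s_anti_right hf x y z []
  have h1 : ∀ x y z, K3s f y x z [] = - K3s f x y z [] := fun x y z => hl y x z
  have h2 : ∀ x y z, K3s f x z y [] = - K3s f x y z [] := fun x y z => hr x z y
  have h3 : ∀ x y z, K3s f y z x [] = K3s f x y z [] := fun x y z => by
    rw [hr y z x, hl y x z, neg_neg]
  have h4 : ∀ x y z, K3s f z x y [] = K3s f x y z [] := fun x y z => by
    rw [hl z x y, hr x z y, neg_neg]
  have h5 : ∀ x y z, K3s f z y x [] = - K3s f x y z [] := fun x y z => by
    rw [hl z y x, h3]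
  linear_combination (1) * h1 x y z +
      (-1) * h1 (x + 1) y z +
      (1) * h1 (x + 1) y (z + 1) +
      (-2) * h1 x (y + 1) z +
      (1) * h1 x (y + 1) (z + 1) +
      (3) * h1 (x + 1) (y + 1) z +
      (-3) * h1 (x + 1) (y + 1) (z + 1) +
      (1) * h1 (x + 1) (y + 1) (z + 1 + 1) +
      (-1) * h1 (x + 1 + 1) (y + 1) z +
      (1) * h1 (x + 1 + 1) (y + 1) (z + 1) +
      (1) * h1 x (y + 1 + 1) z +
      (-1) * h1 x (y + 1 + 1) (z + 1) +
      (-2) * h1 (x + 1) (y + 1 + 1) z +
      (3) * h1 (x + 1) (y + 1 + 1) (z + 1) +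
      (-1) * h1 (x + 1) (y + 1 + 1) (z + 1 + 1) +
      (1) * h1 (x + 1 + 1) (y + 1 + 1) z +
      (-2) * h1 (x + 1 + 1) (y + 1 + 1) (z + 1) +
      (1) * h1 (x + 1 + 1) (y + 1 + 1) (z + 1 + 1) +
      (1) * h2 x y z +
      (-1) * h2 x y (z + 1) +
      (1) * h2 x (y + 1) (z + 1) +
      (-2) * h2 (x + 1) y z +
      (1) * h2 (x + 1) (y + 1) z +
      (3) * h2 (x + 1) y (z + 1) +
      (-3) * h2 (x + 1) (y + 1) (z + 1) +
      (1) * h2 (x + 1) (y + 1 + 1) (z + 1) +
      (-1) * h2 (x + 1) y (z + 1 + 1) +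
      (1) * h2 (x + 1) (y + 1) (z + 1 + 1) +
      (1) * h2 (x + 1 + 1) y z +
      (-1) * h2 (x + 1 + 1) (y + 1) z +
      (-2) * h2 (x + 1 + 1) y (z + 1) +
      (3) * h2 (x + 1 + 1) (y + 1) (z + 1) +
      (-1) * h2 (x + 1 + 1) (y + 1 + 1) (z + 1) +
      (1) * h2 (x + 1 + 1) y (z + 1 + 1) +
      (-2) * h2 (x + 1 + 1) (y + 1) (z + 1 + 1) +
      (1) * h2 (x + 1 + 1) (y + 1 + 1) (z + 1 + 1) +
      (1) * h3 x y z +
      (-1) * h3 x y (z + 1) +
      (1) * h3 (x + 1) y (z + 1) +
      (-2) * h3 x (y + 1) z +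
      (1) * h3 (x + 1) (y + 1) z +
      (3) * h3 x (y + 1) (z + 1) +
      (-3) * h3 (x + 1) (y + 1) (z + 1) +
      (1) * h3 (x + 1 + 1) (y + 1) (z + 1) +
      (-1) * h3 x (y + 1) (z + 1 + 1) +
      (1) * h3 (x + 1) (y + 1) (z + 1 + 1) +
      (1) * h3 x (y + 1 + 1) z +
      (-1) * h3 (x + 1) (y + 1 + 1) z +
      (-2) * h3 x (y + 1 + 1) (z + 1) +
      (3) * h3 (x + 1) (y + 1 + 1) (z + 1) +
      (-1) * h3 (x + 1 + 1) (y + 1 + 1) (z + 1) +
      (1) * h3 x (y + 1 + 1) (z + 1 + 1) +
      (-2) * h3 (x + 1) (y + 1 + 1) (z + 1 + 1) +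
      (1) * h3 (x + 1 + 1) (y + 1 + 1) (z + 1 + 1) +
      (1) * h4 x y z +
      (-1) * h4 (x + 1) y z +
      (1) * h4 (x + 1) (y + 1) z +
      (-2) * h4 x y (z + 1) +
      (1) * h4 x (y + 1) (z + 1) +
      (3) * h4 (x + 1) y (z + 1) +
      (-3) * h4 (x + 1) (y + 1) (z + 1) +
      (1) * h4 (x + 1) (y + 1 + 1) (z + 1) +
      (-1) * h4 (x + 1 + 1) y (z + 1) +
      (1) * h4 (x + 1 + 1) (y + 1) (z + 1) +
      (1) * h4 x y (z + 1 + 1) +
      (-1) * h4 x (y + 1) (z + 1 + 1) +
      (-2) * h4 (x + 1) y (z + 1 + 1) +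
      (3) * h4 (x + 1) (y + 1) (z + 1 + 1) +
      (-1) * h4 (x + 1) (y + 1 + 1) (z + 1 + 1) +
      (1) * h4 (x + 1 + 1) y (z + 1 + 1) +
      (-2) * h4 (x + 1 + 1) (y + 1) (z + 1 + 1) +
      (1) * h4 (x + 1 + 1) (y + 1 + 1) (z + 1 + 1) +
      (1) * h5 x y z +
      (-1) * h5 x (y + 1) z +
      (1) * h5 (x + 1) (y + 1) z +
      (-2) * h5 x y (z + 1) +
      (1) * h5 (x + 1) y (z + 1) +
      (3) * h5 x (y + 1) (z + 1) +
      (-3) * h5 (x + 1) (y + 1) (z + 1) +
      (1) * h5 (x + 1 + 1) (y + 1) (z + 1) +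
      (-1) * h5 x (y + 1 + 1) (z + 1) +
      (1) * h5 (x + 1) (y + 1 + 1) (z + 1) +
      (1) * h5 x y (z + 1 + 1) +
      (-1) * h5 (x + 1) y (z + 1 + 1) +
      (-2) * h5 x (y + 1) (z + 1 + 1) +
      (3) * h5 (x + 1) (y + 1) (z + 1 + 1) +
      (-1) * h5 (x + 1 + 1) (y + 1) (z + 1 + 1) +
      (1) * h5 x (y + 1 + 1) (z + 1 + 1) +
      (-2) * h5 (x + 1) (y + 1 + 1) (z + 1 + 1) +
      (1) * h5 (x + 1 + 1) (y + 1 + 1) (z + 1 + 1)

/-! ### multiplicative operators -/

/-- `∏ (a + b E_q)` applied to `f` -/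
def Gf (a b : ℚ) : List ℤ → (List ℤ → ℚ) → ℚ
  | [], f => f []
  | x :: l, f => Gf a b l (fun m => a * f (x :: m) + b * f ((x + 1) :: m))

theorem Gf_add (a b : ℚ) (l : List ℤ) : ∀ f g : List ℤ → ℚ,
    Gf a b l (fun m => f m + g m) = Gf a b l f + Gf a b l g := by
  induction l with
  | nil => intro f g; rfl
  | cons x l ih =>
    intro f g
    simp only [Gf]
    rw [← ih]
    congr 1
    funext m
    ring

theorem Gf_mul (a b : ℚ) (l : List ℤ) (c : ℚ) : ∀ f : List ℤ → ℚ,
    Gf a b l (fun m => c * f m) = c * Gf a b l f := by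
  induction l with
  | nil => intro f; rfl
  | cons x l ih =>
    intro f
    simp only [Gf]
    rw [← ih]
    congr 1
    funext m
    ring

theorem Gf_neg (a b : ℚ) (l : List ℤ) (f : List ℤ → ℚ) :
    Gf a b l (fun m => - f m) = - Gf a b l f := by
  have h := Gf_mul a b l (-1) f
  simp only [neg_one_mul] at h
  exact h

theorem Gf_sub (a b : ℚ) (l : List ℤ) (f g : List ℤ → ℚ) :
    Gf a b l (fun m => f m - g m) = Gf a b l f - Gf a b l g := by
  simp only [sub_eq_add_neg, Gf_add, Gf_neg]

theorem P_Gf (a b : ℚ) (l : List ℤ) : ∀ (F : ℤ → List ℤ → ℚ) (z : ℤ),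
    P l (fun z l => Gf a b l (F z)) z = Gf a b l (fun m => P m F z) := by
  induction l with
  | nil => intro F z; rfl
  | cons c l ih =>
    intro F z
    have h : P (c :: l) (fun z l => Gf a b l (F z)) z = P l (fun z l => Gf a b l ((fun z m =>
        a * (F z (c :: m) - F (z + 1) (c :: m) + F (z + 1) ((c + 1) :: m)) +
        b * (F z ((c + 1) :: m) - F (z + 1) ((c + 1) :: m) + F (z + 1) ((c + 1 + 1) :: m))) z)) z := by
      simp only [P]
      congr 1
      funext z l
      simp only [Gf]
      rw [← Gf_sub, ← Gf_add]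
      congr 1
      funext m
      ring
    rw [h, ih]
    simp only [Gf]
    congr 1
    funext m
    rw [P_add, P_mul, P_mul]
    rfl

theorem T_Gf (a b : ℚ) (w : List ℤ) : ∀ f : List ℤ → ℚ,
    T w (fun l => Gf a b l f) = Gf a b w (fun u => T u f) := by
  induction w with
  | nil => intro f; rfl
  | cons z w ih =>
    intro f
    simp only [T, Gf]
    have h : (fun l => P l (fun z l => Gf a b l (fun m => a * f (z :: m) + b * f ((z + 1) :: m))) z) =
        fun l => Gf a b l (fun m => a * P m (fun z l => f (z :: l)) z +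
          b * P m (fun z l => f (z :: l)) (z + 1)) := by
      funext l
      rw [P_Gf a b l (fun z m => a * f (z :: m) + b * f ((z + 1) :: m))]
      congr 1
      funext m
      rw [P_add, P_mul, P_mul, ← P_shift]
    rw [h, ih]
    congr 1
    funext u
    rw [T_add, T_mul, T_mul]

theorem Anti.Gf {a b : ℚ} {f : List ℤ → ℚ} (hf : Anti f) : Anti (fun l => Gf a b l f) := by
  intro u
  induction u generalizing f with
  | nil =>
    intro x y v
    simp only [List.nil_append, MT.Gf]
    rw [← Gf_neg]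
    congr 1
    funext m
    have h := fun x y => hf [] x y m
    simp only [List.nil_append] at h
    linear_combination a * a * h x y + a * b * h (x + 1) y + a * b * h x (y + 1) +
      b * b * h (x + 1) (y + 1)
  | cons c u ih =>
    intro x y v
    simp only [List.cons_append, MT.Gf]
    refine ih (f := fun m => a * f (c :: m) + b * f ((c + 1) :: m)) ?_ x y v
    intro u' x y v
    have h1 := hf (c :: u') x y v
    have h2 := hf ((c + 1) :: u') x y v
    simp only [List.cons_append] at h1 h2
    simp only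
    rw [h1, h2]
    ring

/-! ### operators from the right -/

theorem P2_mul (l : List ℤ) (c : ℚ) : ∀ (f : ℤ → List ℤ → ℚ) (z : ℤ),
    P2 l (fun z l => c * f z l) z = c * P2 l f z := by
  induction l with
  | nil => intro f z; rfl
  | cons a l ih =>
    intro f z
    simp only [P2]
    rw [← ih]
    congr 1
    funext z l
    ring

theorem Anti.P2 {f : ℤ → List ℤ → ℚ} (hf : ∀ z, Anti (f z)) (z : ℤ) : Anti (fun l => P2 l f z) := by
  intro u
  induction u generalizing f z with
  | nil =>
    intro x y v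
    simp only [List.nil_append, MT.P2]
    rw [← P2_neg]
    congr 1
    funext z l
    have h := fun z x y => hf z [] x y l
    simp only [List.nil_append] at h
    linear_combination h z x y - h z (x + 1) y + h (z + 1) (x + 1) y -
      (h z x (y + 1) - h z (x + 1) (y + 1) + h (z + 1) (x + 1) (y + 1)) +
      (h (z + 1) x (y + 1) - h (z + 1) (x + 1) (y + 1) + h (z + 1 + 1) (x + 1) (y + 1))
  | cons a u ih =>
    intro x y v
    simp only [List.cons_append, MT.P2]
    apply ih
    intro z u' x y v
    have h := fun z a => hf z (a :: u') x y v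
    simp only [List.cons_append] at h
    linear_combination h z a - h z (a + 1) + h (z + 1) (a + 1)

theorem Anti.snoc {f : List ℤ → ℚ} (hf : Anti f) (z : ℤ) : Anti (fun l => f (l ++ [z])) := by
  intro u x y v
  have h := hf u x y (v ++ [z])
  simpa using h

theorem P2_snoc (l : List ℤ) : ∀ (H : ℤ → List ℤ → ℚ) (y0 y : ℤ),
    P2 (l ++ [y0]) H y = P2 l (fun y l => H y (l ++ [y0]) - H y (l ++ [y0 + 1]) +
      H (y + 1) (l ++ [y0 + 1])) y := by
  induction l with
  | nil => intro H y0 y; rfl
  | cons a l ih =>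
    intro H y0 y
    simp only [List.cons_append, P2]
    rw [ih]
    congr 1
    funext y l
    ring

/-! ### reflection -/

/-- the reflection of lists -/
def rl (c : ℤ) (l : List ℤ) : List ℤ := (l.map (fun x => - x + c)).reverse

theorem rl_cons (c a : ℤ) (l : List ℤ) : rl c (a :: l) = rl c l ++ [- a + c] := by
  simp [rl]

theorem P_shift_nat (l : List ℤ) (f : ℤ → List ℤ → ℚ) (n : ℕ) : ∀ z : ℤ,
    P l (fun z l => f (z + n) l) z = P l f (z + n) := by
  induction n with
  | zero => intro z; simp
  | succ n ih =>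
    intro z
    have h := P_shift l (fun z l => f (z + n) l) z
    rw [ih (z + 1)] at h
    have e : z + 1 + (n : ℤ) = z + ((n + 1 : ℕ) : ℤ) := by push_cast; ring
    rw [e] at h
    rw [← h]
    congr 1
    funext z l
    congr 1
    push_cast
    ring

theorem P2_rl (l : List ℤ) : ∀ (H : ℤ → List ℤ → ℚ) (c y : ℤ),
    P2 (rl c l) H y = P l (fun z l => H (- z) (rl (c + 1) l)) (- y - l.length) := by
  induction l with
  | nil => intro H c y; simp [rl, P2, P]
  | cons a l ih =>
    intro H c y
    rw [rl_cons, P2_snoc, ih]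
    simp only [P]
    have e : - y - (l.length : ℤ) = (- y - ((a :: l).length : ℤ)) + 1 := by
      simp only [List.length_cons]; push_cast; ring
    rw [e, ← P_shift]
    congr 1
    funext z l
    simp only [rl_cons]
    have e1 : - a + c + 1 = - a + (c + 1) := by ring
    have e2 : - (z + 1) + 1 = - z := by ring
    have e3 : - (a + 1) + (c + 1) = - a + c := by ring
    rw [e1, e2, e3]
    ring

/-- the reflected function -/
def rf (f : List ℤ → ℚ) (l : List ℤ) : ℚ := f (rl (l.length - 1) l)

theorem rl_length (c : ℤ) (l : List ℤ) : (rl c l).length = l.length := by simp [rl]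

theorem T_rl (w : List ℤ) : ∀ f : List ℤ → ℚ, T (rl 0 w) f = T w (rf f) := by
  induction w with
  | nil => intro f; simp [rl, rf, T]
  | cons z w ih =>
    intro f
    rw [rl_cons, T_snoc, ih]
    simp only [T]
    congr 1
    funext l
    unfold rf
    beta_reduce
    rw [P2_rl]
    have e0 : - (- z + 0) - (l.length : ℤ) + (l.length : ℕ) = z := by ring
    have h := P_shift_nat l (fun z l => f (rl ((l.length : ℤ)) (z :: l))) l.length (- (- z + 0) - (l.length : ℤ))
    rw [e0] at h
    have h2 : P l (fun z l => f (rl (((z :: l).length : ℤ) - 1) (z :: l))) z =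
        P l (fun z l => f (rl ((l.length : ℤ)) (z :: l))) z := by
      congr 1
      funext z l
      congr 2
      simp
    rw [h2, ← h]
    have key : ∀ (l : List ℤ) (F G : ℤ → List ℤ → ℚ) (z : ℤ), (∀ z m, m.length = l.length → F z m = G z m) →
        P l F z = P l G z := by
      intro l F G z hFG
      have h1 := P_len l (fun n => if n = l.length then 1 else 0) F z
      have h2 := P_len l (fun n => if n = l.length then 1 else 0) G z
      simp only [if_true, one_mul] at h1 h2
      rw [← h1, ← h2]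
      congr 1
      funext z m
      by_cases hm : m.length = l.length
      · rw [hFG z m hm]
      · rw [if_neg hm, zero_mul, zero_mul]
    apply key
    intro z m hm
    rw [rl_cons, hm]
    congr 2
    · congr 1; ring
    · congr 1
      ring

theorem Anti.rf {f : List ℤ → ℚ} (hf : Anti f) : Anti (rf f) := by
  intro u x y v
  unfold MT.rf
  have h1 : ∀ (c x y : ℤ), rl c (u ++ x :: y :: v) = rl c v ++ (- y + c) :: (- x + c) :: rl c u := by
    intro c x y
    simp [rl]
  rw [h1, h1]
  have e : (u ++ x :: y :: v).length = (u ++ y :: x :: v).length := by simp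
  rw [e]
  exact hf _ _ _ _

/-! ### insertion of an entry -/

/-- the alternating sum over the erased entries `x`, with the weights `c x` -/
def Ic (c : ℤ → ℚ) : List ℤ → (List ℤ → ℚ) → ℚ
  | [], _ => 0
  | x :: l, f => c x * f l - Ic c l (fun m => f (x :: m))

theorem Ic_add (c : ℤ → ℚ) (l : List ℤ) : ∀ f g : List ℤ → ℚ,
    Ic c l (fun m => f m + g m) = Ic c l f + Ic c l g := by
  induction l with
  | nil => intro f g; simp [Ic]
  | cons x l ih => intro f g; simp only [Ic, ih]; ring

theorem Ic_neg (c : ℤ → ℚ) (l : List ℤ) : ∀ f : List ℤ → ℚ, Ic c l (fun m => - f m) = - Ic c l f := by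
  induction l with
  | nil => intro f; simp [Ic]
  | cons x l ih => intro f; simp only [Ic, ih]; ring

theorem Ic_mul (c : ℤ → ℚ) (l : List ℤ) (a : ℚ) : ∀ f : List ℤ → ℚ,
    Ic c l (fun m => a * f m) = a * Ic c l f := by
  induction l with
  | nil => intro f; simp [Ic]
  | cons x l ih => intro f; simp only [Ic, ih]; ring

theorem Ic_sub (c : ℤ → ℚ) (l : List ℤ) (f g : List ℤ → ℚ) :
    Ic c l (fun m => f m - g m) = Ic c l f - Ic c l g := by
  simp only [sub_eq_add_neg, Ic_add, Ic_neg]

theorem Ic_c_add (c e : ℤ → ℚ) (l : List ℤ) : ∀ f : List ℤ → ℚ,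
    Ic (fun x => c x + e x) l f = Ic c l f + Ic e l f := by
  induction l with
  | nil => intro f; simp [Ic]
  | cons x l ih => intro f; simp only [Ic, ih]; ring

theorem Anti.Ic {c : ℤ → ℚ} {f : List ℤ → ℚ} (hf : Anti f) : Anti (fun l => Ic c l f) := by
  intro u
  induction u generalizing f with
  | nil =>
    intro x y v
    simp only [List.nil_append, MT.Ic]
    have h : MT.Ic c v (fun m => f (x :: y :: m)) = - MT.Ic c v (fun m => f (y :: x :: m)) := by
      rw [← Ic_neg]
      congr 1
      funext m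
      exact hf [] x y m
    linarith
  | cons a u ih =>
    intro x y v
    simp only [List.cons_append, MT.Ic]
    have h := ih (hf.cons a) x y v
    simp only at h
    rw [h, hf u x y v]
    ring

theorem P_Ic (c : ℤ → ℚ) (l : List ℤ) : ∀ (F : ℤ → List ℤ → ℚ) (z : ℤ),
    P l (fun z l => Ic c l (F z)) z = Ic c l (fun m => P m F z) +
      Ic (fun x => c (x + 1) - c x) l (fun m => P m F (z + 1)) := by
  induction l with
  | nil => intro F z; simp [P, Ic]
  | cons a l ih =>
    intro F z
    have h : P (a :: l) (fun z l => Ic c l (F z)) z = P l (fun z l => c a * F z l +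
        (c (a + 1) - c a) * F (z + 1) l - Ic c l ((fun z m =>
        F z (a :: m) - F (z + 1) (a :: m) + F (z + 1) ((a + 1) :: m)) z)) z := by
      simp only [P]
      congr 1
      funext z l
      simp only [Ic, Ic_add, Ic_sub]
      ring
    rw [h, P_sub, P_add, P_mul, P_mul, ih]
    have e : P l (fun z l => F (z + 1) l) z = P l F (z + 1) := P_shift l F z
    rw [e]
    simp only [Ic]
    have e1 : ∀ z, (fun m => P m (fun z m => F z (a :: m) - F (z + 1) (a :: m) + F (z + 1) ((a + 1) :: m)) z) =
        fun m => P (a :: m) F z := fun z => rfl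
    rw [e1, e1]
    ring

/-- the first term: the operator applied to `c z * f l` -/
theorem P_cf (l : List ℤ) (c : ℤ → ℚ) (f : List ℤ → ℚ) (z : ℤ) (hc : ∀ j : ℕ, j < l.length → c (z + j) = 0) :
    P l (fun z l => c z * f l) z = c (z + l.length) * Dl l f := by
  rw [P_eq_sum, Finset.sum_range_succ, Finset.sum_eq_zero, zero_add]
  · have h : ∀ (l : List ℤ) (f : List ℤ → ℚ) (a : ℚ), ES l l.length (fun m => a * f m) = a * Dl l f := by
      intro l
      induction l with
      | nil => intro f a; simp [ES, Dl]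
      | cons x l ih =>
        intro f a
        simp only [ES, Dl, List.length_cons]
        rw [ES_big l (l.length + 1) _ (by omega), zero_add]
        have : (fun m => a * f ((x + 1) :: m) - a * f (x :: m)) =
            fun m => a * (f ((x + 1) :: m) - f (x :: m)) := by funext m; ring
        rw [this, ih]
    exact h l f _
  · intro j hj
    rw [Finset.mem_range] at hj
    have : (fun l => c (z + j) * f l) = fun _ => (0 : ℚ) := by
      funext l
      rw [hc j hj, zero_mul]
    rw [this, ES_zero']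

theorem Dl_eq_Gf (l : List ℤ) : ∀ f : List ℤ → ℚ, Dl l f = Gf (-1) 1 l f := by
  induction l with
  | nil => intro f; rfl
  | cons x l ih =>
    intro f
    simp only [Dl, Gf]
    rw [ih]
    congr 1
    funext m
    ring

end Pool.Agent.Q258.MT
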