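import Pool.Agent.Q258.MT.Alg0

set_option autoImplicit false

/-!
The algebra of words modulo the relations which hold for all antisymmetric functions.
-/

noncomputable section

namespace Pool.Agent.Q258.MT

open MulOpposite

/-- the operator of a first letter -/
def opL (z : ℤ) : Module.End ℚ (List ℤ → ℚ) where
  toFun f := fun l => P l (fun z l => f (z :: l)) z
  map_add' f g := by
    funext l
    exact P_add l (fun z l => f (z :: l)) (fun z l => g (z :: l)) z
  map_smul' c f := by
    funext l
    exact P_mul l c (fun z l => f (z :: l)) z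

/-- the operator of a last letter -/
def opR (z : ℤ) : Module.End ℚ (List ℤ → ℚ) where
  toFun f := fun l => P2 l (fun z l => f (l ++ [z])) z
  map_add' f g := by
    funext l
    exact P2_add l (fun z l => f (l ++ [z])) (fun z l => g (l ++ [z])) z
  map_smul' c f := by
    funext l
    exact P2_mul l c (fun z l => f (l ++ [z])) z

theorem opL_apply (z : ℤ) (f : List ℤ → ℚ) (l : List ℤ) :
    opL z f l = P l (fun z l => f (z :: l)) z := rfl

theorem opR_apply (z : ℤ) (f : List ℤ → ℚ) (l : List ℤ) :
    opR z f l = P2 l (fun z l => f (l ++ [z])) z := rfl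

theorem opL_anti {f : List ℤ → ℚ} (hf : Anti f) (z : ℤ) : Anti (opL z f) :=
  Anti.P (fun z => hf.cons z) z

theorem opR_anti {f : List ℤ → ℚ} (hf : Anti f) (z : ℤ) : Anti (opR z f) :=
  Anti.P2 (fun z => hf.snoc z) z

theorem op_comm (x z : ℤ) (f : List ℤ → ℚ) : opR x (opL z f) = opL z (opR x f) := by
  funext l
  rw [opR_apply, opL_apply]
  simp only [opL_apply, opR_apply, P_snoc, P2]
  rw [P2_P_comm l (fun z y l => f (z :: (l ++ [y])) - f ((z + 1) :: (l ++ [y])) +
      f ((z + 1) :: (l ++ [y + 1])))]
  rfl

abbrev FA := FreeAlgebra ℚ ℤ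

/-- the right action of words on functions -/
def rhoL : FA →ₐ[ℚ] (Module.End ℚ (List ℤ → ℚ))ᵐᵒᵖ := FreeAlgebra.lift ℚ (fun z => op (opL z))

/-- the left action of words on functions -/
def rhoR : FA →ₐ[ℚ] Module.End ℚ (List ℤ → ℚ) := FreeAlgebra.lift ℚ opR

/-- evaluation -/
def ev (f : List ℤ → ℚ) (a : FA) : ℚ := (unop (rhoL a)) f []

theorem ev_add (f : List ℤ → ℚ) (a b : FA) : ev f (a + b) = ev f a + ev f b := by
  simp [ev]

theorem ev_smul (f : List ℤ → ℚ) (c : ℚ) (a : FA) : ev f (c • a) = c * ev f a := by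
  simp [ev]

theorem ev_mul (f : List ℤ → ℚ) (a b : FA) : ev f (a * b) = ev (unop (rhoL a) f) b := by
  simp [ev]

theorem rhoL_anti (a : FA) : ∀ {f : List ℤ → ℚ}, Anti f → Anti (unop (rhoL a) f) := by
  induction a using FreeAlgebra.induction with
  | grade0 r =>
    intro f hf u x y v
    have h := hf u x y v
    simp only [AlgHom.commutes, MulOpposite.algebraMap_apply, unop_op, Module.algebraMap_end_apply,
      Pi.smul_apply, smul_eq_mul]
    rw [h]; ring
  | grade1 z =>
    intro f hf
    have : unop (rhoL (FreeAlgebra.ι ℚ z)) = opL z := by simp [rhoL]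
    rw [this]
    exact opL_anti hf z
  | mul a b iha ihb =>
    intro f hf
    rw [map_mul, unop_mul, Module.End.mul_apply]
    exact ihb (iha hf)
  | add a b iha ihb =>
    intro f hf u x y v
    rw [map_add, unop_add, LinearMap.add_apply]
    have h1 := iha hf u x y v
    have h2 := ihb hf u x y v
    simp only [Pi.add_apply]
    rw [h1, h2]; ring

theorem rhoR_anti (a : FA) : ∀ {f : List ℤ → ℚ}, Anti f → Anti (rhoR a f) := by
  induction a using FreeAlgebra.induction with
  | grade0 r =>
    intro f hf u x y v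
    have h := hf u x y v
    simp only [AlgHom.commutes, Module.algebraMap_end_apply, Pi.smul_apply, smul_eq_mul]
    rw [h]; ring
  | grade1 z =>
    intro f hf
    have : rhoR (FreeAlgebra.ι ℚ z) = opR z := by simp [rhoR]
    rw [this]
    exact opR_anti hf z
  | mul a b iha ihb =>
    intro f hf
    rw [map_mul, Module.End.mul_apply]
    exact iha (ihb hf)
  | add a b iha ihb =>
    intro f hf u x y v
    rw [map_add, LinearMap.add_apply]
    have h1 := iha hf u x y v
    have h2 := ihb hf u x y v
    simp only [Pi.add_apply]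
    rw [h1, h2]; ring

theorem rho_comm (x : ℤ) (a : FA) : ∀ f : List ℤ → ℚ,
    opR x (unop (rhoL a) f) = unop (rhoL a) (opR x f) := by
  induction a using FreeAlgebra.induction with
  | grade0 r =>
    intro f
    simp only [AlgHom.commutes, MulOpposite.algebraMap_apply, unop_op, Module.algebraMap_end_apply,
      map_smul]
  | grade1 z =>
    intro f
    have : unop (rhoL (FreeAlgebra.ι ℚ z)) = opL z := by simp [rhoL]
    rw [this]
    exact op_comm x z f
  | mul a b iha ihb =>
    intro f
    rw [map_mul, unop_mul, Module.End.mul_apply, Module.End.mul_apply, ihb, iha]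
  | add a b iha ihb =>
    intro f
    rw [map_add, unop_add, LinearMap.add_apply, LinearMap.add_apply, map_add, iha, ihb]

theorem ev_mul' (b : FA) : ∀ (f : List ℤ → ℚ) (a : FA), ev f (a * b) = ev (rhoR b f) a := by
  induction b using FreeAlgebra.induction with
  | grade0 r =>
    intro f a
    rw [AlgHom.commutes, Module.algebraMap_end_apply]
    have h1 : a * algebraMap ℚ FA r = r • a := by
      rw [Algebra.smul_def, Algebra.commutes]
    rw [h1, ev_smul]
    simp [ev]
  | grade1 z =>
    intro f a
    have h1 : rhoR (FreeAlgebra.ι ℚ z) = opR z := by simp [rhoR]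
    have h2 : unop (rhoL (FreeAlgebra.ι ℚ z)) = opL z := by simp [rhoL]
    rw [h1, ev_mul]
    unfold ev
    rw [h2, ← rho_comm]
    rfl
  | mul b c ihb ihc =>
    intro f a
    rw [← mul_assoc, ihc, ihb, map_mul, Module.End.mul_apply]
  | add b c ihb ihc =>
    intro f a
    rw [mul_add, ev_add, ihb, ihc, map_add, LinearMap.add_apply]
    simp [ev]

/-- two elements are related if they have the same value at all antisymmetric functions -/
def conA : RingCon FA where
  r a b := ∀ f : List ℤ → ℚ, Anti f → ev f a = ev f b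
  iseqv := ⟨fun _ _ _ => rfl, fun h f hf => (h f hf).symm, fun h h' f hf => (h f hf).trans (h' f hf)⟩
  add' := by
    intro a b c d h h' f hf
    rw [ev_add, ev_add, h f hf, h' f hf]
  mul' := by
    intro a b c d h h' f hf
    rw [ev_mul, h' _ (rhoL_anti a hf), ← ev_mul, ev_mul', h _ (rhoR_anti d hf), ← ev_mul']

/-- the algebra of words -/
def WA : Type := conA.Quotient

instance : Ring WA := inferInstanceAs (Ring conA.Quotient)
instance : Algebra ℚ WA := inferInstanceAs (Algebra ℚ conA.Quotient)

/-- the class of an element -/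
def mkA (a : FA) : WA := (a : conA.Quotient)

theorem mkA_surj : Function.Surjective mkA := Quotient.mk''_surjective

theorem mkA_eq {a b : FA} : mkA a = mkA b ↔ ∀ f : List ℤ → ℚ, Anti f → ev f a = ev f b := by
  unfold mkA
  exact RingCon.eq conA

theorem mkA_add (a b : FA) : mkA (a + b) = mkA a + mkA b := rfl
theorem mkA_mul (a b : FA) : mkA (a * b) = mkA a * mkA b := rfl
theorem mkA_one : mkA 1 = 1 := rfl
theorem mkA_smul (c : ℚ) (a : FA) : mkA (c • a) = c • mkA a := rfl

/-- evaluation on the algebra of words -/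
def evq (f : List ℤ → ℚ) (hf : Anti f) : WA →ₗ[ℚ] ℚ where
  toFun := Quotient.lift (ev f) (fun _ _ h => h f hf)
  map_add' a b := by
    obtain ⟨a, rfl⟩ := mkA_surj a
    obtain ⟨b, rfl⟩ := mkA_surj b
    exact ev_add f a b
  map_smul' c a := by
    obtain ⟨a, rfl⟩ := mkA_surj a
    exact ev_smul f c a

theorem evq_mk (f : List ℤ → ℚ) (hf : Anti f) (a : FA) : evq f hf (mkA a) = ev f a := rfl

theorem evq_ext {a b : WA} (h : ∀ (f : List ℤ → ℚ) (hf : Anti f), evq f hf a = evq f hf b) : a = b := by
  obtain ⟨a, rfl⟩ := mkA_surj a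
  obtain ⟨b, rfl⟩ := mkA_surj b
  exact mkA_eq.mpr h

/-- the letters -/
def X (z : ℤ) : WA := mkA (FreeAlgebra.ι ℚ z)

/-- the words -/
def W : List ℤ → WA
  | [] => 1
  | z :: w => X z * W w

theorem W_nil : W [] = 1 := rfl
theorem W_cons (z : ℤ) (w : List ℤ) : W (z :: w) = X z * W w := rfl

theorem W_append (u v : List ℤ) : W (u ++ v) = W u * W v := by
  induction u with
  | nil => rw [List.nil_append, W_nil, one_mul]
  | cons z u ih => rw [List.cons_append, W_cons, W_cons, ih, mul_assoc]

theorem W_single (z : ℤ) : W [z] = X z := by rw [W_cons, W_nil, mul_one]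

theorem evq_X_mul (f : List ℤ → ℚ) (hf : Anti f) (z : ℤ) (a : WA) :
    evq f hf (X z * a) = evq (opL z f) (opL_anti hf z) a := by
  obtain ⟨a, rfl⟩ := mkA_surj a
  have h2 : unop (rhoL (FreeAlgebra.ι ℚ z)) = opL z := by simp [rhoL]
  unfold X
  rw [← mkA_mul, evq_mk, evq_mk, ev_mul, h2]

theorem evq_mul_X (f : List ℤ → ℚ) (hf : Anti f) (z : ℤ) (a : WA) :
    evq f hf (a * X z) = evq (opR z f) (opR_anti hf z) a := by
  obtain ⟨a, rfl⟩ := mkA_surj a
  have h1 : rhoR (FreeAlgebra.ι ℚ z) = opR z := by simp [rhoR]
  unfold X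
  rw [← mkA_mul, evq_mk, evq_mk, ev_mul', h1]

theorem evq_W (w : List ℤ) : ∀ (f : List ℤ → ℚ) (hf : Anti f), evq f hf (W w) = T w f := by
  induction w with
  | nil =>
    intro f hf
    rw [W_nil, ← mkA_one, evq_mk]
    simp [ev, T]
  | cons z w ih =>
    intro f hf
    rw [W_cons, evq_X_mul, ih]
    rfl

theorem span_W : Submodule.span ℚ (Set.range W) = ⊤ := by
  rw [eq_top_iff]
  rintro a -
  obtain ⟨a, rfl⟩ := mkA_surj a
  induction a using FreeAlgebra.induction with
  | grade0 r =>
    have : mkA (algebraMap ℚ FA r) = r • W [] := by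
      rw [W_nil, ← mkA_one, ← mkA_smul, Algebra.algebraMap_eq_smul_one]
    rw [this]
    exact Submodule.smul_mem _ _ (Submodule.subset_span ⟨[], rfl⟩)
  | grade1 z =>
    exact Submodule.subset_span ⟨[z], W_single z⟩
  | mul a b iha ihb =>
    rw [mkA_mul]
    have key : ∀ x ∈ Submodule.span ℚ (Set.range W), ∀ y ∈ Submodule.span ℚ (Set.range W),
        x * y ∈ Submodule.span ℚ (Set.range W) := by
      intro x hx y hy
      induction hx using Submodule.span_induction with
      | mem x hx =>
        obtain ⟨u, rfl⟩ := hx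
        induction hy using Submodule.span_induction with
        | mem y hy =>
          obtain ⟨v, rfl⟩ := hy
          rw [← W_append]
          exact Submodule.subset_span ⟨_, rfl⟩
        | zero => rw [mul_zero]; exact Submodule.zero_mem _
        | add y z _ _ h1 h2 => rw [mul_add]; exact Submodule.add_mem _ h1 h2
        | smul c y _ h => rw [mul_smul_comm]; exact Submodule.smul_mem _ _ h
      | zero => rw [zero_mul]; exact Submodule.zero_mem _
      | add y z _ _ h1 h2 => rw [add_mul]; exact Submodule.add_mem _ h1 h2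
      | smul c y _ h => rw [smul_mul_assoc]; exact Submodule.smul_mem _ _ h
    exact key _ iha _ ihb
  | add a b iha ihb =>
    rw [mkA_add]
    exact Submodule.add_mem _ iha ihb

/-- linear maps agreeing on the words agree -/
theorem hom_ext_W {M : Type*} [AddCommMonoid M] [Module ℚ M] {f g : WA →ₗ[ℚ] M} (h : ∀ w, f (W w) = g (W w)) :
    f = g := by
  apply LinearMap.ext_on_range span_W
  exact h

theorem W_induction {p : WA → Prop} (h1 : ∀ w, p (W w)) (h2 : ∀ a b, p a → p b → p (a + b))
    (h3 : ∀ (c : ℚ) a, p a → p (c • a)) (a : WA) : p a := by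
  have ha : a ∈ Submodule.span ℚ (Set.range W) := by rw [span_W]; trivial
  induction ha using Submodule.span_induction with
  | mem x hx => obtain ⟨w, rfl⟩ := hx; exact h1 w
  | zero =>
    have := h3 0 _ (h1 [])
    rwa [zero_smul] at this
  | add x y _ _ hx hy => exact h2 _ _ hx hy
  | smul c x _ hx => exact h3 c x hx

/-- a map on words which is dual to a map on antisymmetric functions extends to a linear map -/
theorem lin_exists (φ : List ℤ → WA) (ψ : (List ℤ → ℚ) → (List ℤ → ℚ))
    (hψ : ∀ f, Anti f → Anti (ψ f))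
    (h : ∀ (f : List ℤ → ℚ) (hf : Anti f) (w : List ℤ), evq f hf (φ w) = T w (ψ f)) :
    ∃ Φ : WA →ₗ[ℚ] WA, (∀ w, Φ (W w) = φ w) ∧
      ∀ (f : List ℤ → ℚ) (hf : Anti f) (a : WA), evq f hf (Φ a) = evq (ψ f) (hψ f hf) a := by
  classical
  let A : (List ℤ →₀ ℚ) →ₗ[ℚ] WA := Finsupp.linearCombination ℚ W
  let B : (List ℤ →₀ ℚ) →ₗ[ℚ] WA := Finsupp.linearCombination ℚ φ
  have hA : Function.Surjective A := by
    rw [← LinearMap.range_eq_top, Finsupp.range_linearCombination, span_W]
  have hker : LinearMap.ker A ≤ LinearMap.ker B := by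
    intro x hx
    rw [LinearMap.mem_ker] at hx ⊢
    apply evq_ext
    intro f hf
    have h1 : evq f hf (B x) = evq (ψ f) (hψ f hf) (A x) := by
      simp only [A, B, Finsupp.linearCombination_apply, Finsupp.sum, map_sum, map_smul, evq_W, h]
    rw [h1, hx, map_zero, map_zero]
  let s := Function.surjInv hA
  have hs : ∀ a, A (s a) = a := Function.surjInv_eq hA
  have hB : ∀ x y, A x = A y → B x = B y := by
    intro x y hxy
    have : x - y ∈ LinearMap.ker A := by rw [LinearMap.mem_ker, map_sub, hxy, sub_self]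
    have := hker this
    rw [LinearMap.mem_ker, map_sub, sub_eq_zero] at this
    exact this
  let Φ : WA →ₗ[ℚ] WA :=
    { toFun := fun a => B (s a)
      map_add' := by
        intro a b
        rw [← map_add]
        apply hB
        rw [map_add, hs, hs, hs]
      map_smul' := by
        intro c a
        rw [RingHom.id_apply, ← map_smul]
        apply hB
        rw [map_smul, hs, hs] }
  have hΦ : ∀ w, Φ (W w) = φ w := by
    intro w
    have h1 : B (s (W w)) = B (Finsupp.single w 1) := by
      apply hB
      rw [hs]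
      simp [A]
    have h2 : B (Finsupp.single w 1) = φ w := by simp [B]
    exact h1.trans h2
  refine ⟨Φ, hΦ, fun f hf a => ?_⟩
  induction a using W_induction with
  | h1 w => rw [hΦ, h, evq_W]
  | h2 a b ha hb => rw [map_add, map_add, map_add, ha, hb]
  | h3 c a ha => rw [map_smul, map_smul, map_smul, ha]

end Pool.Agent.Q258.MT
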