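import Pool.Agent.Q258.MT.Alg9

set_option autoImplicit false

/-!
Products of squares: `X_{2n}^2 ... X_2^2` and the rows above it.
-/

noncomputable section

namespace Pool.Agent.Q258.MT

/-- the product `a_{n-1}^2 ... a_0^2` with `a_j = C^j X_0` -/
def Pn : ℕ → WA
  | 0 => 1
  | n + 1 => C (Pn n) * (X 0 * X 0)

/-- the product `X_{2n-2}^2 ... X_0^2` -/
def Qn : ℕ → WA
  | 0 => 1
  | n + 1 => L (L (Qn n)) * (X 0 * X 0)

theorem LL_Z : L (L (X 0 * X 0)) = X (0 + 1 + 1) * X (0 + 1 + 1) := by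
  rw [map_mul, map_mul, L_X, L_X]

theorem C_Pn (n : ℕ) : C (Pn n) * (X 0 * X 0) = L (L (Pn n)) * (X 0 * X 0) := by
  induction n with
  | zero => rw [Pn, map_one, map_one, map_one]
  | succ n ih =>
    have h1 : C (Pn (n + 1)) = L (L (C (Pn n))) * C (X 0 * X 0) := by
      rw [Pn, ih, map_mul, C_L, C_L]
    have h2 : C (X 0 * X 0) * (X 0 * X 0) = L (L (X 0 * X 0)) * (X 0 * X 0) := by
      rw [map_mul, locA, LL_Z]
    rw [h1, mul_assoc, h2, ← mul_assoc, ← map_mul, ← map_mul]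
    rw [← Pn]

theorem Pn_eq_Qn (n : ℕ) : Pn n = Qn n := by
  induction n with
  | zero => rfl
  | succ n ih => rw [Pn, C_Pn, ih, Qn]

/-- `C^n (X_0^2)` -/
def zc : ℕ → WA
  | 0 => X 0 * X 0
  | n + 1 => C (zc n)

theorem Pn_left (n : ℕ) : Pn (n + 1) = zc n * Pn n := by
  induction n with
  | zero =>
    show C 1 * (X 0 * X 0) = X 0 * X 0 * 1
    rw [map_one, one_mul, mul_one]
  | succ n ih => rw [Pn, ih, map_mul, mul_assoc, ← Pn, ← ih, zc]

theorem zc_Vh (n : ℕ) : zc (n + 1) * Vh (zc n) = zc (n + 1) * zc n := by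
  induction n with
  | zero =>
    show C (X 0 * X 0) * Vh (X 0 * X 0) = C (X 0 * X 0) * (X 0 * X 0)
    rw [map_mul, map_mul, locB]
  | succ n ih =>
    show C (zc (n + 1)) * Vh (C (zc n)) = C (zc (n + 1)) * C (zc n)
    rw [← C_Vh, ← map_mul, ih, map_mul]

theorem zc_Vh_Pn (n : ℕ) : zc n * Vh (Pn n) = zc n * Pn n := by
  induction n with
  | zero => rw [Pn, map_one]
  | succ n ih =>
    rw [Pn_left, map_mul, ← mul_assoc, zc_Vh, mul_assoc, ih]

/-- `Vh^n X_0` -/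
def vp : ℕ → WA
  | 0 => X 0
  | n + 1 => Vh (vp n)

theorem Pn_vp (n : ℕ) : Pn (n + 1) * vp n = 0 := by
  induction n with
  | zero =>
    show C 1 * (X 0 * X 0) * X 0 = 0
    rw [map_one, one_mul, cube]
  | succ n ih =>
    rw [Pn_left (n + 1), ← zc_Vh_Pn, vp, mul_assoc, ← map_mul, ih, map_zero, mul_zero]

/-- the word `2n, 2n, ..., 2, 2` -/
def Ew : ℕ → List ℤ
  | 0 => []
  | n + 1 => (2 * (n + 1 : ℕ) : ℤ) :: (2 * (n + 1 : ℕ) : ℤ) :: Ew n

/-- the element `2n, 2n, ..., 2, 2` -/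
def En (n : ℕ) : WA := W (Ew n)

theorem En_succ (n : ℕ) : En (n + 1) = X (2 * (n + 1 : ℕ)) * X (2 * (n + 1 : ℕ)) * En n := by
  unfold En
  rw [Ew, W_cons, W_cons, mul_assoc]

theorem Qn_left (n : ℕ) : Qn (n + 1) = X (2 * n) * X (2 * n) * Qn n := by
  induction n with
  | zero =>
    show L (L 1) * (X 0 * X 0) = X (2 * ((0 : ℕ) : ℤ)) * X (2 * ((0 : ℕ) : ℤ)) * 1
    rw [map_one, map_one, one_mul, mul_one]
    norm_num
  | succ n ih =>
    have e : (2 * (n : ℤ)) + 1 + 1 = 2 * ((n + 1 : ℕ) : ℤ) := by push_cast; ring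
    show L (L (Qn (n + 1))) * (X 0 * X 0) = X (2 * ((n + 1 : ℕ) : ℤ)) * X (2 * ((n + 1 : ℕ) : ℤ)) *
      (L (L (Qn n)) * (X 0 * X 0))
    rw [ih, map_mul, map_mul, map_mul, map_mul, L_X, L_X, e, mul_assoc]

theorem En_eq (n : ℕ) : En n = L (L (Qn n)) := by
  induction n with
  | zero => rw [Qn, map_one, map_one]; rfl
  | succ n ih =>
    have e : (2 * (n : ℤ)) + 1 + 1 = 2 * ((n + 1 : ℕ) : ℤ) := by push_cast; ring
    rw [Qn_left, map_mul, map_mul, map_mul, map_mul, L_X, L_X, e, ← ih, En_succ]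

theorem Vh_eq (a : WA) : Vh a = M' (L (L a)) := by
  rw [M'_L]; rfl

theorem M'_L' (a : WA) : M' (L a) = L (M' a) := (GA_GB_comm _ _ _ _ a).symm

theorem M'_L_it (k : ℕ) (a : WA) : M'^[k] (L a) = L (M'^[k] a) := by
  induction k generalizing a with
  | zero => rfl
  | succ k ih => rw [Function.iterate_succ_apply, M'_L', ih, Function.iterate_succ_apply]

theorem vp_eq (k : ℕ) : L (L (vp k)) = M'^[k] (X (2 * (k + 1 : ℕ))) := by
  induction k with
  | zero =>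
    rw [vp, L_X, L_X]
    norm_num
  | succ k ih =>
    rw [vp, Vh_eq, ← M'_L', ← M'_L', ih, Function.iterate_succ_apply']
    congr 1
    rw [← M'_L_it, ← M'_L_it, L_X, L_X]
    congr 2

theorem En_lam (n : ℕ) : En (n + 1) * M'^[n] (X (2 * (n + 1 : ℕ))) = 0 := by
  rw [En_eq, ← vp_eq, ← map_mul, ← map_mul, ← Pn_eq_Qn, Pn_vp, map_zero, map_zero]

end Pool.Agent.Q258.MT
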