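import Pool.Agent.Q258.MT.Alg10

set_option autoImplicit false

/-!
The rows above `2n, 2n, ..., 2, 2`, and the reversed row.
-/

noncomputable section

namespace Pool.Agent.Q258.MT

theorem Av_d_V {a m n : ℤ} {x : WA} (hx : x ∈ V a m n) (hn : 0 < n) : Av (d x) = Av x := by
  induction hx using Submodule.span_induction with
  | mem x hx =>
    obtain ⟨w, hw, -, rfl⟩ := hx
    apply Av_d_W
    rintro rfl
    simp at hw
    omega
  | zero => simp
  | add y z _ _ h1 h2 => rw [map_add, map_add, map_add, h1, h2]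
  | smul c y _ h => rw [map_smul, map_smul, map_smul, h]

theorem Ew_length (n : ℕ) : (Ew n).length = 2 * n := by
  induction n with
  | zero => rfl
  | succ n ih => rw [Ew, List.length_cons, List.length_cons, ih]; ring

theorem Ew_mem (n : ℕ) : ∀ z ∈ Ew n, 2 ≤ z ∧ z ≤ 2 * n := by
  induction n with
  | zero => intro z hz; simp [Ew] at hz
  | succ n ih =>
    intro z hz
    rw [Ew, List.mem_cons, List.mem_cons] at hz
    rcases hz with rfl | rfl | hz
    · push_cast; omega
    · push_cast; omega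
    · have := ih z hz
      push_cast; omega

theorem En_mem (n : ℕ) : En n ∈ V 2 (2 * n) (2 * n) := by
  have h := V_W (a := 2) (m := 2 * n) (Ew n) (Ew_mem n)
  rw [Ew_length] at h
  exact V_cast h (by push_cast; ring)

theorem sq_inj {a m n : ℤ} {x : WA} (hx : x ∈ V a (m - 1) n) (h : X m * X m * x = 0) : x = 0 := by
  have h1 := (DI_XX m).mul (DI_lt hx (by omega : m - 1 < m))
  rw [h, mul_zero, add_zero] at h1
  have h2 := h1.unique (DI.zero m)
  have h3 := congrArg d h2
  rw [d_mul_M, d_X, one_mul, map_zero] at h3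
  exact Ls_inj (h3.trans (map_zero Ls).symm)

theorem DI_lam (m : ℤ) (k : ℕ) : DI m (M'^[k] (X m)) 1 := by
  induction k with
  | zero => exact DI_X_self m
  | succ k ih =>
    rw [Function.iterate_succ_apply']
    have := ih.M'
    rwa [map_one] at this

theorem lam_mem (m : ℤ) (k : ℕ) : M'^[k] (X m) ∈ V (m - k) m 1 := by
  induction k with
  | zero => exact V_X (by push_cast; omega) le_rfl
  | succ k ih =>
    rw [Function.iterate_succ_apply']
    have := V_M' ih
    have e : m - (k : ℤ) - 1 = m - ((k + 1 : ℕ) : ℤ) := by push_cast; ring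
    rwa [e] at this

/-- **the row above `2n+2, 2n+2, ..., 2, 2`** -/
theorem d_En (n : ℕ) : d (En (n + 1)) = En n * M'^[n] (X (2 * (n + 1 : ℕ))) := by
  rw [← sub_eq_zero]
  set m : ℤ := 2 * ((n + 1 : ℕ) : ℤ) with hm
  have hmn : m = 2 * (n : ℤ) + 2 := by rw [hm]; push_cast; ring
  have hE := En_mem n
  have hlam : M'^[n] (X m) ∈ V 2 m 1 := V_mono (by omega) le_rfl (lam_mem m n)
  -- the operator of the largest letter
  have k1 : DI m (En (n + 1)) (X m * M (En n)) := by
    have h1 := (DI_XX m).mul (DI_lt hE (by omega : 2 * (n : ℤ) < m))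
    rw [mul_zero, add_zero, ← En_succ] at h1
    exact h1
  have k2 := k1.d
  rw [d_mul_M, d_X, one_mul, Ls_eq] at k2
  have hL : L (En n) ∈ V (2 + 1) (2 * n + 1) (2 * (n : ℕ)) := V_L hE
  rw [Sg_V_even hL] at k2
  have k3 := (DI_lt hE (by omega : 2 * (n : ℤ) < m)).mul (DI_lam m n)
  rw [zero_mul, zero_add, mul_one] at k3
  have k4 := k2.sub k3
  rw [sub_self] at k4
  have v : d (En (n + 1)) - En n * M'^[n] (X m) ∈ V 2 m (2 * n + 1) := by
    refine Submodule.sub_mem _ ?_ ?_
    · have h1 := V_d (En_mem (n + 1))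
      rw [← hm] at h1
      exact V_cast h1 (by omega)
    · exact V_mul (V_mono le_rfl (by omega) hE) hlam
  have v2 := DI_kernel v k4
  apply sq_inj v2
  -- multiplication by the square of the largest letter
  have c1 : X m * X m * d (En (n + 1)) = 0 := by
    rw [En_succ, ← hm]
    have h1 : X m * X m * En n = X m * X m * En n := rfl
    rw [d_left, sgm_self]
    have e : X m * X m * (X m * d (X m * En n) - X m * X m * d (En n)) =
        X m * X m * X m * d (X m * En n) - X m * X m * X m * X m * d (En n) := by noncomm_ring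
    rw [e, cube, zero_mul, zero_mul, zero_mul, sub_zero]
  have c2 : X m * X m * (En n * M'^[n] (X m)) = 0 := by
    rw [← mul_assoc]
    have := En_lam n
    rw [En_succ, ← hm] at this
    exact this
  rw [mul_sub, c1, c2, sub_zero]

theorem d_mul_M' (a b : WA) : d (a * M' b) = d a * b := by
  have h1 : M' b = M (Sg (Li b)) := by
    have h2 : M' b = M' (L (Li b)) := by rw [L_Li]
    rw [h2, M'_L, Sg_M]
  rw [h1, d_mul_M, Ls_eq, ← Sg_L, L_Li, Sg_Sg]

/-- the list `2j + 2, 2j + 4, ..., 2j + 2k` -/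
def evl : ℕ → ℕ → List ℤ
  | _, 0 => []
  | j, k + 1 => (2 * (j + 1 : ℕ) : ℤ) :: evl (j + 1) k

theorem evl_length (k : ℕ) : ∀ j : ℕ, (evl j k).length = k := by
  induction k with
  | zero => intro j; rfl
  | succ k ih => intro j; rw [evl, List.length_cons, ih]

/-- the rows between `2n, 2n, ..., 2, 2` and `2, 4, ..., 2n` -/
def Kc (j k : ℕ) : WA := En j * M'^[j] (W (evl j k))

theorem d_Kc (j k : ℕ) : d (Kc (j + 1) k) = Kc j (k + 1) := by
  unfold Kc
  rw [Function.iterate_succ_apply', d_mul_M', d_En, mul_assoc, ← iterate_map_mul, ← W_cons]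
  rfl

theorem M'_it_mem {a m n : ℤ} {x : WA} (hx : x ∈ V a m n) (k : ℕ) : M'^[k] x ∈ V (a - k) m n := by
  induction k with
  | zero => simpa using hx
  | succ k ih =>
    rw [Function.iterate_succ_apply']
    have := V_M' ih
    have e : a - (k : ℤ) - 1 = a - ((k + 1 : ℕ) : ℤ) := by push_cast; ring
    rwa [e] at this

theorem evl_mem (k : ℕ) : ∀ (j : ℕ), ∀ z ∈ evl j k, 2 * (j : ℤ) ≤ z ∧ z ≤ 2 * (j + k : ℕ) := by
  induction k with
  | zero => intro j z hz; simp [evl] at hz
  | succ k ih =>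
    intro j z hz
    rw [evl, List.mem_cons] at hz
    rcases hz with rfl | hz
    · push_cast; omega
    · have := ih (j + 1) z hz
      push_cast at this ⊢
      omega

theorem Kc_mem (j k : ℕ) : Kc j k ∈ V (-j) (2 * (j + k : ℕ)) (2 * j + k) := by
  unfold Kc
  refine V_mul (V_mono (by omega) (by push_cast; omega) (En_mem j)) ?_
  have h := V_W (a := 2 * (j : ℤ)) (m := 2 * (j + k : ℕ)) (evl j k) (evl_mem k j)
  rw [evl_length] at h
  exact V_mono (by omega) le_rfl (M'_it_mem h j)

theorem Av_Kc (j : ℕ) : ∀ k : ℕ, Av (Kc j k) = Av (Kc 0 (j + k)) := by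
  induction j with
  | zero => intro k; rw [zero_add]
  | succ j ih =>
    intro k
    rw [← Av_d_V (Kc_mem (j + 1) k) (by push_cast; omega), d_Kc, ih]
    congr 2
    ring

/-- **the value at `2n, 2n, ..., 2, 2`** -/
theorem al_Ew (n : ℕ) : al (2 * n) (Ew n) = al n (evl 0 n) := by
  have h := Av_Kc n 0
  rw [add_zero] at h
  have e1 : Kc n 0 = W (Ew n) := by
    unfold Kc
    rw [evl, W_nil, iterate_map_one, mul_one]
    rfl
  have e2 : Kc 0 n = W (evl 0 n) := by
    unfold Kc
    show En 0 * W (evl 0 n) = _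
    show 1 * W (evl 0 n) = _
    rw [one_mul]
  rw [e1, e2, Av_W, Av_W, Ew_length, evl_length] at h
  exact h

/-- the list `n, n - 1, ..., 1` -/
def Rw : ℕ → List ℤ
  | 0 => []
  | n + 1 => ((n + 1 : ℕ) : ℤ) :: Rw n

theorem Rw_length (n : ℕ) : (Rw n).length = n := by
  induction n with
  | zero => rfl
  | succ n ih => rw [Rw, List.length_cons, ih]

theorem d_Rw (n : ℕ) : d (W (Rw (2 * n + 1))) = (-1 : ℚ) ^ n • En n := by
  induction n with
  | zero =>
    show d (W [((0 + 1 : ℕ) : ℤ)]) = _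
    rw [W_single, d_X, pow_zero, one_smul]
    rfl
  | succ n ih =>
    have e : 2 * (n + 1) + 1 = (2 * n + 1) + 1 + 1 := by ring
    rw [e, Rw, Rw, W_cons, W_cons, ← mul_assoc, d_left]
    have e2 : (((2 * n + 1) + 1 + 1 : ℕ) : ℤ) = ((2 * n + 1 + 1 : ℕ) : ℤ) + 1 := by push_cast; ring
    have e3 : ((2 * n + 1 + 1 : ℕ) : ℤ) = 2 * ((n + 1 : ℕ) : ℤ) := by push_cast; ring
    rw [e2, sgm_succ_left, sgm_self, sub_self, zero_mul, zero_sub, ih, e3, pow_succ, En_succ,
      mul_smul_comm, mul_neg_one, neg_smul]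

/-- **the value at the reversed row** -/
theorem al_Rw (n : ℕ) : al (2 * n + 1) (Rw (2 * n + 1)) = (-1) ^ n * al n (evl 0 n) := by
  have h1 : Av (d (W (Rw (2 * n + 1)))) = Av (W (Rw (2 * n + 1))) :=
    Av_d_W _ (by rw [Rw]; exact List.cons_ne_nil _ _)
  rw [d_Rw, map_smul, Av_W, Rw_length, smul_eq_mul] at h1
  have h2 : Av (En n) = al (2 * n) (Ew n) := by
    unfold En
    rw [Av_W, Ew_length]
  rw [h2, al_Ew] at h1
  exact h1.symm

end Pool.Agent.Q258.MT
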