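import Pool.Agent.Q258.MT.Alg1

set_option autoImplicit false

/-!
Homomorphisms of the algebra of words, its reflection, and its relations.
-/

noncomputable section

namespace Pool.Agent.Q258.MT

/-- the words with the letters replaced by `a z + b (z + 1)` -/
def gw (a b : ℚ) : List ℤ → WA
  | [] => 1
  | z :: w => (a • X z + b • X (z + 1)) * gw a b w

theorem gw_append (a b : ℚ) (u v : List ℤ) : gw a b (u ++ v) = gw a b u * gw a b v := by
  induction u with
  | nil => rw [List.nil_append, gw, one_mul]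
  | cons z u ih => rw [List.cons_append, gw, gw, ih, mul_assoc]

theorem evq_gw (a b : ℚ) (w : List ℤ) : ∀ (f : List ℤ → ℚ) (hf : Anti f),
    evq f hf (gw a b w) = Gf a b w (fun u => T u f) := by
  induction w with
  | nil =>
    intro f hf
    have := evq_W [] f hf
    rw [W_nil] at this
    rw [gw, this]
    rfl
  | cons z w ih =>
    intro f hf
    rw [gw, add_mul, map_add, smul_mul_assoc, smul_mul_assoc, map_smul, map_smul, evq_X_mul, evq_X_mul,
      ih, ih]
    simp only [Gf, smul_eq_mul, Gf_add, Gf_mul]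
    rfl

theorem GA_exists (a b : ℚ) : ∃ Φ : WA →ₐ[ℚ] WA, ∀ z, Φ (X z) = a • X z + b • X (z + 1) := by
  obtain ⟨Φ, h1, -⟩ := lin_exists (gw a b) (fun f l => Gf a b l f) (fun f hf => hf.Gf)
    (fun f hf w => by rw [evq_gw, T_Gf])
  have hone : Φ 1 = 1 := by rw [← W_nil, h1]; rfl
  have hmul : ∀ x y, Φ (x * y) = Φ x * Φ y := by
    intro x y
    induction x using W_induction with
    | h1 u =>
      induction y using W_induction with
      | h1 v => rw [← W_append, h1, h1, h1, gw_append]
      | h2 a b ha hb => rw [mul_add, map_add, map_add, mul_add, ha, hb]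
      | h3 c a ha => rw [mul_smul_comm, map_smul, map_smul, mul_smul_comm, ha]
    | h2 a b ha hb => rw [add_mul, map_add, map_add, add_mul, ha, hb]
    | h3 c a ha => rw [smul_mul_assoc, map_smul, map_smul, smul_mul_assoc, ha]
  refine ⟨AlgHom.ofLinearMap Φ hone hmul, fun z => ?_⟩
  have := h1 [z]
  rw [W_single] at this
  simp only [AlgHom.ofLinearMap_apply, this, gw, mul_one]

/-- the homomorphism `z ↦ a z + b (z + 1)` -/
def GA (a b : ℚ) : WA →ₐ[ℚ] WA := Classical.choose (GA_exists a b)

theorem GA_X (a b : ℚ) (z : ℤ) : GA a b (X z) = a • X z + b • X (z + 1) :=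
  Classical.choose_spec (GA_exists a b) z

theorem algHom_ext_X {B : Type*} [Semiring B] [Algebra ℚ B] {f g : WA →ₐ[ℚ] B} (h : ∀ z, f (X z) = g (X z)) :
    f = g := by
  have : f.toLinearMap = g.toLinearMap := by
    apply hom_ext_W
    intro w
    simp only [AlgHom.toLinearMap_apply]
    induction w with
    | nil => rw [W_nil, map_one, map_one]
    | cons z w ih => rw [W_cons, map_mul, map_mul, ih, h]
  ext a
  exact LinearMap.congr_fun this a

/-- translation -/
def L : WA →ₐ[ℚ] WA := GA 0 1
/-- the homomorphism `z ↦ z - (z + 1)` -/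
def M : WA →ₐ[ℚ] WA := GA 1 (-1)
/-- the homomorphism `z ↦ - (z + 1)` -/
def Ls : WA →ₐ[ℚ] WA := GA 0 (-1)
/-- the sign -/
def Sg : WA →ₐ[ℚ] WA := GA (-1) 0

theorem L_X (z : ℤ) : L (X z) = X (z + 1) := by unfold L; rw [GA_X, zero_smul, one_smul, zero_add]
theorem M_X (z : ℤ) : M (X z) = X z - X (z + 1) := by
  unfold M; rw [GA_X, one_smul, neg_smul, one_smul, sub_eq_add_neg]
theorem Ls_X (z : ℤ) : Ls (X z) = - X (z + 1) := by
  unfold Ls; rw [GA_X, zero_smul, zero_add, neg_smul, one_smul]
theorem Sg_X (z : ℤ) : Sg (X z) = - X z := by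
  unfold Sg; rw [GA_X, zero_smul, add_zero, neg_smul, one_smul]

theorem L_W (w : List ℤ) : L (W w) = W (w.map (· + 1)) := by
  induction w with
  | nil => rw [W_nil, map_one]; rfl
  | cons z w ih => rw [W_cons, map_mul, ih, L_X]; rfl

theorem Sg_W (w : List ℤ) : Sg (W w) = (-1 : ℚ) ^ w.length • W w := by
  induction w with
  | nil => simp [W_nil]
  | cons z w ih =>
    rw [W_cons, map_mul, ih, Sg_X, List.length_cons, pow_succ, mul_smul_comm, neg_mul, mul_smul,
      neg_one_smul]

theorem Ls_eq (a : WA) : Ls a = Sg (L a) := by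
  have : Ls = Sg.comp L := by
    apply algHom_ext_X
    intro z
    rw [AlgHom.comp_apply, L_X, Sg_X, Ls_X]
  rw [this]; rfl

theorem Sg_Sg (a : WA) : Sg (Sg a) = a := by
  have : Sg.comp Sg = AlgHom.id ℚ WA := by
    apply algHom_ext_X
    intro z
    rw [AlgHom.comp_apply, Sg_X, map_neg, Sg_X, neg_neg, AlgHom.id_apply]
  exact AlgHom.congr_fun this a

theorem GA_comm (a b c d : ℚ) (x : WA) : GA a b (GA c d x) = GA c d (GA a b x) := by
  have : (GA a b).comp (GA c d) = (GA c d).comp (GA a b) := by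
    apply algHom_ext_X
    intro z
    simp only [AlgHom.comp_apply, GA_X, map_add, map_smul]
    module
  exact AlgHom.congr_fun this x

theorem M_L (a : WA) : M (L a) = L (M a) := GA_comm _ _ _ _ a
theorem Ls_M (a : WA) : Ls (M a) = M (Ls a) := GA_comm _ _ _ _ a
theorem Sg_M (a : WA) : Sg (M a) = M (Sg a) := GA_comm _ _ _ _ a
theorem Sg_L (a : WA) : Sg (L a) = L (Sg a) := GA_comm _ _ _ _ a

/-- the reflection -/
theorem Rf_exists : ∃ Φ : WA →ₗ[ℚ] WA, ∀ w, Φ (W w) = W (rl 0 w) := by
  obtain ⟨Φ, h1, -⟩ := lin_exists (fun w => W (rl 0 w)) rf (fun f hf => hf.rf)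
    (fun f hf w => by rw [evq_W, T_rl])
  exact ⟨Φ, h1⟩

/-- the reflection -/
def Rf : WA →ₗ[ℚ] WA := Classical.choose Rf_exists

theorem Rf_W (w : List ℤ) : Rf (W w) = W (rl 0 w) := Classical.choose_spec Rf_exists w

theorem Rf_X (z : ℤ) : Rf (X z) = X (-z) := by
  rw [← W_single, Rf_W]
  simp [rl, W_single]

theorem Rf_one : Rf 1 = 1 := by
  rw [← W_nil, Rf_W]; rfl

theorem Rf_mul (a b : WA) : Rf (a * b) = Rf b * Rf a := by
  induction a using W_induction with
  | h1 u =>
    induction b using W_induction with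
    | h1 v =>
      rw [← W_append, Rf_W, Rf_W, Rf_W, ← W_append]
      simp [rl]
    | h2 a b ha hb => rw [mul_add, map_add, map_add, add_mul, ha, hb]
    | h3 c a ha => rw [mul_smul_comm, map_smul, map_smul, smul_mul_assoc, ha]
  | h2 a b ha hb => rw [add_mul, map_add, map_add, mul_add, ha, hb]
  | h3 c a ha => rw [smul_mul_assoc, map_smul, map_smul, mul_smul_comm, ha]

theorem Rf_Rf (a : WA) : Rf (Rf a) = a := by
  induction a using W_induction with
  | h1 u =>
    rw [Rf_W, Rf_W]
    congr 1
    simp only [rl, add_zero, List.map_reverse, List.reverse_reverse, List.map_map]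
    have : (fun x : ℤ => -x) ∘ (fun x => -x) = id := by funext x; simp
    rw [this, List.map_id]
  | h2 a b ha hb => rw [map_add, map_add, ha, hb]
  | h3 c a ha => rw [map_smul, map_smul, ha]

/-- the homomorphism `z ↦ a z + b (z - 1)` -/
def GB (a b : ℚ) : WA →ₐ[ℚ] WA :=
  AlgHom.ofLinearMap (Rf ∘ₗ (GA a b).toLinearMap ∘ₗ Rf)
    (by show Rf (GA a b (Rf 1)) = 1; rw [Rf_one, map_one, Rf_one])
    (fun x y => by
      show Rf (GA a b (Rf (x * y))) = Rf (GA a b (Rf x)) * Rf (GA a b (Rf y))
      rw [Rf_mul, map_mul, Rf_mul])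

theorem GB_eq (a b : ℚ) (x : WA) : GB a b x = Rf (GA a b (Rf x)) := rfl

theorem GB_X (a b : ℚ) (z : ℤ) : GB a b (X z) = a • X z + b • X (z - 1) := by
  rw [GB_eq, Rf_X, GA_X, map_add, map_smul, map_smul, Rf_X, Rf_X, neg_neg]
  congr 3
  ring

theorem Rf_GB (a b : ℚ) (x : WA) : Rf (GB a b x) = GA a b (Rf x) := by rw [GB_eq, Rf_Rf]
theorem Rf_GA' (a b : ℚ) (x : WA) : Rf (GA a b x) = GB a b (Rf x) := by rw [GB_eq, Rf_Rf]

theorem GA_GB_comm (a b c d : ℚ) (x : WA) : GA a b (GB c d x) = GB c d (GA a b x) := by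
  have : (GA a b).comp (GB c d) = (GB c d).comp (GA a b) := by
    apply algHom_ext_X
    intro z
    simp only [AlgHom.comp_apply, GA_X, GB_X, map_add, map_smul]
    have e1 : z - 1 + 1 = z := by ring
    have e2 : z + 1 - 1 = z := by ring
    rw [e1, e2]
    module
  exact AlgHom.congr_fun this x

/-- the inverse translation -/
def Li : WA →ₐ[ℚ] WA := GB 0 1
/-- the homomorphism `z ↦ z - (z - 1)` -/
def M' : WA →ₐ[ℚ] WA := GB 1 (-1)

theorem Li_X (z : ℤ) : Li (X z) = X (z - 1) := by unfold Li; rw [GB_X, zero_smul, one_smul, zero_add]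
theorem M'_X (z : ℤ) : M' (X z) = X z - X (z - 1) := by
  unfold M'; rw [GB_X, one_smul, neg_smul, one_smul]; exact (sub_eq_add_neg _ _).symm

theorem Rf_L (x : WA) : Rf (L x) = Li (Rf x) := Rf_GA' _ _ x
theorem Rf_Li (x : WA) : Rf (Li x) = L (Rf x) := Rf_GB _ _ x
theorem Rf_M (x : WA) : Rf (M x) = M' (Rf x) := Rf_GA' _ _ x
theorem Rf_M' (x : WA) : Rf (M' x) = M (Rf x) := Rf_GB _ _ x

theorem L_Li (a : WA) : L (Li a) = a := by
  have : L.comp Li = AlgHom.id ℚ WA := by
    apply algHom_ext_X
    intro z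
    rw [AlgHom.comp_apply, Li_X, L_X, sub_add_cancel, AlgHom.id_apply]
  exact AlgHom.congr_fun this a

theorem Li_L (a : WA) : Li (L a) = a := by
  have : Li.comp L = AlgHom.id ℚ WA := by
    apply algHom_ext_X
    intro z
    rw [AlgHom.comp_apply, L_X, Li_X, add_sub_cancel_right, AlgHom.id_apply]
  exact AlgHom.congr_fun this a

theorem L_inj : Function.Injective L := fun a b h => by rw [← Li_L a, h, Li_L]

/-- `M'` after a translation -/
theorem M'_L (a : WA) : M' (L a) = Sg (M a) := by
  have : M'.comp L = Sg.comp M := by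
    apply algHom_ext_X
    intro z
    rw [AlgHom.comp_apply, AlgHom.comp_apply, L_X, M'_X, M_X, map_sub, Sg_X, Sg_X, add_sub_cancel_right]
    abel
  exact AlgHom.congr_fun this a

theorem Ls_inj : Function.Injective Ls := fun a b h => by
  rw [Ls_eq, Ls_eq] at h
  have := congrArg Sg h
  rw [Sg_Sg, Sg_Sg] at this
  exact L_inj this

/-- `M` is injective -/
theorem M_inj : Function.Injective M := by
  intro a b h
  apply evq_ext
  intro f hf
  -- the dual of `M` is `± Dl`, with the right inverse `S`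
  have hs : Anti (fun r => (-1) ^ r.length * f r) := by
    intro u x y v
    have e : (u ++ x :: y :: v).length = (u ++ y :: x :: v).length := by simp
    beta_reduce
    rw [e, hf u x y v]; ring
  have key : ∀ (a : WA), evq (fun l => Gf 1 (-1) l (fun m => S m (fun r => (-1) ^ r.length * f r)))
      (Anti.Gf (Anti.S hs)) a = evq f hf a := by
    intro a
    induction a using W_induction with
    | h1 w =>
      rw [evq_W, evq_W]
      congr 1
      funext l
      have h1 : ∀ (l : List ℤ) (g : List ℤ → ℚ), Gf 1 (-1) l g = (-1) ^ l.length * Dl l g := by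
        intro l
        induction l with
        | nil => intro g; simp [Gf, Dl]
        | cons x l ih =>
          intro g
          simp only [Gf, Dl, List.length_cons]
          rw [ih, pow_succ]
          have : (fun m => 1 * g (x :: m) + -1 * g ((x + 1) :: m)) =
              fun m => - (g ((x + 1) :: m) - g (x :: m)) := by funext m; ring
          rw [this, Dl_neg]
          ring
      rw [h1, Dl_S, ← mul_assoc, ← mul_pow]
      norm_num
    | h2 a b ha hb => rw [map_add, map_add, ha, hb]
    | h3 c a ha => rw [map_smul, map_smul, ha]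
  rw [← key, ← key]
  have hdual : ∀ (g : List ℤ → ℚ) (hg : Anti g) (a : WA),
      evq g hg (M a) = evq (fun l => Gf 1 (-1) l g) hg.Gf a := by
    intro g hg a
    induction a using W_induction with
    | h1 w =>
      rw [evq_W, T_Gf, ← evq_gw 1 (-1) w g hg]
      congr 1
      induction w with
      | nil => rw [W_nil, map_one]; rfl
      | cons z w ih =>
        rw [W_cons, map_mul, ih, gw, M_X, one_smul, neg_smul, one_smul, sub_eq_add_neg]
    | h2 a b ha hb => rw [map_add, map_add, map_add, ha, hb]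
    | h3 c a ha => rw [map_smul, map_smul, map_smul, ha]
  rw [← hdual _ hs.S, ← hdual _ hs.S, h]

theorem M'_inj : Function.Injective M' := by
  intro a b h
  have h1 : Rf (M' a) = Rf (M' b) := by rw [h]
  rw [Rf_M', Rf_M'] at h1
  have h2 := M_inj h1
  have h3 := congrArg Rf h2
  rwa [Rf_Rf, Rf_Rf] at h3

/-! ### relations -/

theorem quad (x y : ℤ) : X x * X y + X (x + 1) * X (y + 1) - X x * X (y + 1) +
    (X y * X x + X (y + 1) * X (x + 1) - X y * X (x + 1)) = 0 := by
  apply evq_ext
  intro f hf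
  have h := Rel_T hf [] x y []
  simp only [List.nil_append] at h
  have e : ∀ a b : ℤ, evq f hf (X a * X b) = T [a, b] f := by
    intro a b
    rw [← evq_W [a, b] f hf, W_cons, W_single]
  rw [map_zero]
  simp only [map_add, map_sub, e]
  exact h

/-- the relation for neighbours -/
theorem diag (x : ℤ) : X x * X (x + 1) = X x * X x + X (x + 1) * X (x + 1) := by
  have h := quad x x
  have h2 : (2 : ℚ) • (X x * X (x + 1)) = (2 : ℚ) • (X x * X x + X (x + 1) * X (x + 1)) := by
    rw [two_smul, two_smul, ← sub_eq_zero]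
    rw [← neg_eq_zero]
    rw [← h]
    abel
  have h3 := congrArg (fun t => ((1 / 2 : ℚ)) • t) h2
  simpa [smul_smul] using h3

theorem cub3 (x y z : ℤ) : X x * X y * X z + X x * X z * X y + X y * X x * X z + X y * X z * X x +
    X z * X x * X y + X z * X y * X x = 0 := by
  apply evq_ext
  intro f hf
  have h := sym3 hf x y z
  have e : ∀ a b c : ℤ, evq f hf (X a * X b * X c) = T [a, b, c] f := by
    intro a b c
    rw [← evq_W [a, b, c] f hf, W_cons, W_cons, W_single, mul_assoc]
  rw [map_zero]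
  simp only [map_add, e]
  linarith

theorem two_cancel {a : WA} (h : a + a = 0) : a = 0 := by
  have h1 : (2 : ℚ) • a = 0 := by rw [two_smul, h]
  have h3 := congrArg (fun t => ((1 / 2 : ℚ)) • t) h1
  simpa [smul_smul] using h3

theorem cub2 (x m : ℤ) : X x * X m * X m + X m * X x * X m + X m * X m * X x = 0 := by
  apply two_cancel
  rw [← cub3 x m m]
  abel

theorem cube (x : ℤ) : X x * X x * X x = 0 := by
  have h := cub2 x x
  have h1 : (3 : ℚ) • (X x * X x * X x) = 0 := by
    rw [← h]
    have : (3 : ℚ) = 1 + 1 + 1 := by norm_num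
    rw [this, add_smul, add_smul, one_smul]
  have h3 := congrArg (fun t => ((1 / 3 : ℚ)) • t) h1
  simpa [smul_smul] using h3

end Pool.Agent.Q258.MT
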