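import Pool.Agent.Q258.MT.Poly

set_option autoImplicit false

/-!
Rotation, reflection and translation of the monotone triangle polynomial.
-/

noncomputable section

namespace Pool.Agent.Q258.MT

open Finset

/-- `∏ (1 - E_q + E_q E_z)` over the entries `q` of the list, applied to `f`. -/
def P2 : List ℤ → (ℤ → List ℤ → ℚ) → ℤ → ℚ
  | [], f, z => f z []
  | a :: l, f, z =>
    P2 l (fun z l => f z (a :: l) - f z ((a + 1) :: l) + f (z + 1) ((a + 1) :: l)) z

theorem P2_add (l : List ℤ) : ∀ (f g : ℤ → List ℤ → ℚ) (z : ℤ),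
    P2 l (fun z l => f z l + g z l) z = P2 l f z + P2 l g z := by
  induction l with
  | nil => intro f g z; rfl
  | cons a l ih =>
    intro f g z
    simp only [P2]
    rw [← ih]
    congr 1
    funext z l
    ring

theorem P2_neg (l : List ℤ) : ∀ (f : ℤ → List ℤ → ℚ) (z : ℤ),
    P2 l (fun z l => - f z l) z = - P2 l f z := by
  induction l with
  | nil => intro f z; rfl
  | cons a l ih =>
    intro f z
    simp only [P2]
    rw [← ih]
    congr 1
    funext z l
    ring

theorem P2_sub (l : List ℤ) (f g : ℤ → List ℤ → ℚ) (z : ℤ) :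
    P2 l (fun z l => f z l - g z l) z = P2 l f z - P2 l g z := by
  simp only [sub_eq_add_neg, P2_add, P2_neg]

theorem P_snoc (l : List ℤ) : ∀ (f : ℤ → List ℤ → ℚ) (y z : ℤ),
    P (l ++ [y]) f z = P l (fun z l => f z (l ++ [y]) - f (z + 1) (l ++ [y]) +
      f (z + 1) (l ++ [y + 1])) z := by
  induction l with
  | nil => intro f y z; rfl
  | cons a l ih =>
    intro f y z
    simp only [List.cons_append, P]
    rw [ih]
    congr 1
    funext z l
    ring

theorem P2_P_comm (l : List ℤ) : ∀ (g : ℤ → ℤ → List ℤ → ℚ) (y z : ℤ),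
    P2 l (fun y l => P l (fun z l => g z y l) z) y = P l (fun z l => P2 l (fun y l => g z y l) y) z := by
  induction l with
  | nil => intro g y z; rfl
  | cons a l ih =>
    intro g y z
    simp only [P, P2]
    simp only [← P_add, ← P_sub, ← P2_add, ← P2_sub]
    rw [ih (fun z y l => (g z y (a :: l) - g (z + 1) y (a :: l) + g (z + 1) y ((a + 1) :: l)) -
      (g z y ((a + 1) :: l) - g (z + 1) y ((a + 1) :: l) + g (z + 1) y ((a + 1 + 1) :: l)) +
      (g z (y + 1) ((a + 1) :: l) - g (z + 1) (y + 1) ((a + 1) :: l) +
        g (z + 1) (y + 1) ((a + 1 + 1) :: l)))]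
    congr 1
    funext z l
    congr 1
    funext y l
    ring

theorem T_snoc (w : List ℤ) : ∀ (f : List ℤ → ℚ) (y : ℤ),
    T (w ++ [y]) f = T w (fun l => P2 l (fun y l => f (l ++ [y])) y) := by
  induction w with
  | nil => intro f y; rfl
  | cons z w ih =>
    intro f y
    simp only [List.cons_append, T]
    rw [ih]
    congr 1
    funext l
    simp only [P_snoc, P2]
    rw [P2_P_comm l (fun z y l => f (z :: (l ++ [y])) - f ((z + 1) :: (l ++ [y])) +
      f ((z + 1) :: (l ++ [y + 1])))]
    rfl

/-- the elementary symmetric functions of the difference operators -/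
def ES : List ℤ → ℕ → (List ℤ → ℚ) → ℚ
  | [], 0, f => f []
  | [], _ + 1, _ => 0
  | x :: l, 0, f => ES l 0 (fun m => f (x :: m))
  | x :: l, j + 1, f => ES l (j + 1) (fun m => f (x :: m)) +
      ES l j (fun m => f ((x + 1) :: m) - f (x :: m))

theorem ES_zero_eq (l : List ℤ) : ∀ f : List ℤ → ℚ, ES l 0 f = f l := by
  induction l with
  | nil => intro f; rfl
  | cons x l ih => intro f; simp only [ES, ih]

theorem ES_add (l : List ℤ) : ∀ (j : ℕ) (f g : List ℤ → ℚ),
    ES l j (fun m => f m + g m) = ES l j f + ES l j g := by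
  induction l with
  | nil => intro j f g; cases j <;> simp [ES]
  | cons x l ih =>
    intro j f g
    cases j with
    | zero => simp only [ES, ih]
    | succ j =>
      simp only [ES, ih]
      have h : (fun m => f ((x + 1) :: m) + g ((x + 1) :: m) - (f (x :: m) + g (x :: m))) =
          fun m => (f ((x + 1) :: m) - f (x :: m)) + (g ((x + 1) :: m) - g (x :: m)) := by
        funext m; ring
      rw [h, ih]
      ring

theorem ES_neg (l : List ℤ) : ∀ (j : ℕ) (f : List ℤ → ℚ),
    ES l j (fun m => - f m) = - ES l j f := by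
  induction l with
  | nil => intro j f; cases j <;> simp [ES]
  | cons x l ih =>
    intro j f
    cases j with
    | zero => simp only [ES, ih]
    | succ j =>
      simp only [ES, ih]
      have h : (fun m => - f ((x + 1) :: m) - (- f (x :: m))) =
          fun m => - (f ((x + 1) :: m) - f (x :: m)) := by
        funext m; ring
      rw [h, ih]
      ring

theorem ES_sub (l : List ℤ) (j : ℕ) (f g : List ℤ → ℚ) :
    ES l j (fun m => f m - g m) = ES l j f - ES l j g := by
  simp only [sub_eq_add_neg, ES_add, ES_neg]

theorem ES_zero' (l : List ℤ) (j : ℕ) : ES l j (fun _ => 0) = 0 := by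
  have h := ES_sub l j (fun _ => 0) (fun _ => 0)
  simp only [sub_self] at h
  exact h

theorem ES_sum {ι : Type*} (s : Finset ι) (l : List ℤ) (j : ℕ) (F : ι → List ℤ → ℚ) :
    ES l j (fun m => ∑ i ∈ s, F i m) = ∑ i ∈ s, ES l j (F i) := by
  classical
  induction s using Finset.induction_on with
  | empty => simp only [Finset.sum_empty]; exact ES_zero' l j
  | insert a s ha ih => simp only [Finset.sum_insert ha]; rw [ES_add, ih]

theorem ES_ss (l : List ℤ) (j : ℕ) (x : ℤ) (F : ℤ → List ℤ → ℚ) :
    ES l j (fun m => ss x (fun p => F p m)) = ss x (fun p => ES l j (F p)) := by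
  unfold ss
  rw [ES_sub, ES_sum, ES_sum]

theorem D_sum {ι : Type*} (s : Finset ι) (l : List ℤ) (F : ι → List ℤ → ℚ) :
    D l (fun m => ∑ i ∈ s, F i m) = ∑ i ∈ s, D l (F i) := by
  classical
  induction s using Finset.induction_on with
  | empty => simp only [Finset.sum_empty]; exact D_zero l
  | insert a s ha ih => simp only [Finset.sum_insert ha]; rw [D_add, ih]

theorem D_ss (l : List ℤ) (x : ℤ) (F : ℤ → List ℤ → ℚ) :
    D l (fun m => ss x (fun p => F p m)) = ss x (fun p => D l (F p)) := by
  unfold ss
  rw [D_sub, D_sum, D_sum]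

theorem ES_big (l : List ℤ) : ∀ (j : ℕ) (f : List ℤ → ℚ), l.length < j → ES l j f = 0 := by
  induction l with
  | nil =>
    intro j f h
    cases j with
    | zero => simp at h
    | succ j => rfl
  | cons x l ih =>
    intro j f h
    cases j with
    | zero => simp at h
    | succ j =>
      simp only [List.length_cons] at h
      simp only [ES]
      rw [ih _ _ (by omega), ih _ _ (by omega), add_zero]

theorem ES_D (l : List ℤ) : ∀ (j : ℕ) (f : List ℤ → ℚ),
    ES l j (fun m => D m f) = D l (fun m => ES m j f) := by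
  induction l with
  | nil => intro j f; cases j <;> simp [ES, D]
  | cons x l ih =>
    intro j f
    cases j with
    | zero => simp only [ES, D, ES_sub, ih, ES_zero_eq]
    | succ j =>
      simp only [ES, D, ES_sub, ih, D_add, D_sub]
      ring

theorem ES_S (l : List ℤ) : ∀ (j : ℕ) (f : List ℤ → ℚ), Anti f →
    ES l (j + 1) (fun m => S m f) = S l (fun m => ES m (j + 1) f) +
      D l (fun m => S m (fun r => ES r j (fun q => f (0 :: q)))) := by
  induction l with
  | nil => intro j f _; simp [ES, S, D]
  | cons x l ih =>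
    intro j f hf
    have h0 : ∀ q, f (0 :: 0 :: q) = 0 := fun q => by
      have := hf [] 0 0 q
      simp only [List.nil_append] at this
      linarith
    have h1 : ∀ p x q, f (p :: x :: q) = - f (x :: p :: q) := fun p x q => hf [] p x q
    simp only [ES, S, D, ss_succ, add_sub_cancel_left]
    rw [ES_ss l (j + 1) x (fun p m => S m (fun r => f (p :: r)))]
    have h2 : ∀ p, ES l (j + 1) (fun m => S m (fun r => f (p :: r))) =
        S l (fun m => ES m (j + 1) (fun r => f (p :: r))) +
        D l (fun m => S m (fun r => ES r j (fun q => f (p :: 0 :: q)))) :=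
      fun p => ih j _ (hf.cons p)
    simp only [h2, ss_add, ES_sub, S_add, S_sub]
    rw [ss_tel x (fun m => S l (fun r => ES r j (fun q => f (m :: q))))]
    cases j with
    | zero =>
      simp only [ES_zero_eq]
      rw [D_ss l x (fun p m => S m (fun r => f (0 :: p :: r)))]
      have h3 : ∀ p, D l (fun m => S m (fun r => f (0 :: p :: r))) =
          - D l (fun m => S m (fun r => f (p :: 0 :: r))) := by
        intro p
        rw [← D_neg]
        congr 1
        funext m
        rw [← S_neg]
        congr 1
        funext r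
        exact h1 0 p r
      simp only [h3, ss_neg]
      ring
    | succ j =>
      rw [ih j _ (hf.cons x)]
      simp only [ES, ES_sub, S_add, S_sub, ss_add]
      have h4 : ∀ m : List ℤ, ss x (fun p => S m (fun r => ES r j (fun q => f (0 :: (p + 1) :: q))) -
          S m (fun r => ES r j (fun q => f (0 :: p :: q)))) =
          S m (fun r => ES r j (fun q => f (0 :: x :: q))) := by
        intro m
        rw [ss_tel x (fun p => S m (fun r => ES r j (fun q => f (0 :: p :: q))))]
        simp only [h0, ES_zero', S_zero, sub_zero]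
      simp only [h4, D_add]
      rw [D_ss l x (fun p m => S m (fun r => ES r (j + 1) (fun q => f (0 :: p :: q))))]
      have h3 : ∀ (j : ℕ) (p : ℤ), D l (fun m => S m (fun r => ES r j (fun q => f (0 :: p :: q)))) =
          - D l (fun m => S m (fun r => ES r j (fun q => f (p :: 0 :: q)))) := by
        intro j p
        rw [← D_neg]
        congr 1
        funext m
        rw [← S_neg]
        congr 1
        funext r
        rw [← ES_neg]
        congr 1
        funext q
        exact h1 0 p q
      simp only [h3, ss_neg]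
      ring

theorem D_D (l : List ℤ) : ∀ f : List ℤ → ℚ, D l (fun m => D m f) = 0 := by
  induction l with
  | nil => intro f; rfl
  | cons x l ih =>
    intro f
    simp only [D, D_sub, ih]
    ring

theorem ES_b (n : ℕ) : ∀ (l : List ℤ) (j : ℕ), ES l (j + 1) (b n) = 0 := by
  induction n with
  | zero =>
    intro l j
    cases l with
    | nil => rfl
    | cons x l =>
      simp only [ES, b, reduceCtorEq, if_false, sub_self]
      rw [ES_zero', ES_zero', add_zero]
  | succ n ih =>
    intro l j
    have h : b (n + 1) = fun l => D l (fun m => S m (b n)) := rfl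
    rw [h, ES_D]
    have h2 : (fun m => ES m (j + 1) (fun m => S m (b n))) = fun m => S m (fun m => ES m (j + 1) (b n)) +
        D m (fun m => S m (fun r => ES r j (fun q => b n (0 :: q)))) := by
      funext m
      exact ES_S m j _ (b_anti n)
    rw [h2, D_add, D_D]
    simp only [ih, S_zero, D_zero, add_zero]

/-- `P` by the elementary symmetric functions of the differences -/
theorem P_eq_sum (l : List ℤ) : ∀ (f : ℤ → List ℤ → ℚ) (x : ℤ),
    P l f x = ∑ j ∈ range (l.length + 1), ES l j (f (x + j)) := by
  induction l with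
  | nil => intro f x; simp [P, ES]
  | cons a l ih =>
    intro f x
    have h1 : P (a :: l) f x = P l (fun z l => f z (a :: l) +
        (f (z + 1) ((a + 1) :: l) - f (z + 1) (a :: l))) x := by
      simp only [P]
      congr 1
      funext z l
      ring
    rw [h1, ih]
    simp only [ES_add]
    rw [Finset.sum_add_distrib]
    have h2 : ∑ j ∈ range (l.length + 1), ES l j (fun m => f (x + j) (a :: m)) =
        ∑ j ∈ range (l.length + 2), ES l j (fun m => f (x + j) (a :: m)) := by
      rw [Finset.sum_range_succ _ (l.length + 1), ES_big l (l.length + 1) _ (by omega), add_zero]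
    rw [h2, Finset.sum_range_succ' _ (l.length + 1), List.length_cons,
      Finset.sum_range_succ' _ (l.length + 1)]
    have h3 : ES (a :: l) 0 (f (x + (0 : ℕ))) = ES l 0 (fun m => f (x + (0 : ℕ)) (a :: m)) := rfl
    rw [h3, add_right_comm, ← Finset.sum_add_distrib]
    congr 1
    apply Finset.sum_congr rfl
    intro j _
    simp only [ES]
    congr 1
    have h4 : x + (j : ℤ) + 1 = x + ((j + 1 : ℕ) : ℤ) := by push_cast; ring
    rw [h4]

/-- iterated difference -/
def dd : ℕ → (ℤ → ℚ) → ℤ → ℚ
  | 0, g => g
  | j + 1, g => dd j (fun x => g (x + 1) - g x)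

theorem dd_add (j : ℕ) : ∀ (f g : ℤ → ℚ) (x : ℤ), dd j (fun x => f x + g x) x = dd j f x + dd j g x := by
  induction j with
  | zero => intro f g x; rfl
  | succ j ih =>
    intro f g x
    simp only [dd]
    rw [← ih]
    congr 1
    funext x
    ring

theorem dd_neg (j : ℕ) : ∀ (f : ℤ → ℚ) (x : ℤ), dd j (fun x => - f x) x = - dd j f x := by
  induction j with
  | zero => intro f x; rfl
  | succ j ih =>
    intro f x
    simp only [dd]
    rw [← ih]
    congr 1
    funext x
    ring

theorem dd_sub (j : ℕ) (f g : ℤ → ℚ) (x : ℤ) : dd j (fun x => f x - g x) x = dd j f x - dd j g x := by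
  simp only [sub_eq_add_neg, dd_add, dd_neg]

theorem dd_zero (j : ℕ) (x : ℤ) : dd j (fun _ => 0) x = 0 := by
  have h := dd_sub j (fun _ => 0) (fun _ => 0) x
  simp only [sub_self] at h
  exact h

theorem dd_shift (j : ℕ) : ∀ (f : ℤ → ℚ) (c x : ℤ), dd j (fun x => f (x + c)) x = dd j f (x + c) := by
  induction j with
  | zero => intro f c x; rfl
  | succ j ih =>
    intro f c x
    simp only [dd]
    rw [← ih]
    congr 1
    funext x
    rw [add_right_comm]

/-- one further difference on the outside -/
theorem dd_succ' (j : ℕ) (f : ℤ → ℚ) (x : ℤ) : dd (j + 1) f x = dd j f (x + 1) - dd j f x := by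
  simp only [dd]
  rw [dd_sub, ← dd_shift]

theorem P2_eq_sum (l : List ℤ) : ∀ (f : ℤ → List ℤ → ℚ) (x : ℤ),
    P2 l f x = ∑ j ∈ range (l.length + 1), dd j (fun y => ES l j (f y)) (x + l.length - j) := by
  induction l with
  | nil => intro f x; simp [P2, ES, dd]
  | cons a l ih =>
    intro f x
    have h1 : P2 (a :: l) f x = P2 l (fun z l => f (z + 1) (a :: l) +
        ((f (z + 1) ((a + 1) :: l) - f (z + 1) (a :: l)) - (f z ((a + 1) :: l) - f z (a :: l)))) x := by
      simp only [P2]
      congr 1
      funext z l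
      ring
    rw [h1, ih]
    simp only [ES_add, dd_add]
    rw [Finset.sum_add_distrib]
    have h2 : ∑ j ∈ range (l.length + 1), dd j (fun y => ES l j (fun m => f (y + 1) (a :: m)))
        (x + l.length - j) =
        ∑ j ∈ range (l.length + 2), dd j (fun y => ES l j (fun m => f (y + 1) (a :: m)))
        (x + l.length - j) := by
      rw [Finset.sum_range_succ _ (l.length + 1)]
      have : (fun y => ES l (l.length + 1) (fun m => f (y + 1) (a :: m))) = fun _ => 0 := by
        funext y
        exact ES_big l (l.length + 1) _ (by omega)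
      rw [this, dd_zero, add_zero]
    rw [h2, Finset.sum_range_succ' _ (l.length + 1), List.length_cons,
      Finset.sum_range_succ' _ (l.length + 1)]
    have h3 : ∀ (j : ℕ), dd j (fun y => ES l j (fun m => f (y + 1) (a :: m))) (x + l.length - j) =
        dd j (fun y => ES l j (fun m => f y (a :: m))) (x + (l.length + 1 : ℕ) - j) := by
      intro j
      rw [dd_shift j (fun y => ES l j (fun m => f y (a :: m))) 1]
      congr 1
      push_cast
      ring
    rw [h3, add_right_comm]
    have h5 : ES (a :: l) 0 = fun f => ES l 0 (fun m => f (a :: m)) := rfl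
    rw [h5]
    congr 1
    rw [← Finset.sum_add_distrib]
    apply Finset.sum_congr rfl
    intro j _
    rw [h3]
    have h6 : (fun y => ES (a :: l) (j + 1) (f y)) = fun y => ES l (j + 1) (fun m => f y (a :: m)) +
        ES l j (fun m => f y ((a + 1) :: m) - f y (a :: m)) := rfl
    rw [h6, dd_add]
    congr 1
    simp only [dd]
    have h7 : x + ((l.length + 1 : ℕ) : ℤ) - ((j + 1 : ℕ) : ℤ) = x + l.length - j := by
      push_cast; ring
    rw [h7]
    congr 1
    funext y
    rw [ES_sub]

theorem ES_b_cons (n : ℕ) (l : List ℤ) (j : ℕ) : ∀ x : ℤ,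
    ES l j (fun m => b n (x :: m)) = (-1) ^ j * dd j (fun x => b n (x :: l)) x := by
  induction j with
  | zero => intro x; rw [ES_zero_eq]; simp [dd]
  | succ j ih =>
    intro x
    have h := ES_b n (x :: l) j
    simp only [ES] at h
    rw [ES_sub, ih, ih] at h
    rw [dd_succ']
    have h2 : ES l (j + 1) (fun m => b n (x :: m)) = - ((-1) ^ j * dd j (fun x => b n (x :: l)) (x + 1) -
        (-1) ^ j * dd j (fun x => b n (x :: l)) x) := by linarith
    rw [h2]
    ring

theorem dd_b_zero (n : ℕ) (l : List ℤ) (x : ℤ) : dd (l.length + 1) (fun x => b n (x :: l)) x = 0 := by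
  have h := ES_b_cons n l (l.length + 1) x
  rw [ES_big l (l.length + 1) _ (by omega)] at h
  have h2 : ((-1 : ℚ)) ^ (l.length + 1) ≠ 0 := pow_ne_zero _ (by norm_num)
  exact (mul_eq_zero.mp h.symm).resolve_left h2

theorem P_b (n : ℕ) (l : List ℤ) (x : ℤ) :
    P l (fun x l => b n (x :: l)) x - P l (fun x l => b n (x :: l)) (x + 1) +
      P l (fun x l => b n (x :: l)) (x + 1 + 1) = b n (x :: l) := by
  set g : ℤ → ℚ := fun x => b n (x :: l) with hg
  have h1 : ∀ x, P l (fun x l => b n (x :: l)) x =
      ∑ j ∈ range (l.length + 1), (-1) ^ j * dd j g (x + j) := by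
    intro x
    rw [P_eq_sum]
    apply Finset.sum_congr rfl
    intro j _
    exact ES_b_cons n l j (x + j)
  have h2 : P l (fun x l => b n (x :: l)) (x + 1 + 1) - P l (fun x l => b n (x :: l)) (x + 1) =
      - ∑ j ∈ range (l.length + 1), (-1) ^ (j + 1) * dd (j + 1) g (x + (j + 1 : ℕ)) := by
    rw [h1, h1, ← Finset.sum_sub_distrib, ← Finset.sum_neg_distrib]
    apply Finset.sum_congr rfl
    intro j _
    rw [dd_succ']
    have e1 : x + 1 + 1 + (j : ℤ) = x + ((j + 1 : ℕ) : ℤ) + 1 := by push_cast; ring
    have e2 : x + 1 + (j : ℤ) = x + ((j + 1 : ℕ) : ℤ) := by push_cast; ring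
    rw [e1, e2]
    ring
  have h3 := Finset.sum_range_succ (fun j : ℕ => (-1 : ℚ) ^ j * dd j g (x + j)) (l.length + 1)
  have h4 := Finset.sum_range_succ' (fun j : ℕ => (-1 : ℚ) ^ j * dd j g (x + j)) (l.length + 1)
  rw [h3] at h4
  have h5 : dd (l.length + 1) g (x + ((l.length + 1 : ℕ) : ℤ)) = 0 := dd_b_zero n l _
  rw [h5] at h4
  have h6 : dd 0 g (x + ((0 : ℕ) : ℤ)) = b n (x :: l) := by simp [dd, hg]
  rw [h6] at h4
  have h7 := h1 x
  linarith

theorem P2_b (n : ℕ) (l : List ℤ) (x : ℤ) :
    P2 l (fun x l => b n (x :: l)) x - P2 l (fun x l => b n (x :: l)) (x + 1) +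
      P2 l (fun x l => b n (x :: l)) (x + 1 + 1) = b n ((x + l.length + 1) :: l) := by
  set g : ℤ → ℚ := fun x => b n (x :: l) with hg
  have hdd : ∀ (j i : ℕ) (f : ℤ → ℚ) (x : ℤ), dd j (dd i f) x = dd (i + j) f x := by
    intro j i
    induction i with
    | zero => intro f x; simp [dd]
    | succ i ih =>
      intro f x
      simp only [dd]
      rw [ih]
      have : i + 1 + j = (i + j) + 1 := by ring
      rw [this]
      rfl
  have h1 : ∀ x, P2 l (fun x l => b n (x :: l)) x =
      ∑ j ∈ range (l.length + 1), (-1) ^ j * dd (2 * j) g (x + l.length - j) := by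
    intro x
    rw [P2_eq_sum]
    apply Finset.sum_congr rfl
    intro j _
    have h2 : (fun y => ES l j (fun m => b n (y :: m))) = fun y => (-1) ^ j * dd j g y := by
      funext y
      exact ES_b_cons n l j y
    rw [h2]
    rcases Nat.even_or_odd j with hj | hj
    · simp only [hj.neg_one_pow, one_mul]
      rw [hdd j j g, two_mul]
    · simp only [hj.neg_one_pow, neg_one_mul]
      rw [dd_neg, hdd j j g, two_mul]
  have h2 : P2 l (fun x l => b n (x :: l)) x - P2 l (fun x l => b n (x :: l)) (x + 1) +
      P2 l (fun x l => b n (x :: l)) (x + 1 + 1) =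
      ∑ j ∈ range (l.length + 1), (-1) ^ j * dd (2 * j) g (x + l.length + 1 - j) -
      ∑ j ∈ range (l.length + 1), (-1) ^ (j + 1) * dd (2 * (j + 1)) g (x + l.length + 1 - (j + 1 : ℕ)) := by
    rw [h1, h1, h1, ← Finset.sum_sub_distrib, ← Finset.sum_add_distrib, ← Finset.sum_sub_distrib]
    apply Finset.sum_congr rfl
    intro j _
    have e0 : 2 * (j + 1) = 2 * j + 1 + 1 := by ring
    rw [e0, dd_succ', dd_succ', dd_succ']
    have e1 : x + 1 + 1 + (l.length : ℤ) - j = x + l.length + 1 - ((j + 1 : ℕ) : ℤ) + 1 + 1 := by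
      push_cast; ring
    have e2 : x + 1 + (l.length : ℤ) - j = x + l.length + 1 - ((j + 1 : ℕ) : ℤ) + 1 := by
      push_cast; ring
    have e3 : x + (l.length : ℤ) - j = x + l.length + 1 - ((j + 1 : ℕ) : ℤ) := by
      push_cast; ring
    have e4 : x + (l.length : ℤ) + 1 - j = x + l.length + 1 - ((j + 1 : ℕ) : ℤ) + 1 := by
      push_cast; ring
    rw [e1, e2, e3, e4]
    ring
  rw [h2]
  have h3 := Finset.sum_range_succ (fun j : ℕ => (-1 : ℚ) ^ j * dd (2 * j) g (x + l.length + 1 - j))
    (l.length + 1)
  have h4 := Finset.sum_range_succ' (fun j : ℕ => (-1 : ℚ) ^ j * dd (2 * j) g (x + l.length + 1 - j))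
    (l.length + 1)
  rw [h3] at h4
  have h5 : ∀ y, dd (2 * (l.length + 1)) g y = 0 := by
    intro y
    have e : 2 * (l.length + 1) = (l.length + 1) + (l.length + 1) := by ring
    rw [e, ← hdd]
    have h6 : dd (l.length + 1) g = fun _ => 0 := by
      funext y
      exact dd_b_zero n l y
    rw [h6, dd_zero]
  rw [h5] at h4
  have h6 : dd (2 * 0) g (x + l.length + 1 - ((0 : ℕ) : ℤ)) = b n ((x + l.length + 1) :: l) := by
    simp [dd, hg]
  rw [h6] at h4
  linarith

theorem P2_len (l : List ℤ) : ∀ (c : ℕ → ℚ) (f : ℤ → List ℤ → ℚ) (z : ℤ),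
    P2 l (fun z m => c m.length * f z m) z = c l.length * P2 l f z := by
  induction l with
  | nil => intro c f z; rfl
  | cons a l ih =>
    intro c f z
    simp only [P2, List.length_cons]
    rw [← ih (fun n => c (n + 1))]
    congr 1
    funext z m
    ring

theorem P_len (l : List ℤ) : ∀ (c : ℕ → ℚ) (f : ℤ → List ℤ → ℚ) (z : ℤ),
    P l (fun z m => c m.length * f z m) z = c l.length * P l f z := by
  induction l with
  | nil => intro c f z; rfl
  | cons a l ih =>
    intro c f z
    simp only [P, List.length_cons]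
    rw [← ih (fun n => c (n + 1))]
    congr 1
    funext z m
    ring

theorem T_len (w : List ℤ) : ∀ (c : ℕ → ℚ) (f : List ℤ → ℚ),
    T w (fun m => c m.length * f m) = c w.length * T w f := by
  induction w with
  | nil => intro c f; rfl
  | cons a w ih =>
    intro c f
    simp only [T, List.length_cons]
    rw [← ih (fun n => c (n + 1))]
    congr 1
    funext m
    rw [P_len m (fun n => c (n + 1)) (fun z l => f (z :: l))]

theorem T_congr_len (w : List ℤ) (f g : List ℤ → ℚ) (h : ∀ m, m.length = w.length → f m = g m) :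
    T w f = T w g := by
  have h1 := T_len w (fun n => if n = w.length then 1 else 0) f
  have h2 := T_len w (fun n => if n = w.length then 1 else 0) g
  simp only [if_true, one_mul] at h1 h2
  rw [← h1, ← h2]
  congr 1
  funext m
  by_cases hm : m.length = w.length
  · rw [h m hm]
  · rw [if_neg hm, zero_mul, zero_mul]

theorem anti_move {f : List ℤ → ℚ} (hf : Anti f) (l : List ℤ) : ∀ (u : List ℤ) (y : ℤ),
    f (u ++ (l ++ [y])) = (-1) ^ l.length * f (u ++ y :: l) := by
  induction l with
  | nil => intro u y; simp
  | cons a l ih =>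
    intro u y
    have h := ih (u ++ [a]) y
    simp only [List.append_assoc, List.cons_append, List.nil_append] at h
    rw [List.cons_append, h, hf u a y l, List.length_cons, pow_succ]
    ring

theorem PD.tri {d : ℕ} : ∀ {f : ℤ → ℚ}, PD d f → (∀ x, f x - f (x + 1) + f (x + 1 + 1) = 0) →
    ∀ x, f x = 0 := by
  induction d with
  | zero =>
    intro f hf h x
    have h1 := h x
    rw [hf (x + 1), hf x] at h1
    linarith
  | succ d ih =>
    intro f hf h x
    have h1 := ih (f := fun x => f (x + 1) - f x) hf (fun x => by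
      have h2 := h x
      have h3 := h (x + 1)
      linarith)
    have h2 := h x
    have h3 := h1 x
    have h4 := h1 (x + 1)
    linarith

theorem PD.shift_int {d : ℕ} : ∀ {f : ℤ → ℚ}, PD d f → ∀ c : ℤ, PD d (fun x => f (x + c)) := by
  induction d with
  | zero => intro f hf c x; simp only; rw [add_right_comm]; exact hf (x + c)
  | succ d ih =>
    intro f hf c
    have h := ih (f := fun x => f (x + 1) - f x) hf c
    simp only [PD]
    have e : (fun x => f (x + 1 + c) - f (x + c)) = fun x => f (x + c + 1) - f (x + c) := by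
      funext x
      rw [add_right_comm]
    rw [e]
    exact h

/-- rotation of the monotone triangle polynomial -/
theorem al_rot (n : ℕ) (x : ℤ) (w : List ℤ) :
    al n (x :: w) = (-1) ^ w.length * al n (w ++ [x - (w.length + 1)]) := by
  have h1 : ∀ x, al n (x :: w) - al n ((x + 1) :: w) + al n ((x + 1 + 1) :: w) =
      T w (fun l => b n (x :: l)) := by
    intro x
    unfold al
    simp only [T]
    rw [← T_sub, ← T_add]
    congr 1
    funext l
    exact P_b n l x
  have h2 : ∀ y, al n (w ++ [y]) = (-1) ^ w.length * T w (fun l => P2 l (fun y l => b n (y :: l)) y) := by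
    intro y
    unfold al
    rw [T_snoc, ← T_len w (fun n => (-1) ^ n)]
    congr 1
    funext l
    rw [← P2_len l (fun n => (-1) ^ n)]
    congr 1
    funext y l
    exact anti_move (b_anti n) l [] y
  have h3 : ∀ y, al n (w ++ [y]) - al n (w ++ [y + 1]) + al n (w ++ [y + 1 + 1]) =
      (-1) ^ w.length * T w (fun l => b n ((y + w.length + 1) :: l)) := by
    intro y
    rw [h2, h2, h2, ← mul_sub, ← mul_add, ← T_sub, ← T_add]
    congr 1
    apply T_congr_len
    intro m hm
    rw [P2_b, hm]
  have hs : ((-1 : ℚ)) ^ w.length * (-1) ^ w.length = 1 := by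
    rw [← mul_pow]; norm_num
  have h4 : PD n (fun x => al n (x :: w) - (-1) ^ w.length * al n (w ++ [x - (w.length + 1)])) := by
    refine PD.sub (al_SP n [] w) (PD.mul _ ?_)
    have h5 := PD.shift_int (al_SP n w []) (-(w.length + 1))
    simp only [← sub_eq_add_neg] at h5
    exact h5
  have h6 := h4.tri (fun x => by
    have h7 := h1 x
    have h8 := h3 (x - (w.length + 1))
    have e1 : x + 1 - ((w.length : ℤ) + 1) = x - (w.length + 1) + 1 := by ring
    have e2 : x + 1 + 1 - ((w.length : ℤ) + 1) = x - (w.length + 1) + 1 + 1 := by ring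
    have e3 : x - ((w.length : ℤ) + 1) + w.length + 1 = x := by ring
    rw [e3] at h8
    rw [e1, e2]
    have h9 : (-1) ^ w.length * (al n (w ++ [x - (w.length + 1)]) -
        al n (w ++ [x - (w.length + 1) + 1]) + al n (w ++ [x - (w.length + 1) + 1 + 1])) =
        T w (fun l => b n (x :: l)) := by
      rw [h8, ← mul_assoc, hs, one_mul]
    linarith) x
  linarith

/-- translation of the monotone triangle polynomial -/
theorem al_map (n : ℕ) : ∀ w : List ℤ, al n (w.map (· + 1)) = al n w := by
  have hg : ∀ (r : List ℤ) (x : ℤ) (A : List ℤ → ℚ),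
      gs (r.map (· + 1)) (x + 1) A = gs r x (fun m => A (m.map (· + 1))) := by
    intro r
    induction r with
    | nil => intro x A; rfl
    | cons y r ih =>
      intro x A
      simp only [List.map_cons, gs]
      rw [ih (y + 1)]
      have h1 : ∀ (x : ℤ) (g : ℤ → ℚ), ss (x + 1) g = ss x (fun m => g (m + 1)) + g 0 := by
        intro x g
        rw [ss_succ]
        have := ss_tel x g
        rw [ss_sub] at this
        linarith
      rw [h1 y, h1 x]
      simp only [ih]
      ring
  induction n with
  | zero =>
    intro w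
    unfold al
    rw [T_map]
    congr 1
    funext l
    cases l <;> simp [b]
  | succ n ih =>
    intro w
    cases w with
    | nil => rfl
    | cons x w =>
      rw [List.map_cons, al_gs, al_gs, hg]
      congr 1
      funext m
      exact ih m

theorem al_map_nat (n : ℕ) (w : List ℤ) (c : ℕ) : al n (w.map (· + (c : ℤ))) = al n w := by
  induction c with
  | zero => simp
  | succ c ih =>
    rw [← ih, ← al_map n (w.map (· + (c : ℤ))), List.map_map]
    congr 2
    funext x
    simp only [Function.comp]
    push_cast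
    ring

theorem al_map_int (n : ℕ) (w : List ℤ) (c : ℤ) : al n (w.map (· + c)) = al n w := by
  obtain ⟨m, rfl | rfl⟩ := Int.eq_nat_or_neg c
  · exact al_map_nat n w m
  · rw [← al_map_nat n (w.map (· + (-(m : ℤ)))) m, List.map_map]
    congr 1
    have : (fun x : ℤ => x + (m : ℤ)) ∘ (fun x => x + (-(m : ℤ))) = id := by
      funext x
      simp
    rw [this, List.map_id]

namespace MonotoneTriangle

/-- reflection of a monotone triangle -/
def reflect {n : ℕ} (t : MonotoneTriangle n) : MonotoneTriangle n where
  entry i j := - t.entry i (Fin.rev j)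
  strictMono i := by
    intro a c h
    have := t.strictMono i (Fin.rev_lt_rev.mpr h)
    simp only
    omega
  interlace i h j := by
    have := t.interlace i h (Fin.rev j)
    simp only
    rw [Fin.rev_castSucc, Fin.rev_succ]
    omega

theorem reflect_reflect {n : ℕ} (t : MonotoneTriangle n) : t.reflect.reflect = t := by
  ext i j
  simp [reflect]

end MonotoneTriangle

theorem mtCount_reflect (n : ℕ) (k : Fin (n + 1) → ℤ) :
    mtCount n (fun j => - k (Fin.rev j)) = mtCount n k := by
  unfold mtCount
  apply Nat.card_congr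
  refine ⟨fun t => ⟨t.1.reflect, ?_⟩, fun t => ⟨t.1.reflect, ?_⟩, fun t => ?_, fun t => ?_⟩
  · funext j
    have h := congrFun t.2 (Fin.rev j)
    simp only [Fin.rev_rev] at h
    simp only [MonotoneTriangle.reflect]
    have h2 : t.1.entry (Fin.last n) (Fin.rev j) = - k j := h
    rw [h2, neg_neg]
  · funext j
    have h := congrFun t.2 (Fin.rev j)
    simp only [MonotoneTriangle.reflect]
    have h2 : t.1.entry (Fin.last n) (Fin.rev j) = k (Fin.rev j) := h
    rw [h2]
  · exact Subtype.ext (t.1.reflect_reflect)
  · exact Subtype.ext (t.1.reflect_reflect)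

theorem al_reflect_ofFn (n : ℕ) (k : Fin (n + 1) → ℤ) :
    al (n + 1) (List.ofFn fun j => - k (Fin.rev j)) = al (n + 1) (List.ofFn k) := by
  obtain ⟨p, hp, -⟩ := existsUnique_mtPoly n
  let q : MvPolynomial (Fin (n + 1)) ℚ :=
    MvPolynomial.bind₁ (fun i : Fin (n + 1) => - MvPolynomial.X (Fin.rev i)) p
  have hq : ∀ k : Fin (n + 1) → ℤ, MvPolynomial.eval (fun i => (k i : ℚ)) q =
      MvPolynomial.eval (fun i => ((- k (Fin.rev i) : ℤ) : ℚ)) p := by
    intro k
    have h1 : MvPolynomial.eval (fun i => (k i : ℚ)) q = MvPolynomial.aeval (fun i => (k i : ℚ)) q := rfl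
    rw [h1, MvPolynomial.aeval_bind₁]
    simp only [map_neg, MvPolynomial.aeval_X]
    push_cast
    rfl
  have hq2 : IsMTPoly n q := by
    intro k hk
    rw [hq, hp _ (by
      intro i j hij
      have := hk (Fin.rev_lt_rev.mpr hij)
      simp only
      omega), mtCount_reflect]
  rw [← hq2.eval_eq, hq, hp.eval_eq]
  simp only [Fin.rev_rev, neg_neg]

/-- reflection of the monotone triangle polynomial -/
theorem al_reflect (n : ℕ) (w : List ℤ) (hw : w.length = n + 1) :
    al (n + 1) ((w.map (fun x => - x)).reverse) = al (n + 1) w := by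
  obtain ⟨k, rfl⟩ : ∃ k : Fin (n + 1) → ℤ, w = List.ofFn k := by
    refine ⟨fun i => w.get (i.cast hw.symm), ?_⟩
    apply List.ext_getElem
    · simp only [List.length_ofFn, hw]
    · intro i h1 h2
      rw [List.getElem_ofFn]
      rfl
  rw [← al_reflect_ofFn]
  congr 1
  rw [List.map_ofFn]
  apply List.ext_getElem
  · simp
  · intro i h1 h2
    simp only [List.length_reverse, List.length_ofFn] at h1
    simp only [List.getElem_reverse, List.getElem_ofFn, List.length_ofFn, Function.comp]
    congr 2
    apply Fin.ext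
    simp only [Fin.val_rev]
    omega

end Pool.Agent.Q258.MT
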