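import Pool.Agent.Q258.MT.Hole
import Pool.Agent.Q258.MT.Rot

set_option autoImplicit false

/-!
Alternating sign matrices are counted by the monotone triangle polynomial.
-/

noncomputable section

namespace Pool.Agent.Q258.MT

open Finset

/-- the partial sums, starting at `st`, are `0` or `1`, and the total is `1` -/
def ps : ℤ → List ℤ → Prop
  | st, [] => st = 1
  | st, x :: l => (st = 0 ∨ st = 1) ∧ ps (st + x) l

/-- all sums of final segments are `0` or `1`, and the total is `t` -/
def cs : List ℤ → ℤ → Prop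
  | [], t => t = 0
  | x :: l, t => (t = 0 ∨ t = 1) ∧ cs l (t - x)

theorem cs_iff_ps (l : List ℤ) : ∀ t : ℤ, cs l t ↔ ps (1 - t) l := by
  induction l with
  | nil => intro t; simp only [cs, ps]; omega
  | cons x l ih =>
    intro t
    simp only [cs, ps, ih]
    have : 1 - (t - x) = 1 - t + x := by ring
    rw [this]
    constructor
    · rintro ⟨h1, h2⟩; exact ⟨by omega, h2⟩
    · rintro ⟨h1, h2⟩; exact ⟨by omega, h2⟩

theorem cs_bit {l : List ℤ} {t : ℤ} (h : cs l t) : t = 0 ∨ t = 1 := by
  cases l with
  | nil => exact Or.inl h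
  | cons x l => exact h.1

theorem ps_sum (l : List ℤ) : ∀ st : ℤ, ps st l → st + l.sum = 1 := by
  induction l with
  | nil => intro st h; simpa [ps] using h
  | cons x l ih =>
    intro st h
    have := ih _ h.2
    simp only [List.sum_cons]
    linarith

theorem ps_bit {l : List ℤ} {st : ℤ} (h : ps st l) : st = 0 ∨ st = 1 := by
  cases l with
  | nil => exact Or.inr h
  | cons x l => exact h.1

theorem ps_of_nonneg (l : List ℤ) : ∀ st : ℤ, 0 ≤ st → (∀ x ∈ l, 0 ≤ x) → st + l.sum = 1 → ps st l := by
  induction l with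
  | nil => intro st _ _ h; simpa [ps] using h
  | cons x l ih =>
    intro st h0 h1 h2
    have hx := h1 x (by simp)
    have hl : 0 ≤ l.sum := List.sum_nonneg (fun y hy => h1 y (by simp [hy]))
    simp only [List.sum_cons] at h2
    refine ⟨by omega, ih (st + x) (by omega) (fun y hy => h1 y (by simp [hy])) (by omega)⟩

/-- the alternating list which starts with `-1` -/
def altB (m : ℕ) : List ℤ := (List.range (2 * m)).map (fun i => (-1) ^ (i + 1))

/-- the alternating list which starts with `1` -/
def altA (m : ℕ) : List ℤ := (List.range (2 * m + 1)).map (fun i => (-1) ^ i)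

theorem altA_eq (m : ℕ) : altA m = 1 :: altB m := by
  unfold altA altB
  rw [List.range_succ_eq_map]
  simp [Function.comp_def]

theorem altB_succ (m : ℕ) : altB (m + 1) = -1 :: altA m := by
  unfold altA altB
  have : 2 * (m + 1) = (2 * m + 1) + 1 := by ring
  rw [this, List.range_succ_eq_map (n := 2 * m + 1)]
  simp only [List.map_cons, List.map_map, zero_add, pow_one]
  congr 1
  apply List.map_congr_left
  intro i _
  simp only [Function.comp, Nat.succ_eq_add_one]
  ring

theorem ps_iff (l : List ℤ) : (ps 0 l ↔ ∃ m, l.filter (fun x => x ≠ 0) = altA m) ∧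
    (ps 1 l ↔ ∃ m, l.filter (fun x => x ≠ 0) = altB m) := by
  induction l with
  | nil =>
    constructor
    · constructor
      · intro h; simp [ps] at h
      · rintro ⟨m, hm⟩
        rw [altA_eq] at hm
        simp at hm
    · constructor
      · intro _; exact ⟨0, rfl⟩
      · intro _; rfl
  | cons x l ih =>
    by_cases hx : x = 0
    · subst hx
      have h1 : (0 :: l).filter (fun x : ℤ => decide (x ≠ 0)) = l.filter (fun x => decide (x ≠ 0)) := by
        simp
      rw [h1]
      constructor
      · rw [← ih.1]; simp [ps]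
      · rw [← ih.2]; simp [ps]
    · have h1 : (x :: l).filter (fun x : ℤ => decide (x ≠ 0)) = x :: l.filter (fun x => decide (x ≠ 0)) := by
        simp [hx]
      rw [h1]
      constructor
      · constructor
        · rintro ⟨-, h2⟩
          have h3 := ps_bit h2
          have h4 : x = 1 := by omega
          subst h4
          obtain ⟨m, hm⟩ := ih.2.mp (by simpa using h2)
          exact ⟨m, by rw [altA_eq, hm]⟩
        · rintro ⟨m, hm⟩
          rw [altA_eq] at hm
          obtain ⟨rfl, h3⟩ := List.cons.inj hm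
          exact ⟨Or.inl rfl, by simpa using ih.2.mpr ⟨m, h3⟩⟩
      · constructor
        · rintro ⟨-, h2⟩
          have h3 := ps_bit h2
          have h4 : x = -1 := by omega
          subst h4
          obtain ⟨m, hm⟩ := ih.1.mp (by simpa using h2)
          exact ⟨m + 1, by rw [altB_succ, hm]⟩
        · rintro ⟨m, hm⟩
          cases m with
          | zero => simp [altB] at hm
          | succ m =>
            rw [altB_succ] at hm
            obtain ⟨rfl, h3⟩ := List.cons.inj hm
            exact ⟨Or.inr rfl, by simpa using ih.1.mpr ⟨m, h3⟩⟩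

theorem alternates_iff (l : List ℤ) : Alternates l ↔ ps 0 l := (ps_iff l).1.symm

theorem alternates_iff' (l : List ℤ) : Alternates l ↔ cs l 1 := by
  rw [alternates_iff, cs_iff_ps, sub_self]

/-- the value of a bit -/
def bv (e : Bool) : ℤ := if e then 1 else 0

/-- the positions of the bits `true` -/
def tl : ℤ → List Bool → List ℤ
  | _, [] => []
  | a, true :: s => a :: tl (a + 1) s
  | a, false :: s => tl (a + 1) s

open Classical in
/-- the sum over the possible previous rows -/
def rho {N : ℕ} (st : ℤ) (s : Fin N → Bool) (G : (Fin N → Bool) → ℚ) : ℚ :=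
  ∑ s' : Fin N → Bool, if ps st (List.ofFn fun i => bv (s i) - bv (s' i)) then G s' else 0

/-- the sum over the rows above the given row -/
def nx : List ℤ → (List ℤ → ℚ) → ℚ
  | [], _ => 0
  | y :: r, F => gs r y F

theorem gs_step (r : List ℤ) (a : ℤ) (F : List ℤ → ℚ) :
    gs r a F = gs r (a + 1) F + nx r (fun m => F (a :: m)) := by
  cases r with
  | nil => simp [gs, nx]
  | cons y r => simp only [gs, nx, ss_succ]; ring

theorem al_nx (m : ℕ) (w : List ℤ) : al (m + 1) w = nx w (al m) := by
  cases w with
  | nil => rw [al_succ]; rfl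
  | cons y r => rw [al_gs]; rfl

theorem rho_cons {N : ℕ} (st : ℤ) (hst : st = 0 ∨ st = 1) (s : Fin (N + 1) → Bool)
    (G : (Fin (N + 1) → Bool) → ℚ) :
    rho st s G = rho (st + bv (s 0) - 1) (fun i => s i.succ) (fun s' => G (Fin.cons true s')) +
      rho (st + bv (s 0)) (fun i => s i.succ) (fun s' => G (Fin.cons false s')) := by
  classical
  unfold rho
  rw [← (Fin.consEquiv (fun _ : Fin (N + 1) => Bool)).sum_comp, Fintype.sum_prod_type, Fintype.sum_bool]
  have h1 : ∀ (e : Bool) (s' : Fin N → Bool),
      (ps st (List.ofFn fun i : Fin (N + 1) => bv (s i) - bv ((Fin.cons e s' : Fin (N + 1) → Bool) i)) ↔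
      ps (st + bv (s 0) - bv e) (List.ofFn fun i : Fin N => bv (s i.succ) - bv (s' i))) := by
    intro e s'
    rw [List.ofFn_succ]
    simp only [ps, Fin.cons_zero, Fin.cons_succ, hst, true_and, add_sub_assoc]
  have key : ∀ (A B : Prop) (dA : Decidable A) (dB : Decidable B) (x : ℚ), (A ↔ B) →
      @ite ℚ A dA x 0 = @ite ℚ B dB x 0 := by
    intro A B dA dB x h
    by_cases hA : A
    · rw [if_pos hA, if_pos (h.mp hA)]
    · rw [if_neg hA, if_neg (fun hB => hA (h.mpr hB))]
  congr 1
  · apply Finset.sum_congr rfl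
    intro s' _
    exact key _ _ _ _ _ (h1 true s')
  · apply Finset.sum_congr rfl
    intro s' _
    refine key _ _ _ _ _ ((h1 false s').trans ?_)
    have : st + bv (s 0) - bv false = st + bv (s 0) := by simp [bv]
    rw [this]

theorem rho_bad {N : ℕ} (st : ℤ) (hst : ¬ (st = 0 ∨ st = 1)) (s : Fin N → Bool)
    (G : (Fin N → Bool) → ℚ) : rho st s G = 0 := by
  classical
  unfold rho
  apply Finset.sum_eq_zero
  intro s' _
  rw [if_neg]
  intro h
  exact hst (ps_bit h)

theorem rho_eq (N : ℕ) : ∀ (a : ℤ) (s : Fin N → Bool) (F : List ℤ → ℚ),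
    rho 1 s (fun s' => F (tl a (List.ofFn s'))) = gs (tl a (List.ofFn s)) a F ∧
    rho 0 s (fun s' => F (tl a (List.ofFn s'))) = nx (tl a (List.ofFn s)) F := by
  induction N with
  | zero =>
    intro a s F
    constructor
    · simp [rho, ps, tl, gs]
    · simp [rho, ps, tl, nx]
  | succ N ih =>
    intro a s F
    have e1 : ∀ s' : Fin N → Bool, tl a (List.ofFn (Fin.cons true s' : Fin (N + 1) → Bool)) =
        a :: tl (a + 1) (List.ofFn s') := by
      intro s'
      rw [List.ofFn_succ]
      simp only [Fin.cons_zero, Fin.cons_succ, tl]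
    have e2 : ∀ s' : Fin N → Bool, tl a (List.ofFn (Fin.cons false s' : Fin (N + 1) → Bool)) =
        tl (a + 1) (List.ofFn s') := by
      intro s'
      rw [List.ofFn_succ]
      simp only [Fin.cons_zero, Fin.cons_succ, tl]
    have i1 := fun F => (ih (a + 1) (fun i => s i.succ) F).1
    have i0 := fun F => (ih (a + 1) (fun i => s i.succ) F).2
    constructor
    · rw [rho_cons 1 (Or.inr rfl)]
      simp only [e1, e2]
      cases h0 : s 0 with
      | false =>
        rw [List.ofFn_succ, h0]
        simp only [tl, bv, Bool.false_eq_true, if_false, add_zero, sub_self]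
        rw [i1, i0 (fun m => F (a :: m)), gs_step _ a]
        ring
      | true =>
        rw [List.ofFn_succ, h0]
        simp only [tl, bv, if_true, gs, sub_self, zero_add, add_sub_cancel_right]
        rw [i1 (fun m => F (a :: m)), rho_bad (1 + 1) (by norm_num), add_zero]
    · rw [rho_cons 0 (Or.inl rfl)]
      simp only [e1, e2]
      cases h0 : s 0 with
      | false =>
        rw [List.ofFn_succ, h0]
        simp only [tl, bv, Bool.false_eq_true, if_false, add_zero, zero_sub]
        rw [i0, rho_bad (-1) (by norm_num), zero_add]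
      | true =>
        rw [List.ofFn_succ, h0]
        simp only [tl, bv, if_true, nx, sub_self, zero_add]
        rw [i1, i0 (fun m => F (a :: m)), gs_step _ a]
        ring

/-- the matrices with `m` rows, alternating rows, column sums `s` and final column sums `0` or `1` -/
def Good (m : ℕ) {N : ℕ} (s : Fin N → Bool) : Type :=
  {a : Fin m → Fin N → ℤ // (∀ i, ps 0 (List.ofFn (a i))) ∧
    ∀ j, cs (List.ofFn fun i => a i j) (bv (s j))}

theorem bv_inj {e e' : Bool} (h : bv e = bv e') : e = e' := by
  cases e <;> cases e' <;> simp [bv] at h ⊢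

theorem bv_decide {t : ℤ} (h : t = 0 ∨ t = 1) : bv (decide (t = 1)) = t := by
  rcases h with rfl | rfl <;> simp [bv]

theorem sigma_good_ext {m N : ℕ} {Q : (Fin N → Bool) → Prop} {s' s'' : Fin N → Bool} (h : s'' = s')
    {p'' : Q s''} {p' : Q s'} {a'' a' : Fin m → Fin N → ℤ} (h2 : a'' = a')
    {q'' : (∀ i, ps 0 (List.ofFn (a'' i))) ∧ ∀ j, cs (List.ofFn fun i => a'' i j) (bv (s'' j))}
    {q' : (∀ i, ps 0 (List.ofFn (a' i))) ∧ ∀ j, cs (List.ofFn fun i => a' i j) (bv (s' j))} :
    (⟨⟨s'', p''⟩, ⟨a'', q''⟩⟩ : Σ s' : {s' : Fin N → Bool // Q s'}, Good m s'.1) =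
      ⟨⟨s', p'⟩, ⟨a', q'⟩⟩ := by
  subst h
  subst h2
  rfl

/-- removing the first row -/
def goodEquiv (m : ℕ) {N : ℕ} (s : Fin N → Bool) : Good (m + 1) s ≃
    Σ s' : {s' : Fin N → Bool // ps 0 (List.ofFn fun i => bv (s i) - bv (s' i))}, Good m s'.1 where
  toFun a := by
    have h1 : ∀ j, bv (decide (bv (s j) - a.1 0 j = 1)) = bv (s j) - a.1 0 j := by
      intro j
      have h2 := a.2.2 j
      rw [List.ofFn_succ] at h2
      exact bv_decide (cs_bit h2.2)
    refine ⟨⟨fun j => decide (bv (s j) - a.1 0 j = 1), ?_⟩, ⟨fun i j => a.1 i.succ j, fun i => a.2.1 _, ?_⟩⟩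
    · have h3 : (fun j => bv (s j) - bv (decide (bv (s j) - a.1 0 j = 1))) = a.1 0 := by
        funext j
        rw [h1]
        ring
      rw [h3]
      exact a.2.1 0
    · intro j
      simp only
      rw [h1]
      have h2 := a.2.2 j
      rw [List.ofFn_succ] at h2
      exact h2.2
  invFun x := ⟨Fin.cons (fun j => bv (s j) - bv (x.1.1 j)) x.2.1, by
    refine ⟨fun i => ?_, fun j => ?_⟩
    · rcases Fin.eq_zero_or_eq_succ i with rfl | ⟨i, rfl⟩
      · rw [Fin.cons_zero]
        exact x.1.2
      · rw [Fin.cons_succ]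
        exact x.2.2.1 i
    · rw [List.ofFn_succ]
      simp only [Fin.cons_zero, Fin.cons_succ]
      refine ⟨by cases s j <;> simp [bv], ?_⟩
      rw [sub_sub_cancel]
      exact x.2.2.2 j⟩
  left_inv a := by
    apply Subtype.ext
    funext i j
    rcases Fin.eq_zero_or_eq_succ i with rfl | ⟨i, rfl⟩
    · have h1 : bv (decide (bv (s j) - a.1 0 j = 1)) = bv (s j) - a.1 0 j := by
        have h2 := a.2.2 j
        rw [List.ofFn_succ] at h2
        exact bv_decide (cs_bit h2.2)
      simp only [Fin.cons_zero]
      rw [h1]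
      ring
    · simp only [Fin.cons_succ]
  right_inv x := by
    obtain ⟨⟨s', hs'⟩, ⟨a, ha⟩⟩ := x
    apply sigma_good_ext
    · funext j
      simp only [Fin.cons_zero]
      rw [sub_sub_cancel]
      cases s' j <;> simp [bv]
    · funext i j
      simp only [Fin.cons_succ]

theorem good_finite (m : ℕ) {N : ℕ} : ∀ s : Fin N → Bool, Finite (Good m s) := by
  induction m with
  | zero =>
    intro s
    have : Subsingleton (Good 0 s) := ⟨fun a c => Subtype.ext (funext fun i => Fin.elim0 i)⟩
    infer_instance
  | succ m ih =>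
    intro s
    have := fun s' : {s' : Fin N → Bool // ps 0 (List.ofFn fun i => bv (s i) - bv (s' i))} => ih s'.1
    exact Finite.of_equiv _ (goodEquiv m s).symm

theorem tl_eq_nil (l : List Bool) : ∀ a : ℤ, tl a l = [] ↔ ∀ e ∈ l, e = false := by
  induction l with
  | nil => intro a; simp [tl]
  | cons e l ih =>
    intro a
    cases e with
    | true => simp [tl]
    | false => simp [tl, ih]

theorem al_zero (w : List ℤ) : al 0 w = if w = [] then 1 else 0 := by
  cases w with
  | nil => rfl
  | cons x w =>
    unfold al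
    rw [T_congr_len _ _ (fun _ => 0) (fun m hm => by
      cases m with
      | nil => simp at hm
      | cons y m => simp [b]), T_zero]
    simp

/-- the number of the partial alternating sign matrices -/
theorem good_card (m : ℕ) {N : ℕ} : ∀ s : Fin N → Bool,
    (Nat.card (Good m s) : ℚ) = al m (tl 1 (List.ofFn s)) := by
  classical
  induction m with
  | zero =>
    intro s
    rw [al_zero]
    have hiff : tl 1 (List.ofFn s) = [] ↔ ∀ j, s j = false := by
      rw [tl_eq_nil]
      constructor
      · intro h j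
        exact h _ (by rw [List.mem_ofFn]; exact ⟨j, rfl⟩)
      · intro h e he
        rw [List.mem_ofFn] at he
        obtain ⟨j, rfl⟩ := he
        exact h j
    by_cases h : ∀ j, s j = false
    · rw [if_pos (hiff.mpr h)]
      have : Nat.card (Good 0 s) = 1 := by
        rw [Nat.card_eq_one_iff_unique]
        refine ⟨⟨fun a c => Subtype.ext (funext fun i => Fin.elim0 i)⟩,
          ⟨⟨fun i => Fin.elim0 i, fun i => Fin.elim0 i, fun j => ?_⟩⟩⟩
        rw [List.ofFn_zero, h j]
        rfl
      rw [this]
      norm_num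
    · rw [if_neg (fun h' => h (hiff.mp h'))]
      have : IsEmpty (Good 0 s) := by
        constructor
        intro a
        apply h
        intro j
        have h2 := a.2.2 j
        rw [List.ofFn_zero] at h2
        have h3 : bv (s j) = 0 := h2
        cases h4 : s j
        · rfl
        · rw [h4] at h3; simp [bv] at h3
      rw [Nat.card_of_isEmpty]
      norm_num
  | succ m ih =>
    intro s
    have hfin := good_finite m (N := N)
    rw [Nat.card_congr (goodEquiv m s), Nat.card_sigma, al_nx]
    push_cast
    have h1 : ∑ x : {s' : Fin N → Bool // ps 0 (List.ofFn fun i => bv (s i) - bv (s' i))},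
        (Nat.card (Good m x.1) : ℚ) = rho 0 s (fun s' => (Nat.card (Good m s') : ℚ)) := by
      unfold rho
      rw [← Finset.sum_filter, Finset.sum_subtype (p := fun s' : Fin N → Bool =>
        ps 0 (List.ofFn fun i => bv (s i) - bv (s' i))) _ (by simp)]
    rw [h1]
    simp only [ih]
    exact (rho_eq N 1 s (al m)).2

theorem isASM_iff {n : ℕ} (a : Fin n → Fin n → ℤ) : IsASM a ↔
    (∀ i, ps 0 (List.ofFn (a i))) ∧ ∀ j, cs (List.ofFn fun i => a i j) 1 := by
  unfold IsASM
  simp only [alternates_iff', ← alternates_iff]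

theorem asm_top {n : ℕ} {a : Fin (n + 1) → Fin (n + 1) → ℤ} (ha : IsASM a) {j : Fin (n + 1)}
    (hj : a 0 j = 1) : a 0 = Pi.single j 1 := by
  rw [isASM_iff] at ha
  have h1 : ∀ i, 0 ≤ a 0 i := by
    intro i
    have h2 := ha.2 i
    rw [List.ofFn_succ] at h2
    have h3 := cs_bit h2.2
    omega
  have h2 := ps_sum _ _ (ha.1 0)
  rw [List.sum_ofFn, zero_add, ← Finset.add_sum_erase _ _ (Finset.mem_univ j), hj] at h2
  have h3 : ∀ i ∈ Finset.univ.erase j, a 0 i = 0 :=
    (Finset.sum_eq_zero_iff_of_nonneg (fun i _ => h1 i)).mp (by linarith)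
  funext i
  by_cases hi : i = j
  · subst hi; rw [Pi.single_eq_same, hj]
  · rw [Pi.single_eq_of_ne hi]
    exact h3 i (Finset.mem_erase.mpr ⟨hi, Finset.mem_univ i⟩)

/-- removing the first row of an alternating sign matrix -/
def asmEquiv (n : ℕ) (j : Fin (n + 1)) :
    {a : Fin (n + 1) → Fin (n + 1) → ℤ // IsASM a ∧ a 0 j = 1} ≃
      Good n (fun i : Fin (n + 1) => decide (i ≠ j)) where
  toFun a := ⟨fun i => a.1 i.succ, by
    have h := (isASM_iff _).mp a.2.1
    refine ⟨fun i => h.1 _, fun i => ?_⟩
    have h2 := h.2 i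
    rw [List.ofFn_succ] at h2
    have h3 := h2.2
    have h4 : (1 : ℤ) - a.1 0 i = bv (decide (i ≠ j)) := by
      rw [asm_top a.2.1 a.2.2]
      by_cases hi : i = j
      · subst hi; simp [bv]
      · rw [Pi.single_eq_of_ne hi]; simp [bv, hi]
    rw [h4] at h3
    exact h3⟩
  invFun a := ⟨Fin.cons (Pi.single j 1) a.1, by
    rw [isASM_iff]
    refine ⟨⟨fun i => ?_, fun i => ?_⟩, ?_⟩
    · rcases Fin.eq_zero_or_eq_succ i with rfl | ⟨i, rfl⟩
      · rw [Fin.cons_zero]
        apply ps_of_nonneg _ _ le_rfl
        · intro x hx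
          rw [List.mem_ofFn] at hx
          obtain ⟨i, rfl⟩ := hx
          by_cases hi : i = j
          · subst hi; simp
          · rw [Pi.single_eq_of_ne hi]
        · rw [List.sum_ofFn, Finset.sum_pi_single']
          simp
      · rw [Fin.cons_succ]
        exact a.2.1 i
    · rw [List.ofFn_succ]
      simp only [Fin.cons_zero, Fin.cons_succ]
      refine ⟨Or.inr rfl, ?_⟩
      have h4 : (1 : ℤ) - (Pi.single j 1 : Fin (n + 1) → ℤ) i = bv (decide (i ≠ j)) := by
        by_cases hi : i = j
        · subst hi; simp [bv]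
        · rw [Pi.single_eq_of_ne hi]; simp [bv, hi]
      rw [h4]
      exact a.2.2 i
    · rw [Fin.cons_zero, Pi.single_eq_same]⟩
  left_inv a := by
    apply Subtype.ext
    funext i
    rcases Fin.eq_zero_or_eq_succ i with rfl | ⟨i, rfl⟩
    · exact (asm_top a.2.1 a.2.2).symm
    · rfl
  right_inv a := by
    apply Subtype.ext
    funext i
    rfl

theorem tl_true (m : ℕ) : ∀ a : ℤ, tl a (List.ofFn fun _ : Fin m => true) = up a m := by
  induction m with
  | zero => intro a; rfl
  | succ m ih =>
    intro a
    rw [List.ofFn_succ]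
    simp only [tl, up, ih]

theorem tl_del (m : ℕ) : ∀ (a : ℤ) (j : Fin m),
    tl a (List.ofFn fun i : Fin m => decide (i ≠ j)) = del a m j := by
  induction m with
  | zero => intro a j; exact Fin.elim0 j
  | succ m ih =>
    intro a j
    rw [List.ofFn_succ]
    rcases Fin.eq_zero_or_eq_succ j with rfl | ⟨j, rfl⟩
    · have h1 : (fun i : Fin m => decide (i.succ ≠ 0)) = fun _ => true := by
        funext i
        simp [Fin.succ_ne_zero]
      simp only [ne_eq, not_true_eq_false, decide_false, tl, Fin.val_zero, del]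
      simp only [ne_eq] at h1
      rw [h1, tl_true]
    · have h1 : (fun i : Fin m => decide (i.succ ≠ j.succ)) = fun i => decide (i ≠ j) := by
        funext i
        simp [Fin.succ_inj]
      have h2 : decide ((0 : Fin (m + 1)) ≠ j.succ) = true := by
        simp [(Fin.succ_ne_zero j).symm]
      rw [h1, h2]
      simp only [tl, Fin.val_succ, del]
      rw [ih]

/-- the refined alternating sign matrix numbers -/
theorem asm_card (n : ℕ) (j : Fin (n + 1)) :
    (Nat.card {a : Fin (n + 1) → Fin (n + 1) → ℤ // IsASM a ∧ a 0 j = 1} : ℚ) =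
      al n (del 1 (n + 1) j) := by
  rw [Nat.card_congr (asmEquiv n j), good_card, tl_del]

end Pool.Agent.Q258.MT
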