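import Pool.Agent.Q258.MT.Alg2
import Pool.Agent.Q258.MT.Asm

set_option autoImplicit false

/-!
The operator of the rows above on the algebra of words.
-/

noncomputable section

namespace Pool.Agent.Q258.MT

/-- signed sum over `0 ≤ m < x` in the algebra of words -/
def ssA (x : ℤ) (g : ℤ → WA) : WA := ∑ m ∈ Finset.Ico 0 x, g m - ∑ m ∈ Finset.Ico x 0, g m

theorem ssA_succ (x : ℤ) (g : ℤ → WA) : ssA (x + 1) g = ssA x g + g x := by
  unfold ssA
  rcases le_or_gt 0 x with h | h
  · rw [Finset.Ico_eq_empty_of_le (a := x + 1) (b := 0) (by omega), Finset.Ico_eq_empty_of_le (a := x) (b := 0) h]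
    rw [← Finset.insert_Ico_right_eq_Ico_add_one h]
    rw [Finset.sum_insert (by simp)]
    simp only [Finset.sum_empty, sub_zero]
    rw [add_comm]
  · rw [Finset.Ico_eq_empty_of_le (a := 0) (b := x + 1) (by omega),
      Finset.Ico_eq_empty_of_le (a := 0) (b := x) (by omega)]
    rw [← Finset.insert_Ico_add_one_left_eq_Ico h, Finset.sum_insert (by simp)]
    simp only [Finset.sum_empty, zero_sub]
    abel

/-- signed sum over `x ≤ m < y` of the letters -/
def sg0 (x y : ℤ) : WA := ssA y X - ssA x X

/-- signed sum over `x ≤ m ≤ y` of the letters -/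
def sgm (x y : ℤ) : WA := sg0 x y + X y

theorem sg0_self (x : ℤ) : sg0 x x = 0 := sub_self _

theorem sg0_succ (x y : ℤ) : sg0 x (y + 1) = sg0 x y + X y := by
  unfold sg0; rw [ssA_succ]; abel

theorem sg0_succ_left (x y : ℤ) : sg0 (x + 1) y = sg0 x y - X x := by
  unfold sg0; rw [ssA_succ]; abel

theorem sgm_self (x : ℤ) : sgm x x = X x := by unfold sgm; rw [sg0_self, zero_add]

theorem sgm_succ (x y : ℤ) : sgm x (y + 1) = sgm x y + X (y + 1) := by
  unfold sgm; rw [sg0_succ]

theorem sgm_pred (x y : ℤ) : sgm x (y - 1) = sgm x y - X y := by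
  have h := sgm_succ x (y - 1)
  rw [sub_add_cancel] at h
  rw [h]; abel

theorem sgm_succ_left (x y : ℤ) : sgm (x + 1) y = sgm x y - X x := by
  unfold sgm; rw [sg0_succ_left]; abel

/-- the linear combination of the rows above -/
def gsA : List ℤ → ℤ → WA
  | [], _ => 1
  | y :: r, x => sg0 x y * gsA r y + X y * gsA r (y + 1)

/-- the linear combination of the rows above the given row -/
def nxA : List ℤ → WA
  | [] => 0
  | y :: r => gsA r y

theorem evq_ssA (f : List ℤ → ℚ) (hf : Anti f) (x : ℤ) (g : ℤ → WA) (a : WA) :
    evq f hf (ssA x g * a) = ss x (fun l => evq f hf (g l * a)) := by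
  unfold ssA ss
  rw [sub_mul, Finset.sum_mul, Finset.sum_mul, map_sub, map_sum, map_sum]

theorem evq_gsA (r : List ℤ) : ∀ (x : ℤ) (f : List ℤ → ℚ) (hf : Anti f),
    evq f hf (gsA r x) = gs r x (fun m => T m f) := by
  induction r with
  | nil =>
    intro x f hf
    have := evq_W [] f hf
    rw [W_nil] at this
    rw [gsA, this]
    rfl
  | cons y r ih =>
    intro x f hf
    simp only [gsA, gs]
    have h1 : ∀ (l : ℤ) (y : ℤ), evq f hf (X l * gsA r y) = gs r y (fun m => T (l :: m) f) := by
      intro l y
      rw [evq_X_mul, ih]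
      rfl
    rw [map_add, sg0, sub_mul, map_sub, evq_ssA, evq_ssA]
    simp only [h1]

theorem gs_T (r : List ℤ) (x : ℤ) {f : List ℤ → ℚ} (hf : Anti f) :
    gs r x (fun m => T m f) = T (x :: r) (fun l => D l (fun m => S m f)) := by
  rw [T_D, ← gs_Dl r x _ (Rel_T hf.S).diag]
  congr 1
  funext l
  rw [← T_Dl]
  congr 1
  funext m
  rw [Dl_S]

theorem d_exists : ∃ Φ : WA →ₗ[ℚ] WA, (∀ w, Φ (W w) = nxA w) ∧
    ∀ (f : List ℤ → ℚ) (hf : Anti f) (a : WA), evq f hf (Φ a) = evq (fun l => D l (fun m => S m f)) hf.S.D a := by
  refine lin_exists nxA (fun f l => D l (fun m => S m f)) (fun f hf => hf.S.D) (fun f hf w => ?_)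
  cases w with
  | nil => rw [nxA, map_zero]; rfl
  | cons y r => rw [nxA, evq_gsA, gs_T r y hf]

/-- the operator of the rows above -/
def d : WA →ₗ[ℚ] WA := Classical.choose d_exists

theorem d_W (w : List ℤ) : d (W w) = nxA w := (Classical.choose_spec d_exists).1 w

theorem d_one : d 1 = 0 := by rw [← W_nil, d_W]; rfl

theorem d_X (z : ℤ) : d (X z) = 1 := by rw [← W_single, d_W]; rfl

theorem gsA_succ (r : List ℤ) (x : ℤ) : gsA r (x + 1) = gsA r x - X x * nxA r := by
  cases r with
  | nil => simp [gsA, nxA]
  | cons y r =>
    simp only [gsA, nxA]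
    rw [sg0_succ_left, sub_mul]
    abel

theorem gsA_cons (x y : ℤ) (r : List ℤ) :
    gsA (y :: r) x = sgm x y * nxA (y :: r) - X y * X y * nxA r := by
  rw [gsA, gsA_succ, nxA, sgm, add_mul, mul_sub, mul_assoc]
  abel

/-- the continuant rule from the left -/
theorem d_left (x y : ℤ) (a : WA) : d (X x * X y * a) = sgm x y * d (X y * a) - X y * X y * d a := by
  induction a using W_induction with
  | h1 w =>
    rw [mul_assoc, ← W_cons, ← W_cons, d_W, d_W, d_W, nxA, gsA_cons]
  | h2 a b ha hb =>
    rw [mul_add, map_add, ha, hb, mul_add, map_add, map_add, mul_add, mul_add]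
    abel
  | h3 c a ha =>
    rw [mul_smul_comm, map_smul, ha, mul_smul_comm, map_smul, map_smul, mul_smul_comm, mul_smul_comm,
      smul_sub]

/-- the continuant rule from the right -/
theorem d_right (x y : ℤ) (a : WA) : d (a * X x * X y) = d (a * X x) * sgm x y - d a * (X x * X x) := by
  have key : ∀ (n : ℕ) (w : List ℤ), w.length ≤ n →
      d (W w * X x * X y) = d (W w * X x) * sgm x y - d (W w) * (X x * X x) := by
    intro n
    induction n with
    | zero =>
      intro w hw
      have : w = [] := List.eq_nil_of_length_eq_zero (by omega)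
      subst this
      rw [W_nil, one_mul, d_one, zero_mul, sub_zero, d_X, one_mul]
      have h := d_left x y 1
      rw [mul_one, mul_one, d_X, d_one, mul_one, mul_zero, sub_zero] at h
      exact h
    | succ n ih =>
      intro w hw
      match w with
      | [] => exact ih [] (by simp)
      | [z] =>
        rw [W_single]
        have h1 := d_left z x (X y)
        have h2 := d_left x y 1
        have h3 := d_left z x 1
        rw [mul_one, mul_one, d_X, d_one, mul_one, mul_zero, sub_zero] at h2 h3
        rw [h1, h2, h3, d_X, d_X, mul_one, one_mul]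
      | z :: z' :: w =>
        have i1 := ih (z' :: w) (by simp at hw ⊢; omega)
        have i2 := ih w (by simp at hw ⊢; omega)
        rw [W_cons] at i1
        have e1 : W (z :: z' :: w) * X x * X y = X z * X z' * (W w * X x * X y) := by
          rw [W_cons, W_cons]; noncomm_ring
        have e2 : W (z :: z' :: w) * X x = X z * X z' * (W w * X x) := by
          rw [W_cons, W_cons]; noncomm_ring
        have e3 : W (z :: z' :: w) = X z * X z' * W w := by
          rw [W_cons, W_cons]; noncomm_ring
        have e4 : X z' * (W w * X x * X y) = X z' * W w * X x * X y := by noncomm_ring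
        have e5 : X z' * (W w * X x) = X z' * W w * X x := by noncomm_ring
        rw [e1, e2, e3, d_left, d_left, d_left, e4, e5, i1, i2]
        noncomm_ring
  induction a using W_induction with
  | h1 w => exact key w.length w le_rfl
  | h2 a b ha hb =>
    rw [add_mul, add_mul, map_add, ha, hb, map_add, map_add, add_mul, add_mul]
    abel
  | h3 c a ha =>
    rw [smul_mul_assoc, smul_mul_assoc, map_smul, ha, map_smul, map_smul, smul_mul_assoc,
      smul_mul_assoc, smul_sub]

/-- the last letter -/
theorem d_mul_M_X (a : WA) (z : ℤ) : d (a * (X z - X (z + 1))) = - (d a * X (z + 1)) := by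
  have key : ∀ (r : List ℤ) (x : ℤ), gsA (r ++ [z + 1]) x = gsA (r ++ [z]) x + gsA r x * X (z + 1) := by
    intro r
    induction r with
    | nil =>
      intro x
      simp only [List.nil_append, gsA, mul_one, one_mul]
      rw [sg0_succ]
    | cons y r ih =>
      intro x
      simp only [List.cons_append, gsA]
      rw [ih, ih]
      noncomm_ring
  induction a using W_induction with
  | h1 w =>
    cases w with
    | nil =>
      rw [W_nil, one_mul, d_one, zero_mul, neg_zero, map_sub, d_X, d_X, sub_self]
    | cons y r =>
      have e : ∀ z, W (y :: r) * X z = W (y :: (r ++ [z])) := by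
        intro z
        rw [← List.cons_append, W_append, W_single]
      rw [mul_sub, map_sub, e, e, d_W, d_W, d_W]
      simp only [nxA]
      rw [key]
      abel
  | h2 a b ha hb => rw [add_mul, map_add, ha, hb, map_add, add_mul]; abel
  | h3 c a ha => rw [smul_mul_assoc, map_smul, ha, map_smul, smul_mul_assoc, smul_neg]

theorem d_mul_M (a b : WA) : d (a * M b) = d a * Ls b := by
  induction b using W_induction with
  | h1 w =>
    induction w using List.reverseRecOn with
    | nil => rw [W_nil, map_one, map_one, mul_one, mul_one]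
    | append_singleton w z ih =>
      rw [W_append, W_single, map_mul M, map_mul Ls, M_X, Ls_X, ← mul_assoc, d_mul_M_X, ih]
      noncomm_ring
  | h2 x y hx hy => rw [map_add, map_add, mul_add, mul_add, map_add, hx, hy]
  | h3 c x hx => rw [map_smul, map_smul, mul_smul_comm, mul_smul_comm, map_smul, hx]

theorem d_M (b : WA) : d (M b) = 0 := by
  have := d_mul_M 1 b
  rwa [one_mul, d_one, zero_mul] at this

/-- reflection of the signed sums -/
theorem Rf_sgm (x y : ℤ) : Rf (sgm x y) = sgm (-y) (-x) := by
  have h1 : ∀ n : ℕ, Rf (sgm x (x + n)) = sgm (-(x + n)) (-x) := by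
    intro n
    induction n with
    | zero => simp [sgm_self, Rf_X]
    | succ n ih =>
      have e : x + ((n + 1 : ℕ) : ℤ) = x + n + 1 := by push_cast; ring
      rw [e, sgm_succ, map_add, ih, Rf_X]
      have h := sgm_succ_left (-(x + n + 1)) (-x)
      have e2 : -(x + n + 1) + 1 = -(x + (n : ℤ)) := by ring
      rw [e2] at h
      rw [h]; abel
  have h2 : ∀ n : ℕ, Rf (sgm x (x - n)) = sgm (-(x - n)) (-x) := by
    intro n
    induction n with
    | zero => simp [sgm_self, Rf_X]
    | succ n ih =>
      have e : x - ((n + 1 : ℕ) : ℤ) = x - n - 1 := by push_cast; ring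
      rw [e, sgm_pred, map_sub, ih, Rf_X]
      have h := sgm_succ_left (-(x - n)) (-x)
      have e2 : -(x - n - 1) = -(x - (n : ℤ)) + 1 := by ring
      rw [e2, h]
  rcases le_total x y with h | h
  · obtain ⟨n, hn⟩ := Int.eq_ofNat_of_zero_le (sub_nonneg.mpr h)
    have : y = x + n := by omega
    rw [this]; exact h1 n
  · obtain ⟨n, hn⟩ := Int.eq_ofNat_of_zero_le (sub_nonneg.mpr h)
    have : y = x - n := by omega
    rw [this]; exact h2 n

theorem d_Rf (a : WA) : d (Rf a) = Rf (d a) := by
  have key : ∀ (n : ℕ) (w : List ℤ), w.length ≤ n → d (Rf (W w)) = Rf (d (W w)) := by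
    intro n
    induction n with
    | zero =>
      intro w hw
      have : w = [] := List.eq_nil_of_length_eq_zero (by omega)
      subst this
      rw [W_nil, Rf_one, d_one, map_zero]
    | succ n ih =>
      intro w hw
      match w with
      | [] => exact ih [] (by simp)
      | [z] => rw [W_single, Rf_X, d_X, d_X, Rf_one]
      | z :: z' :: w =>
        have i1 := ih (z' :: w) (by simp at hw ⊢; omega)
        have i2 := ih w (by simp at hw ⊢; omega)
        rw [W_cons, Rf_mul, Rf_X] at i1
        rw [W_cons, W_cons, ← mul_assoc, d_left, Rf_mul, Rf_mul, Rf_X, Rf_X, ← mul_assoc, d_right,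
          i1, i2, map_sub, Rf_mul, Rf_sgm, Rf_mul (X z' * X z'), Rf_mul, Rf_X]
  induction a using W_induction with
  | h1 w => exact key w.length w le_rfl
  | h2 a b ha hb => rw [map_add, map_add, map_add, map_add, ha, hb]
  | h3 c a ha => rw [map_smul, map_smul, map_smul, map_smul, ha]

theorem d_M'_mul (a b : WA) : d (M' b * a) = Rf (Ls (Rf b)) * d a := by
  have h : M' b * a = Rf (Rf a * M (Rf b)) := by
    rw [Rf_mul, Rf_M, Rf_Rf, Rf_Rf]
  rw [h, d_Rf, d_mul_M, Rf_mul, d_Rf, Rf_Rf]

/-- the difference of the rows above -/
theorem M_d (x : ℤ) (a : WA) : M (d (X x * a)) = X x * M (d a) + Ls a := by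
  have key : ∀ (w : List ℤ) (x : ℤ), M (d (X x * W w)) = X x * M (d (W w)) + Ls (W w) := by
    intro w
    induction w with
    | nil => intro x; rw [W_nil, mul_one, d_one, d_X, map_one, map_zero, mul_zero, zero_add, map_one]
    | cons y w ih =>
      intro x
      have hM : M (sgm x y) = X x - X (y + 1) := by
        have h1 : ∀ (y : ℤ), M (sgm x (y + 1)) = M (sgm x y) + (X (y + 1) - X (y + 1 + 1)) := by
          intro y
          rw [sgm_succ, map_add, M_X]
        have h2 : ∀ n : ℕ, M (sgm x (x + n)) = X x - X (x + n + 1) := by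
          intro n
          induction n with
          | zero => simp [sgm_self, M_X]
          | succ n ih =>
            have e : x + ((n + 1 : ℕ) : ℤ) = x + n + 1 := by push_cast; ring
            rw [e, h1, ih]; abel
        have h3 : ∀ n : ℕ, M (sgm x (x - n)) = X x - X (x - n + 1) := by
          intro n
          induction n with
          | zero => simp [sgm_self, M_X]
          | succ n ih =>
            have e : x - ((n + 1 : ℕ) : ℤ) = x - n - 1 := by push_cast; ring
            have h4 := h1 (x - n - 1)
            rw [sub_add_cancel] at h4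
            rw [e, sub_add_cancel]
            rw [ih] at h4
            have h5 : M (sgm x (x - n - 1)) = X x - X (x - ↑n + 1) - (X (x - ↑n) - X (x - ↑n + 1)) :=
              eq_sub_of_add_eq h4.symm
            rw [h5]; abel
        rcases le_total x y with h | h
        · obtain ⟨n, hn⟩ := Int.eq_ofNat_of_zero_le (sub_nonneg.mpr h)
          have : y = x + n := by omega
          rw [this]; exact h2 n
        · obtain ⟨n, hn⟩ := Int.eq_ofNat_of_zero_le (sub_nonneg.mpr h)
          have : y = x - n := by omega
          rw [this]; exact h3 n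
      rw [W_cons, ← mul_assoc, d_left, map_sub, map_mul M, hM, map_mul M, map_mul M, M_X, ih y,
        map_mul Ls, Ls_X]
      have hd := diag y
      have : (X x - X (y + 1)) * (X y * M (d (W w)) + Ls (W w)) -
          (X y - X (y + 1)) * (X y - X (y + 1)) * M (d (W w)) -
          (X x * (X y * M (d (W w)) + Ls (W w)) + -X (y + 1) * Ls (W w)) =
          (X y * X (y + 1) - (X y * X y + X (y + 1) * X (y + 1))) * M (d (W w)) := by
        noncomm_ring
      rw [hd, sub_self, zero_mul, sub_eq_zero] at this
      exact this
  induction a using W_induction with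
  | h1 w => exact key w x
  | h2 a b ha hb =>
    rw [mul_add, map_add, map_add, ha, hb, map_add, map_add, map_add, mul_add]
    abel
  | h3 c a ha =>
    rw [mul_smul_comm, map_smul, map_smul, ha, map_smul, map_smul, map_smul, mul_smul_comm, smul_add]

/-! ### the value -/

/-- the function whose value at a word is the monotone triangle polynomial -/
def bAll (l : List ℤ) : ℚ := b l.length l

theorem bAll_anti : Anti bAll := by
  intro u x y v
  unfold bAll
  have e : (u ++ x :: y :: v).length = (u ++ y :: x :: v).length := by simp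
  rw [e]
  exact b_anti _ u x y v

/-- the value of the monotone triangle polynomial -/
def Av : WA →ₗ[ℚ] ℚ := evq bAll bAll_anti

theorem Av_W (w : List ℤ) : Av (W w) = al w.length w := by
  unfold Av al
  rw [evq_W]
  apply T_congr_len
  intro m hm
  rw [bAll, hm]

theorem Av_d_W (w : List ℤ) (hw : w ≠ []) : Av (d (W w)) = Av (W w) := by
  obtain ⟨x, r, rfl⟩ := List.exists_cons_of_ne_nil hw
  rw [d_W, nxA, Av_W, List.length_cons, al_gs]
  have h1 : ∀ (r : List ℤ) (x : ℤ), Av (gsA r x) = gs r x (al r.length) := by
    intro r x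
    unfold Av
    rw [evq_gsA]
    have h2 : ∀ (r : List ℤ) (x : ℤ) (A B : List ℤ → ℚ), (∀ m, m.length = r.length → A m = B m) →
        gs r x A = gs r x B := by
      intro r
      induction r with
      | nil => intro x A B h; exact h [] rfl
      | cons y r ih =>
        intro x A B h
        simp only [gs]
        have h3 : ∀ (l y : ℤ), gs r y (fun m => A (l :: m)) = gs r y (fun m => B (l :: m)) :=
          fun l y => ih y _ _ (fun m hm => h _ (by simp [hm]))
        simp only [h3]
    apply h2
    intro m hm
    rw [← hm]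
    unfold al
    apply T_congr_len
    intro m' hm'
    rw [bAll, hm']
  exact h1 r x

end Pool.Agent.Q258.MT
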