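import Pool.Agent.Q258.MT.Alg3

set_option autoImplicit false

/-!
Words in a window of letters; the operator of the largest letter.
-/

noncomputable section

namespace Pool.Agent.Q258.MT

/-- the span of the words of length `n` with letters between `a` and `m` -/
def V (a m n : ℤ) : Submodule ℚ WA :=
  Submodule.span ℚ {x | ∃ w : List ℤ, (w.length : ℤ) = n ∧ (∀ z ∈ w, a ≤ z ∧ z ≤ m) ∧ W w = x}

theorem V_W {a m : ℤ} (w : List ℤ) (h : ∀ z ∈ w, a ≤ z ∧ z ≤ m) : W w ∈ V a m w.length :=
  Submodule.subset_span ⟨w, rfl, h, rfl⟩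

theorem V_mono {a m a' m' n : ℤ} (h1 : a' ≤ a) (h2 : m ≤ m') : V a m n ≤ V a' m' n := by
  apply Submodule.span_mono
  rintro _ ⟨w, h3, h4, rfl⟩
  exact ⟨w, h3, fun z hz => ⟨h1.trans (h4 z hz).1, (h4 z hz).2.trans h2⟩, rfl⟩

theorem V_X {a m z : ℤ} (h1 : a ≤ z) (h2 : z ≤ m) : X z ∈ V a m 1 := by
  have := V_W (a := a) (m := m) [z] (by simpa using ⟨h1, h2⟩)
  rw [W_single] at this
  exact this

theorem V_one (a m : ℤ) : (1 : WA) ∈ V a m 0 := by
  have := V_W (a := a) (m := m) [] (by simp)
  rw [W_nil] at this
  exact this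

theorem V_mul {a m n n' : ℤ} {x y : WA} (hx : x ∈ V a m n) (hy : y ∈ V a m n') : x * y ∈ V a m (n + n') := by
  induction hx using Submodule.span_induction with
  | mem x hx =>
    obtain ⟨u, hu, hu2, rfl⟩ := hx
    induction hy using Submodule.span_induction with
    | mem y hy =>
      obtain ⟨v, hv, hv2, rfl⟩ := hy
      rw [← W_append]
      refine Submodule.subset_span ⟨u ++ v, by simp [hu, hv], ?_, rfl⟩
      intro z hz
      rw [List.mem_append] at hz
      rcases hz with hz | hz
      · exact hu2 z hz
      · exact hv2 z hz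
    | zero => rw [mul_zero]; exact Submodule.zero_mem _
    | add y z _ _ h1 h2 => rw [mul_add]; exact Submodule.add_mem _ h1 h2
    | smul c y _ h => rw [mul_smul_comm]; exact Submodule.smul_mem _ _ h
  | zero => rw [zero_mul]; exact Submodule.zero_mem _
  | add y z _ _ h1 h2 => rw [add_mul]; exact Submodule.add_mem _ h1 h2
  | smul c y _ h => rw [smul_mul_assoc]; exact Submodule.smul_mem _ _ h

theorem V_cast {a m n n' : ℤ} {x : WA} (hx : x ∈ V a m n) (h : n = n') : x ∈ V a m n' := h ▸ hx

theorem V_neg {a m n : ℤ} {x : WA} (hx : x ∈ V a m n) (h : n < 0) : x = 0 := by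
  induction hx using Submodule.span_induction with
  | mem x hx =>
    obtain ⟨u, hu, -, -⟩ := hx
    omega
  | zero => rfl
  | add y z _ _ h1 h2 => rw [h1, h2, add_zero]
  | smul c y _ h => rw [h, smul_zero]

theorem V_zero_scalar {a m : ℤ} {x : WA} (hx : x ∈ V a m 0) : ∃ c : ℚ, x = c • 1 := by
  induction hx using Submodule.span_induction with
  | mem x hx =>
    obtain ⟨u, hu, -, rfl⟩ := hx
    have : u = [] := List.eq_nil_of_length_eq_zero (by omega)
    subst this
    exact ⟨1, by rw [one_smul]; rfl⟩
  | zero => exact ⟨0, by rw [zero_smul]⟩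
  | add y z _ _ h1 h2 =>
    obtain ⟨c, rfl⟩ := h1
    obtain ⟨e, rfl⟩ := h2
    exact ⟨c + e, by rw [add_smul]⟩
  | smul c y _ h =>
    obtain ⟨e, rfl⟩ := h
    exact ⟨c * e, by rw [mul_smul]⟩

/-- a linear map on a window -/
theorem V_map {a m a' m' n k : ℤ} (Φ : WA →ₗ[ℚ] WA)
    (h : ∀ w : List ℤ, (w.length : ℤ) = n → (∀ z ∈ w, a ≤ z ∧ z ≤ m) → Φ (W w) ∈ V a' m' k)
    {x : WA} (hx : x ∈ V a m n) : Φ x ∈ V a' m' k := by
  induction hx using Submodule.span_induction with
  | mem x hx =>
    obtain ⟨u, hu, hu2, rfl⟩ := hx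
    exact h u hu hu2
  | zero => rw [map_zero]; exact Submodule.zero_mem _
  | add y z _ _ h1 h2 => rw [map_add]; exact Submodule.add_mem _ h1 h2
  | smul c y _ h => rw [map_smul]; exact Submodule.smul_mem _ _ h

/-- an algebra homomorphism on a window -/
theorem V_hom {a m a' m' n : ℤ} (Φ : WA →ₐ[ℚ] WA) (h : ∀ z, a ≤ z → z ≤ m → Φ (X z) ∈ V a' m' 1)
    {x : WA} (hx : x ∈ V a m n) : Φ x ∈ V a' m' n := by
  refine V_map Φ.toLinearMap ?_ hx
  intro w hw hw2
  clear hx
  subst hw
  simp only [AlgHom.toLinearMap_apply]
  induction w with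
  | nil => rw [W_nil, map_one]; exact V_one _ _
  | cons z w ih =>
    rw [W_cons, map_mul]
    have h1 := h z (hw2 z (by simp)).1 (hw2 z (by simp)).2
    have h2 := ih (fun y hy => hw2 y (by simp [hy]))
    refine V_cast (V_mul h1 h2) ?_
    simp only [List.length_cons]
    push_cast
    ring

theorem V_M {a m n : ℤ} {x : WA} (hx : x ∈ V a m n) : M x ∈ V a (m + 1) n :=
  V_hom M (fun z h1 h2 => by
    rw [M_X]
    exact Submodule.sub_mem _ (V_X h1 (by omega)) (V_X (by omega) (by omega))) hx

theorem V_M' {a m n : ℤ} {x : WA} (hx : x ∈ V a m n) : M' x ∈ V (a - 1) m n :=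
  V_hom M' (fun z h1 h2 => by
    rw [M'_X]
    exact Submodule.sub_mem _ (V_X (by omega) (by omega)) (V_X (by omega) (by omega))) hx

theorem V_L {a m n : ℤ} {x : WA} (hx : x ∈ V a m n) : L x ∈ V (a + 1) (m + 1) n :=
  V_hom L (fun z h1 h2 => by rw [L_X]; exact V_X (by omega) (by omega)) hx

theorem V_Rf {a m n : ℤ} {x : WA} (hx : x ∈ V a m n) : Rf x ∈ V (-m) (-a) n := by
  refine V_map Rf ?_ hx
  intro w hw hw2
  rw [Rf_W]
  have : ((rl 0 w).length : ℤ) = n := by rw [rl_length, hw]
  rw [← this]
  apply V_W
  intro z hz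
  simp only [rl, List.mem_reverse, List.mem_map] at hz
  obtain ⟨y, hy, rfl⟩ := hz
  have := hw2 y hy
  omega

/-! ### the largest letter moves to the left -/

theorem X_mul_top {a m x : ℤ} (h1 : a ≤ x) (h2 : x < m) :
    ∃ s ∈ V a (m - 1) 1, ∃ t ∈ V a (m - 1) 2, X x * X m = X m * X m + X m * s + t := by
  have key : ∀ k : ℕ, ∀ x, a ≤ x → x + k + 1 = m → ∃ s ∈ V a (m - 1) 1, ∃ t ∈ V a (m - 1) 2,
      X x * X m = X m * X m + X m * s + t := by
    intro k
    induction k with
    | zero =>
      intro x hx hk
      have : m = x + 1 := by push_cast at hk; omega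
      subst this
      refine ⟨0, Submodule.zero_mem _, X x * X x, V_cast (V_mul (V_X hx (by omega)) (V_X hx (by omega)))
        (by norm_num), ?_⟩
      rw [diag, mul_zero, add_zero, add_comm]
    | succ k ih =>
      intro x hx hk
      obtain ⟨s, hs, t, ht, h⟩ := ih (x + 1) (by omega) (by push_cast at hk ⊢; omega)
      have hq := quad x (m - 1)
      rw [sub_add_cancel] at hq
      have hx1 : x + 1 ≤ m - 1 := by push_cast at hk; omega
      refine ⟨s + X (x + 1), Submodule.add_mem _ hs (V_X (by omega) hx1),
        t + (X x * X (m - 1) + X (m - 1) * X x - X (m - 1) * X (x + 1)), ?_, ?_⟩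
      · have v1 : X x ∈ V a (m - 1) 1 := V_X hx (by omega)
        have v2 : X (m - 1) ∈ V a (m - 1) 1 := V_X (by omega) le_rfl
        have v3 : X (x + 1) ∈ V a (m - 1) 1 := V_X (by omega) hx1
        refine Submodule.add_mem _ ht (Submodule.sub_mem _ (Submodule.add_mem _ ?_ ?_) ?_)
        · exact V_cast (V_mul v1 v2) (by norm_num)
        · exact V_cast (V_mul v2 v1) (by norm_num)
        · exact V_cast (V_mul v2 v3) (by norm_num)
      · have h3 : X x * X m = X (x + 1) * X m + X m * X (x + 1) +
            (X x * X (m - 1) + X (m - 1) * X x - X (m - 1) * X (x + 1)) := by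
          rw [← sub_eq_zero, ← neg_eq_zero, ← hq]
          abel
        rw [h3, h, mul_add]
        abel
  exact key (m - x - 1).toNat x h1 (by omega)

theorem pbw {a m n : ℤ} {x : WA} (hx : x ∈ V a m n) : ∃ w1 ∈ V a (m - 1) (n - 2),
    ∃ w2 ∈ V a (m - 1) (n - 1), ∃ w3 ∈ V a (m - 1) n,
    x = X m * X m * w1 + X m * w2 + w3 := by
  induction hx using Submodule.span_induction with
  | mem x hx =>
    obtain ⟨w, hw, hw2, rfl⟩ := hx
    subst hw
    induction w with
    | nil =>
      refine ⟨0, Submodule.zero_mem _, 0, Submodule.zero_mem _, 1, V_one _ _, ?_⟩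
      rw [mul_zero, mul_zero, zero_add, zero_add]; rfl
    | cons z w ih =>
      obtain ⟨w1, h1, w2, h2, w3, h3, h⟩ := ih (fun y hy => hw2 y (by simp [hy]))
      have hz := hw2 z (by simp)
      have hl : ((z :: w).length : ℤ) = w.length + 1 := by simp
      rw [W_cons, h, hl]
      rcases eq_or_lt_of_le hz.2 with rfl | hlt
      · refine ⟨w2, V_cast h2 (by ring), w3, V_cast h3 (by ring), 0, Submodule.zero_mem _, ?_⟩
        have hc := cube z
        calc X z * (X z * X z * w1 + X z * w2 + w3) = X z * X z * X z * w1 + X z * X z * w2 + X z * w3 := by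
              noncomm_ring
          _ = X z * X z * w2 + X z * w3 + 0 := by rw [hc, zero_mul, zero_add, add_zero]
      · obtain ⟨s, hs, t, ht, hst⟩ := X_mul_top hz.1 hlt
        have vz : X z ∈ V a (m - 1) 1 := V_X hz.1 (by omega)
        have hc := cube m
        have hc2 := cub2 z m
        refine ⟨-(s * w1) - X z * w1 + w2, ?_, -(t * w1) + s * w2, ?_, t * w2 + X z * w3, ?_, ?_⟩
        · refine Submodule.add_mem _ (Submodule.sub_mem _ (Submodule.neg_mem _ ?_) ?_) ?_
          · exact V_cast (V_mul hs h1) (by ring)
          · exact V_cast (V_mul vz h1) (by ring)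
          · exact V_cast h2 (by ring)
        · refine Submodule.add_mem _ (Submodule.neg_mem _ ?_) ?_
          · exact V_cast (V_mul ht h1) (by ring)
          · exact V_cast (V_mul hs h2) (by ring)
        · refine Submodule.add_mem _ ?_ ?_
          · exact V_cast (V_mul ht h2) (by ring)
          · exact V_cast (V_mul vz h3) (by ring)
        · have e1 : X z * X m * X m = -(X m * X m * s) - X m * t - X m * X m * X z := by
            have : X m * X z * X m = X m * X m * X m + X m * X m * s + X m * t := by
              rw [mul_assoc, hst]; noncomm_ring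
            rw [this, hc, zero_add] at hc2
            rw [← sub_eq_zero, ← hc2]
            abel
          calc X z * (X m * X m * w1 + X m * w2 + w3) =
              X z * X m * X m * w1 + X z * X m * w2 + X z * w3 := by noncomm_ring
            _ = _ := by rw [e1, hst]; noncomm_ring
  | zero =>
    exact ⟨0, Submodule.zero_mem _, 0, Submodule.zero_mem _, 0, Submodule.zero_mem _, by simp⟩
  | add y z _ _ hy hz =>
    obtain ⟨w1, h1, w2, h2, w3, h3, rfl⟩ := hy
    obtain ⟨v1, g1, v2, g2, v3, g3, rfl⟩ := hz
    exact ⟨w1 + v1, Submodule.add_mem _ h1 g1, w2 + v2, Submodule.add_mem _ h2 g2,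
      w3 + v3, Submodule.add_mem _ h3 g3, by noncomm_ring⟩
  | smul c y _ hy =>
    obtain ⟨w1, h1, w2, h2, w3, h3, rfl⟩ := hy
    exact ⟨c • w1, Submodule.smul_mem _ _ h1, c • w2, Submodule.smul_mem _ _ h2,
      c • w3, Submodule.smul_mem _ _ h3, by simp only [smul_add, mul_smul_comm]⟩

theorem V_top_zero (k : ℕ) : ∀ {a m n : ℤ} {x : WA}, x ∈ V a m n → m < a + k → 2 * (k : ℤ) < n → x = 0 := by
  induction k with
  | zero =>
    intro a m n x hx hm hn
    induction hx using Submodule.span_induction with
    | mem x hx =>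
      obtain ⟨w, hw, hw2, rfl⟩ := hx
      cases w with
      | nil => simp at hw; omega
      | cons z w =>
        have := hw2 z (by simp)
        push_cast at hm
        omega
    | zero => rfl
    | add y z _ _ h1 h2 => rw [h1, h2, add_zero]
    | smul c y _ h => rw [h, smul_zero]
  | succ k ih =>
    intro a m n x hx hm hn
    obtain ⟨w1, h1, w2, h2, w3, h3, rfl⟩ := pbw hx
    push_cast at hm hn
    rw [ih h1 (by omega) (by omega), ih h2 (by omega) (by omega), ih h3 (by omega) (by omega)]
    simp

/-- the word `k k (k-1) (k-1) ... 1 1` -/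
def Dw : ℕ → WA
  | 0 => 1
  | k + 1 => X (k + 1 : ℕ) * X (k + 1 : ℕ) * Dw k

theorem Dw_mem (k : ℕ) : Dw k ∈ V 1 k (2 * k) := by
  induction k with
  | zero => exact V_one _ _
  | succ k ih =>
    have h1 : X ((k + 1 : ℕ) : ℤ) ∈ V 1 ((k + 1 : ℕ) : ℤ) 1 := V_X (by push_cast; omega) le_rfl
    have h2 : Dw k ∈ V 1 ((k + 1 : ℕ) : ℤ) (2 * k) := V_mono le_rfl (by push_cast; omega) ih
    exact V_cast (V_mul (V_mul h1 h1) h2) (by push_cast; ring)

theorem V_top_one (k : ℕ) : ∀ {x : WA}, x ∈ V 1 k (2 * k) → ∃ c : ℚ, x = c • Dw k := by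
  induction k with
  | zero => intro x hx; exact V_zero_scalar hx
  | succ k ih =>
    intro x hx
    obtain ⟨w1, h1, w2, h2, w3, h3, rfl⟩ := pbw hx
    have e : ((k + 1 : ℕ) : ℤ) - 1 = k := by push_cast; ring
    rw [e] at h1 h2 h3
    obtain ⟨c, rfl⟩ := ih (V_cast h1 (by push_cast; ring))
    refine ⟨c, ?_⟩
    rw [V_top_zero k h2 (by omega) (by push_cast; omega), V_top_zero k h3 (by omega) (by push_cast; omega)]
    simp [Dw, mul_assoc]

/-! ### the operator of the largest letter -/

/-- the operator of the letter `m` on words -/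
def B (m : ℤ) : List ℤ → WA
  | [] => 0
  | x :: w => (if x = m then M (W w) else 0) + X (x + 1) * B m w

theorem B_append (m : ℤ) (u v : List ℤ) : B m (u ++ v) = B m u * M (W v) + L (W u) * B m v := by
  induction u with
  | nil => rw [List.nil_append, B, zero_mul, zero_add, W_nil, map_one, one_mul]
  | cons x u ih =>
    rw [List.cons_append, B, B, ih, W_append, map_mul M, W_cons, map_mul L, L_X]
    split_ifs <;> noncomm_ring

theorem T_Ic (m : ℤ) (w : List ℤ) : ∀ (c : ℤ → ℚ) (f : List ℤ → ℚ) (hf : Anti f), (∀ z ∈ w, z ≤ m) →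
    (∀ x, x < m + w.length - 1 → c x = 0) →
    T w (fun l => Ic c l f) = c (m + w.length - 1) * ((-1) ^ (w.length + 1) * evq f hf (B m w)) := by
  induction w with
  | nil => intro c f hf _ _; simp [T, Ic, B]
  | cons z w ih =>
    intro c f hf hw hc
    have hz := hw z (by simp)
    have hw' : ∀ y ∈ w, y ≤ m := fun y hy => hw y (by simp [hy])
    have hlen : m + ((z :: w).length : ℤ) - 1 = m + w.length := by
      simp only [List.length_cons]; push_cast; ring
    rw [hlen] at hc ⊢
    have e1 : T (z :: w) (fun l => Ic c l f) = T w (fun l => P l (fun z l => c z * f l) z) -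
        T w (fun l => Ic c l (opL z f)) - T w (fun l => Ic (fun x => c (x + 1) - c x) l (opL (z + 1) f)) := by
      simp only [T, Ic]
      rw [← T_sub, ← T_sub]
      congr 1
      funext l
      rw [P_sub, P_Ic c l (fun z m => f (z :: m)) z]
      simp only [sub_sub]
      rfl
    have e2 : T w (fun l => P l (fun z l => c z * f l) z) =
        c (m + w.length) * ((-1) ^ w.length * (if z = m then evq f hf (M (W w)) else 0)) := by
      have h1 : T w (fun l => P l (fun z l => c z * f l) z) = T w (fun l => c (z + w.length) * Dl l f) := by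
        apply T_congr_len
        intro l hl
        rw [P_cf l c f z (fun j hj => hc _ (by rw [← hl]; omega)), hl]
      rw [h1, T_mul]
      split_ifs with hzm
      · subst hzm
        have h2 : evq f hf (M (W w)) = (-1) ^ w.length * T w (fun l => Dl l f) := by
          have h3 : M (W w) = gw 1 (-1) w := by
            clear h1 e1 ih hw' hw hlen hc
            induction w with
            | nil => rw [W_nil, map_one]; rfl
            | cons z w ih =>
              rw [W_cons, map_mul, ih, gw, M_X, one_smul, neg_smul, one_smul, sub_eq_add_neg]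
          rw [h3, evq_gw, ← T_Gf, ← T_len w (fun n => (-1) ^ n)]
          congr 1
          funext l
          have h4 : ∀ (l : List ℤ) (g : List ℤ → ℚ), Gf 1 (-1) l g = (-1) ^ l.length * Dl l g := by
            intro l
            induction l with
            | nil => intro g; simp [Gf, Dl]
            | cons x l ih =>
              intro g
              simp only [Gf, Dl, List.length_cons]
              rw [ih, pow_succ]
              have : (fun m => 1 * g (x :: m) + -1 * g ((x + 1) :: m)) =
                  fun m => - (g ((x + 1) :: m) - g (x :: m)) := by funext m; ring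
              rw [this, Dl_neg]
              ring
          exact h4 l f
        rw [h2]
        have : ((-1 : ℚ)) ^ w.length * (-1) ^ w.length = 1 := by rw [← mul_pow]; norm_num
        linear_combination (- c (z + w.length) * T w (fun l => Dl l f)) * this
      · rw [hc (z + w.length) (by omega)]
        simp
    rw [e1, e2, ih c (opL z f) (opL_anti hf z) hw' (fun x hx => hc x (by omega)),
      ih (fun x => c (x + 1) - c x) (opL (z + 1) f) (opL_anti hf (z + 1)) hw'
        (fun x hx => by rw [hc _ (by omega), hc _ (by omega), sub_zero])]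
    have e3 : c (m + w.length - 1) = 0 := hc _ (by omega)
    have e4 : m + (w.length : ℤ) - 1 + 1 = m + w.length := by ring
    simp only [e3, e4, sub_zero, zero_mul, B, map_add, evq_X_mul, List.length_cons]
    split_ifs with hzm
    · ring
    · rw [map_zero]; ring

/-- the graph of the operator of the letter `m` on the words with letters at most `m` -/
def DIs (m : ℤ) : Submodule ℚ (WA × WA) :=
  Submodule.span ℚ {p | ∃ w : List ℤ, (∀ z ∈ w, z ≤ m) ∧ (W w, B m w) = p}

/-- the operator of the letter `m` maps `a` to `b` -/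
def DI (m : ℤ) (a b : WA) : Prop := (a, b) ∈ DIs m

theorem DI.add {m : ℤ} {a b a' b' : WA} (h : DI m a b) (h' : DI m a' b') : DI m (a + a') (b + b') :=
  Submodule.add_mem _ h h'

theorem DI.sub {m : ℤ} {a b a' b' : WA} (h : DI m a b) (h' : DI m a' b') : DI m (a - a') (b - b') :=
  Submodule.sub_mem _ h h'

theorem DI.neg {m : ℤ} {a b : WA} (h : DI m a b) : DI m (-a) (-b) :=
  Submodule.neg_mem _ h

theorem DI.smul {m : ℤ} {a b : WA} (c : ℚ) (h : DI m a b) : DI m (c • a) (c • b) :=
  Submodule.smul_mem _ c h

theorem DI.zero (m : ℤ) : DI m 0 0 := Submodule.zero_mem _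

theorem DI_W {m : ℤ} {w : List ℤ} (h : ∀ z ∈ w, z ≤ m) : DI m (W w) (B m w) :=
  Submodule.subset_span ⟨w, h, rfl⟩

theorem DI.induction {m : ℤ} {p : WA → WA → Prop} (h1 : ∀ w : List ℤ, (∀ z ∈ w, z ≤ m) → p (W w) (B m w))
    (h0 : p 0 0) (h2 : ∀ a b a' b', p a b → p a' b' → p (a + a') (b + b'))
    (h3 : ∀ (c : ℚ) a b, p a b → p (c • a) (c • b)) {a b : WA} (h : DI m a b) : p a b := by
  have key : ∀ q : WA × WA, q ∈ DIs m → p q.1 q.2 := by
    intro q hq
    induction hq using Submodule.span_induction with
    | mem x hx => obtain ⟨w, hw, rfl⟩ := hx; exact h1 w hw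
    | zero => exact h0
    | add x y _ _ hx hy => exact h2 _ _ _ _ hx hy
    | smul c x _ hx => exact h3 c _ _ hx
  exact key (a, b) h

/-- the dual of the operator of the letter `m` -/
def psi (m : ℤ) (f : List ℤ → ℚ) (l : List ℤ) : ℚ :=
  (-1) ^ (l.length + 1) * Ic (fun x => if x = m + l.length - 1 then 1 else 0) l f

theorem psi_anti (m : ℤ) {f : List ℤ → ℚ} (hf : Anti f) : Anti (psi m f) := by
  intro u x y v
  unfold psi
  have e : (u ++ x :: y :: v).length = (u ++ y :: x :: v).length := by simp
  have h := hf.Ic (c := fun z => if z = m + ((u ++ y :: x :: v).length : ℤ) - 1 then 1 else 0) u x y v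
  rw [e]
  simp only at h
  rw [h]
  ring

theorem DI.dual {m : ℤ} {a b : WA} (h : DI m a b) (f : List ℤ → ℚ) (hf : Anti f) :
    evq f hf b = evq (psi m f) (psi_anti m hf) a := by
  revert h
  intro h
  refine DI.induction (p := fun a b => evq f hf b = evq (psi m f) (psi_anti m hf) a) ?_ ?_ ?_ ?_ h
  · intro w hw
    rw [evq_W]
    have h1 : T w (psi m f) = T w (fun l => (-1) ^ (w.length + 1) *
        Ic (fun x => if x = m + w.length - 1 then 1 else 0) l f) := by
      apply T_congr_len
      intro l hl
      rw [psi, hl]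
    rw [h1, T_mul, T_Ic m w _ f hf hw (fun x hx => if_neg (by omega))]
    simp only [if_true, one_mul]
    rw [← mul_assoc, ← mul_pow]
    norm_num
  · rw [map_zero, map_zero]
  · intro a b a' b' h1 h2
    rw [map_add, map_add, h1, h2]
  · intro c a b h1
    rw [map_smul, map_smul, h1]

theorem DI.unique {m : ℤ} {a b b' : WA} (h : DI m a b) (h' : DI m a b') : b = b' := by
  apply evq_ext
  intro f hf
  rw [h.dual, h'.dual]

theorem DI.mul {m : ℤ} {a b a' b' : WA} (h : DI m a b) (h' : DI m a' b') :
    DI m (a * a') (b * M a' + L a * b') := by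
  refine DI.induction (p := fun a b => DI m (a * a') (b * M a' + L a * b')) ?_ ?_ ?_ ?_ h
  · intro u hu
    refine DI.induction (p := fun a' b' => DI m (W u * a') (B m u * M a' + L (W u) * b')) ?_ ?_ ?_ ?_ h'
    · intro v hv
      rw [← W_append, ← B_append]
      apply DI_W
      intro z hz
      rw [List.mem_append] at hz
      rcases hz with hz | hz
      · exact hu z hz
      · exact hv z hz
    · simp only [mul_zero, map_zero, add_zero]; exact DI.zero m
    · intro a b a' b' h1 h2
      have := h1.add h2
      have e : B m u * M a + L (W u) * b + (B m u * M a' + L (W u) * b') =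
          B m u * M (a + a') + L (W u) * (b + b') := by rw [map_add]; noncomm_ring
      rw [← mul_add, e] at this
      exact this
    · intro c a b h1
      have := h1.smul c
      have e : c • (B m u * M a + L (W u) * b) = B m u * M (c • a) + L (W u) * (c • b) := by
        rw [map_smul, smul_add, mul_smul_comm, mul_smul_comm]
      rw [← mul_smul_comm, e] at this
      exact this
  · simp only [zero_mul, map_zero, add_zero]; exact DI.zero m
  · intro a b a2 b2 h1 h2
    have := h1.add h2
    have e : b * M a' + L a * b' + (b2 * M a' + L a2 * b') = (b + b2) * M a' + L (a + a2) * b' := by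
      rw [map_add]; noncomm_ring
    rw [← add_mul, e] at this
    exact this
  · intro c a b h1
    have := h1.smul c
    have e : c • (b * M a' + L a * b') = (c • b) * M a' + L (c • a) * b' := by
      rw [map_smul, smul_add, smul_mul_assoc, smul_mul_assoc]
    rw [← smul_mul_assoc, e] at this
    exact this

theorem DI_one (m : ℤ) : DI m 1 0 := DI_W (w := []) (by simp)

theorem DI_X_self (m : ℤ) : DI m (X m) 1 := by
  have := DI_W (m := m) (w := [m]) (by simp)
  rw [W_single] at this
  simpa [B, W_nil] using this

theorem DI_X_lt {m z : ℤ} (h : z < m) : DI m (X z) 0 := by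
  have := DI_W (m := m) (w := [z]) (by simpa using h.le)
  rw [W_single] at this
  simpa [B, h.ne] using this

theorem DI_lt {a m m' n : ℤ} {x : WA} (hx : x ∈ V a m n) (h : m < m') : DI m' x 0 := by
  induction hx using Submodule.span_induction with
  | mem x hx =>
    obtain ⟨w, -, hw2, rfl⟩ := hx
    have h1 : B m' w = 0 := by
      induction w with
      | nil => rfl
      | cons z w ih =>
        have := hw2 z (by simp)
        rw [B, ih (fun y hy => hw2 y (by simp [hy])), if_neg (by omega), mul_zero, add_zero]
    rw [← h1]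
    exact DI_W (fun z hz => ((hw2 z hz).2.trans_lt h).le)
  | zero => exact DI.zero _
  | add y z _ _ h1 h2 => have := h1.add h2; rwa [add_zero] at this
  | smul c y _ h => have := h.smul c; rwa [smul_zero] at this

/-- the square of the letter `m` -/
theorem DI_XX (m : ℤ) : DI m (X m * X m) (X m) := by
  have := (DI_X_self m).mul (DI_X_self m)
  rw [M_X, L_X, one_mul, mul_one, sub_add_cancel] at this
  exact this

theorem DI_exists {a m n : ℤ} {x : WA} (hx : x ∈ V a m n) (ham : a ≤ m) :
    ∃ y ∈ V a m (n - 1), DI m x y := by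
  obtain ⟨w1, h1, w2, h2, w3, h3, rfl⟩ := pbw hx
  have e : m - 1 + 1 = m := by ring
  refine ⟨X m * M w1 + M w2, ?_, ?_⟩
  · have v1 := V_M h1
    have v2 := V_M h2
    rw [e] at v1 v2
    exact Submodule.add_mem _ (V_cast (V_mul (V_X ham le_rfl) v1) (by ring)) v2
  · have k1 := (DI_XX m).mul (DI_lt h1 (by omega : m - 1 < m))
    have k2 := (DI_X_self m).mul (DI_lt h2 (by omega : m - 1 < m))
    have := (k1.add k2).add (DI_lt h3 (by omega : m - 1 < m))
    simpa using this

/-- the kernel of the operator of the letter `m` -/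
theorem DI_kernel {a m n : ℤ} {x : WA} (hx : x ∈ V a m n) (h : DI m x 0) : x ∈ V a (m - 1) n := by
  obtain ⟨w1, h1, w2, h2, w3, h3, rfl⟩ := pbw hx
  have k1 := (DI_XX m).mul (DI_lt h1 (by omega : m - 1 < m))
  have k2 := (DI_X_self m).mul (DI_lt h2 (by omega : m - 1 < m))
  have k := (k1.add k2).add (DI_lt h3 (by omega : m - 1 < m))
  have h4 : X m * M w1 + M w2 = 0 := by
    have := k.unique h
    simpa using this
  have h5 : w1 = 0 := by
    have := congrArg d h4
    rw [map_add, d_mul_M, d_M, add_zero, map_zero, d_X, one_mul] at this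
    exact Ls_inj (this.trans (map_zero Ls).symm)
  rw [h5, map_zero, mul_zero, zero_add] at h4
  have h6 : w2 = 0 := M_inj (h4.trans (map_zero M).symm)
  rw [h5, h6, mul_zero, mul_zero, zero_add, zero_add]
  exact h3

/-- homomorphisms and the operator -/
theorem DI.hom {m m' : ℤ} (Φ : WA →ₐ[ℚ] WA) (κ : ℚ) (hM : ∀ a, M (Φ a) = Φ (M a)) (hL : ∀ a, L (Φ a) = Φ (L a))
    (h1 : DI m' (Φ (X m)) (κ • 1)) (h2 : ∀ z, z < m → DI m' (Φ (X z)) 0) {a b : WA} (h : DI m a b) :
    DI m' (Φ a) (κ • Φ b) := by
  refine DI.induction (p := fun a b => DI m' (Φ a) (κ • Φ b)) ?_ ?_ ?_ ?_ h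
  · intro w hw
    induction w with
    | nil => rw [W_nil, map_one, B, map_zero, smul_zero]; exact DI_one _
    | cons z w ih =>
      have i := ih (fun y hy => hw y (by simp [hy]))
      have hz := hw z (by simp)
      rw [W_cons, map_mul, B]
      rcases eq_or_lt_of_le hz with rfl | hlt
      · have := h1.mul i
        rw [if_pos rfl]
        have e : κ • Φ (M (W w) + X (z + 1) * B z w) = κ • 1 * M (Φ (W w)) + L (Φ (X z)) * κ • Φ (B z w) := by
          rw [hM, hL, L_X, map_add, map_mul, smul_add, smul_mul_assoc, one_mul, mul_smul_comm]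
        rw [e]
        exact this
      · have := (h2 z hlt).mul i
        rw [if_neg hlt.ne]
        have e : κ • Φ (0 + X (z + 1) * B m w) = 0 * M (Φ (W w)) + L (Φ (X z)) * κ • Φ (B m w) := by
          rw [hL, L_X, zero_add, map_mul, zero_mul, zero_add, mul_smul_comm]
        rw [e]
        exact this
  · rw [map_zero, smul_zero]; exact DI.zero _
  · intro a b a' b' h1 h2
    have := h1.add h2
    rwa [← map_add, ← smul_add, ← map_add] at this
  · intro c a b h1
    have := h1.smul c
    rw [← map_smul, smul_comm, ← map_smul] at this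
    exact this

theorem DI.M {m : ℤ} {a b : WA} (h : DI m a b) : DI (m + 1) (M a) (- M b) := by
  have := DI.hom (m' := m + 1) MT.M (-1) (fun a => rfl) (fun a => (M_L a).symm) (by
    rw [M_X, neg_one_smul]
    have := (DI_X_lt (by omega : m < m + 1)).sub (DI_X_self (m + 1))
    rwa [zero_sub] at this) (fun z hz => by
    rw [M_X]
    have := (DI_X_lt (by omega : z < m + 1)).sub (DI_X_lt (by omega : z + 1 < m + 1))
    rwa [sub_zero] at this) h
  rwa [neg_one_smul] at this

theorem DI.L {m : ℤ} {a b : WA} (h : DI m a b) : DI (m + 1) (L a) (L b) := by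
  have := DI.hom (m' := m + 1) MT.L 1 (fun a => M_L a) (fun a => rfl) (by
    rw [L_X, one_smul]
    exact DI_X_self (m + 1)) (fun z hz => by
    rw [L_X]
    exact DI_X_lt (by omega)) h
  rwa [one_smul] at this

theorem DI.M' {m : ℤ} {a b : WA} (h : DI m a b) : DI m (M' a) (M' b) := by
  have := DI.hom (m' := m) MT.M' 1 (fun a => GA_GB_comm _ _ _ _ a) (fun a => GA_GB_comm _ _ _ _ a) (by
    rw [M'_X, one_smul]
    have := (DI_X_self m).sub (DI_X_lt (by omega : m - 1 < m))
    rwa [sub_zero] at this) (fun z hz => by
    rw [M'_X]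
    have := (DI_X_lt (by omega : z < m)).sub (DI_X_lt (by omega : z - 1 < m))
    rwa [sub_zero] at this) h
  rwa [one_smul] at this

theorem DI.Li {m : ℤ} {a b : WA} (h : DI m a b) : DI (m - 1) (Li a) (Li b) := by
  have := DI.hom (m' := m - 1) MT.Li 1 (fun a => GA_GB_comm _ _ _ _ a) (fun a => GA_GB_comm _ _ _ _ a) (by
    rw [Li_X, one_smul]
    exact DI_X_self (m - 1)) (fun z hz => by
    rw [Li_X]
    exact DI_X_lt (by omega)) h
  rwa [one_smul] at this

/-- signed sums of letters and the operator -/
theorem DI_sgm {m x y : ℤ} (hx : x ≤ m) (hy : y ≤ m) : DI m (sgm x y) (if y = m then 1 else 0) := by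
  have h1 : ∀ n : ℕ, x + n ≤ m → DI m (sgm x (x + n)) (if x + n = m then 1 else 0) := by
    intro n
    induction n with
    | zero =>
      intro hn
      rw [Nat.cast_zero, add_zero] at hn ⊢
      rw [sgm_self]
      split_ifs with h
      · rw [h]; exact DI_X_self m
      · exact DI_X_lt (by omega)
    | succ n ih =>
      intro hn
      push_cast at hn
      have h := ih (by omega)
      rw [if_neg (by omega)] at h
      have e : x + ((n + 1 : ℕ) : ℤ) = x + n + 1 := by push_cast; ring
      rw [e, sgm_succ]
      split_ifs with h3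
      · have := h.add (DI_X_self m)
        rw [zero_add] at this
        rw [h3]; exact this
      · have := h.add (DI_X_lt (by omega : x + n + 1 < m))
        rwa [zero_add] at this
  have h2 : ∀ n : ℕ, DI m (sgm x (x - n)) (if x - n = m then 1 else 0) := by
    intro n
    induction n with
    | zero =>
      rw [Nat.cast_zero, sub_zero, sgm_self]
      split_ifs with h
      · rw [h]; exact DI_X_self m
      · exact DI_X_lt (by omega)
    | succ n ih =>
      have e : x - ((n + 1 : ℕ) : ℤ) = x - n - 1 := by push_cast; ring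
      rw [e, sgm_pred, if_neg (by omega)]
      split_ifs at ih with h3
      · have := ih.sub (DI_X_self m)
        rw [sub_self] at this
        rw [h3]
        rw [h3] at this
        exact this
      · have := ih.sub (DI_X_lt (by omega : x - n < m))
        rwa [sub_zero] at this
  rcases le_total x y with h | h
  · obtain ⟨n, hn⟩ := Int.eq_ofNat_of_zero_le (sub_nonneg.mpr h)
    have : y = x + n := by omega
    rw [this]; exact h1 n (by omega)
  · obtain ⟨n, hn⟩ := Int.eq_ofNat_of_zero_le (sub_nonneg.mpr h)
    have : y = x - n := by omega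
    rw [this]; exact h2 n

/-- the operators of the rows above and of the largest letter commute -/
theorem DI.d {m : ℤ} {a b : WA} (h : DI m a b) : DI m (d a) (d b) := by
  have key : ∀ (n : ℕ) (w : List ℤ), w.length ≤ n → (∀ z ∈ w, z ≤ m) → DI m (MT.d (W w)) (MT.d (B m w)) := by
    intro n
    induction n with
    | zero =>
      intro w hw _
      have : w = [] := List.eq_nil_of_length_eq_zero (by omega)
      subst this
      rw [W_nil, d_one, B, map_zero]; exact DI.zero _
    | succ n ih =>
      intro w hw hw2
      match w with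
      | [] => exact ih [] (by simp) (by simp)
      | [x] =>
        have : MT.d (B m [x]) = 0 := by
          rw [B, B, mul_zero, add_zero]
          split_ifs
          · rw [d_M]
          · rw [map_zero]
        rw [W_single, d_X, this]
        exact DI_one _
      | x :: y :: w =>
        have i1 := ih (y :: w) (by simp at hw ⊢; omega) (fun z hz => hw2 z (by simp [hz]))
        have i2 := ih w (by simp at hw ⊢; omega) (fun z hz => hw2 z (by simp [hz]))
        have hx := hw2 x (by simp)
        have hy := hw2 y (by simp)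
        have k1 := (DI_sgm hx hy).mul i1
        have k2 : DI m (X y * X y) (if y = m then X y else 0) := by
          split_ifs with h
          · rw [h]; exact DI_XX m
          · have := (DI_X_lt (lt_of_le_of_ne hy h)).mul (DI_X_lt (lt_of_le_of_ne hy h))
            simpa using this
        have k3 := k1.sub (k2.mul i2)
        rw [W_cons, W_cons, ← mul_assoc, d_left, ← W_cons]
        have hLs : MT.L (sgm x y) = sgm (x + 1) (y + 1) := by
          have h1 : ∀ n : ℕ, MT.L (sgm x (x + n)) = sgm (x + 1) (x + 1 + n) := by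
            intro n
            induction n with
            | zero => simp [sgm_self, L_X]
            | succ n ih =>
              have e : x + ((n + 1 : ℕ) : ℤ) = x + n + 1 := by push_cast; ring
              have e2 : x + 1 + ((n + 1 : ℕ) : ℤ) = x + 1 + n + 1 := by push_cast; ring
              rw [e, e2, sgm_succ, sgm_succ, map_add, ih, L_X]
              congr 2; ring
          have h2 : ∀ n : ℕ, MT.L (sgm x (x - n)) = sgm (x + 1) (x + 1 - n) := by
            intro n
            induction n with
            | zero => simp [sgm_self, L_X]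
            | succ n ih =>
              have e : x - ((n + 1 : ℕ) : ℤ) = x - n - 1 := by push_cast; ring
              have e2 : x + 1 - ((n + 1 : ℕ) : ℤ) = x + 1 - n - 1 := by push_cast; ring
              rw [e, e2, sgm_pred, sgm_pred, map_sub, ih, L_X]
              congr 2; ring
          rcases le_total x y with h | h
          · obtain ⟨n, hn⟩ := Int.eq_ofNat_of_zero_le (sub_nonneg.mpr h)
            have e : y = x + n := by omega
            have e2 : x + n + 1 = x + 1 + n := by ring
            rw [e, h1 n, e2]
          · obtain ⟨n, hn⟩ := Int.eq_ofNat_of_zero_le (sub_nonneg.mpr h)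
            have e : y = x - n := by omega
            have e2 : x - n + 1 = x + 1 - n := by ring
            rw [e, h2 n, e2]
        have goal_eq : MT.d (B m (x :: y :: w)) =
            (if y = m then 1 else 0) * MT.M (MT.d (W (y :: w))) + MT.L (sgm x y) * MT.d (B m (y :: w)) -
            ((if y = m then X y else 0) * MT.M (MT.d (W w)) + MT.L (X y * X y) * MT.d (B m w)) := by
          have e1 : MT.d (B m (x :: y :: w)) = MT.d (X (x + 1) * B m (y :: w)) := by
            rw [B, map_add]
            have : MT.d (if x = m then MT.M (W (y :: w)) else 0) = 0 := by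
              split_ifs
              · rw [d_M]
              · rw [map_zero]
            rw [this, zero_add]
          have e2 : MT.d (B m (y :: w)) = MT.d (X (y + 1) * B m w) := by
            rw [B, map_add]
            have : MT.d (if y = m then MT.M (W w) else 0) = 0 := by
              split_ifs
              · rw [d_M]
              · rw [map_zero]
            rw [this, zero_add]
          rw [e1, e2, hLs, map_mul MT.L, L_X, W_cons, M_d, B, mul_add, map_add, ← mul_assoc, d_left]
          split_ifs
          · rw [d_mul_M, d_X, one_mul, one_mul]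
            abel
          · simp
        rw [goal_eq]
        exact k3
  refine DI.induction (p := fun a b => DI m (MT.d a) (MT.d b)) (fun w hw => key w.length w le_rfl hw) ?_ ?_ ?_ h
  · rw [map_zero]; exact DI.zero _
  · intro a b a' b' h1 h2
    rw [map_add, map_add]; exact h1.add h2
  · intro c a b h1
    rw [map_smul, map_smul]; exact h1.smul c

/-! ### the operator of the smallest letter -/

/-- the operator of the letter `1` maps `a` to `b` -/
def D0 (a b : WA) : Prop := DI (-1) (Rf a) (Rf b)

theorem D0.add {a b a' b' : WA} (h : D0 a b) (h' : D0 a' b') : D0 (a + a') (b + b') := by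
  unfold D0 at *; rw [map_add, map_add]; exact DI.add h h'

theorem D0.sub {a b a' b' : WA} (h : D0 a b) (h' : D0 a' b') : D0 (a - a') (b - b') := by
  unfold D0 at *; rw [map_sub, map_sub]; exact DI.sub h h'

theorem D0.smul {a b : WA} (c : ℚ) (h : D0 a b) : D0 (c • a) (c • b) := by
  unfold D0 at *; rw [map_smul, map_smul]; exact DI.smul c h

theorem D0.neg {a b : WA} (h : D0 a b) : D0 (-a) (-b) := by
  unfold D0 at *; rw [map_neg, map_neg]; exact DI.neg h

theorem Rf_inj : Function.Injective Rf := fun a b h => by rw [← Rf_Rf a, h, Rf_Rf]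

theorem D0.unique {a b b' : WA} (h : D0 a b) (h' : D0 a b') : b = b' := Rf_inj (DI.unique h h')

theorem D0.mul {a b a' b' : WA} (h : D0 a b) (h' : D0 a' b') : D0 (a * a') (b * Li a' + M' a * b') := by
  unfold D0 at *
  have := DI.mul h' h
  rw [Rf_mul, map_add, Rf_mul, Rf_mul, Rf_Li, Rf_M']
  rwa [add_comm] at this

theorem D0_one : D0 1 0 := by unfold D0; rw [Rf_one, map_zero]; exact DI_one _

theorem D0_X_one : D0 (X 1) 1 := by unfold D0; rw [Rf_X, Rf_one]; exact DI_X_self _

theorem D0_X_gt {z : ℤ} (h : 1 < z) : D0 (X z) 0 := by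
  unfold D0; rw [Rf_X, map_zero]; exact DI_X_lt (by omega)

theorem D0_gt {a m n : ℤ} {x : WA} (hx : x ∈ V a m n) (h : 1 < a) : D0 x 0 := by
  unfold D0; rw [map_zero]
  exact DI_lt (V_Rf hx) (by omega)

theorem D0_exists {m n : ℤ} {x : WA} (hx : x ∈ V 1 m n) (hm : 1 ≤ m) : ∃ y ∈ V 1 m (n - 1), D0 x y := by
  obtain ⟨y, hy, h⟩ := DI_exists (V_Rf hx) (by omega)
  refine ⟨Rf y, ?_, ?_⟩
  · have := V_Rf hy
    simpa using this
  · unfold D0; rw [Rf_Rf]; exact h

theorem D0_kernel {m n : ℤ} {x : WA} (hx : x ∈ V 1 m n) (h : D0 x 0) : x ∈ V 2 m n := by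
  unfold D0 at h
  rw [map_zero] at h
  have := V_Rf (DI_kernel (V_Rf hx) h)
  rw [Rf_Rf] at this
  simpa using this

theorem D0.d {a b : WA} (h : D0 a b) : D0 (d a) (d b) := by
  unfold D0 at *
  rw [← d_Rf, ← d_Rf]
  exact DI.d h

theorem D0.M {a b : WA} (h : D0 a b) : D0 (M a) (M b) := by
  unfold D0 at *
  rw [Rf_M, Rf_M]
  exact DI.M' h

theorem V_d {a m n : ℤ} {x : WA} (hx : x ∈ V a m n) : d x ∈ V a m (n - 1) := by
  have key : ∀ (n : ℕ) (w : List ℤ), w.length ≤ n → (∀ z ∈ w, a ≤ z ∧ z ≤ m) → d (W w) ∈ V a m (w.length - 1) := by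
    intro n
    induction n with
    | zero =>
      intro w hw _
      have : w = [] := List.eq_nil_of_length_eq_zero (by omega)
      subst this
      rw [W_nil, d_one]; exact Submodule.zero_mem _
    | succ n ih =>
      intro w hw hw2
      match w with
      | [] => exact ih [] (by simp) (by simp)
      | [x] => rw [W_single, d_X]; exact V_cast (V_one _ _) (by simp)
      | x :: y :: w =>
        have i1 := ih (y :: w) (by simp at hw ⊢; omega) (fun z hz => hw2 z (by simp [hz]))
        have i2 := ih w (by simp at hw ⊢; omega) (fun z hz => hw2 z (by simp [hz]))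
        have hx := hw2 x (by simp)
        have hy := hw2 y (by simp)
        rw [W_cons, W_cons, ← mul_assoc, d_left, ← W_cons]
        have hs : sgm x y ∈ V a m 1 := by
          have h1 : ∀ n : ℕ, x + n ≤ m → sgm x (x + n) ∈ V a m 1 := by
            intro n
            induction n with
            | zero => intro _; rw [Nat.cast_zero, add_zero, sgm_self]; exact V_X hx.1 hx.2
            | succ n ih =>
              intro hn
              push_cast at hn
              have e : x + ((n + 1 : ℕ) : ℤ) = x + n + 1 := by push_cast; ring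
              rw [e, sgm_succ]
              exact Submodule.add_mem _ (ih (by omega)) (V_X (by omega) (by omega))
          have h2 : ∀ n : ℕ, a ≤ x - n → sgm x (x - n) ∈ V a m 1 := by
            intro n
            induction n with
            | zero => intro _; rw [Nat.cast_zero, sub_zero, sgm_self]; exact V_X hx.1 hx.2
            | succ n ih =>
              intro hn
              push_cast at hn
              have e : x - ((n + 1 : ℕ) : ℤ) = x - n - 1 := by push_cast; ring
              rw [e, sgm_pred]
              exact Submodule.sub_mem _ (ih (by omega)) (V_X (by omega) (by omega))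
          rcases le_total x y with h | h
          · obtain ⟨n, hn⟩ := Int.eq_ofNat_of_zero_le (sub_nonneg.mpr h)
            have : y = x + n := by omega
            rw [this]; exact h1 n (by omega)
          · obtain ⟨n, hn⟩ := Int.eq_ofNat_of_zero_le (sub_nonneg.mpr h)
            have : y = x - n := by omega
            rw [this]; exact h2 n (by omega)
        refine Submodule.sub_mem _ ?_ ?_
        · refine V_cast (V_mul hs i1) ?_
          simp only [List.length_cons]; push_cast; ring
        · refine V_cast (V_mul (V_mul (V_X hy.1 hy.2) (V_X hy.1 hy.2)) i2) ?_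
          simp only [List.length_cons]; push_cast; ring
  refine V_map d ?_ hx
  intro w hw hw2
  rw [← hw]
  exact key w.length w le_rfl hw2

end Pool.Agent.Q258.MT
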