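import Pool.Agent.Q258.MT.Poly

set_option autoImplicit false

/-!
Rows `1, ..., n` with one entry deleted, doubled, or with a hole and a descent.
-/

noncomputable section

namespace Pool.Agent.Q258.MT

open Finset

/-- the list `a, a + 1, ..., a + m - 1` -/
def up : ℤ → ℕ → List ℤ
  | _, 0 => []
  | a, m + 1 => a :: up (a + 1) m

/-- the list `a, a + 1, ..., a + m - 1` without the entry `a + j` -/
def del : ℤ → ℕ → ℕ → List ℤ
  | _, 0, _ => []
  | a, m + 1, 0 => up (a + 1) m
  | a, m + 1, j + 1 => a :: del (a + 1) m j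

theorem gs_up (m : ℕ) : ∀ (x : ℤ) (A : List ℤ → ℚ), gs (up x m) x A = A (up x m) := by
  induction m with
  | zero => intro x A; rfl
  | succ m ih =>
    intro x A
    simp only [up, gs, sub_self, zero_add]
    exact ih (x + 1) _

theorem gs_up_succ (m : ℕ) : ∀ (x : ℤ) (A : List ℤ → ℚ),
    gs (up (x + 1) m) x A = ∑ j ∈ range (m + 1), A (del x (m + 1) j) := by
  induction m with
  | zero => intro x A; simp [gs, up, del]
  | succ m ih =>
    intro x A
    rw [Finset.sum_range_succ' _ (m + 1)]
    simp only [up, gs, ss_succ, add_sub_cancel_left]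
    rw [ih, gs_up]
    simp only [del, up]

theorem gs_del (j : ℕ) : ∀ (m : ℕ) (x : ℤ) (B : List ℤ → ℚ), j ≤ m →
    gs (del x (m + 1) j) x B = ∑ p ∈ Ico j (m + 1), B (del x (m + 1) p) := by
  induction j with
  | zero =>
    intro m x B _
    simp only [del]
    rw [gs_up_succ, Finset.range_eq_Ico]
  | succ j ih =>
    intro m x B hj
    obtain ⟨m, rfl⟩ : ∃ m', m = m' + 1 := ⟨m - 1, by omega⟩
    simp only [del, gs, sub_self, zero_add]
    rw [ih m (x + 1) _ (by omega), ← Finset.sum_Ico_add' (fun p => B (del x (m + 1 + 1) p)) j (m + 1) 1]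
    simp only [del]

/-- two equal entries next to their successor -/
theorem dbl_move {F : List ℤ → ℚ} (hD : Diag F) (hC : Cub F) (u : List ℤ) (x : ℤ) (v : List ℤ) :
    F (u ++ x :: x :: (x + 1) :: v) = F (u ++ x :: (x + 1) :: (x + 1) :: v) := by
  have h1 := hD (u ++ [x]) x v
  simp only [List.append_assoc, List.cons_append, List.nil_append] at h1
  rw [h1, hC u x v, zero_add]

/-- the local identity behind the hole and the descent -/
theorem hole_step {F : List ℤ → ℚ} (hR : Rel F) (hC : Cub F) (hS : Ser F) (u : List ℤ) (x : ℤ)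
    (v : List ℤ) :
    F (u ++ x :: (x + 1 + 1) :: (x + 1) :: (x + 1 + 1) :: v) =
      F (u ++ (x + 1) :: x :: (x + 1) :: (x + 1 + 1) :: v) +
      F (u ++ x :: (x + 1) :: (x + 1) :: (x + 1 + 1) :: v) := by
  have r1 := hR.diag u x ((x + 1) :: (x + 1 + 1) :: v)
  have r2 := hR.diag (u ++ [x]) x ((x + 1) :: v)
  have r3 := hR.diag (u ++ [x]) x ((x + 1 + 1) :: v)
  have r4 := hR.diag (u ++ [x + 1]) x ((x + 1 + 1) :: v)
  have r5 := hR (u ++ [x]) x (x + 1) ((x + 1 + 1) :: v)
  have r6 := hR.diag (u ++ [x, x]) (x + 1) v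
  have r7 := hR.diag (u ++ [x, x + 1]) (x + 1) v
  have c1 := hC u x ((x + 1) :: v)
  have c2 := hC u x ((x + 1 + 1) :: v)
  have k1 := hS u x ((x + 1 + 1) :: v)
  simp only [List.append_assoc, List.cons_append, List.nil_append] at r1 r2 r3 r4 r5 r6 r7 c1 c2 k1
  linarith

/-- the row `1, ..., m` with one entry doubled -/
theorem al_dbl (n : ℕ) (u : List ℤ) (x : ℤ) (m : ℕ) :
    ∀ j : ℕ, al n (u ++ up x j ++ (x + j) :: up (x + j) (m + 1)) = al n (u ++ x :: up x (j + m + 1)) := by
  intro j
  induction j generalizing m with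
  | zero => simp [up]
  | succ j ih =>
    have h1 := ih (m + 1)
    have h2 := dbl_move (al_rel n).diag (al_cub n) (u ++ up x j) (x + j) (up (x + j + 1 + 1) m)
    have h3 : ∀ (a : ℤ) (j : ℕ), up a (j + 1) = up a j ++ [a + j] := by
      intro a j
      induction j generalizing a with
      | zero => simp [up]
      | succ j ih2 =>
        rw [up, ih2]
        simp only [up, List.cons_append]
        congr 3
        push_cast
        ring
    have h4 : u ++ up x (j + 1) ++ (x + ((j + 1 : ℕ) : ℤ)) :: up (x + ((j + 1 : ℕ) : ℤ)) (m + 1) =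
        (u ++ up x j) ++ (x + j) :: (x + j + 1) :: (x + j + 1) :: up (x + j + 1 + 1) m := by
      have e : x + ((j + 1 : ℕ) : ℤ) = x + j + 1 := by push_cast; ring
      rw [e, h3]
      simp only [up, List.append_assoc, List.cons_append, List.nil_append]
    have h5 : (u ++ up x j) ++ (x + j) :: (x + j) :: (x + j + 1) :: up (x + j + 1 + 1) m =
        u ++ up x j ++ (x + j) :: up (x + j) (m + 1 + 1) := by
      simp only [up]
    rw [h4, ← h2, h5, h1]
    congr 4
    ring

/-- the row with one entry doubled has the value of the row `1, ..., n` -/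
theorem al_dbl_one (n : ℕ) : al (n + 1) (1 :: up 1 n) = al n (up 1 n) := by
  rw [al_gs, gs_up]

theorem al_up (n : ℕ) (x : ℤ) : al (n + 1) (up x (n + 1)) =
    ∑ p ∈ range (n + 1), al n (del x (n + 1) p) := by
  rw [up, al_gs, gs_up_succ]

theorem hole_zero (n : ℕ) : al (n + 2) (2 :: up 1 (n + 1)) =
    ∑ p ∈ range (n + 1), (-(p : ℚ)) * al n (del 1 (n + 1) p) := by
  have h1 : al (n + 2) (2 :: up 1 (n + 1)) = al (n + 1) (up 1 (n + 1)) -
      ∑ j ∈ range (n + 1), al (n + 1) (1 :: del 1 (n + 1) j) := by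
    rw [up, al_gs]
    simp only [gs]
    have e1 : ∀ g : ℤ → ℚ, ss 1 g - ss 2 g = - g 1 := by
      intro g
      have := ss_succ 1 g
      norm_num at this
      linarith
    rw [e1]
    have e2 : (2 : ℤ) = 1 + 1 := rfl
    rw [gs_up n (1 + 1) (fun m => al (n + 1) (1 :: m)), gs_up_succ n 1 (fun m => al (n + 1) (1 :: m))]
    ring
  rw [h1, Finset.sum_range_succ' _ n]
  have h2 : (1 : ℤ) :: del 1 (n + 1) 0 = up 1 (n + 1) := rfl
  rw [h2]
  have h3 : ∀ j ∈ range n, al (n + 1) (1 :: del 1 (n + 1) (j + 1)) =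
      ∑ p ∈ Ico (j + 1) (n + 1), al n (del 1 (n + 1) p) := by
    intro j hj
    rw [Finset.mem_range] at hj
    rw [al_gs, gs_del (j + 1) n 1 _ (by omega)]
  rw [Finset.sum_congr rfl h3]
  have h4 : ∑ j ∈ range n, ∑ p ∈ Ico (j + 1) (n + 1), al n (del 1 (n + 1) p) =
      ∑ p ∈ range (n + 1), (p : ℚ) * al n (del 1 (n + 1) p) := by
    have h5 : ∀ j ∈ range n, ∑ p ∈ Ico (j + 1) (n + 1), al n (del 1 (n + 1) p) =
        ∑ p ∈ range (n + 1), if j < p then al n (del 1 (n + 1) p) else 0 := by
      intro j _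
      rw [← Finset.sum_filter]
      apply Finset.sum_congr _ (fun _ _ => rfl)
      ext p
      simp only [Finset.mem_Ico, Finset.mem_filter, Finset.mem_range]
      omega
    rw [Finset.sum_congr rfl h5, Finset.sum_comm]
    apply Finset.sum_congr rfl
    intro p hp
    rw [Finset.mem_range] at hp
    rw [← Finset.sum_filter, Finset.sum_const, nsmul_eq_mul]
    congr 2
    have : (range n).filter (fun j => j < p) = range p := by
      ext j
      simp only [Finset.mem_filter, Finset.mem_range]
      omega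
    rw [this, Finset.card_range]
  rw [h4]
  have h6 : ∑ p ∈ range (n + 1), (-(p : ℚ)) * al n (del 1 (n + 1) p) =
      - ∑ p ∈ range (n + 1), (p : ℚ) * al n (del 1 (n + 1) p) := by
    rw [← Finset.sum_neg_distrib]
    apply Finset.sum_congr rfl
    intro p _
    ring
  rw [h6]
  ring

theorem up_snoc (a : ℤ) (j : ℕ) : up a (j + 1) = up a j ++ [a + j] := by
  induction j generalizing a with
  | zero => simp [up]
  | succ j ih2 =>
    rw [up, ih2]
    simp only [up, List.cons_append]
    congr 3
    push_cast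
    ring

/-- the value at the row with one hole and one descent -/
theorem hole_value (i : ℕ) : ∀ (m n : ℕ), n = i + m + 1 →
    al (n + 2) (up 1 i ++ (1 + (i : ℤ) + 1) :: up (1 + i) (m + 2)) =
      ∑ p ∈ range (n + 1), ((i : ℚ) - p) * al n (del 1 (n + 1) p) := by
  induction i with
  | zero =>
    intro m n hn
    obtain rfl : n = m + 1 := by omega
    have h := hole_zero (m + 1)
    simp only [up, Nat.cast_zero, add_zero, zero_sub, List.nil_append] at h ⊢
    norm_num at h ⊢
    exact h
  | succ i ih =>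
    intro m n hn
    have h1 := ih (m + 1) n (by omega)
    have h3 := al_dbl (n + 2) [] 1 (m + 1) (i + 1)
    have h4 : i + 1 + (m + 1) + 1 = n + 1 := by omega
    rw [h4, List.nil_append, List.nil_append, al_dbl_one, al_up] at h3
    have e0 : (1 : ℤ) + ((i + 1 : ℕ) : ℤ) = 1 + i + 1 := by push_cast; ring
    rw [e0] at h3 ⊢
    rw [up_snoc] at h3 ⊢
    generalize hy : (1 : ℤ) + i = y at h1 h3 ⊢
    have h2 := hole_step (al_rel (n + 2)) (al_cub (n + 2)) (al_ser (n + 2)) (up 1 i) y
      (up (y + 1 + 1 + 1) m)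
    simp only [up, List.append_assoc, List.cons_append, List.nil_append] at h1 h2 h3 ⊢
    rw [h2, h1, h3, ← Finset.sum_add_distrib]
    apply Finset.sum_congr rfl
    intro p _
    push_cast
    ring

end Pool.Agent.Q258.MT
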