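import Pool.Agent.Q258.MT.Alg4
import Pool.Agent.Q258.MT.Hole

set_option autoImplicit false

/-!
Rows `1, ..., k, 1, ..., n`.
-/

noncomputable section

namespace Pool.Agent.Q258.MT

/-! ### degrees and signs -/

theorem Sg_V {a m : ℤ} {n : ℕ} {x : WA} (hx : x ∈ V a m n) : Sg x = (-1 : ℚ) ^ n • x := by
  induction hx using Submodule.span_induction with
  | mem x hx =>
    obtain ⟨w, hw, -, rfl⟩ := hx
    rw [Sg_W]
    congr 2
    exact_mod_cast hw
  | zero => rw [map_zero, smul_zero]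
  | add y z _ _ h1 h2 => rw [map_add, h1, h2, smul_add]
  | smul c y _ h => rw [map_smul, h, smul_comm]

theorem Sg_V_even {a m : ℤ} {k : ℕ} {x : WA} (hx : x ∈ V a m (2 * k)) : Sg x = x := by
  have h : x ∈ V a m ((2 * k : ℕ) : ℤ) := V_cast hx (by push_cast; ring)
  rw [Sg_V h, pow_mul]
  norm_num

theorem L_sgm (x y : ℤ) : L (sgm x y) = sgm (x + 1) (y + 1) := by
  have h1 : ∀ n : ℕ, L (sgm x (x + n)) = sgm (x + 1) (x + 1 + n) := by
    intro n
    induction n with
    | zero => simp [sgm_self, L_X]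
    | succ n ih =>
      have e : x + ((n + 1 : ℕ) : ℤ) = x + n + 1 := by push_cast; ring
      have e2 : x + 1 + ((n + 1 : ℕ) : ℤ) = x + 1 + n + 1 := by push_cast; ring
      rw [e, e2, sgm_succ, sgm_succ, map_add, ih, L_X]
      congr 2; ring
  have h2 : ∀ n : ℕ, L (sgm x (x - n)) = sgm (x + 1) (x + 1 - n) := by
    intro n
    induction n with
    | zero => simp [sgm_self, L_X]
    | succ n ih =>
      have e : x - ((n + 1 : ℕ) : ℤ) = x - n - 1 := by push_cast; ring
      have e2 : x + 1 - ((n + 1 : ℕ) : ℤ) = x + 1 - n - 1 := by push_cast; ring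
      rw [e, e2, sgm_pred, sgm_pred, map_sub, ih, L_X]
      congr 2; ring
  rcases le_total x y with h | h
  · obtain ⟨n, hn⟩ := Int.eq_ofNat_of_zero_le (sub_nonneg.mpr h)
    have e : y = x + n := by omega
    have e2 : x + n + 1 = x + 1 + n := by ring
    rw [e, h1 n, e2]
  · obtain ⟨n, hn⟩ := Int.eq_ofNat_of_zero_le (sub_nonneg.mpr h)
    have e : y = x - n := by omega
    have e2 : x - n + 1 = x + 1 - n := by ring
    rw [e, h2 n, e2]

/-- `d` commutes with the translation -/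
theorem d_L (a : WA) : d (L a) = L (d a) := by
  have key : ∀ (n : ℕ) (w : List ℤ), w.length ≤ n → d (L (W w)) = L (d (W w)) := by
    intro n
    induction n with
    | zero =>
      intro w hw
      have : w = [] := List.eq_nil_of_length_eq_zero (by omega)
      subst this
      rw [W_nil, map_one, d_one, map_zero]
    | succ n ih =>
      intro w hw
      match w with
      | [] => rw [W_nil, map_one, d_one, map_zero]
      | [x] => rw [W_single, L_X, d_X, d_X, map_one]
      | x :: y :: w =>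
        have i1 := ih (y :: w) (by simp at hw ⊢; omega)
        have i2 := ih w (by simp at hw ⊢; omega)
        rw [W_cons, map_mul L, L_X] at i1
        rw [W_cons, W_cons, ← mul_assoc, d_left, map_mul L, map_mul L, L_X, L_X, d_left, i1, i2, map_sub,
          map_mul L, map_mul L, map_mul L, L_sgm, L_X]
  induction a using W_induction with
  | h1 w => exact key w.length w le_rfl
  | h2 a b ha hb => rw [map_add, map_add, map_add, map_add, ha, hb]
  | h3 c a ha => rw [map_smul, map_smul, map_smul, map_smul, ha]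

/-! ### increasing words -/

/-- the word `a, a + 1, ..., a + n - 1` -/
def S1 (a : ℤ) (n : ℕ) : WA := W (up a n)

theorem S1_zero (a : ℤ) : S1 a 0 = 1 := rfl

theorem S1_succ (a : ℤ) (n : ℕ) : S1 a (n + 1) = X a * S1 (a + 1) n := rfl

theorem S1_snoc (a : ℤ) (n : ℕ) : S1 a (n + 1) = S1 a n * X (a + n) := by
  unfold S1; rw [up_snoc, W_append, W_single]

theorem S1_add (m : ℕ) : ∀ (a : ℤ) (n : ℕ), S1 a (m + n) = S1 a m * S1 (a + m) n := by
  induction m with
  | zero => intro a n; simp [S1_zero]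
  | succ m ih =>
    intro a n
    have e : m + 1 + n = (m + n) + 1 := by ring
    rw [e, S1_succ, ih, S1_succ, mul_assoc]
    congr 3
    push_cast; ring

theorem up_mem (n : ℕ) : ∀ (a z : ℤ), z ∈ up a n → a ≤ z ∧ z ≤ a + n - 1 := by
  induction n with
  | zero => intro a z hz; simp [up] at hz
  | succ n ih =>
    intro a z hz
    simp only [up, List.mem_cons] at hz
    push_cast
    rcases hz with rfl | hz
    · omega
    · have := ih _ _ hz; omega

theorem up_length (n : ℕ) : ∀ a : ℤ, (up a n).length = n := by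
  induction n with
  | zero => intro a; rfl
  | succ n ih => intro a; simp [up, ih]

theorem S1_mem (a : ℤ) (n : ℕ) : S1 a n ∈ V a (a + n - 1) n := by
  have := V_W (up a n) (fun z hz => up_mem n a z hz)
  rwa [up_length] at this

theorem S1_mem' {a a' m : ℤ} {n : ℕ} (h1 : a' ≤ a) (h2 : a + n - 1 ≤ m) : S1 a n ∈ V a' m n :=
  V_mono h1 h2 (S1_mem a n)

theorem L_S1 (n : ℕ) : ∀ a : ℤ, L (S1 a n) = S1 (a + 1) n := by
  induction n with
  | zero => intro a; rw [S1_zero, S1_zero, map_one]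
  | succ n ih => intro a; rw [S1_succ, S1_succ, map_mul, L_X, ih]

theorem Li_S1 (n : ℕ) (a : ℤ) : Li (S1 a n) = S1 (a - 1) n := by
  have := L_S1 n (a - 1)
  rw [sub_add_cancel] at this
  rw [← this, Li_L]

/-- the operator of the largest letter -/
theorem DI_S1 (n : ℕ) : DI (n + 1) (S1 1 (n + 1)) (S1 2 n) := by
  rw [S1_snoc]
  have e : (1 : ℤ) + n = n + 1 := by ring
  rw [e]
  have := (DI_lt (S1_mem 1 n) (by omega : (1 : ℤ) + n - 1 < n + 1)).mul (DI_X_self (n + 1))
  rw [zero_mul, zero_add, mul_one, L_S1] at this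
  exact this

/-- the operator of the smallest letter -/
theorem D0_S1 (n : ℕ) : D0 (S1 1 (n + 1)) (S1 1 n) := by
  rw [S1_succ]
  have := D0_X_one.mul (D0_gt (S1_mem (1 + 1) n) (by norm_num))
  rw [one_mul, mul_zero, add_zero, Li_S1] at this
  simpa using this

/-! ### the word `k k ... 1 1` -/

/-- the image of `k + 1, k + 1, ..., 1, 1` under the operator of the largest letter -/
def wk (k : ℕ) : WA := X (k + 1 : ℕ) * M (Dw k)

theorem DI_Dw (k : ℕ) : DI (k + 1 : ℕ) (Dw (k + 1)) (wk k) := by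
  have := (DI_XX ((k + 1 : ℕ) : ℤ)).mul (DI_lt (Dw_mem k) (by push_cast; omega : (k : ℤ) < (k + 1 : ℕ)))
  rw [mul_zero, add_zero] at this
  exact this

theorem d_wk (k : ℕ) : d (wk k) = L (Dw k) := by
  rw [wk, d_mul_M, d_X, one_mul, Ls_eq, Sg_V_even (V_L (Dw_mem k))]

theorem Dw_ne_zero (k : ℕ) : Dw k ≠ 0 := by
  induction k with
  | zero =>
    intro h
    have h1 : (1 : WA) = 0 := h
    have := congrArg Av h1
    rw [← W_nil, Av_W, map_zero] at this
    simp [al_zero] at this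
  | succ k ih =>
    intro h
    have h1 := DI_Dw k
    rw [h] at h1
    have h2 := h1.unique (DI.zero _)
    have h3 := d_wk k
    rw [h2, map_zero] at h3
    exact ih (L_inj (h3.symm.trans (map_zero L).symm))

theorem L_Dw (k : ℕ) : Dw (k + 1) = L (Dw k) * (X 1 * X 1) := by
  induction k with
  | zero => simp [Dw]
  | succ k ih =>
    have e : ((k + 1 + 1 : ℕ) : ℤ) = (k + 1 : ℕ) + 1 := by push_cast; ring
    calc Dw (k + 1 + 1) = X ((k + 1 + 1 : ℕ) : ℤ) * X ((k + 1 + 1 : ℕ) : ℤ) * Dw (k + 1) := rfl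
      _ = X ((k + 1 + 1 : ℕ) : ℤ) * X ((k + 1 + 1 : ℕ) : ℤ) * (L (Dw k) * (X 1 * X 1)) := by rw [ih]
      _ = L (Dw (k + 1)) * (X 1 * X 1) := by
        rw [Dw, map_mul, map_mul, L_X, e]; noncomm_ring

/-- the operator of the letter `1` -/
theorem D0_Dw (k : ℕ) : D0 (Dw (k + 1)) (M (Dw k) * X 1) := by
  rw [L_Dw]
  have h1 : D0 (X 1 * X 1) (X 1) := by
    have := D0_X_one.mul D0_X_one
    rw [one_mul, mul_one, Li_X, M'_X] at this
    simpa using this
  have := (D0_gt (V_L (Dw_mem k)) (by norm_num)).mul h1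
  rw [zero_mul, zero_add, M'_L, Sg_V_even (V_M (Dw_mem k))] at this
  exact this

theorem d_zk (k : ℕ) : d (M (Dw k) * X 1) = Dw k := by
  have e : M (Dw k) = M' (L (Dw k)) := by rw [M'_L, Sg_V_even (V_M (Dw_mem k))]
  rw [e, d_M'_mul, d_X, mul_one, Ls_eq, Rf_L]
  have h : Rf (L (Dw k)) ∈ V (-(k + 1)) (-(1 + 1)) (2 * k) := V_Rf (V_L (Dw_mem k))
  have h1 : Sg (L (Li (Rf (Dw k)))) = L (Li (Rf (Dw k))) := by
    rw [Rf_L] at h
    exact Sg_V_even (V_L h)
  rw [h1, L_Li, Rf_Rf]

theorem wk_mem (k : ℕ) : wk k ∈ V 1 (k + 1 : ℕ) (2 * k + 1) := by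
  have h : M (Dw k) ∈ V 1 ((k + 1 : ℕ) : ℤ) (2 * k) := V_mono le_rfl (by push_cast; omega) (V_M (Dw_mem k))
  exact V_cast (V_mul (V_X (by push_cast; omega) le_rfl) h) (by ring)

/-- `w_k 1 = ± D_k` -/
theorem wk_mul_one (k : ℕ) : wk k * X 1 = (-1 : ℚ) ^ k • Dw (k + 1) := by
  induction k with
  | zero => simp [wk, Dw]
  | succ k ih =>
    -- `M (D_{k+1}) 1 = - (k+2) (w_k 1)`
    have h1 : M (Dw (k + 1)) * X 1 + X ((k + 1 + 1 : ℕ) : ℤ) * (wk k * X 1) = 0 := by
      have v1 : M (Dw (k + 1)) * X 1 + X ((k + 1 + 1 : ℕ) : ℤ) * (wk k * X 1) ∈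
          V 1 ((k + 1 + 1 : ℕ) : ℤ) (2 * k + 3) := by
        refine Submodule.add_mem _ ?_ ?_
        · exact V_cast (V_mul (V_mono le_rfl (by push_cast; omega) (V_M (Dw_mem (k + 1))))
            (V_X le_rfl (by push_cast; omega))) (by push_cast; ring)
        · exact V_cast (V_mul (V_X (by push_cast; omega) le_rfl) (V_mul
            (V_mono le_rfl (by push_cast; omega) (wk_mem k)) (V_X le_rfl (by push_cast; omega)))) (by ring)
      have k1 : DI ((k + 1 + 1 : ℕ) : ℤ) (M (Dw (k + 1)) * X 1) (- M (wk k * X 1)) := by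
        have a1 := (DI_Dw k).M
        have e : ((k + 1 : ℕ) : ℤ) + 1 = ((k + 1 + 1 : ℕ) : ℤ) := by push_cast; ring
        rw [e] at a1
        have := a1.mul (DI_X_lt (by push_cast; omega : (1 : ℤ) < ((k + 1 + 1 : ℕ) : ℤ)))
        rw [mul_zero, add_zero, neg_mul, ← map_mul] at this
        exact this
      have k2 : DI ((k + 1 + 1 : ℕ) : ℤ) (X ((k + 1 + 1 : ℕ) : ℤ) * (wk k * X 1)) (M (wk k * X 1)) := by
        have v : wk k * X 1 ∈ V 1 ((k + 1 : ℕ) : ℤ) (2 * k + 1 + 1) :=
          V_mul (wk_mem k) (V_X le_rfl (by push_cast; omega))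
        have := (DI_X_self ((k + 1 + 1 : ℕ) : ℤ)).mul (DI_lt v (by push_cast; omega))
        rw [one_mul, mul_zero, add_zero] at this
        exact this
      have k3 := k1.add k2
      rw [neg_add_cancel] at k3
      exact V_top_zero (k + 1) (DI_kernel v1 k3) (by push_cast; omega) (by push_cast; omega)
    have h2 : M (Dw (k + 1)) * X 1 = - (X ((k + 1 + 1 : ℕ) : ℤ) * (wk k * X 1)) := eq_neg_of_add_eq_zero_left h1
    have h3 : Dw (k + 1 + 1) = X ((k + 1 + 1 : ℕ) : ℤ) * X ((k + 1 + 1 : ℕ) : ℤ) * Dw (k + 1) := rfl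
    rw [wk, mul_assoc, h2, ih, h3, pow_succ]
    simp only [mul_smul_comm, mul_neg, neg_smul, mul_assoc, mul_one]

theorem M_Dw_ne_zero (k : ℕ) : M (Dw k) ≠ 0 := fun h => Dw_ne_zero k (M_inj (h.trans (map_zero M).symm))

/-- the operator of the largest letter on the image of `D_{k+1}` under that of the letter `1` -/
theorem DI_zk (k : ℕ) : DI (k + 1 : ℕ) (M (Dw k) * X 1) ((-1 : ℚ) ^ k • M (Dw k)) := by
  cases k with
  | zero =>
    simp only [Dw, map_one, one_mul, pow_zero, one_smul]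
    exact DI_X_self _
  | succ k =>
    have a1 := (DI_Dw k).M
    have e : ((k + 1 : ℕ) : ℤ) + 1 = ((k + 1 + 1 : ℕ) : ℤ) := by push_cast; ring
    rw [e] at a1
    have := a1.mul (DI_X_lt (by push_cast; omega : (1 : ℤ) < ((k + 1 + 1 : ℕ) : ℤ)))
    rw [mul_zero, add_zero, neg_mul, ← map_mul, wk_mul_one, map_smul] at this
    rw [pow_succ, mul_neg_one, neg_smul]
    exact this

/-! ### `[1..k][1..k]` -/

theorem Tk (k : ℕ) : S1 1 k * S1 1 k = Dw k := by
  induction k with
  | zero => simp [S1_zero, Dw]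
  | succ k ih =>
    have v1 : S1 1 (k + 1) * S1 1 (k + 1) ∈ V 1 ((k + 1 : ℕ) : ℤ) (2 * ((k + 1 : ℕ) : ℤ)) := by
      have h := S1_mem' (a := 1) (a' := 1) (m := ((k + 1 : ℕ) : ℤ)) (n := k + 1) le_rfl (by omega)
      exact V_cast (V_mul h h) (by ring)
    obtain ⟨c, hc⟩ := V_top_one (k + 1) v1
    -- the operator of the letter `1`
    have h1 := (D0_S1 k).mul (D0_S1 k)
    have h2 := (D0_Dw k).smul c
    rw [hc] at h1
    have h3 := h1.unique h2
    rw [Li_S1, sub_self] at h3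
    -- the operator of the largest letter
    have e : (k : ℤ) + 1 = ((k + 1 : ℕ) : ℤ) := by push_cast; ring
    have k1 : DI ((k + 1 : ℕ) : ℤ) (S1 1 k * S1 0 (k + 1) + M' (S1 1 (k + 1)) * S1 1 k)
        ((-1 : ℚ) ^ k • M (Dw k)) := by
      have a1 := DI_lt (m' := ((k + 1 : ℕ) : ℤ)) (V_mul (S1_mem' (a := 1) (a' := 0) (m := k) (n := k) (by norm_num) (by omega))
        (S1_mem' (a := 0) (a' := 0) (m := k) (n := k + 1) le_rfl (by push_cast; omega))) (by push_cast; omega)
      have a2 := (DI_S1 k).M'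
      have a3 := a2.mul (DI_lt (S1_mem 1 k) (by omega : (1 : ℤ) + k - 1 < k + 1))
      have e1 : S1 2 k = L (S1 1 k) := by rw [L_S1]; norm_num
      rw [mul_zero, add_zero, e1, M'_L, Sg_V (V_M (S1_mem 1 k)), smul_mul_assoc, ← map_mul, ih, e] at a3
      have a4 := a1.add a3
      rwa [zero_add] at a4
    have k2 := (DI_zk k).smul c
    rw [h3] at k1
    have k3 := k1.unique k2
    have k4 : (1 - c) • ((-1 : ℚ) ^ k • M (Dw k)) = 0 := by
      rw [sub_smul, one_smul, ← k3, sub_self]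
    have k5 : c = 1 := by
      by_contra hne
      have : (1 - c) ≠ 0 := sub_ne_zero.mpr (Ne.symm hne)
      have k6 := (smul_eq_zero.mp k4).resolve_left this
      exact M_Dw_ne_zero k ((smul_eq_zero.mp k6).resolve_left (pow_ne_zero _ (by norm_num)))
    rw [hc, k5, one_smul]

/-! ### the rows above `[1..k][1..n]` -/

/-- the word `1, ..., k, 1, ..., n` -/
def kn (k n : ℕ) : WA := S1 1 k * S1 1 n

theorem kn_mem (k n : ℕ) (h : k ≤ n) : kn k n ∈ V 1 n (k + n) :=
  V_mul (S1_mem' le_rfl (by omega)) (S1_mem' le_rfl (by omega))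

theorem kn_succ (k n : ℕ) : kn k (n + 1) = kn k n * X (n + 1 : ℕ) := by
  unfold kn
  rw [S1_snoc, mul_assoc]
  congr 3
  push_cast; ring

/-- the operator of the largest letter -/
theorem DI_kn (k n : ℕ) (h : k ≤ n) : DI (n + 1 : ℕ) (kn k (n + 1)) (L (kn k n)) := by
  rw [kn_succ]
  have := (DI_lt (kn_mem k n h) (by push_cast; omega : (n : ℤ) < (n + 1 : ℕ))).mul (DI_X_self ((n + 1 : ℕ) : ℤ))
  rwa [zero_mul, zero_add, mul_one] at this

theorem I0 (k : ℕ) : d (Dw (k + 1)) = kn k (k + 1) := by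
  rw [← sub_eq_zero]
  have k1 := (DI_Dw k).d
  rw [d_wk] at k1
  have k2 := DI_kn k k le_rfl
  have e : kn k k = Dw k := Tk k
  rw [e] at k2
  have k3 := k1.sub k2
  rw [sub_self] at k3
  have v : d (Dw (k + 1)) - kn k (k + 1) ∈ V 1 ((k + 1 : ℕ) : ℤ) (2 * k + 1) := by
    refine Submodule.sub_mem _ ?_ ?_
    · exact V_cast (V_d (Dw_mem (k + 1))) (by push_cast; ring)
    · exact V_cast (kn_mem k (k + 1) (by omega)) (by push_cast; ring)
  exact V_top_zero k (DI_kernel v k3) (by push_cast; omega) (by omega)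

/-- the operator of the letter `1` on `[1..k][1..n]`, `k < n` -/
theorem O1 (k n : ℕ) (h : k ≤ n) : D0 (kn k (n + 1)) (kn k n) := by
  cases k with
  | zero =>
    have := D0_S1 n
    simpa [kn, S1_zero] using this
  | succ k =>
    -- `n = k + 1`
    have h1 : D0 (kn (k + 1) (k + 1 + 1)) (Dw (k + 1)) := by
      have := (D0_Dw (k + 1)).d
      rw [d_zk, I0] at this
      exact this
    have h2 : ∀ m : ℕ, D0 (kn (k + 1) (m + 1)) (S1 1 k * S1 0 (m + 1) + M' (S1 1 (k + 1)) * S1 1 m) := by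
      intro m
      have := (D0_S1 k).mul (D0_S1 m)
      rw [Li_S1, sub_self] at this
      exact this
    have h3 := (h2 (k + 1)).unique h1
    rw [← Tk] at h3
    obtain ⟨j, rfl⟩ : ∃ j, n = k + 1 + j := ⟨n - (k + 1), by omega⟩
    have h4 := h2 (k + 1 + j)
    have e : S1 1 k * S1 0 (k + 1 + j + 1) + M' (S1 1 (k + 1)) * S1 1 (k + 1 + j) = kn (k + 1) (k + 1 + j) := by
      have e1 : S1 0 (k + 1 + j + 1) = S1 0 (k + 1 + 1) * S1 (0 + (k + 1 + 1 : ℕ)) j := by
        rw [← S1_add]; congr 1; ring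
      have e2 : S1 1 (k + 1 + j) = S1 1 (k + 1) * S1 (0 + (k + 1 + 1 : ℕ)) j := by
        rw [S1_add]
        congr 2; push_cast; ring
      rw [e1, e2, ← mul_assoc, ← mul_assoc, ← add_mul, h3, kn, e2, ← mul_assoc]
    rw [e] at h4
    exact h4

theorem z_ne_zero (k : ℕ) : M (Dw k) * X 1 ≠ 0 := by
  intro h
  have := d_zk k
  rw [h, map_zero] at this
  exact Dw_ne_zero k this.symm

/-- the row above `[1..k+1][1..n]` is `[1..k][1..n]` -/
theorem I1 (k n : ℕ) (h : k + 1 ≤ n) : d (kn (k + 1) n) = kn k n := by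
  have h0 : d (kn (k + 1) (k + 1)) = kn k (k + 1) := by
    have e : kn (k + 1) (k + 1) = Dw (k + 1) := Tk (k + 1)
    rw [e, I0]
  have h1 : d (kn (k + 1) (k + 1 + 1)) = kn k (k + 1 + 1) := by
    rw [← sub_eq_zero]
    have k1 := (DI_kn (k + 1) (k + 1) le_rfl).d
    rw [d_L, h0] at k1
    have k2 := DI_kn k (k + 1) (by omega)
    have k3 := k1.sub k2
    rw [sub_self] at k3
    have v : d (kn (k + 1) (k + 1 + 1)) - kn k (k + 1 + 1) ∈ V 1 ((k + 1 + 1 : ℕ) : ℤ) (2 * (k + 1 : ℕ)) := by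
      refine Submodule.sub_mem _ ?_ ?_
      · exact V_cast (V_d (kn_mem (k + 1) (k + 1 + 1) (by omega))) (by push_cast; ring)
      · exact V_cast (kn_mem k (k + 1 + 1) (by omega)) (by push_cast; ring)
    have v2 := DI_kernel v k3
    have e : ((k + 1 + 1 : ℕ) : ℤ) - 1 = ((k + 1 : ℕ) : ℤ) := by push_cast; ring
    rw [e] at v2
    obtain ⟨c, hc⟩ := V_top_one (k + 1) v2
    have j1 := (O1 (k + 1) (k + 1) le_rfl).d
    rw [h0] at j1
    have j2 := O1 k (k + 1) (by omega)
    have j3 := j1.sub j2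
    rw [sub_self, hc] at j3
    have j4 := j3.unique ((D0_Dw k).smul c)
    have : c = 0 := by
      rcases smul_eq_zero.mp j4.symm with h | h
      · exact h
      · exact absurd h (z_ne_zero k)
    rw [hc, this, zero_smul]
  have key : ∀ j : ℕ, d (kn (k + 1) (k + 1 + j)) = kn k (k + 1 + j) ∧
      d (kn (k + 1) (k + 1 + j + 1)) = kn k (k + 1 + j + 1) := by
    intro j
    induction j with
    | zero => exact ⟨h0, h1⟩
    | succ j ih =>
      obtain ⟨i1, i2⟩ := ih
      refine ⟨i2, ?_⟩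
      have e : k + 1 + (j + 1) + 1 = (k + 1 + j + 1) + 1 := by ring
      rw [e]
      generalize k + 1 + j = m at i1 i2 ⊢
      have s1 : ((m + 1 + 1 : ℕ) : ℤ) = ((m + 1 : ℕ) : ℤ) + 1 := by push_cast; ring
      rw [kn_succ (k + 1) (m + 1), kn_succ (k + 1) m, d_right, ← kn_succ, i1, i2, s1, sgm_succ, sgm_self,
        ← s1, kn_succ k (m + 1), mul_add]
      have : kn k m * (X ((m + 1 : ℕ) : ℤ) * X ((m + 1 : ℕ) : ℤ)) = kn k (m + 1) * X ((m + 1 : ℕ) : ℤ) := by
        rw [kn_succ, mul_assoc]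
      rw [this]
      abel
  obtain ⟨j, rfl⟩ : ∃ j, n = k + 1 + j := ⟨n - (k + 1), by omega⟩
  exact (key j).1

theorem kn_W (k n : ℕ) : kn k n = W (up 1 k ++ up 1 n) := by rw [W_append]; rfl

/-- **the value at `1, ..., k, 1, ..., n`** -/
theorem al_kn (n k : ℕ) (h : k ≤ n) : al (k + n) (up 1 k ++ up 1 n) = al n (up 1 n) := by
  have key : Av (kn k n) = Av (S1 1 n) := by
    induction k with
    | zero => simp [kn, S1_zero]
    | succ k ih =>
      rw [← ih (by omega), ← I1 k n h, kn_W, Av_d_W]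
      simp [up]
  have e1 : Av (kn k n) = al (k + n) (up 1 k ++ up 1 n) := by
    rw [kn_W, Av_W, List.length_append, up_length, up_length]
  have e2 : Av (S1 1 n) = al n (up 1 n) := by
    rw [S1, Av_W, up_length]
  rw [← e1, ← e2, key]

/-! ### reversed and doubled blocks -/

theorem Vk (k : ℕ) : kn k (k + 1) = S1 1 (k + 1) * S1 2 k := by
  rw [← sub_eq_zero]
  have h1 := O1 k k le_rfl
  have h2 := (D0_S1 k).mul (D0_gt (S1_mem 2 k) (by norm_num))
  rw [mul_zero, add_zero, Li_S1] at h2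
  have h3 := h1.sub h2
  have e : kn k k - S1 1 k * S1 (2 - 1) k = 0 := by norm_num [kn]
  rw [e] at h3
  have v : kn k (k + 1) - S1 1 (k + 1) * S1 2 k ∈ V 1 ((k + 1 : ℕ) : ℤ) (2 * k + 1) := by
    refine Submodule.sub_mem _ ?_ ?_
    · exact V_cast (kn_mem k (k + 1) (by omega)) (by push_cast; ring)
    · exact V_cast (V_mul (S1_mem' le_rfl (by push_cast; omega)) (S1_mem' (by norm_num) (by push_cast; omega)))
        (by push_cast; ring)
  exact V_top_zero k (D0_kernel v h3) (by push_cast; omega) (by omega)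

theorem Sk (k : ℕ) : Dw k * X (k + 1 : ℕ) = X 1 * L (Dw k) := by
  have h := Vk k
  rw [kn_succ] at h
  have e : kn k k = Dw k := Tk k
  rw [e] at h
  rw [h, S1_succ, ← Tk, map_mul, L_S1, mul_assoc]
  norm_num

/-- the list `a + k - 1, a + k - 1, ..., a, a` -/
def dbl (a : ℤ) : ℕ → List ℤ
  | 0 => []
  | k + 1 => (a + k) :: (a + k) :: dbl a k

theorem W_dbl (k : ℕ) : W (dbl 1 k) = Dw k := by
  induction k with
  | zero => rfl
  | succ k ih =>
    have e : (1 : ℤ) + k = ((k + 1 : ℕ) : ℤ) := by push_cast; ring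
    rw [dbl, W_cons, W_cons, ih, Dw, e, mul_assoc]

theorem L_dbl (a : ℤ) (k : ℕ) : L (W (dbl a k)) = W (dbl (a + 1) k) := by
  induction k with
  | zero => rw [dbl, dbl, W_nil, map_one]
  | succ k ih =>
    have e : a + (k : ℤ) + 1 = a + 1 + k := by ring
    rw [dbl, dbl, W_cons, W_cons, map_mul, map_mul, ih, L_X, W_cons, W_cons, e]

theorem dbl_length (a : ℤ) (k : ℕ) : (dbl a k).length = 2 * k := by
  induction k with
  | zero => rfl
  | succ k ih => simp [dbl, ih]; ring

theorem dbl_step (k i : ℕ) : W (dbl (1 + i) k) * X (1 + i + k) = X (1 + i) * W (dbl (1 + i + 1) k) := by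
  induction i with
  | zero =>
    have := Sk k
    rw [← W_dbl, L_dbl] at this
    have e : ((k + 1 : ℕ) : ℤ) = 1 + ((0 : ℕ) : ℤ) + k := by push_cast; ring
    rw [e] at this
    simpa using this
  | succ i ih =>
    have := congrArg L ih
    rw [map_mul, map_mul, L_dbl, L_dbl, L_X, L_X] at this
    have e1 : (1 : ℤ) + i + k + 1 = 1 + ((i + 1 : ℕ) : ℤ) + k := by push_cast; ring
    have e2 : (1 : ℤ) + i + 1 = 1 + ((i + 1 : ℕ) : ℤ) := by push_cast; ring
    rw [e1, e2] at this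
    exact this

/-- **the block moves to the front** -/
theorem dbl_mv (k : ℕ) : ∀ i m : ℕ, S1 1 i * W (dbl (1 + i) k) * S1 (1 + i + k) m = kn k (i + k + m) := by
  intro i
  induction i with
  | zero =>
    intro m
    have e : (1 : ℤ) + ((0 : ℕ) : ℤ) = 1 := by norm_num
    rw [e, S1_zero, one_mul, W_dbl, zero_add, kn, S1_add k, ← mul_assoc, Tk]
  | succ i ih =>
    intro m
    have h := ih (m + 1)
    have e1 : i + k + (m + 1) = i + 1 + k + m := by ring
    rw [e1, S1_succ, ← mul_assoc, mul_assoc (S1 1 i), dbl_step] at h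
    rw [← h, S1_snoc]
    have e2 : (1 : ℤ) + ((i + 1 : ℕ) : ℤ) = 1 + i + 1 := by push_cast; ring
    have e3 : (1 : ℤ) + i + 1 + k = 1 + i + k + 1 := by ring
    rw [e2, e3]
    simp only [mul_assoc]

/-- **the value at a row with a reversed and doubled block** -/
theorem al_rev (k i m : ℕ) : al (i + k + m + k) (up 1 i ++ dbl (1 + i) k ++ up (1 + i + k) m) =
    al (i + k + m) (up 1 (i + k + m)) := by
  rw [← al_kn (i + k + m) k (by omega)]
  have h := congrArg Av (dbl_mv k i m)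
  have e1 : S1 1 i * W (dbl (1 + i) k) * S1 (1 + i + k) m = W (up 1 i ++ dbl (1 + i) k ++ up (1 + i + k) m) := by
    rw [W_append, W_append]; rfl
  rw [e1, kn_W, Av_W, Av_W] at h
  have l1 : (up 1 i ++ dbl (1 + i) k ++ up (1 + i + k) m).length = i + k + m + k := by
    simp only [List.length_append, up_length, dbl_length]; ring
  have l2 : (up 1 k ++ up 1 (i + k + m)).length = k + (i + k + m) := by
    simp only [List.length_append, up_length]
  rw [l1, l2] at h
  exact h

end Pool.Agent.Q258.MT
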