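import Pool.Agent.Q258.MT.Alg5

set_option autoImplicit false

/-!
The functional left invariant by the operator of the letter `1`.
-/

noncomputable section

namespace Pool.Agent.Q258.MT

theorem Ic_congr_len (c : ℤ → ℚ) (l : List ℤ) : ∀ (f g : List ℤ → ℚ),
    (∀ m : List ℤ, m.length + 1 = l.length → f m = g m) → Ic c l f = Ic c l g := by
  induction l with
  | nil => intro f g _; rfl
  | cons x l ih =>
    intro f g h
    simp only [Ic]
    rw [h l rfl, ih (fun m => f (x :: m)) (fun m => g (x :: m)) (fun m hm => h (x :: m) (by simp [hm]))]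

/-- iterated signed insertions -/
def hh : ℕ → List ℤ → ℚ
  | 0, l => if l = [] then 1 else 0
  | n + 1, l => (-1) ^ n * Ic (fun x => if x = (n : ℤ) - 1 then 1 else 0) l (hh n)

theorem hh_anti (n : ℕ) : Anti (hh n) := by
  induction n with
  | zero =>
    intro u x y v
    simp [hh]
  | succ n ih =>
    intro u x y v
    simp only [hh]
    have h := ih.Ic (c := fun x => if x = (n : ℤ) - 1 then 1 else 0) u x y v
    simp only at h
    rw [h]
    ring

/-- the iterated insertions on all lists -/
def hhAll (l : List ℤ) : ℚ := hh l.length l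

theorem hhAll_anti : Anti hhAll := by
  intro u x y v
  unfold hhAll
  have e : (u ++ x :: y :: v).length = (u ++ y :: x :: v).length := by simp
  rw [e]
  exact hh_anti _ u x y v

theorem psi_hhAll (l : List ℤ) (hl : l ≠ []) : psi (-1) hhAll l = hhAll l := by
  obtain ⟨x, r, rfl⟩ := List.exists_cons_of_ne_nil hl
  unfold psi
  rw [Ic_congr_len _ _ hhAll (hh r.length) (fun m hm => by
    simp only [List.length_cons, Nat.add_right_cancel_iff] at hm
    rw [hhAll, hm])]
  have e : (-1 : ℤ) + ((x :: r).length : ℤ) - 1 = (r.length : ℤ) - 1 := by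
    simp only [List.length_cons]; push_cast; ring
  rw [e, hhAll]
  simp only [List.length_cons, hh]
  ring

/-- the indicator of the empty list -/
def e0 (l : List ℤ) : ℚ := if l = [] then 1 else 0

theorem e0_anti : Anti e0 := by
  intro u x y v
  simp [e0]

/-- the constant coefficient -/
def eps : WA →ₗ[ℚ] ℚ := evq e0 e0_anti

theorem eps_W (w : List ℤ) : eps (W w) = if w = [] then 1 else 0 := by
  unfold eps
  rw [evq_W]
  split_ifs with h
  · subst h; simp [T, e0]
  · have : T w e0 = T w (fun _ => 0) := by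
      apply T_congr_len
      intro l hl
      rw [e0, if_neg]
      rintro rfl
      exact h (List.eq_nil_of_length_eq_zero hl.symm)
    rw [this, T_zero]

theorem eps_V {a m n : ℤ} {x : WA} (hx : x ∈ V a m n) (h : n ≠ 0) : eps x = 0 := by
  induction hx using Submodule.span_induction with
  | mem x hx =>
    obtain ⟨w, hw, -, rfl⟩ := hx
    rw [eps_W, if_neg]
    rintro rfl
    exact h (by simpa using hw.symm)
  | zero => rw [map_zero]
  | add y z _ _ h1 h2 => rw [map_add, h1, h2, add_zero]
  | smul c y _ h => rw [map_smul, h, smul_zero]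

theorem evq_hhAll (a : WA) : evq hhAll hhAll_anti a =
    evq (psi (-1) hhAll) (psi_anti (-1) hhAll_anti) a + eps a := by
  induction a using W_induction with
  | h1 w =>
    rw [evq_W, evq_W, eps_W]
    by_cases h : w = []
    · subst h
      simp [T, hhAll, hh, psi, Ic]
    · rw [if_neg h, add_zero]
      apply T_congr_len
      intro l hl
      rw [psi_hhAll]
      rintro rfl
      exact h (List.eq_nil_of_length_eq_zero hl.symm)
  | h2 a b ha hb => rw [map_add, map_add, map_add, ha, hb]; ring
  | h3 c a ha => rw [map_smul, map_smul, map_smul, ha, smul_add]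

/-- the functional left invariant by the operator of the letter `1` -/
def ev0 : WA →ₗ[ℚ] ℚ := evq hhAll hhAll_anti ∘ₗ Rf

theorem ev0_eq (a : WA) : ev0 a = evq hhAll hhAll_anti (Rf a) := rfl

theorem ev0_one : ev0 1 = 1 := by
  rw [ev0_eq, Rf_one, ← W_nil, evq_W]
  simp [T, hhAll, hh]

theorem ev0_D0 {a b : WA} {c m n : ℤ} (h : D0 a b) (ha : a ∈ V c m n) (hn : n ≠ 0) : ev0 b = ev0 a := by
  rw [ev0_eq, ev0_eq, evq_hhAll (Rf a), DI.dual h hhAll hhAll_anti, eps_V (V_Rf ha) hn, add_zero]

theorem ev0_smul_one (c : ℚ) : ev0 (c • 1) = c := by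
  rw [map_smul, ev0_one, smul_eq_mul, mul_one]

theorem ev0_X_one : ev0 (X 1) = 1 := by
  rw [← ev0_D0 D0_X_one (V_X (a := 1) (m := 1) le_rfl le_rfl) one_ne_zero, ev0_one]

theorem ev0_X_gt {z : ℤ} (h : 1 < z) : ev0 (X z) = 0 := by
  rw [← ev0_D0 (D0_X_gt h) (V_X (a := z) (m := z) le_rfl le_rfl) one_ne_zero, map_zero]

theorem ev0_X_mul {z : ℤ} (h : 1 < z) {a b : WA} (hab : D0 a b) {c m n : ℤ} (ha : a ∈ V c m n) (hn : n ≠ -1) :
    ev0 (X z * a) = ev0 (X z * b) - ev0 (X (z - 1) * b) := by
  have h1 := (D0_X_gt h).mul hab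
  rw [zero_mul, zero_add, M'_X, sub_mul] at h1
  have v : X z * a ∈ V (min c z) (max m z) (1 + n) :=
    V_mul (V_X (min_le_right _ _) (le_max_right _ _)) (V_mono (min_le_left _ _) (le_max_left _ _) ha)
  rw [← ev0_D0 h1 v (by omega), map_sub]

/-- the homomorphisms `z ↦ z + t (z + 1)` and the operator of the letter `1` -/
theorem D0.GA {a b : WA} (t : ℚ) (h : D0 a b) : D0 (GA 1 t a) (GA 1 t b) := by
  unfold D0 at *
  rw [Rf_GA', Rf_GA']
  have := DI.hom (m' := -1) (GB 1 t) 1 (fun a => GA_GB_comm _ _ _ _ a) (fun a => GA_GB_comm _ _ _ _ a) (by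
    rw [GB_X, one_smul, one_smul]
    have := (DI_X_self (-1)).add ((DI_X_lt (by norm_num : (-1 : ℤ) - 1 < -1)).smul t)
    rwa [smul_zero, add_zero] at this) (fun z hz => by
    rw [GB_X, one_smul]
    have := (DI_X_lt hz).add ((DI_X_lt (by omega : z - 1 < -1)).smul t)
    rwa [smul_zero, add_zero] at this) h
  rwa [one_smul] at this

theorem V_GA {a m n : ℤ} (t : ℚ) {x : WA} (hx : x ∈ V a m n) : GA 1 t x ∈ V a (m + 1) n :=
  V_hom (GA 1 t) (fun z h1 h2 => by
    rw [GA_X, one_smul]
    exact Submodule.add_mem _ (V_X h1 (by omega)) (Submodule.smul_mem _ _ (V_X (by omega) (by omega)))) hx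

theorem ev0_GA (t : ℚ) (n : ℕ) : ∀ {m : ℤ} {a : WA}, 1 ≤ m → a ∈ V 1 m n → ev0 (GA 1 t a) = ev0 a := by
  induction n with
  | zero =>
    intro m a _ ha
    obtain ⟨c, rfl⟩ := V_zero_scalar ha
    rw [map_smul, map_one]
  | succ n ih =>
    intro m a hm ha
    obtain ⟨b, hb, hab⟩ := D0_exists ha hm
    rw [← ev0_D0 hab ha (by push_cast; omega), ← ev0_D0 (hab.GA t) (V_GA t ha) (by push_cast; omega)]
    exact ih hm (V_cast hb (by push_cast; ring))

/-- `r` letters of the word are raised -/
def er : List ℤ → ℕ → WA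
  | [], 0 => 1
  | [], _ + 1 => 0
  | y :: w, 0 => X y * er w 0
  | y :: w, r + 1 => X y * er w (r + 1) + X (y + 1) * er w r

theorem er_zero (w : List ℤ) : er w 0 = W w := by
  induction w with
  | nil => rfl
  | cons y w ih => rw [er, ih, W_cons]

theorem er_gt (w : List ℤ) : ∀ r : ℕ, w.length < r → er w r = 0 := by
  induction w with
  | nil => intro r hr; cases r with
    | zero => simp at hr
    | succ r => rfl
  | cons y w ih =>
    intro r hr
    cases r with
    | zero => simp at hr
    | succ r =>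
      simp only [List.length_cons] at hr
      rw [er, ih _ (by omega), ih _ (by omega), mul_zero, mul_zero, add_zero]

theorem GA_er (t : ℚ) (w : List ℤ) : GA 1 t (W w) = ∑ r ∈ Finset.range (w.length + 1), t ^ r • er w r := by
  induction w with
  | nil => simp [W_nil, er]
  | cons y w ih =>
    rw [W_cons, map_mul, ih, GA_X, one_smul, add_mul, List.length_cons,
      Finset.sum_range_succ' _ (w.length + 1)]
    simp only [er, pow_zero, one_smul, smul_add, Finset.sum_add_distrib]
    have h1 : ∑ r ∈ Finset.range (w.length + 1), t ^ (r + 1) • (X y * er w (r + 1)) + X y * er w 0 =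
        X y * ∑ r ∈ Finset.range (w.length + 1), t ^ r • er w r := by
      have h2 := Finset.sum_range_succ' (fun r => t ^ r • (X y * er w r)) (w.length + 1)
      simp only [pow_zero, one_smul] at h2
      rw [← h2, Finset.sum_range_succ, er_gt w (w.length + 1) (by omega), mul_zero, smul_zero, add_zero,
        Finset.mul_sum]
      simp only [mul_smul_comm]
    have h3 : ∑ r ∈ Finset.range (w.length + 1), t ^ (r + 1) • (X (y + 1) * er w r) =
        t • X (y + 1) * ∑ r ∈ Finset.range (w.length + 1), t ^ r • er w r := by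
      rw [Finset.mul_sum]
      apply Finset.sum_congr rfl
      intro r _
      rw [smul_mul_assoc, mul_smul_comm, smul_smul, pow_succ, mul_comm]
    rw [← h1, h3.symm]
    abel

theorem ev0_er (w : List ℤ) (hw : ∀ z ∈ w, 1 ≤ z) (r : ℕ) : ev0 (er w (r + 1)) = 0 := by
  obtain ⟨m, hm1, hm⟩ : ∃ m : ℤ, 1 ≤ m ∧ ∀ z ∈ w, z ≤ m := by
    clear hw
    induction w with
    | nil => exact ⟨1, le_rfl, by simp⟩
    | cons y w ih =>
      obtain ⟨m, h1, h2⟩ := ih
      refine ⟨max y m, le_max_of_le_right h1, ?_⟩
      intro z hz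
      rcases List.mem_cons.mp hz with rfl | hz
      · exact le_max_left _ _
      · exact (h2 z hz).trans (le_max_right _ _)
  have hv : W w ∈ V 1 m w.length := V_W w (fun z hz => ⟨hw z hz, hm z hz⟩)
  have key : ∀ t : ℚ, ∑ r ∈ Finset.range (w.length + 1), t ^ r * ev0 (er w r) = ev0 (W w) := by
    intro t
    rw [← ev0_GA t w.length hm1 hv, GA_er, map_sum]
    simp only [map_smul, smul_eq_mul]
  let p : Polynomial ℚ := ∑ r ∈ Finset.range (w.length + 1), Polynomial.C (ev0 (er w r)) * Polynomial.X ^ r
  have hp : p = Polynomial.C (ev0 (W w)) := by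
    apply Polynomial.funext
    intro t
    simp only [p, Polynomial.eval_finsetSum, Polynomial.eval_mul, Polynomial.eval_C, Polynomial.eval_pow,
      Polynomial.eval_X]
    rw [← key t]
    apply Finset.sum_congr rfl
    intro r _
    ring
  by_cases hr : r + 1 < w.length + 1
  · have h1 := congrArg (fun q => Polynomial.coeff q (r + 1)) hp
    simp only [p, Polynomial.finsetSum_coeff, Polynomial.coeff_C_mul, Polynomial.coeff_X_pow,
      Polynomial.coeff_C, if_neg (Nat.succ_ne_zero r)] at h1
    simpa [Finset.sum_ite_eq, hr] using h1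
  · rw [er_gt w _ (by omega), map_zero]

theorem er_snoc (w : List ℤ) (z : ℤ) : ∀ r : ℕ, er (w ++ [z]) (r + 1) = er w (r + 1) * X z + er w r * X (z + 1) := by
  induction w with
  | nil => intro r; cases r <;> simp [er]
  | cons y w ih =>
    intro r
    rw [List.cons_append, er, ih r]
    cases r with
    | zero =>
      rw [er_zero w, er_zero (w ++ [z]), W_append, W_single, er_zero (y :: w), W_cons, er, er_zero w]
      noncomm_ring
    | succ r =>
      rw [ih r, er, er]
      noncomm_ring

end Pool.Agent.Q258.MT
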