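import Pool.Agent.Q258.MT.Alg6

set_option autoImplicit false

/-!
The exchange of a letter with a word; the pairing; the row `1, ..., k, 1, ..., k - 1`.
-/

noncomputable section

namespace Pool.Agent.Q258.MT

open Finset Polynomial

/-- polynomials in the shift, applied to the letter `1` -/
def XP : ℚ[X] →ₗ[ℚ] WA := (Polynomial.basisMonomials ℚ).constr ℚ (fun i => MT.X (1 + i))

theorem XP_monomial (i : ℕ) (c : ℚ) : XP (monomial i c) = c • MT.X (1 + i) := by
  have h : XP (monomial i 1) = MT.X (1 + i) := by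
    have := (Polynomial.basisMonomials ℚ).constr_basis ℚ (fun i : ℕ => MT.X (1 + (i : ℤ))) i
    simpa [XP] using this
  have : monomial i c = c • monomial i (1 : ℚ) := by rw [smul_monomial, smul_eq_mul, mul_one]
  rw [this, map_smul, h]

theorem XP_X_monomial (i : ℕ) (c : ℚ) : XP (Polynomial.X * monomial i c) = c • MT.X (1 + i + 1) := by
  rw [mul_comm, monomial_mul_X, XP_monomial]
  congr 2

theorem XP_one : XP 1 = MT.X 1 := by
  have := XP_monomial 0 1
  simpa using this

theorem XP_quad (q : ℚ[X]) (y : ℤ) : XP q * MT.X y - XP q * MT.X (y + 1) + XP (Polynomial.X * q) * MT.X (y + 1) =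
    -(MT.X y * XP q - MT.X y * XP (Polynomial.X * q) + MT.X (y + 1) * XP (Polynomial.X * q)) := by
  induction q using Polynomial.induction_on' with
  | add p q hp hq =>
    have e : XP (Polynomial.X * (p + q)) = XP (Polynomial.X * p) + XP (Polynomial.X * q) := by rw [mul_add, map_add]
    rw [e, map_add]
    have := congrArg₂ (· + ·) hp hq
    rw [← sub_eq_zero] at this ⊢
    rw [← this]
    noncomm_ring
  | monomial i c =>
    rw [XP_monomial, XP_X_monomial]
    have h := congrArg (fun t => c • t) (quad (1 + i) y)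
    simp only [smul_zero] at h
    rw [← sub_eq_zero, ← h]
    simp only [smul_mul_assoc, mul_smul_comm, smul_add, smul_sub]
    abel

theorem sum_er_right (y : ℤ) (w : List ℤ) (c : ℕ → WA) : ∑ r ∈ range (w.length + 2), er (y :: w) r * c r =
    MT.X y * ∑ r ∈ range (w.length + 1), er w r * c r +
      MT.X (y + 1) * ∑ r ∈ range (w.length + 1), er w r * c (r + 1) := by
  rw [Finset.sum_range_succ' _ (w.length + 1)]
  simp only [er, add_mul, Finset.sum_add_distrib]
  have h2 := Finset.sum_range_succ' (fun r => MT.X y * er w r * c r) (w.length + 1)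
  rw [Finset.sum_range_succ, er_gt w (w.length + 1) (by omega), mul_zero, zero_mul, add_zero] at h2
  rw [Finset.mul_sum, Finset.mul_sum]
  simp only [← mul_assoc]
  rw [h2]
  abel

theorem sum_er_left (y : ℤ) (w : List ℤ) (c : ℕ → WA) : ∑ r ∈ range (w.length + 2), c r * er (y :: w) r =
    ∑ r ∈ range (w.length + 1), (c r * MT.X y + c (r + 1) * MT.X (y + 1)) * er w r := by
  rw [Finset.sum_range_succ' _ (w.length + 1)]
  simp only [er, mul_add, add_mul, Finset.sum_add_distrib]
  have h2 := Finset.sum_range_succ' (fun r => c r * (MT.X y * er w r)) (w.length + 1)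
  rw [Finset.sum_range_succ, er_gt w (w.length + 1) (by omega), mul_zero, mul_zero, add_zero] at h2
  simp only [mul_assoc]
  rw [h2]
  abel

/-- the exchange of a letter with a word -/
theorem exchange (w : List ℤ) : ∀ q : ℚ[X],
    ∑ r ∈ range (w.length + 1), ((-1 : ℚ) ^ r • XP ((1 - Polynomial.X) ^ r * q)) * er w r =
      (-1 : ℚ) ^ w.length • ∑ r ∈ range (w.length + 1), er w r * XP (Polynomial.X ^ r * (1 - Polynomial.X) ^ (w.length - r) * q) := by
  induction w with
  | nil => intro q; simp [er]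
  | cons y w ih =>
    intro q
    rw [List.length_cons, sum_er_left, sum_er_right]
    have h1 : ∀ r, ((-1 : ℚ) ^ r • XP ((1 - Polynomial.X) ^ r * q)) * MT.X y +
        ((-1 : ℚ) ^ (r + 1) • XP ((1 - Polynomial.X) ^ (r + 1) * q)) * MT.X (y + 1) =
        -(MT.X y * ((-1 : ℚ) ^ r • XP ((1 - Polynomial.X) ^ r * ((1 - Polynomial.X) * q)))) -
          MT.X (y + 1) * ((-1 : ℚ) ^ r • XP ((1 - Polynomial.X) ^ r * (Polynomial.X * q))) := by
      intro r
      have e1 : XP ((1 - Polynomial.X) ^ (r + 1) * q) = XP ((1 - Polynomial.X) ^ r * q) - XP (Polynomial.X * ((1 - Polynomial.X) ^ r * q)) := by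
        rw [← map_sub]; congr 1; ring
      have e2 : XP ((1 - Polynomial.X) ^ r * ((1 - Polynomial.X) * q)) = XP ((1 - Polynomial.X) ^ r * q) - XP (Polynomial.X * ((1 - Polynomial.X) ^ r * q)) := by
        rw [← map_sub]; congr 1; ring
      have e3 : XP ((1 - Polynomial.X) ^ r * (Polynomial.X * q)) = XP (Polynomial.X * ((1 - Polynomial.X) ^ r * q)) := by
        congr 1; ring
      rw [e1, e2, e3]
      have h := congrArg (fun t => (-1 : ℚ) ^ r • t) (XP_quad ((1 - Polynomial.X) ^ r * q) y)
      simp only [smul_add, smul_sub, smul_neg] at h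
      simp only [pow_succ, mul_neg_one, neg_smul, neg_mul, smul_sub, sub_mul, mul_sub, smul_mul_assoc,
        mul_smul_comm]
      rw [← sub_eq_zero] at h ⊢
      rw [← h]
      abel
    have h2 : ∀ r, (((-1 : ℚ) ^ r • XP ((1 - Polynomial.X) ^ r * q)) * MT.X y +
        ((-1 : ℚ) ^ (r + 1) • XP ((1 - Polynomial.X) ^ (r + 1) * q)) * MT.X (y + 1)) * er w r =
        -(MT.X y * (((-1 : ℚ) ^ r • XP ((1 - Polynomial.X) ^ r * ((1 - Polynomial.X) * q))) * er w r)) -
          MT.X (y + 1) * (((-1 : ℚ) ^ r • XP ((1 - Polynomial.X) ^ r * (Polynomial.X * q))) * er w r) := by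
      intro r
      rw [h1 r]
      noncomm_ring
    simp only [h2, Finset.sum_sub_distrib, Finset.sum_neg_distrib, ← Finset.mul_sum]
    rw [ih, ih]
    have e1 : ∑ r ∈ range (w.length + 1), er w r * XP (Polynomial.X ^ r * ((1 - Polynomial.X) ^ (w.length - r) * ((1 - Polynomial.X) * q))) =
        ∑ r ∈ range (w.length + 1), er w r * XP (Polynomial.X ^ r * ((1 - Polynomial.X) ^ (w.length + 1 - r) * q)) := by
      apply Finset.sum_congr rfl
      intro r hr
      rw [Finset.mem_range] at hr
      have : w.length + 1 - r = w.length - r + 1 := by omega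
      rw [this, pow_succ]
      congr 2
      ring
    have e2 : ∑ r ∈ range (w.length + 1), er w r * XP (Polynomial.X ^ r * ((1 - Polynomial.X) ^ (w.length - r) * (Polynomial.X * q))) =
        ∑ r ∈ range (w.length + 1), er w r * XP (Polynomial.X ^ (r + 1) * ((1 - Polynomial.X) ^ (w.length + 1 - (r + 1)) * q)) := by
      apply Finset.sum_congr rfl
      intro r hr
      have : w.length + 1 - (r + 1) = w.length - r := by omega
      rw [this, pow_succ]
      congr 2
      ring
    simp only [mul_assoc] at e1 e2 ⊢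
    rw [e1, e2, pow_succ]
    simp only [mul_neg_one, neg_smul, smul_add, mul_smul_comm]
    abel

theorem ev0_XP_er (w : List ℤ) (hw : ∀ z ∈ w, 1 ≤ z) (r : ℕ) : ∀ q : ℚ[X],
    ev0 (XP q * er w r) = (-1) ^ r * ev0 (XP (Polynomial.X ^ r * q) * W w) := by
  induction r with
  | zero => intro q; rw [er_zero]; simp
  | succ r ih =>
    intro q
    have h1 : ev0 (XP q * er w (r + 1)) = - ev0 (XP (Polynomial.X * q) * er w r) := by
      induction q using Polynomial.induction_on' with
      | add p q hp hq =>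
        rw [mul_add, map_add XP, map_add XP, add_mul, add_mul, map_add, map_add, hp, hq]; ring
      | monomial i c =>
        rw [XP_monomial, XP_X_monomial, smul_mul_assoc, smul_mul_assoc, map_smul, map_smul]
        have := ev0_er ((1 + (i : ℤ)) :: w) (fun z hz => by
          rcases List.mem_cons.mp hz with rfl | hz
          · omega
          · exact hw z hz) r
        rw [er, map_add] at this
        rw [eq_neg_of_add_eq_zero_left this, smul_neg]
    rw [h1, ih, ← mul_assoc, ← pow_succ, pow_succ]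
    ring

theorem ev0_er_XP (w : List ℤ) (hw : ∀ z ∈ w, 1 ≤ z) (r : ℕ) : ∀ q : ℚ[X],
    ev0 (er w r * XP q) = (-1) ^ r * ev0 (W w * XP (Polynomial.X ^ r * q)) := by
  induction r with
  | zero => intro q; rw [er_zero]; simp
  | succ r ih =>
    intro q
    have h1 : ev0 (er w (r + 1) * XP q) = - ev0 (er w r * XP (Polynomial.X * q)) := by
      induction q using Polynomial.induction_on' with
      | add p q hp hq =>
        rw [mul_add, map_add XP, map_add XP, mul_add, mul_add, map_add, map_add, hp, hq]; ring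
      | monomial i c =>
        rw [XP_monomial, XP_X_monomial, mul_smul_comm, mul_smul_comm, map_smul, map_smul]
        have := ev0_er (w ++ [1 + (i : ℤ)]) (fun z hz => by
          rcases List.mem_append.mp hz with hz | hz
          · exact hw z hz
          · rw [List.mem_singleton.mp hz]; omega) r
        rw [er_snoc, map_add] at this
        rw [eq_neg_of_add_eq_zero_left this, smul_neg]
    rw [h1, ih, ← mul_assoc, ← pow_succ, pow_succ]
    ring

theorem ev0_exchange (w : List ℤ) (hw : ∀ z ∈ w, 1 ≤ z) (q : ℚ[X]) :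
    ev0 (XP ((1 - (Polynomial.X * (1 - Polynomial.X)) ^ (w.length + 1)) * q) * W w) =
      (-1) ^ w.length * ev0 (W w * XP (((1 - Polynomial.X) ^ (w.length + 1) - (-Polynomial.X ^ 2) ^ (w.length + 1)) * q)) := by
  have h := congrArg ev0 (exchange w ((1 - Polynomial.X + Polynomial.X ^ 2) * q))
  rw [map_sum, map_smul, map_sum, smul_eq_mul] at h
  have e1 : ∑ r ∈ range (w.length + 1), ev0 (((-1 : ℚ) ^ r • XP ((1 - Polynomial.X) ^ r * ((1 - Polynomial.X + Polynomial.X ^ 2) * q))) * er w r) =
      ev0 (XP ((1 - (Polynomial.X * (1 - Polynomial.X)) ^ (w.length + 1)) * q) * W w) := by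
    have g : (1 - (Polynomial.X * (1 - Polynomial.X)) ^ (w.length + 1)) * q = ∑ r ∈ range (w.length + 1),
        Polynomial.X ^ r * ((1 - Polynomial.X) ^ r * ((1 - Polynomial.X + Polynomial.X ^ 2) * q)) := by
      have := geom_sum_mul (Polynomial.X * (1 - Polynomial.X) : ℚ[X]) (w.length + 1)
      have e : ∑ r ∈ range (w.length + 1), Polynomial.X ^ r * ((1 - Polynomial.X) ^ r * ((1 - Polynomial.X + Polynomial.X ^ 2) * q)) =
          (∑ r ∈ range (w.length + 1), (Polynomial.X * (1 - Polynomial.X) : ℚ[X]) ^ r) * ((1 - Polynomial.X + Polynomial.X ^ 2) * q) := by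
        rw [Finset.sum_mul]
        apply Finset.sum_congr rfl
        intro r _
        rw [mul_pow]; ring
      rw [e]
      linear_combination q * this
    rw [g, map_sum, Finset.sum_mul, map_sum]
    apply Finset.sum_congr rfl
    intro r _
    rw [smul_mul_assoc, map_smul, ev0_XP_er w hw, smul_eq_mul, ← mul_assoc, ← mul_pow]
    norm_num
  have e2 : ∑ r ∈ range (w.length + 1), ev0 (er w r * XP (Polynomial.X ^ r * (1 - Polynomial.X) ^ (w.length - r) * ((1 - Polynomial.X + Polynomial.X ^ 2) * q))) =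
      ev0 (W w * XP (((1 - Polynomial.X) ^ (w.length + 1) - (-Polynomial.X ^ 2) ^ (w.length + 1)) * q)) := by
    have g : ((1 - Polynomial.X) ^ (w.length + 1) - (-Polynomial.X ^ 2) ^ (w.length + 1)) * q = ∑ r ∈ range (w.length + 1),
        (-1 : ℚ[X]) ^ r * (Polynomial.X ^ r * (Polynomial.X ^ r * (1 - Polynomial.X) ^ (w.length - r) * ((1 - Polynomial.X + Polynomial.X ^ 2) * q))) := by
      have := (Commute.all (-Polynomial.X ^ 2 : ℚ[X]) (1 - Polynomial.X)).geom_sum₂_mul (w.length + 1)
      have e : ∑ r ∈ range (w.length + 1),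
          (-1 : ℚ[X]) ^ r * (Polynomial.X ^ r * (Polynomial.X ^ r * (1 - Polynomial.X) ^ (w.length - r) * ((1 - Polynomial.X + Polynomial.X ^ 2) * q))) =
          (∑ r ∈ range (w.length + 1), (-Polynomial.X ^ 2 : ℚ[X]) ^ r * (1 - Polynomial.X) ^ (w.length + 1 - 1 - r)) *
            ((1 - Polynomial.X + Polynomial.X ^ 2) * q) := by
        rw [Finset.sum_mul]
        apply Finset.sum_congr rfl
        intro r _
        have e3 : (-Polynomial.X ^ 2 : ℚ[X]) ^ r = (-1) ^ r * (Polynomial.X ^ r * Polynomial.X ^ r) := by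
          rw [neg_pow, ← pow_mul, two_mul, pow_add]
        rw [e3, Nat.add_sub_cancel]
        ring
      rw [e]
      linear_combination q * this
    rw [g, map_sum, Finset.mul_sum, map_sum]
    apply Finset.sum_congr rfl
    intro r _
    rw [ev0_er_XP w hw]
    have e4 : (-1 : ℚ[X]) ^ r * (Polynomial.X ^ r * (Polynomial.X ^ r * (1 - Polynomial.X) ^ (w.length - r) * ((1 - Polynomial.X + Polynomial.X ^ 2) * q))) =
        (-1 : ℚ) ^ r • (Polynomial.X ^ r * (Polynomial.X ^ r * (1 - Polynomial.X) ^ (w.length - r) * ((1 - Polynomial.X + Polynomial.X ^ 2) * q))) := by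
      rw [Polynomial.smul_eq_C_mul]
      simp
    rw [e4, map_smul, mul_smul_comm, map_smul, smul_eq_mul]
  rw [e1, e2] at h
  exact h

/-! ### values -/

theorem D0_S1_X (n : ℕ) {z : ℤ} (hz : 1 < z) : D0 (S1 1 (n + 1) * MT.X z) (S1 1 n * MT.X (z - 1)) := by
  have := (D0_S1 n).mul (D0_X_gt hz)
  rwa [mul_zero, add_zero, Li_X] at this

theorem S1X_mem (n : ℕ) {z : ℤ} (hz : 1 ≤ z) : S1 1 n * MT.X z ∈ V 1 (max n z) (n + 1) :=
  V_mul (S1_mem' le_rfl (by have := le_max_left (n : ℤ) z; omega)) (V_X hz (le_max_right _ _))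

theorem ev0_S1_X (n : ℕ) {z : ℤ} (hz : 1 < z) : ev0 (S1 1 (n + 1) * MT.X z) = ev0 (S1 1 n * MT.X (z - 1)) :=
  (ev0_D0 (D0_S1_X n hz) (S1X_mem (n + 1) hz.le) (by push_cast; omega)).symm

theorem a_shift (m i : ℕ) : ev0 (S1 1 (m + i) * MT.X (1 + i)) = ev0 (S1 1 m * MT.X 1) := by
  induction i with
  | zero => simp
  | succ i ih =>
    rw [← ih, ← add_assoc, ev0_S1_X (m + i) (by push_cast; omega)]
    congr 3
    push_cast; ring

theorem a_zero (n : ℕ) : ∀ i : ℕ, n < i → ev0 (S1 1 n * MT.X (1 + i)) = 0 := by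
  induction n with
  | zero =>
    intro i hi
    rw [S1_zero, one_mul]
    exact ev0_X_gt (by omega)
  | succ n ih =>
    intro i hi
    rw [ev0_S1_X n (by omega)]
    obtain ⟨i, rfl⟩ : ∃ i', i = i' + 1 := ⟨i - 1, by omega⟩
    have e : (1 : ℤ) + ((i + 1 : ℕ) : ℤ) - 1 = 1 + i := by push_cast; ring
    rw [e]
    exact ih i (by omega)

theorem b_zero (n : ℕ) : ∀ i : ℕ, n < i → ev0 (MT.X (1 + i) * S1 1 n) = 0 := by
  induction n with
  | zero =>
    intro i hi
    rw [S1_zero, mul_one]
    exact ev0_X_gt (by omega)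
  | succ n ih =>
    intro i hi
    rw [ev0_X_mul (by omega) (D0_S1 n) (S1_mem 1 (n + 1)) (by push_cast; omega)]
    obtain ⟨i, rfl⟩ : ∃ i', i = i' + 1 := ⟨i - 1, by omega⟩
    have e : (1 : ℤ) + ((i + 1 : ℕ) : ℤ) - 1 = 1 + i := by push_cast; ring
    rw [e, ih i (by omega), ih (i + 1) (by omega), sub_zero]

theorem ev0_Dw_one : ev0 (MT.X 1 * MT.X 1) = 1 := by
  have h1 : D0 (MT.X 1 * MT.X 1) (MT.X 1) := by
    have := D0_X_one.mul D0_X_one
    rw [one_mul, mul_one, Li_X, M'_X] at this
    simpa using this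
  rw [← ev0_D0 h1 (V_mul (V_X (a := 1) (m := 1) le_rfl le_rfl) (V_X le_rfl le_rfl)) (by norm_num), ev0_X_one]

theorem b_first (n : ℕ) : ev0 (MT.X 1 * S1 1 n) = 1 := by
  cases n with
  | zero => rw [S1_zero, mul_one, ev0_X_one]
  | succ n =>
    induction n with
    | zero =>
      rw [zero_add, S1_succ, S1_zero, mul_one, ev0_Dw_one]
    | succ n ih =>
      have h := O1 1 (n + 1) (by omega)
      have e : ∀ m, kn 1 m = MT.X 1 * S1 1 m := by
        intro m; rw [kn, S1_succ, S1_zero, mul_one]
      rw [← ih, ← e, ← e]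
      exact (ev0_D0 h (kn_mem 1 (n + 1 + 1) (by omega)) (by push_cast; omega)).symm

/-- **the value of the word `1, ..., n, 1`** -/
theorem b_one (n : ℕ) : ev0 (S1 1 n * MT.X 1) = 1 := by
  induction n using Nat.strong_induction_on with
  | _ n ih =>
    have h := ev0_exchange (up 1 n) (fun z hz => (up_mem n 1 z hz).1) 1
    rw [up_length, mul_one, mul_one] at h
    have hW : W (up 1 n) = S1 1 n := rfl
    rw [hW] at h
    -- the terms which vanish
    have v1 : ∀ q : ℚ[X], ev0 (XP (Polynomial.X ^ (n + 1) * q) * S1 1 n) = 0 := by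
      intro q
      induction q using Polynomial.induction_on' with
      | add p q hp hq => rw [mul_add, map_add XP, add_mul, map_add, hp, hq, add_zero]
      | monomial i c =>
        rw [X_pow_mul_monomial, XP_monomial, smul_mul_assoc, map_smul, b_zero n _ (by omega), smul_zero]
    have v2 : ∀ q : ℚ[X], ev0 (S1 1 n * XP (Polynomial.X ^ (n + 1) * q)) = 0 := by
      intro q
      induction q using Polynomial.induction_on' with
      | add p q hp hq => rw [mul_add, map_add XP, mul_add, map_add, hp, hq, add_zero]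
      | monomial i c =>
        rw [X_pow_mul_monomial, XP_monomial, mul_smul_comm, map_smul, a_zero n _ (by omega), smul_zero]
    have h1 : ev0 (XP (1 - (Polynomial.X * (1 - Polynomial.X)) ^ (n + 1)) * S1 1 n) = 1 := by
      rw [map_sub XP, sub_mul, map_sub, XP_one, mul_pow, v1, b_first, sub_zero]
    have h2 : ev0 (S1 1 n * XP ((1 - Polynomial.X) ^ (n + 1) - (-Polynomial.X ^ 2) ^ (n + 1))) =
        ev0 (S1 1 n * XP ((1 - Polynomial.X) ^ (n + 1))) := by
      have e : (-Polynomial.X ^ 2 : ℚ[X]) ^ (n + 1) = Polynomial.X ^ (n + 1) * ((-1) ^ (n + 1) * Polynomial.X ^ (n + 1)) := by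
        rw [neg_pow, ← pow_mul, two_mul, pow_add]; ring
      rw [map_sub XP, mul_sub, map_sub, e, v2, sub_zero]
    rw [h1, h2] at h
    -- the expansion
    have h3 : ev0 (S1 1 n * XP ((1 - Polynomial.X) ^ (n + 1))) =
        ∑ m ∈ range (n + 1 + 1), (-1 : ℚ) ^ m * ((n + 1).choose m : ℚ) * ev0 (S1 1 n * MT.X (1 + m)) := by
      have e : (1 - Polynomial.X : ℚ[X]) ^ (n + 1) = ∑ m ∈ range (n + 1 + 1), monomial m ((-1 : ℚ) ^ m * ((n + 1).choose m : ℚ)) := by
        have : (1 - Polynomial.X : ℚ[X]) = -Polynomial.X + 1 := by ring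
        rw [this, add_pow]
        apply Finset.sum_congr rfl
        intro m _
        rw [one_pow, mul_one, ← C_mul_X_pow_eq_monomial, neg_pow]
        simp only [map_mul, map_pow, map_neg, map_one, map_natCast]
        ring
      rw [e, map_sum, Finset.mul_sum, map_sum]
      apply Finset.sum_congr rfl
      intro m _
      rw [XP_monomial, mul_smul_comm, map_smul, smul_eq_mul]
    have h4 : ∑ m ∈ range (n + 1 + 1), (-1 : ℚ) ^ m * ((n + 1).choose m : ℚ) = 0 := by
      have := add_pow (-1 : ℚ) 1 (n + 1)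
      rw [neg_add_cancel, zero_pow (Nat.succ_ne_zero n)] at this
      simpa using this.symm
    rw [h3, Finset.sum_range_succ, Finset.sum_range_succ', a_zero n (n + 1) (by omega)] at h
    rw [Finset.sum_range_succ, Finset.sum_range_succ'] at h4
    have h5 : ∑ k ∈ range n, (-1 : ℚ) ^ (k + 1) * ((n + 1).choose (k + 1) : ℚ) * ev0 (S1 1 n * MT.X (1 + (k + 1 : ℕ))) =
        ∑ k ∈ range n, (-1 : ℚ) ^ (k + 1) * ((n + 1).choose (k + 1) : ℚ) := by
      apply Finset.sum_congr rfl
      intro k hk
      rw [Finset.mem_range] at hk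
      obtain ⟨j, rfl⟩ : ∃ j, n = j + (k + 1) := ⟨n - (k + 1), by omega⟩
      rw [a_shift j (k + 1), ih j (by omega), mul_one]
    rw [h5] at h
    simp only [pow_zero, Nat.choose_zero_right, Nat.cast_one, mul_one, one_mul, Nat.cast_zero, add_zero,
      mul_zero, Nat.choose_self] at h h4
    have h6 : ∑ k ∈ range n, (-1 : ℚ) ^ (k + 1) * ((n + 1).choose (k + 1) : ℚ) = -1 - (-1) ^ (n + 1) := by
      linarith
    rw [h6] at h
    have h7 : ((-1 : ℚ)) ^ n * (-1) ^ n = 1 := by rw [← mul_pow]; norm_num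
    have h8 : (-1 : ℚ) ^ n ≠ 0 := pow_ne_zero _ (by norm_num)
    have h9 : (-1 : ℚ) ^ n * (ev0 (S1 1 n * MT.X 1) - 1) = 0 := by
      rw [pow_succ] at h
      linear_combination -h - h7
    have := (mul_eq_zero.mp h9).resolve_left h8
    linarith

end Pool.Agent.Q258.MT
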