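import Pool.Agent.Q258.MT.Alg7

set_option autoImplicit false

/-!
The pairing and the row `1, ..., k + 1, 1, ..., k`.
-/

noncomputable section

namespace Pool.Agent.Q258.MT

theorem V_Li {a m n : ℤ} {x : WA} (hx : x ∈ V a m n) : Li x ∈ V (a - 1) (m - 1) n :=
  V_hom Li (fun z h1 h2 => by rw [Li_X]; exact V_X (by omega) (by omega)) hx

/-- `ev0` of a large letter -/
theorem ev0_big (n : ℕ) : ∀ {m : ℤ} {a : WA}, 1 ≤ m → a ∈ V 1 m n →
    (∀ z : ℤ, (n : ℤ) + 2 ≤ z → ev0 (X z * a) = 0) ∧ ev0 (X ((n : ℤ) + 1) * a) = (-1) ^ n * ev0 a := by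
  induction n with
  | zero =>
    intro m a _ ha
    obtain ⟨c, rfl⟩ := V_zero_scalar ha
    refine ⟨fun z hz => ?_, ?_⟩
    · rw [mul_smul_comm, mul_one, map_smul, ev0_X_gt (by push_cast at hz; omega), smul_zero]
    · rw [mul_smul_comm, mul_one, map_smul, Nat.cast_zero, zero_add, ev0_X_one, pow_zero, one_mul, map_smul,
        ev0_one]
  | succ n ih =>
    intro m a hm ha
    obtain ⟨b, hb, hab⟩ := D0_exists ha hm
    have hb' : b ∈ V 1 m n := V_cast hb (by push_cast; ring)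
    obtain ⟨i1, i2⟩ := ih hm hb'
    refine ⟨fun z hz => ?_, ?_⟩
    · push_cast at hz
      rw [ev0_X_mul (by omega) hab ha (by push_cast; omega), i1 z (by omega), i1 (z - 1) (by omega), sub_zero]
    · rw [ev0_X_mul (by push_cast; omega) hab ha (by push_cast; omega), i1 _ (by push_cast; omega)]
      have e : ((n + 1 : ℕ) : ℤ) + 1 - 1 = (n : ℤ) + 1 := by push_cast; ring
      rw [e, i2, ev0_D0 hab ha (by push_cast; omega), pow_succ]
      ring

/-- three neighbours -/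
theorem dbl_mv_X (a : ℤ) : X a * X (a + 1) * X (a + 1) = X a * X a * X (a + 1) := by
  have h := congrArg (fun t => t * X (a + 1)) (diag a)
  simp only [add_mul] at h
  rw [h, cube, add_zero]

theorem S1_mul_last (n : ℕ) : S1 1 (n + 1) * X (n + 1 : ℕ) = X 1 * S1 1 (n + 1) := by
  induction n with
  | zero => simp [S1_succ, S1_zero]
  | succ n ih =>
    have e1 : (1 : ℤ) + ((n + 1 : ℕ) : ℤ) = ((n + 1 : ℕ) : ℤ) + 1 := by ring
    have e2 : ((n + 1 + 1 : ℕ) : ℤ) = ((n + 1 : ℕ) : ℤ) + 1 := by push_cast; ring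
    have e3 : (1 : ℤ) + (n : ℤ) = ((n + 1 : ℕ) : ℤ) := by push_cast; ring
    have s1 : S1 1 (n + 1) = S1 1 n * X ((n + 1 : ℕ) : ℤ) := by rw [S1_snoc, e3]
    have s2 : S1 1 (n + 1 + 1) = S1 1 n * X ((n + 1 : ℕ) : ℤ) * X (((n + 1 : ℕ) : ℤ) + 1) := by
      rw [S1_snoc, e1, s1]
    have h := dbl_mv_X ((n + 1 : ℕ) : ℤ)
    calc S1 1 (n + 1 + 1) * X ((n + 1 + 1 : ℕ) : ℤ) =
        S1 1 n * (X ((n + 1 : ℕ) : ℤ) * X (((n + 1 : ℕ) : ℤ) + 1) * X (((n + 1 : ℕ) : ℤ) + 1)) := by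
          rw [s2, e2]; noncomm_ring
      _ = S1 1 (n + 1) * X ((n + 1 : ℕ) : ℤ) * X (((n + 1 : ℕ) : ℤ) + 1) := by
          rw [h, s1]; noncomm_ring
      _ = X 1 * S1 1 (n + 1 + 1) := by rw [ih, s2, s1]; noncomm_ring

theorem kn_mul_last_zero (i k : ℕ) (hi : 1 ≤ i) (hk : i ≤ k) : kn i k * X k = 0 := by
  obtain ⟨k, rfl⟩ : ∃ k', k = k' + 1 := ⟨k - 1, by omega⟩
  obtain ⟨m, hm⟩ : ∃ m, k + 1 = i + m := ⟨k + 1 - i, by omega⟩
  rw [kn, mul_assoc, S1_mul_last, hm, S1_add]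
  have v : S1 1 i * X 1 * S1 1 i ∈ V 1 i (2 * i + 1) :=
    V_cast (V_mul (V_mul (S1_mem' le_rfl (by omega)) (V_X le_rfl (by omega))) (S1_mem' le_rfl (by omega)))
      (by ring)
  have h := V_top_zero i v (by omega) (by omega)
  calc S1 1 i * (X 1 * (S1 1 i * S1 (1 + i) m)) = (S1 1 i * X 1 * S1 1 i) * S1 (1 + i) m := by noncomm_ring
    _ = 0 := by rw [h, zero_mul]

theorem neg_one_pow_congr {a b : ℕ} (h : a % 2 = b % 2) : (-1 : ℚ) ^ a = (-1) ^ b := by
  rw [neg_one_pow_eq_pow_mod_two, h, ← neg_one_pow_eq_pow_mod_two]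

/-- **the pairing** -/
theorem Pkj (k : ℕ) : ∀ i j : ℕ, i + j = k → ∀ Q ∈ V 1 (k : ℤ) (j : ℤ),
    kn i k * Q = ((-1 : ℚ) ^ ((k + 1) * j) * ev0 Q) • Dw k := by
  induction k with
  | zero =>
    intro i j hij Q hQ
    obtain rfl : i = 0 := by omega
    obtain rfl : j = 0 := by omega
    obtain ⟨c, rfl⟩ := V_zero_scalar hQ
    rw [mul_zero, pow_zero, one_mul, ev0_smul_one]
    simp [kn, S1_zero, Dw]
  | succ k ih =>
    -- letters at most `k`
    have HA : ∀ i j : ℕ, i + j = k → ∀ Q ∈ V 1 (k : ℤ) ((j + 1 : ℕ) : ℤ),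
        kn i (k + 1) * Q = ((-1 : ℚ) ^ ((k + 2) * (j + 1)) * ev0 Q) • Dw (k + 1) := by
      intro i j hij Q hQ
      rcases Nat.eq_zero_or_pos k with hk | hk
      · subst hk
        have : Q = 0 := V_top_zero 0 hQ (by norm_num) (by push_cast; omega)
        rw [this, mul_zero, map_zero, mul_zero, zero_smul]
      · obtain ⟨Q0, hQ0, hD⟩ := D0_exists hQ (by omega)
        have hQ0' : Q0 ∈ V 1 (k : ℤ) (j : ℤ) := V_cast hQ0 (by push_cast; ring)
        have v : kn i (k + 1) * Q ∈ V 1 ((k + 1 : ℕ) : ℤ) (2 * ((k + 1 : ℕ) : ℤ)) :=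
          V_cast (V_mul (kn_mem i (k + 1) (by omega)) (V_mono le_rfl (by push_cast; omega) hQ))
            (by push_cast; omega)
        obtain ⟨c, hc⟩ := V_top_one (k + 1) v
        have h1 := (O1 i k (by omega)).mul hD
        rw [hc] at h1
        have h2 := h1.unique ((D0_Dw k).smul c)
        have k1 : DI ((k + 1 : ℕ) : ℤ) (kn i k * Li Q + M' (kn i (k + 1)) * Q0)
            ((-1 : ℚ) ^ (i + k) • M (kn i k * Q0)) := by
          have a1 := DI_lt (m' := ((k + 1 : ℕ) : ℤ)) (V_mul (V_mono (a' := 0) (m' := k) (by norm_num) le_rfl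
            (kn_mem i k (by omega))) (V_mono (a' := 0) (m' := k) (by norm_num) (by omega) (V_Li hQ)))
            (by push_cast; omega)
          have a2 := (DI_kn i k (by omega)).M'
          have a3 := a2.mul (DI_lt hQ0' (by push_cast; omega : (k : ℤ) < ((k + 1 : ℕ) : ℤ)))
          have hs : Sg (M (kn i k)) = (-1 : ℚ) ^ (i + k) • M (kn i k) :=
            Sg_V (V_cast (V_M (kn_mem i k (by omega))) (by push_cast; ring))
          rw [mul_zero, add_zero, M'_L, hs, smul_mul_assoc, ← map_mul] at a3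
          have a4 := a1.add a3
          rwa [zero_add] at a4
        rw [ih i j hij Q0 hQ0', map_smul, h2] at k1
        have k2 := k1.unique ((DI_zk k).smul c)
        have k3 : ((-1 : ℚ) ^ (i + k) * ((-1 : ℚ) ^ ((k + 1) * j) * ev0 Q0) - c * (-1) ^ k) • M (Dw k) = 0 := by
          rw [sub_smul, mul_smul, mul_smul c, ← k2, sub_self]
        have k4 := (smul_eq_zero.mp k3).resolve_right (M_Dw_ne_zero k)
        rw [ev0_D0 hD hQ (by push_cast; omega)] at k4
        have k5 : c = (-1 : ℚ) ^ ((k + 2) * (j + 1)) * ev0 Q := by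
          have e1 : (-1 : ℚ) ^ (i + k) * (-1) ^ ((k + 1) * j) * (-1) ^ k = (-1) ^ ((k + 2) * (j + 1)) := by
            rw [← pow_add, ← pow_add]
            apply neg_one_pow_congr
            subst hij
            have : (i + j + 2) * (j + 1) = (i + j) * j + (i + j) + 2 * (j + 1) := by ring
            have h3 : i + (i + j) + (i + j + 1) * j + (i + j) = (i + j) * j + (i + j) + 2 * (i + j) := by ring
            rw [this, h3]
            omega
          have e2 : (-1 : ℚ) ^ k * (-1) ^ k = 1 := by rw [← mul_pow]; norm_num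
          rw [← e1]
          linear_combination (-(-1 : ℚ) ^ k) * k4 - c * e2
        rw [hc, k5]
    -- degree zero
    have H0 : ∀ Q ∈ V 1 ((k + 1 : ℕ) : ℤ) ((0 : ℕ) : ℤ),
        kn (k + 1) (k + 1) * Q = ((-1 : ℚ) ^ ((k + 1 + 1) * 0) * ev0 Q) • Dw (k + 1) := by
      intro Q hQ
      obtain ⟨c, rfl⟩ := V_zero_scalar hQ
      have e : kn (k + 1) (k + 1) = Dw (k + 1) := Tk (k + 1)
      rw [mul_zero, pow_zero, one_mul, ev0_smul_one, mul_smul_comm, mul_one, e]
    -- the decomposition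
    have HD : ∀ j : ℕ, ∀ Q ∈ V 1 ((k + 1 : ℕ) : ℤ) ((j + 1 : ℕ) : ℤ), ∃ Q' ∈ V 1 ((k + 1 : ℕ) : ℤ) (j : ℤ),
        ∃ R ∈ V 1 (k : ℤ) ((j + 1 : ℕ) : ℤ), Q = X ((k + 1 : ℕ) : ℤ) * Q' + R := by
      intro j Q hQ
      obtain ⟨w1, h1, w2, h2, w3, h3, rfl⟩ := pbw hQ
      have e : ((k + 1 : ℕ) : ℤ) - 1 = k := by push_cast; ring
      refine ⟨X ((k + 1 : ℕ) : ℤ) * w1 + w2, ?_, w3, ?_, ?_⟩
      · refine Submodule.add_mem _ ?_ ?_
        · exact V_cast (V_mul (V_X (by push_cast; omega) le_rfl) (V_mono le_rfl (by omega) h1))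
            (by push_cast; ring)
        · exact V_cast (V_mono le_rfl (by omega) h2) (by push_cast; ring)
      · rw [e] at h3; exact h3
      · noncomm_ring
    -- `1 ≤ i`
    have H1 : ∀ i j : ℕ, 1 ≤ i → i + j = k + 1 → ∀ Q ∈ V 1 ((k + 1 : ℕ) : ℤ) (j : ℤ),
        kn i (k + 1) * Q = ((-1 : ℚ) ^ ((k + 1 + 1) * j) * ev0 Q) • Dw (k + 1) := by
      intro i j hi hij Q hQ
      cases j with
      | zero =>
        obtain rfl : i = k + 1 := by omega
        exact H0 Q hQ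
      | succ j =>
        obtain ⟨Q', hQ', R, hR, rfl⟩ := HD j Q hQ
        have z1 := kn_mul_last_zero i (k + 1) hi (by omega)
        have z2 := (ev0_big j (by push_cast; omega) hQ').1 ((k + 1 : ℕ) : ℤ) (by push_cast; omega)
        rw [mul_add, ← mul_assoc, z1, zero_mul, zero_add, map_add, z2, zero_add]
        exact HA i j (by omega) R hR
    intro i j hij Q hQ
    rcases Nat.eq_zero_or_pos i with hi | hi
    · subst hi
      obtain rfl : j = k + 1 := by omega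
      obtain ⟨Q', hQ', R, hR, rfl⟩ := HD k Q hQ
      have z2 := (ev0_big k (by push_cast; omega) hQ').2
      have e : ((k : ℤ)) + 1 = ((k + 1 : ℕ) : ℤ) := by push_cast; ring
      rw [e] at z2
      have h1 := H1 1 k le_rfl (by omega) Q' hQ'
      have e1 : kn 1 (k + 1) = kn 0 (k + 1) * X ((k + 1 : ℕ) : ℤ) := by
        rw [kn, kn, S1_zero, one_mul, S1_mul_last, S1_succ, S1_zero, mul_one]
      rw [mul_add, ← mul_assoc, ← e1, h1, HA 0 k (by omega) R hR, map_add, z2, ← add_smul]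
      congr 1
      have e2 : (-1 : ℚ) ^ ((k + 1 + 1) * k) = (-1) ^ ((k + 1 + 1) * (k + 1)) * (-1) ^ k := by
        rw [← pow_add]
        apply neg_one_pow_congr
        have : (k + 1 + 1) * (k + 1) + k = (k + 1 + 1) * k + 2 * (k + 1) := by ring
        rw [this]; omega
      rw [e2]
      ring
    · exact H1 i j hi hij Q hQ

/-- `M (D_k) 1 = ± (k + 1) D_k` -/
theorem zk_eq (k : ℕ) : M (Dw k) * X 1 = (-1 : ℚ) ^ k • (X (k + 1 : ℕ) * Dw k) := by
  cases k with
  | zero => simp [Dw]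
  | succ k =>
    rw [← sub_eq_zero]
    have v : M (Dw (k + 1)) * X 1 - (-1 : ℚ) ^ (k + 1) • (X ((k + 1 + 1 : ℕ) : ℤ) * Dw (k + 1)) ∈
        V 1 ((k + 1 + 1 : ℕ) : ℤ) (2 * k + 3) := by
      refine Submodule.sub_mem _ ?_ (Submodule.smul_mem _ _ ?_)
      · exact V_cast (V_mul (V_mono le_rfl (by push_cast; omega) (V_M (Dw_mem (k + 1))))
          (V_X le_rfl (by push_cast; omega))) (by push_cast; ring)
      · exact V_cast (V_mul (V_X (by push_cast; omega) le_rfl) (V_mono le_rfl (by push_cast; omega)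
          (Dw_mem (k + 1)))) (by push_cast; ring)
    have k1 := DI_zk (k + 1)
    have k2 := (DI_X_self ((k + 1 + 1 : ℕ) : ℤ)).mul (DI_lt (Dw_mem (k + 1))
      (by push_cast; omega : ((k + 1 : ℕ) : ℤ) < ((k + 1 + 1 : ℕ) : ℤ)))
    rw [one_mul, mul_zero, add_zero] at k2
    have k3 := k1.sub (k2.smul ((-1 : ℚ) ^ (k + 1)))
    rw [sub_self] at k3
    exact V_top_zero (k + 1) (DI_kernel v k3) (by push_cast; omega) (by push_cast; omega)

/-- **the word `1, ..., k + 1, 1, ..., k`** -/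
theorem J1 (k : ℕ) : S1 1 (k + 1) * S1 1 k = (-1 : ℚ) ^ k • wk k := by
  induction k with
  | zero => simp [S1_succ, S1_zero, wk, Dw]
  | succ k ih =>
    rw [← sub_eq_zero]
    set Z := S1 1 (k + 1 + 1) * S1 1 (k + 1) - (-1 : ℚ) ^ (k + 1) • wk (k + 1) with hZ
    have v : Z ∈ V 1 ((k + 1 + 1 : ℕ) : ℤ) (2 * ((k + 1 : ℕ) : ℤ) + 1) := by
      refine Submodule.sub_mem _ ?_ (Submodule.smul_mem _ _ (wk_mem (k + 1)))
      exact V_cast (V_mul (S1_mem' le_rfl (by omega)) (S1_mem' le_rfl (by push_cast; omega)))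
        (by push_cast; ring)
    obtain ⟨Y, hY, hD⟩ := D0_exists v (by push_cast; omega)
    have hY' : Y ∈ V 1 ((k + 1 + 1 : ℕ) : ℤ) (2 * ((k + 1 : ℕ) : ℤ)) := V_cast hY (by ring)
    -- the operator of the letter `1`
    have d1 := (D0_S1 (k + 1)).mul (D0_S1 k)
    rw [Li_S1, sub_self] at d1
    have d2 : D0 (wk (k + 1)) (M' (X ((k + 1 + 1 : ℕ) : ℤ)) * M (M (Dw k) * X 1)) := by
      have := (D0_X_gt (by push_cast; omega : (1 : ℤ) < ((k + 1 + 1 : ℕ) : ℤ))).mul (D0_Dw k).M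
      rw [zero_mul, zero_add] at this
      exact this
    have hYe := hD.unique (d1.sub (d2.smul ((-1 : ℚ) ^ (k + 1))))
    -- the operator of the largest letter
    have e : (((k + 1 : ℕ) : ℤ)) + 1 = ((k + 1 + 1 : ℕ) : ℤ) := by push_cast; ring
    have i1 : DI ((k + 1 + 1 : ℕ) : ℤ) (S1 1 (k + 1) * S1 0 (k + 1) + M' (S1 1 (k + 1 + 1)) * S1 1 k)
        ((-1 : ℚ) ^ (k + 1) • M (S1 1 (k + 1) * S1 1 k)) := by
      have a1 := DI_lt (m' := ((k + 1 + 1 : ℕ) : ℤ)) (V_mul (S1_mem' (a := 1) (a' := 0) (m := k + 1) (n := k + 1)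
        (by norm_num) (by push_cast; omega)) (S1_mem' (a := 0) (a' := 0) (m := k + 1) (n := k + 1) le_rfl
        (by push_cast; omega))) (by push_cast; omega)
      have a2 := (DI_S1 (k + 1)).M'
      have a3 := a2.mul (DI_lt (S1_mem 1 k) (by push_cast; omega : (1 : ℤ) + k - 1 < ((k + 1 : ℕ) : ℤ) + 1))
      have e1 : S1 2 (k + 1) = L (S1 1 (k + 1)) := by rw [L_S1]; norm_num
      rw [mul_zero, add_zero, e1, M'_L, Sg_V (V_M (S1_mem 1 (k + 1))), smul_mul_assoc, ← map_mul, e] at a3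
      have a4 := a1.add a3
      rwa [zero_add] at a4
    have i2 : DI ((k + 1 + 1 : ℕ) : ℤ) (M' (X ((k + 1 + 1 : ℕ) : ℤ)) * M (M (Dw k) * X 1)) (M ((-1 : ℚ) ^ k • wk k)) := by
      have a1 := (DI_X_self ((k + 1 + 1 : ℕ) : ℤ)).M'
      have a2 := (DI_zk k).M
      rw [e] at a2
      have a3 := a1.mul a2
      rw [map_one, one_mul] at a3
      have h5 : M (M (M (Dw k) * X 1)) + L (M' (X ((k + 1 + 1 : ℕ) : ℤ))) * -M ((-1 : ℚ) ^ k • M (Dw k)) =
          M ((-1 : ℚ) ^ k • wk k) := by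
        rw [zk_eq, wk, M'_X, map_sub L, L_X, L_X]
        have e5 : ((k + 1 + 1 : ℕ) : ℤ) - 1 = ((k + 1 : ℕ) : ℤ) := by push_cast; ring
        rw [e5, ← e]
        simp only [map_smul, map_mul, M_X, map_sub, smul_sub, sub_mul, mul_neg, mul_smul_comm]
        abel
      rw [h5] at a3
      exact a3
    have i3 := i1.sub (i2.smul ((-1 : ℚ) ^ (k + 1)))
    rw [← hYe, ih, sub_self] at i3
    have hYk := DI_kernel hY' i3
    have e2 : ((k + 1 + 1 : ℕ) : ℤ) - 1 = ((k + 1 : ℕ) : ℤ) := by push_cast; ring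
    rw [e2] at hYk
    obtain ⟨c, hc⟩ := V_top_one (k + 1) hYk
    -- `Z = c • d (D_{k+2})`
    have hd : D0 (kn (k + 1) (k + 1 + 1)) (Dw (k + 1)) := by
      have := (D0_Dw (k + 1)).d
      rw [d_zk, I0] at this
      exact this
    have hZc : Z = c • kn (k + 1) (k + 1 + 1) := by
      rw [← sub_eq_zero]
      have h1 := hD.sub (hd.smul c)
      rw [hc, sub_self] at h1
      have v2 : Z - c • kn (k + 1) (k + 1 + 1) ∈ V 1 ((k + 1 + 1 : ℕ) : ℤ) (2 * ((k + 1 : ℕ) : ℤ) + 1) :=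
        Submodule.sub_mem _ v (Submodule.smul_mem _ _ (V_cast (kn_mem (k + 1) (k + 1 + 1) (by omega))
          (by push_cast; ring)))
      exact V_top_zero (k + 1) (D0_kernel v2 h1) (by push_cast; omega) (by omega)
    -- multiplication by the letter `1`
    have p1 : S1 1 (k + 1 + 1) * S1 1 (k + 1) * X 1 = Dw (k + 1 + 1) := by
      have hQ : S1 1 (k + 1) * X 1 ∈ V 1 ((k + 1 + 1 : ℕ) : ℤ) ((k + 1 + 1 : ℕ) : ℤ) :=
        V_cast (V_mul (S1_mem' le_rfl (by push_cast; omega)) (V_X le_rfl (by push_cast; omega)))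
          (by push_cast; ring)
      have := Pkj (k + 1 + 1) 0 (k + 1 + 1) (by omega) _ hQ
      rw [b_one, mul_one, kn, S1_zero, one_mul, ← mul_assoc] at this
      rw [this]
      have : (-1 : ℚ) ^ ((k + 1 + 1 + 1) * (k + 1 + 1)) = 1 := by
        rw [neg_one_pow_congr (b := 0)]
        · simp
        · have := Nat.even_mul_succ_self (k + 1 + 1)
          rw [mul_comm, Nat.zero_mod]
          exact Nat.even_iff.mp this
      rw [this, one_smul]
    have p2 := wk_mul_one (k + 1)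
    have p3 : kn (k + 1) (k + 1 + 1) * X 1 = (-1 : ℚ) ^ (k + 1) • Dw (k + 1 + 1) := by
      have hQ : X 1 ∈ V 1 ((k + 1 + 1 : ℕ) : ℤ) ((1 : ℕ) : ℤ) := V_X le_rfl (by push_cast; omega)
      rw [Pkj (k + 1 + 1) (k + 1) 1 rfl _ hQ, ev0_X_one, mul_one]
      congr 1
      apply neg_one_pow_congr
      omega
    have p4 : Z * X 1 = 0 := by
      rw [hZ, sub_mul, smul_mul_assoc, p1, p2, smul_smul, ← mul_pow]
      norm_num
    rw [hZc, smul_mul_assoc, p3, smul_smul] at p4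
    have p5 := (smul_eq_zero.mp p4).resolve_right (Dw_ne_zero (k + 1 + 1))
    have p6 : c = 0 := (mul_eq_zero.mp p5).resolve_right (pow_ne_zero _ (by norm_num))
    rw [hZc, p6, zero_smul]

/-- `Av` is invariant under the translation -/
theorem Av_L (a : WA) : Av (L a) = Av a := by
  induction a using W_induction with
  | h1 w => rw [L_W, Av_W, Av_W, List.length_map, al_map]
  | h2 a b ha hb => rw [map_add, map_add, map_add, ha, hb]
  | h3 c a ha => rw [map_smul, map_smul, map_smul, ha]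

/-- **the value at `1, ..., n + 1, 1, ..., n`** -/
theorem al_J (n : ℕ) : al (n + 1 + n) (up 1 (n + 1) ++ up 1 n) = (-1) ^ n * al n (up 1 n) := by
  have h1 : Av (S1 1 (n + 1) * S1 1 n) = (-1) ^ n * Av (kn n n) := by
    have e : S1 1 (n + 1) * S1 1 n = W (up 1 (n + 1) ++ up 1 n) := by rw [W_append]; rfl
    have e1 : Av (S1 1 (n + 1) * S1 1 n) = Av (d (S1 1 (n + 1) * S1 1 n)) := by
      rw [e, Av_d_W]
      simp [up]
    have e2 : kn n n = Dw n := Tk n
    rw [e1, J1, map_smul, d_wk, map_smul, Av_L, e2, smul_eq_mul]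
  have h2 : Av (S1 1 (n + 1) * S1 1 n) = al (n + 1 + n) (up 1 (n + 1) ++ up 1 n) := by
    have e : S1 1 (n + 1) * S1 1 n = W (up 1 (n + 1) ++ up 1 n) := by rw [W_append]; rfl
    rw [e, Av_W, List.length_append, up_length, up_length]
  have h3 : Av (kn n n) = al (n + n) (up 1 n ++ up 1 n) := by
    rw [kn_W, Av_W, List.length_append, up_length]
  rw [← h2, h1, h3, al_kn n n le_rfl]

end Pool.Agent.Q258.MT
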