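import Pool.Agent.Q258.MT.Alg8

set_option autoImplicit false

/-!
The homomorphism `z ↦ z - (z + 1) + (z + 2)` of the algebra of words, and the products of squares
`X_{2n}^2 X_{2n-2}^2 ... X_2^2`.
-/

noncomputable section

namespace Pool.Agent.Q258.MT

/-- `∏ (a + b E_q + c E_q^2)` applied to `f` -/
def Gt (a b c : ℚ) : List ℤ → (List ℤ → ℚ) → ℚ
  | [], f => f []
  | x :: l, f => Gt a b c l (fun m => a * f (x :: m) + b * f ((x + 1) :: m) + c * f ((x + 1 + 1) :: m))

theorem Gt_add (a b c : ℚ) (l : List ℤ) : ∀ f g : List ℤ → ℚ,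
    Gt a b c l (fun m => f m + g m) = Gt a b c l f + Gt a b c l g := by
  induction l with
  | nil => intro f g; rfl
  | cons x l ih =>
    intro f g
    simp only [Gt]
    rw [← ih]
    congr 1
    funext m
    ring

theorem Gt_mul (a b c : ℚ) (l : List ℤ) (e : ℚ) : ∀ f : List ℤ → ℚ,
    Gt a b c l (fun m => e * f m) = e * Gt a b c l f := by
  induction l with
  | nil => intro f; rfl
  | cons x l ih =>
    intro f
    simp only [Gt]
    rw [← ih]
    congr 1
    funext m
    ring

theorem Gt_neg (a b c : ℚ) (l : List ℤ) (f : List ℤ → ℚ) :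
    Gt a b c l (fun m => - f m) = - Gt a b c l f := by
  have h := Gt_mul a b c l (-1) f
  simp only [neg_one_mul] at h
  exact h

theorem Gt_sub (a b c : ℚ) (l : List ℤ) (f g : List ℤ → ℚ) :
    Gt a b c l (fun m => f m - g m) = Gt a b c l f - Gt a b c l g := by
  simp only [sub_eq_add_neg, Gt_add, Gt_neg]

theorem P_Gt (a b e : ℚ) (l : List ℤ) : ∀ (F : ℤ → List ℤ → ℚ) (z : ℤ),
    P l (fun z l => Gt a b e l (F z)) z = Gt a b e l (fun m => P m F z) := by
  induction l with
  | nil => intro F z; rfl
  | cons c l ih =>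
    intro F z
    have h : P (c :: l) (fun z l => Gt a b e l (F z)) z = P l (fun z l => Gt a b e l ((fun z m =>
        a * (F z (c :: m) - F (z + 1) (c :: m) + F (z + 1) ((c + 1) :: m)) +
        b * (F z ((c + 1) :: m) - F (z + 1) ((c + 1) :: m) + F (z + 1) ((c + 1 + 1) :: m)) +
        e * (F z ((c + 1 + 1) :: m) - F (z + 1) ((c + 1 + 1) :: m) +
          F (z + 1) ((c + 1 + 1 + 1) :: m))) z)) z := by
      simp only [P]
      congr 1
      funext z l
      simp only [Gt]
      rw [← Gt_sub, ← Gt_add]
      congr 1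
      funext m
      ring
    rw [h, ih]
    simp only [Gt]
    congr 1
    funext m
    rw [P_add, P_add, P_mul, P_mul, P_mul]
    rfl

theorem T_Gt (a b e : ℚ) (w : List ℤ) : ∀ f : List ℤ → ℚ,
    T w (fun l => Gt a b e l f) = Gt a b e w (fun u => T u f) := by
  induction w with
  | nil => intro f; rfl
  | cons z w ih =>
    intro f
    simp only [T, Gt]
    have h : (fun l => P l (fun z l => Gt a b e l (fun m => a * f (z :: m) + b * f ((z + 1) :: m) +
          e * f ((z + 1 + 1) :: m))) z) =
        fun l => Gt a b e l (fun m => a * P m (fun z l => f (z :: l)) z +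
          b * P m (fun z l => f (z :: l)) (z + 1) + e * P m (fun z l => f (z :: l)) (z + 1 + 1)) := by
      funext l
      rw [P_Gt a b e l (fun z m => a * f (z :: m) + b * f ((z + 1) :: m) + e * f ((z + 1 + 1) :: m))]
      congr 1
      funext m
      rw [P_add, P_add, P_mul, P_mul, P_mul, ← P_shift, ← P_shift, ← P_shift]
    rw [h, ih]
    congr 1
    funext u
    rw [T_add, T_add, T_mul, T_mul, T_mul]

theorem Anti.Gt {a b e : ℚ} {f : List ℤ → ℚ} (hf : Anti f) : Anti (fun l => Gt a b e l f) := by
  intro u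
  induction u generalizing f with
  | nil =>
    intro x y v
    simp only [List.nil_append, MT.Gt]
    rw [← Gt_neg]
    congr 1
    funext m
    have h := fun x y => hf [] x y m
    simp only [List.nil_append] at h
    linear_combination a * a * h x y + a * b * h (x + 1) y + a * e * h (x + 1 + 1) y +
      a * b * h x (y + 1) + b * b * h (x + 1) (y + 1) + b * e * h (x + 1 + 1) (y + 1) +
      a * e * h x (y + 1 + 1) + b * e * h (x + 1) (y + 1 + 1) + e * e * h (x + 1 + 1) (y + 1 + 1)
  | cons c u ih =>
    intro x y v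
    simp only [List.cons_append, MT.Gt]
    refine ih (f := fun m => a * f (c :: m) + b * f ((c + 1) :: m) + e * f ((c + 1 + 1) :: m)) ?_ x y v
    intro u' x y v
    have h1 := hf (c :: u') x y v
    have h2 := hf ((c + 1) :: u') x y v
    have h3 := hf ((c + 1 + 1) :: u') x y v
    simp only [List.cons_append] at h1 h2 h3
    simp only
    rw [h1, h2, h3]
    ring

/-- the words with the letters replaced by `a z + b (z + 1) + c (z + 2)` -/
def gt (a b c : ℚ) : List ℤ → WA
  | [] => 1
  | z :: w => (a • X z + b • X (z + 1) + c • X (z + 1 + 1)) * gt a b c w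

theorem gt_append (a b c : ℚ) (u v : List ℤ) : gt a b c (u ++ v) = gt a b c u * gt a b c v := by
  induction u with
  | nil => rw [List.nil_append, gt, one_mul]
  | cons z u ih => rw [List.cons_append, gt, gt, ih, mul_assoc]

theorem evq_gt (a b c : ℚ) (w : List ℤ) : ∀ (f : List ℤ → ℚ) (hf : Anti f),
    evq f hf (gt a b c w) = Gt a b c w (fun u => T u f) := by
  induction w with
  | nil =>
    intro f hf
    have := evq_W [] f hf
    rw [W_nil] at this
    rw [gt, this]
    rfl
  | cons z w ih =>
    intro f hf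
    rw [gt, add_mul, add_mul, map_add, map_add, smul_mul_assoc, smul_mul_assoc, smul_mul_assoc, map_smul,
      map_smul, map_smul, evq_X_mul, evq_X_mul, evq_X_mul, ih, ih, ih]
    simp only [Gt, smul_eq_mul, Gt_add, Gt_mul]
    rfl

theorem GT_exists (a b c : ℚ) : ∃ Φ : WA →ₐ[ℚ] WA, ∀ z,
    Φ (X z) = a • X z + b • X (z + 1) + c • X (z + 1 + 1) := by
  obtain ⟨Φ, h1, -⟩ := lin_exists (gt a b c) (fun f l => Gt a b c l f) (fun f hf => hf.Gt)
    (fun f hf w => by rw [evq_gt, T_Gt])
  have hone : Φ 1 = 1 := by rw [← W_nil, h1]; rfl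
  have hmul : ∀ x y, Φ (x * y) = Φ x * Φ y := by
    intro x y
    induction x using W_induction with
    | h1 u =>
      induction y using W_induction with
      | h1 v => rw [← W_append, h1, h1, h1, gt_append]
      | h2 a b ha hb => rw [mul_add, map_add, map_add, mul_add, ha, hb]
      | h3 c a ha => rw [mul_smul_comm, map_smul, map_smul, mul_smul_comm, ha]
    | h2 a b ha hb => rw [add_mul, map_add, map_add, add_mul, ha, hb]
    | h3 c a ha => rw [smul_mul_assoc, map_smul, map_smul, smul_mul_assoc, ha]
  refine ⟨AlgHom.ofLinearMap Φ hone hmul, fun z => ?_⟩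
  have := h1 [z]
  rw [W_single] at this
  simp only [AlgHom.ofLinearMap_apply, this, gt, mul_one]

/-- the homomorphism `z ↦ z - (z + 1) + (z + 2)` -/
def C : WA →ₐ[ℚ] WA := Classical.choose (GT_exists 1 (-1) 1)

theorem C_X (z : ℤ) : C (X z) = X z - X (z + 1) + X (z + 1 + 1) := by
  have h := Classical.choose_spec (GT_exists 1 (-1) 1) z
  rw [one_smul, one_smul, neg_smul, one_smul, ← sub_eq_add_neg] at h
  exact h

/-- the homomorphism `z ↦ (z + 2) - (z + 1)` -/
def Vh : WA →ₐ[ℚ] WA := Sg.comp (M.comp L)

theorem Vh_X (z : ℤ) : Vh (X z) = X (z + 1 + 1) - X (z + 1) := by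
  unfold Vh
  rw [AlgHom.comp_apply, AlgHom.comp_apply, L_X, M_X, map_sub, Sg_X, Sg_X]
  abel

theorem C_L (a : WA) : C (L a) = L (C a) := by
  have : C.comp L = L.comp C := by
    apply algHom_ext_X
    intro z
    simp only [AlgHom.comp_apply, C_X, L_X, map_add, map_sub]
  exact AlgHom.congr_fun this a

theorem C_Vh (a : WA) : C (Vh a) = Vh (C a) := by
  have : C.comp Vh = Vh.comp C := by
    apply algHom_ext_X
    intro z
    simp only [AlgHom.comp_apply, C_X, Vh_X, map_add, map_sub]
    abel
  exact AlgHom.congr_fun this a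

/-! ### local identities -/

theorem r02 (x : ℤ) : X x * X (x + 1 + 1) = X x * X x + X (x + 1) * X (x + 1) +
    X (x + 1 + 1) * X (x + 1 + 1) + X (x + 1) * X x + X (x + 1 + 1) * X (x + 1) := by
  have h := quad x (x + 1)
  rw [diag x, diag (x + 1)] at h
  rw [← sub_eq_zero]
  have e : X x * X (x + 1 + 1) - (X x * X x + X (x + 1) * X (x + 1) +
    X (x + 1 + 1) * X (x + 1 + 1) + X (x + 1) * X x + X (x + 1 + 1) * X (x + 1)) =
    -(X x * X x + X (x + 1) * X (x + 1) + (X (x + 1) * X (x + 1) + X (x + 1 + 1) * X (x + 1 + 1)) -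
        X x * X (x + 1 + 1) +
      (X (x + 1) * X x + X (x + 1 + 1) * X (x + 1) - X (x + 1) * X (x + 1))) := by
    abel
  rw [e, h, neg_zero]

theorem sq_ring {R : Type*} [Ring R] (a b c : R) (h1 : a * b = a * a + b * b) (h2 : b * c = b * b + c * c)
    (h3 : a * c = a * a + b * b + c * c + b * a + c * b) :
    (a - b + c) * (a - b + c) = a * a + c * a + c * c := by
  have e : (a - b + c) * (a - b + c) = a * a - a * b + a * c - b * a + b * b - b * c + c * a - c * b +
      c * c := by noncomm_ring
  rw [e, h1, h2, h3]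
  abel

theorem quartic_ring {R : Type*} [Ring R] (a b c : R) (h1 : a * b = a * a + b * b)
    (h3 : a * c = a * a + b * b + c * c + b * a + c * b)
    (ha : a * a * a = 0) (hb : b * b * b = 0) (hc : c * c * c = 0)
    (k1 : b * a * a + a * b * a + a * a * b = 0) (k2 : a * b * b + b * a * b + b * b * a = 0)
    (k3 : a * c * c + c * a * c + c * c * a = 0) :
    (a * a + c * a + c * c) * (c * b) = -(c * c * (a * a)) := by
  have aba : a * b * a = b * b * a := by rw [h1, add_mul, ha, zero_add]
  have bab : b * a * b = b * a * a := by rw [mul_assoc, h1, mul_add, ← mul_assoc, ← mul_assoc, hb, add_zero]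
  have aab : a * a * b = -(b * a * a) - b * b * a := by
    rw [aba] at k1
    rw [← sub_eq_zero, ← k1]; abel
  have abb : a * b * b = -(b * a * a) - b * b * a := by
    rw [bab] at k2
    rw [← sub_eq_zero, ← k2]; abel
  have acb : a * c * b = -(b * b * a) + c * c * b + c * b * b := by
    rw [h3]
    have e : (a * a + b * b + c * c + b * a + c * b) * b = a * a * b + b * b * b + c * c * b + b * a * b +
        c * b * b := by noncomm_ring
    rw [e, aab, hb, bab]; abel
  have cac : c * a * c = c * a * a + c * b * b + c * b * a + c * c * b := by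
    rw [mul_assoc, h3]
    have e : c * (a * a + b * b + c * c + b * a + c * b) = c * a * a + c * b * b + c * c * c + c * b * a +
        c * c * b := by noncomm_ring
    rw [e, hc]; abel
  have acc : a * c * c = -(c * a * a) - c * b * b - c * b * a - c * c * b - c * c * a := by
    rw [cac] at k3
    rw [← sub_eq_zero, ← k3]; abel
  have abba : a * b * b * a = -(b * b * a * a) := by
    rw [abb]
    have e : (-(b * a * a) - b * b * a) * a = -(b * (a * a * a)) - b * b * a * a := by noncomm_ring
    rw [e, ha]; noncomm_ring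
  have accb : a * c * c * b = c * b * b * a - c * c * b * b - c * c * b * b - c * c * a * a := by
    rw [acc]
    have e : (-(c * a * a) - c * b * b - c * b * a - c * c * b - c * c * a) * b =
        -(c * (a * a * b)) - c * (b * b * b) - c * (b * a * b) - c * c * b * b - c * c * (a * b) := by
      noncomm_ring
    rw [e, aab, hb, bab, h1]; noncomm_ring
  have acbb : a * c * b * b = -(b * b * a * a) + c * c * b * b := by
    rw [acb]
    have e : (-(b * b * a) + c * c * b + c * b * b) * b = -(b * b * (a * b)) + c * c * b * b +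
        c * (b * b * b) := by noncomm_ring
    rw [e, h1, hb]
    have e2 : -(b * b * (a * a + b * b)) + c * c * b * b + c * 0 = -(b * b * a * a) - b * b * b * b +
        c * c * b * b := by noncomm_ring
    rw [e2, hb]; noncomm_ring
  have e : (a * a + c * a + c * c) * (c * b) = a * (a * c * b) + c * (a * c * b) + c * c * c * b := by
    noncomm_ring
  rw [e, acb, hc]
  have e2 : a * (-(b * b * a) + c * c * b + c * b * b) + c * (-(b * b * a) + c * c * b + c * b * b) +
      0 * b = -(a * b * b * a) + a * c * c * b + a * c * b * b - c * b * b * a + c * c * c * b +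
        c * c * b * b := by noncomm_ring
  rw [e2, abba, accb, acbb, hc]
  noncomm_ring

/-- the square of `C X_x` -/
theorem C_sq (x : ℤ) : C (X x) * C (X x) = X x * X x + X (x + 1 + 1) * X x + X (x + 1 + 1) * X (x + 1 + 1) := by
  rw [C_X]
  exact sq_ring _ _ _ (diag x) (diag (x + 1)) (r02 x)

/-- the first local identity -/
theorem locA (x : ℤ) : C (X x) * C (X x) * (X x * X x) = X (x + 1 + 1) * X (x + 1 + 1) * (X x * X x) := by
  rw [C_sq]
  have e : (X x * X x + X (x + 1 + 1) * X x + X (x + 1 + 1) * X (x + 1 + 1)) * (X x * X x) =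
      X x * X x * X x * X x + X (x + 1 + 1) * (X x * X x * X x) +
        X (x + 1 + 1) * X (x + 1 + 1) * (X x * X x) := by noncomm_ring
  rw [e, cube, zero_mul, mul_zero, zero_add, zero_add]

theorem Vh_sq (x : ℤ) : Vh (X x) * Vh (X x) = -(X (x + 1 + 1) * X (x + 1)) := by
  rw [Vh_X]
  have e : (X (x + 1 + 1) - X (x + 1)) * (X (x + 1 + 1) - X (x + 1)) =
      X (x + 1 + 1) * X (x + 1 + 1) - X (x + 1 + 1) * X (x + 1) - X (x + 1) * X (x + 1 + 1) +
        X (x + 1) * X (x + 1) := by noncomm_ring
  rw [e, diag (x + 1)]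
  abel

/-- the second local identity -/
theorem locB (x : ℤ) : C (X x) * C (X x) * (Vh (X x) * Vh (X x)) =
    C (X x) * C (X x) * (X x * X x) := by
  rw [locA, C_sq, Vh_sq, mul_neg]
  rw [quartic_ring (X x) (X (x + 1)) (X (x + 1 + 1)) (diag x) (r02 x) (cube _) (cube _) (cube _)
    (cub2 (x + 1) x) (cub2 x (x + 1)) (cub2 x (x + 1 + 1)), neg_neg]

end Pool.Agent.Q258.MT
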