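import Pool.Agent.Q258.MT.Asm
import Pool.Agent.Q258.MT.Alg5

set_option autoImplicit false

/-!
The number of all alternating sign matrices; lists of arguments.
-/

noncomputable section

namespace Pool.Agent.Q258.MT

theorem asm_exists_one {n : ℕ} {a : Fin (n + 1) → Fin (n + 1) → ℤ} (ha : IsASM a) : ∃ j, a 0 j = 1 := by
  by_contra hne
  push Not at hne
  have h := (isASM_iff a).mp ha
  have h1 : ∀ i, a 0 i = 0 := by
    intro i
    have h2 := h.2 i
    rw [List.ofFn_succ] at h2
    have h3 := cs_bit h2.2
    have h4 := hne i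
    omega
  have h2 := ps_sum _ _ (h.1 0)
  rw [List.sum_ofFn, zero_add, Finset.sum_eq_zero (fun i _ => h1 i)] at h2
  omega

/-- the number of alternating sign matrices -/
theorem asm_total (n : ℕ) : (Nat.card {a : Fin (n + 1) → Fin (n + 1) → ℤ // IsASM a} : ℚ) =
    al (n + 1) (up 1 (n + 1)) := by
  have hfin : ∀ j : Fin (n + 1), Finite {a : Fin (n + 1) → Fin (n + 1) → ℤ // IsASM a ∧ a 0 j = 1} := by
    intro j
    have := good_finite n (fun i : Fin (n + 1) => decide (i ≠ j))
    exact Finite.of_equiv _ (asmEquiv n j).symm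
  let g : (Σ j : Fin (n + 1), {a : Fin (n + 1) → Fin (n + 1) → ℤ // IsASM a ∧ a 0 j = 1}) →
      {a : Fin (n + 1) → Fin (n + 1) → ℤ // IsASM a} := fun x => ⟨x.2.1, x.2.2.1⟩
  have hg : Function.Bijective g := by
    constructor
    · rintro ⟨j, a, ha, hj⟩ ⟨j', a', ha', hj'⟩ h
      have e : a = a' := congrArg Subtype.val h
      subst e
      have e2 : j = j' := by
        by_contra hne
        have h1 := asm_top ha hj
        rw [h1, Pi.single_eq_of_ne (Ne.symm hne)] at hj'
        exact zero_ne_one hj'
      subst e2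
      rfl
    · rintro ⟨a, ha⟩
      obtain ⟨j, hj⟩ := asm_exists_one ha
      exact ⟨⟨j, a, ha, hj⟩, rfl⟩
  rw [← Nat.card_congr (Equiv.ofBijective g hg), Nat.card_sigma, al_up, Finset.sum_range]
  push_cast
  exact Finset.sum_congr rfl fun j _ => asm_card n j

/-- lists given by a function on positions -/
theorem ofFn_up' (m : ℕ) : ∀ (a : ℤ) (f : Fin m → ℤ), (∀ i, f i = a + (i : ℕ)) →
    List.ofFn f = up a m := by
  induction m with
  | zero => intro a f _; rfl
  | succ m ih =>
    intro a f hf
    rw [List.ofFn_succ, up, ih (a + 1) _ (fun i => by rw [hf, Fin.val_succ]; push_cast; ring), hf 0]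
    simp

theorem ofFn_eq_of_getElem {N : ℕ} (f : Fin N → ℤ) (l : List ℤ) (hl : l.length = N)
    (h : ∀ (i : ℕ) (hi : i < l.length), l[i] = f ⟨i, hl ▸ hi⟩) : List.ofFn f = l := by
  apply List.ext_getElem
  · rw [List.length_ofFn, hl]
  · intro i h1 h2
    rw [List.getElem_ofFn, h i h2]

theorem up_getElem (n : ℕ) : ∀ (a : ℤ) (i : ℕ) (hi : i < (up a n).length), (up a n)[i] = a + i := by
  induction n with
  | zero => intro a i hi; simp [up] at hi
  | succ n ih =>
    intro a i hi
    cases i with
    | zero => simp [up]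
    | succ i =>
      simp only [up, List.getElem_cons_succ]
      rw [ih]
      push_cast; ring

theorem dbl_getElem (k : ℕ) : ∀ (a : ℤ) (i : ℕ) (hi : i < (dbl a k).length),
    (dbl a k)[i] = a + k - 1 - ((i / 2 : ℕ) : ℤ) := by
  induction k with
  | zero => intro a i hi; simp [dbl] at hi
  | succ k ih =>
    intro a i hi
    match i with
    | 0 => simp [dbl]; ring
    | 1 => simp [dbl]; ring
    | i + 2 =>
      simp only [dbl, List.getElem_cons_succ]
      rw [ih]
      have : (i + 2) / 2 = i / 2 + 1 := by omega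
      rw [this]
      push_cast; ring

end Pool.Agent.Q258.MT
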