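import Mathlib

set_option autoImplicit false

/-!
Operators on functions of lists of integers, used for the monotone triangle polynomial.
-/

namespace Pool.Agent.Q258.MT

/-- `∏ (1 - E_z + E_z E_q)` over the entries `q` of the list, applied to `f`. -/
def P : List ℤ → (ℤ → List ℤ → ℚ) → ℤ → ℚ
  | [], f, z => f z []
  | a :: l, f, z =>
    P l (fun z l => f z (a :: l) - f (z + 1) (a :: l) + f (z + 1) ((a + 1) :: l)) z

/-- `∏_{p < q} (1 - E_p + E_p E_q)` applied to `f`. -/
def T : List ℤ → (List ℤ → ℚ) → ℚ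
  | [], f => f []
  | z :: w, f => T w (fun l => P l (fun z l => f (z :: l)) z)

theorem P_add (l : List ℤ) : ∀ (f g : ℤ → List ℤ → ℚ) (z : ℤ),
    P l (fun z l => f z l + g z l) z = P l f z + P l g z := by
  induction l with
  | nil => intro f g z; rfl
  | cons a l ih =>
    intro f g z
    simp only [P]
    rw [← ih]
    congr 1
    funext z l
    ring

theorem P_neg (l : List ℤ) : ∀ (f : ℤ → List ℤ → ℚ) (z : ℤ),
    P l (fun z l => - f z l) z = - P l f z := by
  induction l with
  | nil => intro f z; rfl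
  | cons a l ih =>
    intro f z
    simp only [P]
    rw [← ih]
    congr 1
    funext z l
    ring

theorem P_sub (l : List ℤ) (f g : ℤ → List ℤ → ℚ) (z : ℤ) :
    P l (fun z l => f z l - g z l) z = P l f z - P l g z := by
  simp only [sub_eq_add_neg, P_add, P_neg]

theorem P_zero (l : List ℤ) : ∀ z : ℤ, P l (fun _ _ => 0) z = 0 := by
  induction l with
  | nil => intro z; rfl
  | cons a l ih => intro z; simp only [P, sub_zero, add_zero]; exact ih z

theorem P_mul (l : List ℤ) (c : ℚ) : ∀ (f : ℤ → List ℤ → ℚ) (z : ℤ),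
    P l (fun z l => c * f z l) z = c * P l f z := by
  induction l with
  | nil => intro f z; rfl
  | cons a l ih =>
    intro f z
    simp only [P]
    rw [← ih]
    congr 1
    funext z l
    ring

theorem P_shift (l : List ℤ) : ∀ (f : ℤ → List ℤ → ℚ) (z : ℤ),
    P l (fun z l => f (z + 1) l) z = P l f (z + 1) := by
  induction l with
  | nil => intro f z; rfl
  | cons a l ih =>
    intro f z
    simp only [P]
    rw [← ih (fun z l => f z (a :: l) - f (z + 1) (a :: l) + f (z + 1) ((a + 1) :: l))]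

theorem T_add (w : List ℤ) : ∀ f g : List ℤ → ℚ, T w (fun l => f l + g l) = T w f + T w g := by
  induction w with
  | nil => intro f g; rfl
  | cons z w ih =>
    intro f g
    simp only [T]
    rw [← ih]
    congr 1
    funext l
    rw [← P_add]

theorem T_neg (w : List ℤ) : ∀ f : List ℤ → ℚ, T w (fun l => - f l) = - T w f := by
  induction w with
  | nil => intro f; rfl
  | cons z w ih =>
    intro f
    simp only [T]
    rw [← ih]
    congr 1
    funext l
    rw [← P_neg]

theorem T_sub (w : List ℤ) (f g : List ℤ → ℚ) : T w (fun l => f l - g l) = T w f - T w g := by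
  simp only [sub_eq_add_neg, T_add, T_neg]

theorem T_zero (w : List ℤ) : T w (fun _ => 0) = 0 := by
  induction w with
  | nil => rfl
  | cons z w ih => simp only [T, P_zero]; exact ih

theorem T_mul (w : List ℤ) (c : ℚ) : ∀ f : List ℤ → ℚ, T w (fun l => c * f l) = c * T w f := by
  induction w with
  | nil => intro f; rfl
  | cons z w ih =>
    intro f
    simp only [T]
    rw [← ih]
    congr 1
    funext l
    rw [← P_mul]

/-- the factors of two different variables commute -/
theorem P_comm (l : List ℤ) : ∀ (g : ℤ → ℤ → List ℤ → ℚ) (x y : ℤ),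
    P l (fun y l => P l (fun x l => g x y l) x) y = P l (fun x l => P l (fun y l => g x y l) y) x := by
  induction l with
  | nil => intro g x y; rfl
  | cons a l ih =>
    intro g x y
    simp only [P]
    simp only [← P_add, ← P_sub]
    rw [ih (fun x y l => (g x y (a :: l) - g (x + 1) y (a :: l) + g (x + 1) y ((a + 1) :: l)) -
      (g x (y + 1) (a :: l) - g (x + 1) (y + 1) (a :: l) + g (x + 1) (y + 1) ((a + 1) :: l)) +
      (g x (y + 1) ((a + 1) :: l) - g (x + 1) (y + 1) ((a + 1) :: l) +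
        g (x + 1) (y + 1) ((a + 1 + 1) :: l)))]
    congr 1
    funext x l
    congr 1
    funext y l
    ring

/-- antisymmetry under the exchange of neighbours -/
def Anti (f : List ℤ → ℚ) : Prop :=
  ∀ (u : List ℤ) (x y : ℤ) (v : List ℤ), f (u ++ x :: y :: v) = - f (u ++ y :: x :: v)

theorem Anti.cons {f : List ℤ → ℚ} (hf : Anti f) (z : ℤ) : Anti (fun l => f (z :: l)) :=
  fun u x y v => hf (z :: u) x y v

theorem Anti.P {f : ℤ → List ℤ → ℚ} (hf : ∀ z, Anti (f z)) (z : ℤ) : Anti (fun l => P l f z) := by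
  intro u
  induction u generalizing f z with
  | nil =>
    intro x y v
    simp only [List.nil_append, MT.P]
    rw [← P_neg]
    congr 1
    funext z l
    have h := fun z x y => hf z [] x y l
    simp only [List.nil_append] at h
    linear_combination h z x y - h (z + 1) x y + h (z + 1) (x + 1) y -
      (h (z + 1) x y - h (z + 1 + 1) x y + h (z + 1 + 1) (x + 1) y) +
      (h (z + 1) x (y + 1) - h (z + 1 + 1) x (y + 1) + h (z + 1 + 1) (x + 1) (y + 1))
  | cons a u ih =>
    intro x y v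
    simp only [List.cons_append, MT.P]
    apply ih
    intro z u' x y v
    have h := fun z a => hf z (a :: u') x y v
    simp only [List.cons_append] at h
    linear_combination h z a - h (z + 1) a + h (z + 1) (a + 1)

/-- the quadratic relation -/
def Rel (F : List ℤ → ℚ) : Prop :=
  ∀ (u : List ℤ) (x y : ℤ) (v : List ℤ),
    F (u ++ x :: y :: v) + F (u ++ (x + 1) :: (y + 1) :: v) - F (u ++ x :: (y + 1) :: v) +
      (F (u ++ y :: x :: v) + F (u ++ (y + 1) :: (x + 1) :: v) - F (u ++ y :: (x + 1) :: v)) = 0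

/-- the antisymmetric kernel of two neighbours -/
def K (f : List ℤ → ℚ) (x y : ℤ) (v : List ℤ) : ℚ :=
  T v (fun l => P l (fun y l => P l (fun x l => f (x :: y :: l)) x) y)

theorem K_anti {f : List ℤ → ℚ} (hf : Anti f) (x y : ℤ) (v : List ℤ) : K f x y v = - K f y x v := by
  unfold K
  rw [← T_neg]
  congr 1
  funext l
  rw [P_comm l (fun x y l => f (x :: y :: l)) x y, ← P_neg]
  congr 1
  funext y l
  rw [← P_neg]
  congr 1
  funext x l
  exact hf [] y x l

theorem P_cons (f : ℤ → List ℤ → ℚ) (a : ℤ) (l : List ℤ) (z : ℤ) :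
    P (a :: l) f z = P l (fun z l => f z (a :: l)) z - P l (fun z l => f z (a :: l)) (z + 1) +
      P l (fun z l => f z ((a + 1) :: l)) (z + 1) := by
  rw [← P_shift l (fun z l => f z (a :: l)), ← P_shift l (fun z l => f z ((a + 1) :: l)), ← P_sub, ← P_add]
  rfl

theorem T_two (f : List ℤ → ℚ) (x y : ℤ) (v : List ℤ) :
    T (x :: y :: v) f = K f x y v - K f (x + 1) y v + K f (x + 1) (y + 1) v := by
  unfold K
  rw [← T_sub, ← T_add]
  simp only [T]
  congr 1
  funext l
  simp only [P_cons]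
  rw [P_add, P_sub]
  congr 1
  rw [← P_shift]

theorem Rel_T {f : List ℤ → ℚ} (hf : Anti f) : Rel (fun w => T w f) := by
  intro u
  induction u generalizing f with
  | nil =>
    intro x y v
    simp only [List.nil_append, T_two]
    have h := fun x y => K_anti hf x y v
    linear_combination h x y + h (x + 1) (y + 1) - h x (y + 1) - h (x + 1) y - h (x + 1 + 1) (y + 1)
      + h (x + 1) (y + 1) + h (x + 1) (y + 1) + h (x + 1 + 1) (y + 1 + 1) - h (x + 1) (y + 1 + 1)
  | cons a u ih =>
    intro x y v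
    simp only [List.cons_append, T]
    exact ih (Anti.P (fun z => hf.cons z) a) x y v

/-- the antisymmetric kernel of three neighbours -/
def K3 (f : List ℤ → ℚ) (x y z : ℤ) (v : List ℤ) : ℚ :=
  K (fun l => P l (fun x l => f (x :: l)) x) y z v

theorem K3_anti_right {f : List ℤ → ℚ} (hf : Anti f) (x y z : ℤ) (v : List ℤ) :
    K3 f x y z v = - K3 f x z y v :=
  K_anti (Anti.P (fun z => hf.cons z) x) y z v

/-- the symmetric form of the kernel of three neighbours -/
def K3s (f : List ℤ → ℚ) (x y z : ℤ) (v : List ℤ) : ℚ :=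
  T v (fun l => P l (fun z l => P l (fun y l => P l (fun x l => f (x :: y :: z :: l)) x) y) z)

theorem K3s_anti_left {f : List ℤ → ℚ} (hf : Anti f) (x y z : ℤ) (v : List ℤ) :
    K3s f x y z v = - K3s f y x z v := by
  unfold K3s
  rw [← T_neg]
  congr 1
  funext l
  rw [← P_neg]
  congr 1
  funext z l
  rw [P_comm l (fun x y l => f (x :: y :: z :: l)) x y, ← P_neg]
  congr 1
  funext y l
  rw [← P_neg]
  congr 1
  funext x l
  exact hf [] y x (z :: l)

theorem K3s_anti_right {f : List ℤ → ℚ} (hf : Anti f) (x y z : ℤ) (v : List ℤ) :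
    K3s f x y z v = - K3s f x z y v := by
  unfold K3s
  rw [← T_neg]
  congr 1
  funext l
  rw [P_comm l (fun y z l => P l (fun x l => f (x :: y :: z :: l)) x) y z, ← P_neg]
  congr 1
  funext y l
  rw [← P_neg]
  congr 1
  funext z l
  rw [← P_neg]
  congr 1
  funext x l
  exact hf [x] y z l

/-- the kernel before the summation over the last variables -/
def Q3 (f : List ℤ → ℚ) (x y z : ℤ) (l : List ℤ) : ℚ :=
  P l (fun z l => P l (fun y l => P l (fun x l => f (x :: y :: z :: l)) x) y) z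

theorem Q3_eq (f : List ℤ → ℚ) (x y z : ℤ) (l : List ℤ) :
    P l (fun z l => P l (fun y l => P (y :: z :: l) (fun x l => f (x :: l)) x) y) z =
      Q3 f x y z l - Q3 f (x + 1) y z l + Q3 f (x + 1) y (z + 1) l
      - (Q3 f (x + 1) y z l - Q3 f (x + 1 + 1) y z l + Q3 f (x + 1 + 1) y (z + 1) l)
      + (Q3 f (x + 1) (y + 1) z l - Q3 f (x + 1 + 1) (y + 1) z l
        + Q3 f (x + 1 + 1) (y + 1) (z + 1) l) := by
  have h1 : ∀ (x : ℤ), Q3 f x (y + 1) z l = P l (fun z l => P l (fun y l => P l (fun x l =>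
      f (x :: (y + 1) :: z :: l)) x) y) z := by
    intro x
    unfold Q3
    congr 1
    funext z l
    rw [← P_shift]
  have h2 : ∀ (x : ℤ), Q3 f x y (z + 1) l = P l (fun z l => P l (fun y l => P l (fun x l =>
      f (x :: y :: (z + 1) :: l)) x) y) z := by
    intro x
    unfold Q3
    rw [← P_shift]
  have h3 : ∀ (x : ℤ), Q3 f x (y + 1) (z + 1) l = P l (fun z l => P l (fun y l => P l (fun x l =>
      f (x :: (y + 1) :: (z + 1) :: l)) x) y) z := by
    intro x
    unfold Q3
    rw [← P_shift]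
    congr 1
    funext z l
    rw [← P_shift]
  rw [h1, h1, h2, h2, h3]
  unfold Q3
  simp only [← P_sub, ← P_add]
  congr 1
  funext z l
  congr 1
  funext y l
  simp only [P_cons]

theorem K3_eq (f : List ℤ → ℚ) (x y z : ℤ) (v : List ℤ) :
    K3 f x y z v = K3s f x y z v - K3s f (x + 1) y z v + K3s f (x + 1) y (z + 1) v
      - (K3s f (x + 1) y z v - K3s f (x + 1 + 1) y z v + K3s f (x + 1 + 1) y (z + 1) v)
      + (K3s f (x + 1) (y + 1) z v - K3s f (x + 1 + 1) (y + 1) z v
        + K3s f (x + 1 + 1) (y + 1) (z + 1) v) := by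
  unfold K3s
  simp only [← T_sub, ← T_add]
  unfold K3 K
  congr 1
  funext l
  exact Q3_eq f x y z l

theorem T_three (f : List ℤ → ℚ) (x y z : ℤ) (v : List ℤ) :
    T (x :: y :: z :: v) f = K3 f x y z v - K3 f x (y + 1) z v + K3 f x (y + 1) (z + 1) v := by
  rw [T, T_two]
  rfl

/-- three equal neighbours give zero -/
def Cub (F : List ℤ → ℚ) : Prop :=
  ∀ (u : List ℤ) (x : ℤ) (v : List ℤ), F (u ++ x :: x :: x :: v) = 0

/-- a cubic relation -/
def Ser (F : List ℤ → ℚ) : Prop :=
  ∀ (u : List ℤ) (x : ℤ) (v : List ℤ),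
    F (u ++ x :: x :: (x + 1) :: v) + F (u ++ x :: (x + 1) :: x :: v) +
      F (u ++ (x + 1) :: x :: x :: v) = 0

theorem Cub_T {f : List ℤ → ℚ} (hf : Anti f) : Cub (fun w => T w f) := by
  intro u
  induction u generalizing f with
  | nil =>
    intro x v
    simp only [List.nil_append, T_three, K3_eq]
    have hl := fun x y z => K3s_anti_left hf x y z v
    have hr := fun x y z => K3s_anti_right hf x y z v
    linear_combination (1/2) * hl x x x + (1/2) * hl x x (x + 1) + (1) * hl (x + 1) x (x + 1) +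
      (-1) * hl (x + 1) x (x + 1 + 1) + (3/2) * hl (x + 1) (x + 1) x +
      (-3/2) * hl (x + 1) (x + 1) (x + 1) + (-1) * hl (x + 1 + 1) x (x + 1) +
      (-2) * hl (x + 1 + 1) (x + 1) x + (-1) * hl (x + 1 + 1) (x + 1) (x + 1 + 1) +
      (1/2) * hl (x + 1 + 1) (x + 1 + 1) x + (-1) * hl (x + 1 + 1) (x + 1 + 1) (x + 1) +
      (1/2) * hl (x + 1 + 1) (x + 1 + 1) (x + 1 + 1) + (-1) * hr x (x + 1) x +
      (1) * hr x (x + 1 + 1) (x + 1) + (-1) * hr (x + 1) x x +
      (1) * hr (x + 1) (x + 1 + 1) x + (1) * hr (x + 1) (x + 1 + 1) (x + 1) +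
      (1/2) * hr (x + 1) (x + 1 + 1) (x + 1 + 1) + (1/2) * hr (x + 1 + 1) x x +
      (3/2) * hr (x + 1 + 1) (x + 1) (x + 1)
  | cons a u ih =>
    intro x v
    simp only [List.cons_append, T]
    exact ih (Anti.P (fun z => hf.cons z) a) x v

theorem Ser_T {f : List ℤ → ℚ} (hf : Anti f) : Ser (fun w => T w f) := by
  intro u
  induction u generalizing f with
  | nil =>
    intro x v
    simp only [List.nil_append, T_three, K3_eq]
    have hl := fun x y z => K3s_anti_left hf x y z v
    have hr := fun x y z => K3s_anti_right hf x y z v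
    linear_combination (1/2) * hl x x (x + 1 + 1) + (-2) * hl (x + 1) x (x + 1) + (2) * hl (x + 1) x (x + 1 + 1) +
      (-1) * hl (x + 1) x (x + 1 + 1 + 1) + (-3/2) * hl (x + 1) (x + 1) x +
      (5/2) * hl (x + 1) (x + 1) (x + 1) + (1/2) * hl (x + 1) (x + 1) (x + 1 + 1) +
      (2) * hl (x + 1 + 1) x (x + 1) + (-1) * hl (x + 1 + 1) x (x + 1 + 1) +
      (4) * hl (x + 1 + 1) (x + 1) x + (4) * hl (x + 1 + 1) (x + 1) (x + 1 + 1) +
      (-1) * hl (x + 1 + 1) (x + 1) (x + 1 + 1 + 1) + (-3/2) * hl (x + 1 + 1) (x + 1 + 1) x +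
      (5/2) * hl (x + 1 + 1) (x + 1 + 1) (x + 1) +
      (-3/2) * hl (x + 1 + 1) (x + 1 + 1) (x + 1 + 1) + (-1) * hl (x + 1 + 1 + 1) x (x + 1) +
      (-2) * hl (x + 1 + 1 + 1) (x + 1) x + (-1) * hl (x + 1 + 1 + 1) (x + 1) (x + 1 + 1) +
      (1) * hl (x + 1 + 1 + 1) (x + 1 + 1) x +
      (-2) * hl (x + 1 + 1 + 1) (x + 1 + 1) (x + 1) + (1) * hr x (x + 1) x +
      (1/2) * hr x (x + 1) (x + 1) + (-1) * hr x (x + 1 + 1) x +
      (-1) * hr x (x + 1 + 1) (x + 1) + (1/2) * hr x (x + 1 + 1) (x + 1 + 1) +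
      (1) * hr x (x + 1 + 1 + 1) (x + 1) + (1/2) * hr (x + 1) x x +
      (-1) * hr (x + 1) (x + 1 + 1) x + (-4) * hr (x + 1) (x + 1 + 1) (x + 1) +
      (-1) * hr (x + 1) (x + 1 + 1) (x + 1 + 1) + (1) * hr (x + 1) (x + 1 + 1 + 1) x +
      (1) * hr (x + 1) (x + 1 + 1 + 1) (x + 1) +
      (1) * hr (x + 1) (x + 1 + 1 + 1) (x + 1 + 1) + (-1) * hr (x + 1 + 1) x x +
      (-3) * hr (x + 1 + 1) (x + 1) (x + 1) +
      (1) * hr (x + 1 + 1) (x + 1 + 1 + 1) (x + 1 + 1) + (1/2) * hr (x + 1 + 1 + 1) x x +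
      (3/2) * hr (x + 1 + 1 + 1) (x + 1) (x + 1) +
      (1/2) * hr (x + 1 + 1 + 1) (x + 1 + 1) (x + 1 + 1)
  | cons a u ih =>
    intro x v
    simp only [List.cons_append, T]
    exact ih (Anti.P (fun z => hf.cons z) a) x v

end Pool.Agent.Q258.MT
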