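import Mathlib

set_option autoImplicit false

/-!
Definitions: monotone triangles, the monotone triangle polynomial, alternating sign matrices.
-/

namespace Pool.Agent.Q258.MT

/-- A monotone triangle with `n` rows. The rows and the entries of a row are numbered from `0`;
row `i` has `i + 1` entries. -/
@[ext] structure MonotoneTriangle (n : ℕ) where
  /-- the entries -/
  entry : (i : Fin n) → Fin (i + 1) → ℤ
  /-- the rows are strictly increasing -/
  strictMono : ∀ i, StrictMono (entry i)
  /-- consecutive rows interlace -/
  interlace : ∀ (i : ℕ) (h : i + 1 < n) (j : Fin (i + 1)),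
    entry ⟨i + 1, h⟩ j.castSucc ≤ entry ⟨i, Nat.lt_of_succ_lt h⟩ j ∧
      entry ⟨i, Nat.lt_of_succ_lt h⟩ j ≤ entry ⟨i + 1, h⟩ j.succ

/-- The number of monotone triangles with `n + 1` rows and bottom row `k`. -/
noncomputable def mtCount (n : ℕ) (k : Fin (n + 1) → ℤ) : ℕ :=
  Nat.card {t : MonotoneTriangle (n + 1) // t.entry (Fin.last n) = k}

/-- `p` is the monotone triangle polynomial `α(n + 1; k₁, ..., k_{n+1})`: its value at every strictly
increasing sequence of integers is the number of monotone triangles with this bottom row. -/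
def IsMTPoly (n : ℕ) (p : MvPolynomial (Fin (n + 1)) ℚ) : Prop :=
  ∀ k : Fin (n + 1) → ℤ, StrictMono k → MvPolynomial.eval (fun i => (k i : ℚ)) p = mtCount n k

/-- The nonzero entries of the list `l` are `1, -1, 1, ..., -1, 1`. -/
def Alternates (l : List ℤ) : Prop :=
  ∃ m : ℕ, l.filter (fun x => x ≠ 0) = (List.range (2 * m + 1)).map (fun i => (-1) ^ i)

/-- Alternating sign matrices: in every row and in every column the nonzero entries are
`1, -1, 1, ..., -1, 1`. -/
def IsASM {n : ℕ} (a : Fin n → Fin n → ℤ) : Prop :=
  (∀ i, Alternates (List.ofFn (a i))) ∧ ∀ j, Alternates (List.ofFn fun i => a i j)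

end Pool.Agent.Q258.MT
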