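import Pool.Agent.Q258.MT.Rec
import Pool.Agent.Q258.MT.Def

set_option autoImplicit false

/-!
The number of monotone triangles by the recursion on the bottom row.
-/

noncomputable section

namespace Pool.Agent.Q258.MT

open Finset

open Classical in
/-- the strictly increasing rows which interlace with `k` -/
def Inter (n : ℕ) (k : Fin (n + 1) → ℤ) : Finset (Fin n → ℤ) :=
  (Fintype.piFinset fun j : Fin n => Icc (k j.castSucc) (k j.succ)).filter fun l => StrictMono l

theorem mem_Inter {n : ℕ} {k : Fin (n + 1) → ℤ} {l : Fin n → ℤ} :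
    l ∈ Inter n k ↔ (∀ j, k j.castSucc ≤ l j ∧ l j ≤ k j.succ) ∧ StrictMono l := by
  simp [Inter]

namespace MonotoneTriangle

/-- the triangle without the bottom row -/
def top {n : ℕ} (t : MonotoneTriangle (n + 2)) : MonotoneTriangle (n + 1) where
  entry i := t.entry i.castSucc
  strictMono i := t.strictMono i.castSucc
  interlace i h j := t.interlace i (by omega) j

/-- a triangle with a further row -/
def extend {n : ℕ} (s : MonotoneTriangle (n + 1)) (k : Fin (n + 2) → ℤ) (hk : StrictMono k)
    (h : s.entry (Fin.last n) ∈ Inter (n + 1) k) : MonotoneTriangle (n + 2) where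
  entry i j := if h : (i : ℕ) < n + 1 then s.entry ⟨i, h⟩ j else k ⟨j, by omega⟩
  strictMono i := by
    intro j j' hj
    by_cases h1 : (i : ℕ) < n + 1
    · simp only [h1, dif_pos]
      exact s.strictMono ⟨i, h1⟩ hj
    · simp only [h1, dif_neg, not_false_eq_true]
      exact hk hj
  interlace i hi j := by
    rw [mem_Inter] at h
    have h0 : i < n + 1 := by omega
    by_cases h1 : i + 1 < n + 1
    · simp only [h1, h0, dif_pos]
      exact s.interlace i h1 j
    · simp only [h1, h0, dif_pos, dif_neg, not_false_eq_true]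
      obtain rfl : i = n := by omega
      exact h.1 j

end MonotoneTriangle

/-- the triangles with bottom row `k` correspond to the triangles whose bottom row interlaces with `k` -/
def extendEquiv {n : ℕ} (k : Fin (n + 2) → ℤ) (hk : StrictMono k) :
    {t : MonotoneTriangle (n + 2) // t.entry (Fin.last (n + 1)) = k} ≃
      {s : MonotoneTriangle (n + 1) // s.entry (Fin.last n) ∈ Inter (n + 1) k} where
  toFun t := ⟨t.1.top, by
    rw [mem_Inter]
    refine ⟨fun j => ?_, t.1.strictMono _⟩
    have h := t.1.interlace n (by omega) j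
    have e1 := congrFun t.2 j.castSucc
    have e2 := congrFun t.2 j.succ
    exact ⟨le_of_eq_of_le e1.symm h.1, le_of_le_of_eq h.2 e2⟩⟩
  invFun s := ⟨s.1.extend k hk s.2, by
    funext j
    simp [MonotoneTriangle.extend]⟩
  left_inv t := by
    apply Subtype.ext
    ext i j
    simp only [MonotoneTriangle.extend, MonotoneTriangle.top]
    split_ifs with h
    · rfl
    · have hi : i = Fin.last (n + 1) := by
        apply Fin.ext
        simp only [Fin.val_last]
        omega
      subst hi
      exact (congrFun t.2 _).symm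
  right_inv s := by
    apply Subtype.ext
    ext i j
    simp only [MonotoneTriangle.extend, MonotoneTriangle.top, Fin.val_castSucc, i.2, dif_pos]

theorem mt_finite (n : ℕ) : ∀ k : Fin (n + 1) → ℤ,
    Finite {t : MonotoneTriangle (n + 1) // t.entry (Fin.last n) = k} := by
  induction n with
  | zero =>
    intro k
    have : Subsingleton {t : MonotoneTriangle (0 + 1) // t.entry (Fin.last 0) = k} := by
      constructor
      intro t s
      apply Subtype.ext
      ext i j
      obtain rfl : i = Fin.last 0 := Fin.ext (by have := i.2; simp only [Fin.val_last]; omega)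
      rw [t.2, s.2]
    infer_instance
  | succ n ih =>
    intro k
    by_cases hk : StrictMono k
    · have h : Finite {s : MonotoneTriangle (n + 1) // s.entry (Fin.last n) ∈ Inter (n + 1) k} := by
        have := fun l : {l // l ∈ Inter (n + 1) k} => ih l.1
        exact Finite.of_equiv _ (Equiv.sigmaSubtypeFiberEquivSubtype
          (fun s : MonotoneTriangle (n + 1) => s.entry (Fin.last n))
          (p := fun s => s.entry (Fin.last n) ∈ Inter (n + 1) k)
          (q := fun l => l ∈ Inter (n + 1) k) (fun _ => Iff.rfl))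
      exact Finite.of_equiv _ (extendEquiv k hk).symm
    · have : IsEmpty {t : MonotoneTriangle (n + 1 + 1) // t.entry (Fin.last (n + 1)) = k} := by
        constructor
        intro t
        exact hk (t.2 ▸ t.1.strictMono _)
      infer_instance

theorem mtCount_zero (k : Fin 1 → ℤ) : mtCount 0 k = 1 := by
  unfold mtCount
  rw [Nat.card_eq_one_iff_unique]
  constructor
  · constructor
    intro t s
    apply Subtype.ext
    ext i j
    obtain rfl : i = Fin.last 0 := Fin.ext (by have := i.2; simp only [Fin.val_last]; omega)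
    rw [t.2, s.2]
  · refine ⟨⟨⟨fun i j => k ⟨j, by omega⟩, fun i => ?_, fun i h => by omega⟩, ?_⟩⟩
    · intro a c h
      exfalso
      have := a.2
      have := c.2
      have := i.2
      have h' : (a : ℕ) < c := h
      omega
    · rfl

theorem mtCount_succ (n : ℕ) (k : Fin (n + 2) → ℤ) (hk : StrictMono k) :
    mtCount (n + 1) k = ∑ l ∈ Inter (n + 1) k, mtCount n l := by
  unfold mtCount
  have hfin := mt_finite n
  rw [Nat.card_congr (extendEquiv k hk), ← Nat.card_congr (Equiv.sigmaSubtypeFiberEquivSubtype
          (fun s : MonotoneTriangle (n + 1) => s.entry (Fin.last n))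
          (p := fun s => s.entry (Fin.last n) ∈ Inter (n + 1) k)
          (q := fun l => l ∈ Inter (n + 1) k) (fun _ => Iff.rfl)), Nat.card_sigma]
  exact (Finset.sum_subtype (Inter (n + 1) k) (fun _ => Iff.rfl)
    (fun l => Nat.card {t : MonotoneTriangle (n + 1) // t.entry (Fin.last n) = l})).symm

theorem ss_sub_ss {x y : ℤ} (h : x ≤ y) (g : ℤ → ℚ) : ss y g - ss x g = ∑ m ∈ Ico x y, g m := by
  induction y, h using Int.leInduction with
  | base => simp
  | succ y h ih =>
    rw [ss_succ, ← Finset.insert_Ico_right_eq_Ico_add_one h, Finset.sum_insert (by simp), ← ih]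
    ring

theorem mem_Inter_cons {n : ℕ} {x : ℤ} {t : Fin (n + 1) → ℤ} (ht : StrictMono t) {a : ℤ}
    {l : Fin n → ℤ} :
    (Fin.cons a l : Fin (n + 1) → ℤ) ∈ Inter (n + 1) (Fin.cons x t) ↔
      (x ≤ a ∧ a < t 0 ∧ l ∈ Inter n (Fin.cons (t 0) (Fin.tail t))) ∨
      (x ≤ a ∧ a = t 0 ∧ l ∈ Inter n (Fin.cons (t 0 + 1) (Fin.tail t))) := by
  have hcons : (Fin.cons (t 0) (Fin.tail t) : Fin (n + 1) → ℤ) = t := Fin.cons_self_tail t
  rw [hcons]
  simp only [mem_Inter]
  constructor
  · rintro ⟨h1, h2⟩
    have h0 := h1 0
    simp only [Fin.castSucc_zero, Fin.cons_zero, Fin.cons_succ] at h0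
    have h3 : StrictMono l := by
      intro i j hij
      have := h2 (Fin.succ_lt_succ_iff.mpr hij)
      simpa only [Fin.cons_succ] using this
    have h4 : ∀ j : Fin n, t j.castSucc ≤ l j ∧ l j ≤ t j.succ := by
      intro j
      have h5 := h1 j.succ
      rw [← Fin.succ_castSucc] at h5
      simpa only [Fin.cons_succ] using h5
    rcases lt_or_eq_of_le h0.2 with h | h
    · exact Or.inl ⟨h0.1, h, h4, h3⟩
    · refine Or.inr ⟨h0.1, h, fun j => ⟨?_, ?_⟩, h3⟩
      · have h6 : a < l j := by
          have := h2 (Fin.succ_pos j)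
          simpa only [Fin.cons_zero, Fin.cons_succ] using this
        rcases Fin.eq_zero_or_eq_succ j.castSucc with h7 | ⟨i, h7⟩
        · rw [h7]
          simp only [Fin.cons_zero]
          omega
        · rw [h7]
          simp only [Fin.cons_succ]
          have h8 := (h4 j).1
          rw [h7] at h8
          exact h8
      · have := (h4 j).2
        rw [Fin.cons_succ]
        exact this
  · rintro (⟨h0, h1, h2, h3⟩ | ⟨h0, h1, h2, h3⟩)
    · refine ⟨fun j => ?_, ?_⟩
      · rcases Fin.eq_zero_or_eq_succ j with rfl | ⟨i, rfl⟩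
        · simp only [Fin.castSucc_zero, Fin.cons_zero, Fin.cons_succ]
          exact ⟨h0, h1.le⟩
        · rw [← Fin.succ_castSucc]
          simp only [Fin.cons_succ]
          exact h2 i
      · rw [Fin.strictMono_iff_lt_succ]
        intro i
        rcases Fin.eq_zero_or_eq_succ i.castSucc with h7 | ⟨j, h7⟩
        · rw [h7]
          simp only [Fin.cons_zero, Fin.cons_succ]
          have h8 : i.castSucc = 0 := h7
          have h9 := (h2 i).1
          rw [h8] at h9
          omega
        · rw [h7]
          simp only [Fin.cons_succ]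
          apply h3
          rw [Fin.lt_def]
          have := congrArg Fin.val h7
          simp only [Fin.val_castSucc, Fin.val_succ] at this
          omega
    · have h4 : ∀ j : Fin n, t 0 + 1 ≤ l j := by
        intro j
        have h5 := (h2 j).1
        rcases Fin.eq_zero_or_eq_succ j.castSucc with h7 | ⟨i, h7⟩
        · rw [h7] at h5
          simpa only [Fin.cons_zero] using h5
        · rw [h7] at h5
          simp only [Fin.cons_succ, Fin.tail] at h5
          have := ht (Fin.succ_pos i)
          omega
      refine ⟨fun j => ?_, ?_⟩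
      · rcases Fin.eq_zero_or_eq_succ j with rfl | ⟨i, rfl⟩
        · simp only [Fin.castSucc_zero, Fin.cons_zero, Fin.cons_succ]
          exact ⟨h0, h1.le⟩
        · rw [← Fin.succ_castSucc]
          simp only [Fin.cons_succ]
          refine ⟨?_, ?_⟩
          · have h5 := (h2 i).1
            have h6 := h4 i
            rcases Fin.eq_zero_or_eq_succ i.castSucc with h7 | ⟨j, h7⟩
            · rw [h7]; omega
            · rw [h7] at h5
              rw [h7]
              simpa only [Fin.cons_succ, Fin.tail] using h5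
          · have h5 := (h2 i).2
            simpa only [Fin.cons_succ, Fin.tail] using h5
      · rw [Fin.strictMono_iff_lt_succ]
        intro i
        rcases Fin.eq_zero_or_eq_succ i.castSucc with h7 | ⟨j, h7⟩
        · rw [h7]
          simp only [Fin.cons_zero, Fin.cons_succ]
          have := h4 i
          omega
        · rw [h7]
          simp only [Fin.cons_succ]
          apply h3
          rw [Fin.lt_def]
          have := congrArg Fin.val h7
          simp only [Fin.val_castSucc, Fin.val_succ] at this
          omega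

theorem sum_Inter_cons {n : ℕ} {x : ℤ} {t : Fin (n + 1) → ℤ} (ht : StrictMono t) (hx : x ≤ t 0)
    (F : (Fin (n + 1) → ℤ) → ℚ) :
    ∑ L ∈ Inter (n + 1) (Fin.cons x t), F L =
      ∑ a ∈ Ico x (t 0), ∑ l ∈ Inter n (Fin.cons (t 0) (Fin.tail t)), F (Fin.cons a l) +
        ∑ l ∈ Inter n (Fin.cons (t 0 + 1) (Fin.tail t)), F (Fin.cons (t 0) l) := by
  classical
  have h1 : ∑ a ∈ Ico x (t 0), ∑ l ∈ Inter n (Fin.cons (t 0) (Fin.tail t)), F (Fin.cons a l) +
        ∑ l ∈ Inter n (Fin.cons (t 0 + 1) (Fin.tail t)), F (Fin.cons (t 0) l) =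
      ∑ a ∈ Icc x (t 0), ∑ l ∈ (if a < t 0 then Inter n (Fin.cons (t 0) (Fin.tail t)) else
        Inter n (Fin.cons (t 0 + 1) (Fin.tail t))), F (Fin.cons a l) := by
    rw [← Finset.Ico_insert_right hx, Finset.sum_insert (by simp), add_comm]
    congr 1
    · rw [if_neg (lt_irrefl _)]
    · apply Finset.sum_congr rfl
      intro a ha
      rw [Finset.mem_Ico] at ha
      rw [if_pos ha.2]
  rw [h1, Finset.sum_sigma']
  refine Finset.sum_bij' (fun L _ => ⟨L 0, Fin.tail L⟩) (fun p _ => Fin.cons p.1 p.2) ?_ ?_ ?_ ?_ ?_
  · intro L hL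
    rw [← Fin.cons_self_tail L, mem_Inter_cons ht] at hL
    rw [Finset.mem_sigma, Finset.mem_Icc]
    rcases hL with ⟨h0, h1, h2⟩ | ⟨h0, h1, h2⟩
    · refine ⟨⟨h0, h1.le⟩, ?_⟩
      simp only [h1, if_true]
      exact h2
    · refine ⟨⟨h0, h1.le⟩, ?_⟩
      simp only [h1, lt_irrefl, if_false]
      exact h2
  · rintro ⟨a, l⟩ h
    rw [Finset.mem_sigma, Finset.mem_Icc] at h
    simp only at h
    rw [mem_Inter_cons ht]
    rcases lt_or_eq_of_le h.1.2 with h1 | h1
    · left
      rw [if_pos h1] at h
      exact ⟨h.1.1, h1, h.2⟩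
    · right
      rw [if_neg (by omega)] at h
      exact ⟨h.1.1, h1, h.2⟩
  · intro L _
    exact Fin.cons_self_tail L
  · rintro ⟨a, l⟩ _
    simp
  · intro L _
    rw [Fin.cons_self_tail]

theorem gs_sum (n : ℕ) : ∀ (t : Fin n → ℤ) (x : ℤ) (A : List ℤ → ℚ), StrictMono t → (∀ j, x ≤ t j) →
    gs (List.ofFn t) x A = ∑ l ∈ Inter n (Fin.cons x t), A (List.ofFn l) := by
  induction n with
  | zero =>
    intro t x A _ _
    have h : Inter 0 (Fin.cons x t) = {fun i => Fin.elim0 i} := by
      ext l
      rw [mem_Inter, Finset.mem_singleton]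
      constructor
      · intro _
        exact Subsingleton.elim _ _
      · rintro rfl
        exact ⟨fun j => Fin.elim0 j, fun j => Fin.elim0 j⟩
    rw [h, Finset.sum_singleton]
    simp [gs]
  | succ n ih =>
    intro t x A ht hx
    have h1 : StrictMono (Fin.tail t) := fun i j hij => ht (Fin.succ_lt_succ_iff.mpr hij)
    rw [List.ofFn_succ]
    have h2 : (fun i : Fin n => t i.succ) = Fin.tail t := rfl
    rw [h2, gs, ss_sub_ss (hx 0), sum_Inter_cons ht (hx 0)]
    congr 1
    · apply Finset.sum_congr rfl
      intro a _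
      rw [ih _ _ _ h1 (fun j => (ht (Fin.succ_pos j)).le)]
      apply Finset.sum_congr rfl
      intro l _
      rw [List.ofFn_succ]
      simp only [Fin.cons_zero, Fin.cons_succ]
    · rw [ih _ _ _ h1 (fun j => by have := ht (Fin.succ_pos j); simp only [Fin.tail]; omega)]
      apply Finset.sum_congr rfl
      intro l _
      rw [List.ofFn_succ]
      simp only [Fin.cons_zero, Fin.cons_succ]

theorem al_one (x : ℤ) : al 1 [x] = 1 := by
  rw [al_gs]
  simp [gs, al, T, b]

/-- `al` counts the monotone triangles -/
theorem al_eq_count (n : ℕ) : ∀ k : Fin (n + 1) → ℤ, StrictMono k →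
    al (n + 1) (List.ofFn k) = mtCount n k := by
  induction n with
  | zero =>
    intro k _
    rw [mtCount_zero, List.ofFn_succ, List.ofFn_zero, al_one]
    norm_num
  | succ n ih =>
    intro k hk
    rw [mtCount_succ n k hk, List.ofFn_succ, al_gs]
    have h1 : StrictMono (fun i : Fin (n + 1) => k i.succ) :=
      fun i j hij => hk (Fin.succ_lt_succ_iff.mpr hij)
    rw [gs_sum (n + 1) _ _ _ h1 (fun j => (hk (Fin.succ_pos j)).le)]
    have h2 : (Fin.cons (k 0) (fun i : Fin (n + 1) => k i.succ) : Fin (n + 2) → ℤ) = k :=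
      Fin.cons_self_tail k
    rw [h2]
    push_cast
    apply Finset.sum_congr rfl
    intro l hl
    exact ih l (mem_Inter.mp hl).2

end Pool.Agent.Q258.MT
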