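import Pool.Agent.Q258.MT.Count

set_option autoImplicit false

/-!
Polynomiality, existence and uniqueness of the monotone triangle polynomial.
-/

noncomputable section

namespace Pool.Agent.Q258.MT

open Finset

/-- `g` is a polynomial function of degree at most `d` -/
def PD : ℕ → (ℤ → ℚ) → Prop
  | 0, g => ∀ x, g (x + 1) = g x
  | d + 1, g => PD d (fun x => g (x + 1) - g x)

theorem PD.zero_fun (d : ℕ) : PD d (fun _ => 0) := by
  induction d with
  | zero => intro x; rfl
  | succ d ih => simp only [PD, sub_self]; exact ih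

theorem PD.const (d : ℕ) (c : ℚ) : PD d (fun _ => c) := by
  cases d with
  | zero => intro x; rfl
  | succ d => simp only [PD, sub_self]; exact PD.zero_fun d

theorem PD.add {d : ℕ} : ∀ {f g : ℤ → ℚ}, PD d f → PD d g → PD d (fun x => f x + g x) := by
  induction d with
  | zero => intro f g hf hg x; simp only [hf x, hg x]
  | succ d ih =>
    intro f g hf hg
    simp only [PD] at hf hg ⊢
    have h := ih hf hg
    have e : (fun x => f (x + 1) + g (x + 1) - (f x + g x)) =
        fun x => (f (x + 1) - f x) + (g (x + 1) - g x) := by funext x; ring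
    rw [e]; exact h

theorem PD.mul {d : ℕ} (c : ℚ) : ∀ {f : ℤ → ℚ}, PD d f → PD d (fun x => c * f x) := by
  induction d with
  | zero => intro f hf x; simp only [hf x]
  | succ d ih =>
    intro f hf
    simp only [PD] at hf ⊢
    have h := ih hf
    have e : (fun x => c * f (x + 1) - c * f x) = fun x => c * (f (x + 1) - f x) := by
      funext x; ring
    rw [e]; exact h

theorem PD.neg {d : ℕ} {f : ℤ → ℚ} (hf : PD d f) : PD d (fun x => - f x) := by
  have h := hf.mul (-1)
  have e : (fun x => -1 * f x) = fun x => - f x := by funext x; ring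
  rw [e] at h; exact h

theorem PD.sub {d : ℕ} {f g : ℤ → ℚ} (hf : PD d f) (hg : PD d g) : PD d (fun x => f x - g x) := by
  simp only [sub_eq_add_neg]
  exact hf.add hg.neg

theorem PD.shift {d : ℕ} : ∀ {f : ℤ → ℚ}, PD d f → PD d (fun x => f (x + 1)) := by
  induction d with
  | zero => intro f hf x; exact hf (x + 1)
  | succ d ih =>
    intro f hf
    simp only [PD] at hf ⊢
    exact ih hf

theorem PD.succ {d : ℕ} : ∀ {f : ℤ → ℚ}, PD d f → PD (d + 1) f := by
  induction d with
  | zero => intro f hf x; simp only [hf x, hf (x + 1), sub_self]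
  | succ d ih => intro f hf; exact ih hf

theorem PD.mono {d e : ℕ} (h : d ≤ e) {f : ℤ → ℚ} (hf : PD d f) : PD e f := by
  induction e, h using Nat.le_induction with
  | base => exact hf
  | succ e _ ih => exact ih.succ

theorem PD.sum {ι : Type*} (s : Finset ι) {d : ℕ} {f : ι → ℤ → ℚ} (h : ∀ i, PD d (f i)) :
    PD d (fun x => ∑ i ∈ s, f i x) := by
  classical
  induction s using Finset.induction_on with
  | empty => simp only [Finset.sum_empty]; exact PD.zero_fun d
  | insert a s ha ih => simp only [Finset.sum_insert ha]; exact (h a).add ih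

theorem PD.ss {d : ℕ} {f : ℤ → ℚ} (hf : PD d f) : PD (d + 1) (fun x => ss x f) := by
  simp only [PD, ss_succ, add_sub_cancel_left]
  exact hf

theorem PD.ss_param {d : ℕ} (a : ℤ) {G : ℤ → ℤ → ℚ} (h : ∀ m, PD d (fun x => G x m)) :
    PD d (fun x => MT.ss a (G x)) := by
  unfold MT.ss
  exact (PD.sum _ h).sub (PD.sum _ h)

/-- a polynomial function of degree at most `d` with `d + 1` consecutive zeros vanishes -/
theorem PD.eq_zero {d : ℕ} : ∀ {f : ℤ → ℚ}, PD d f → ∀ a : ℤ, (∀ j : ℕ, j ≤ d → f (a + j) = 0) →
    ∀ x, f x = 0 := by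
  have key : ∀ (f : ℤ → ℚ), (∀ x, f (x + 1) = f x) → ∀ a, f a = 0 → ∀ x, f x = 0 := by
    intro f h a ha x
    have h1 : ∀ n : ℕ, f (a + n) = 0 := by
      intro n
      induction n with
      | zero => simpa using ha
      | succ n ih => push_cast; rw [← add_assoc, h]; exact ih
    have h2 : ∀ n : ℕ, f (a - n) = 0 := by
      intro n
      induction n with
      | zero => simpa using ha
      | succ n ih => rw [← h]; rw [← ih]; congr 1; push_cast; ring
    rcases le_total a x with h3 | h3
    · have := h1 (x - a).toNat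
      rw [Int.toNat_of_nonneg (by omega)] at this
      rw [← this]; congr 1; ring
    · have := h2 (a - x).toNat
      rw [Int.toNat_of_nonneg (by omega)] at this
      rw [← this]; congr 1; ring
  induction d with
  | zero =>
    intro f hf a ha
    exact key f hf a (by simpa using ha 0 le_rfl)
  | succ d ih =>
    intro f hf a ha
    simp only [PD] at hf
    have h1 := ih hf a (fun j hj => by
      have h2 := ha j (by omega)
      have h3 := ha (j + 1) (by omega)
      push_cast at h3
      rw [← add_assoc] at h3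
      rw [h2, h3, sub_zero])
    exact key f (fun x => by linarith [h1 x]) a (by simpa using ha 0 (by omega))

theorem PD.mul_x {d : ℕ} : ∀ {f : ℤ → ℚ}, PD d f → PD (d + 1) (fun x => (x : ℚ) * f x) := by
  induction d with
  | zero =>
    intro f hf
    simp only [PD]
    intro x
    simp only [hf x, hf (x + 1)]
    push_cast
    ring
  | succ d ih =>
    intro f hf
    have h1 := hf.shift
    have h2 : PD d (fun x => f (x + 1) - f x) := hf
    have h3 := (ih h2).add h1
    change PD (d + 1) (fun x => ((x + 1 : ℤ) : ℚ) * f (x + 1) - (x : ℚ) * f x)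
    have e : (fun x : ℤ => ((x + 1 : ℤ) : ℚ) * f (x + 1) - (x : ℚ) * f x) =
        fun x : ℤ => (x : ℚ) * (f (x + 1) - f x) + f (x + 1) := by
      funext x; push_cast; ring
    rw [e]; exact h3

theorem PD.pow (d : ℕ) : PD d (fun x => (x : ℚ) ^ d) := by
  induction d with
  | zero => simp only [pow_zero]; exact PD.const 0 1
  | succ d ih => simp only [pow_succ']; exact ih.mul_x

theorem PD.poly {d : ℕ} (p : Polynomial ℚ) (hp : p.natDegree ≤ d) : PD d (fun x => p.eval (x : ℚ)) := by
  simp only [Polynomial.eval_eq_sum_range' (Nat.lt_succ_of_le hp)]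
  have h : ∀ i : ℕ, PD d (fun x : ℤ => if i ≤ d then p.coeff i * (x : ℚ) ^ i else 0) := by
    intro i
    by_cases hi : i ≤ d
    · simp only [hi, if_true]; exact ((PD.pow i).mono hi).mul _
    · simp only [hi, if_false]; exact PD.zero_fun d
  have h2 := PD.sum (range (d + 1)) h
  have e : (fun x : ℤ => ∑ i ∈ range (d + 1), if i ≤ d then p.coeff i * (x : ℚ) ^ i else 0) =
      fun x : ℤ => ∑ i ∈ range (d + 1), p.coeff i * (x : ℚ) ^ i := by
    funext x
    apply Finset.sum_congr rfl
    intro i hi
    rw [Finset.mem_range] at hi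
    rw [if_pos (by omega)]
  rw [e] at h2
  exact h2

theorem P_param {d : ℕ} (l : List ℤ) : ∀ {G : ℤ → ℤ → List ℤ → ℚ}, (∀ z m, PD d (fun x => G x z m)) →
    ∀ z, PD d (fun x => P l (G x) z) := by
  induction l with
  | nil => intro G h z; exact h z []
  | cons a l ih =>
    intro G h z
    simp only [P]
    exact ih (fun z m => ((h z _).sub (h (z + 1) _)).add (h (z + 1) _)) z

theorem P_PD {d : ℕ} (l : List ℤ) : ∀ {F : ℤ → List ℤ → ℚ}, (∀ m, PD d (fun z => F z m)) →
    PD d (fun z => P l F z) := by
  induction l with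
  | nil => intro F h; exact h []
  | cons a l ih =>
    intro F h
    simp only [P]
    exact ih (fun m => ((h _).sub (h _).shift).add (h _).shift)

theorem T_param {d : ℕ} (w : List ℤ) : ∀ {G : ℤ → List ℤ → ℚ}, (∀ m, PD d (fun x => G x m)) →
    PD d (fun x => T w (G x)) := by
  induction w with
  | nil => intro G h; exact h []
  | cons z w ih =>
    intro G h
    simp only [T]
    exact ih (fun m => P_param m (fun z m => h _) z)

theorem S_param {d : ℕ} (w : List ℤ) : ∀ {G : ℤ → List ℤ → ℚ}, (∀ m, PD d (fun x => G x m)) →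
    PD d (fun x => S w (G x)) := by
  induction w with
  | nil => intro G h; exact h []
  | cons z w ih =>
    intro G h
    simp only [S]
    exact PD.ss_param z (fun m => ih (fun r => h _))

theorem D_param {d : ℕ} (w : List ℤ) : ∀ {G : ℤ → List ℤ → ℚ}, (∀ m, PD d (fun x => G x m)) →
    PD d (fun x => D w (G x)) := by
  induction w with
  | nil => intro G h; exact PD.zero_fun d
  | cons z w ih =>
    intro G h
    simp only [D]
    exact (h w).sub (ih (fun r => h _))

/-- `f` is a polynomial of degree at most `d` in every entry of the list -/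
def SP (d : ℕ) (f : List ℤ → ℚ) : Prop := ∀ u v : List ℤ, PD d (fun x => f (u ++ x :: v))

theorem SP.cons {d : ℕ} {f : List ℤ → ℚ} (h : SP d f) (z : ℤ) : SP d (fun l => f (z :: l)) :=
  fun u v => h (z :: u) v

theorem SP.S {d : ℕ} {f : List ℤ → ℚ} (h : SP d f) : SP (d + 1) (fun l => S l f) := by
  intro u
  induction u generalizing f with
  | nil =>
    intro v
    simp only [List.nil_append, MT.S]
    exact PD.ss (S_param v (fun m => h [] m))
  | cons a u ih =>
    intro v
    simp only [List.cons_append, MT.S]
    exact PD.ss_param a (fun m => ih (h.cons m) v)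

theorem SP.D {d : ℕ} {f : List ℤ → ℚ} (h : SP d f) : SP d (fun l => D l f) := by
  intro u
  induction u generalizing f with
  | nil =>
    intro v
    simp only [List.nil_append, MT.D]
    exact (PD.const d _).sub (D_param v (fun m => h [] m))
  | cons a u ih =>
    intro v
    simp only [List.cons_append, MT.D]
    exact (h u v).sub (ih (h.cons a) v)

theorem SP.P {d : ℕ} {F : ℤ → List ℤ → ℚ} (h : ∀ z, SP d (F z)) (z : ℤ) : SP d (fun l => P l F z) := by
  intro u
  induction u generalizing F z with
  | nil =>
    intro v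
    simp only [List.nil_append, MT.P]
    exact P_param v (fun z m => ((h z [] m).sub (h (z + 1) [] m)).add (h (z + 1) [] m).shift) z
  | cons a u ih =>
    intro v
    simp only [List.cons_append, MT.P]
    exact ih (fun z u v => ((h z (a :: u) v).sub (h (z + 1) (a :: u) v)).add
      (h (z + 1) ((a + 1) :: u) v)) z v

theorem SP.T {d : ℕ} {f : List ℤ → ℚ} (h : SP d f) : SP d (fun l => T l f) := by
  intro u
  induction u generalizing f with
  | nil =>
    intro v
    simp only [List.nil_append, MT.T]
    exact T_param v (fun m => P_PD m (fun r => h [] r))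
  | cons a u ih =>
    intro v
    simp only [List.cons_append, MT.T]
    exact ih (SP.P (fun z => h.cons z) a) v

theorem b_SP : ∀ n : ℕ, SP n (b n)
  | 0 => by
    intro u v
    simp only [b, List.append_eq_nil_iff, reduceCtorEq, and_false, if_false]
    exact PD.zero_fun 0
  | n + 1 => (b_SP n).S.D

/-- the monotone triangle polynomial is a polynomial in every variable -/
theorem al_SP (n : ℕ) : SP n (al n) := (b_SP n).T

/-- a function of lists of length `n` which is a polynomial in every entry is a polynomial -/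
theorem SP.exists_poly {d : ℕ} (n : ℕ) : ∀ {f : List ℤ → ℚ}, SP d f →
    ∃ p : MvPolynomial (Fin n) ℚ, ∀ k : Fin n → ℤ,
      MvPolynomial.eval (fun i => (k i : ℚ)) p = f (List.ofFn k) := by
  induction n with
  | zero =>
    intro f _
    refine ⟨MvPolynomial.C (f []), fun k => ?_⟩
    simp
  | succ n ih =>
    intro f hf
    have h1 : ∀ j : ℕ, ∃ p : MvPolynomial (Fin n) ℚ, ∀ k : Fin n → ℤ,
      MvPolynomial.eval (fun i => (k i : ℚ)) p = f ((j : ℤ) :: List.ofFn k) :=
      fun j => ih (hf.cons j)
    choose q hq using h1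
    let B : ℕ → Polynomial ℚ := fun j => Lagrange.basis (range (d + 1)) (fun i : ℕ => (i : ℚ)) j
    have hinj : Set.InjOn (fun i : ℕ => (i : ℚ)) (range (d + 1)) := fun a _ b _ h => by
      simpa using h
    refine ⟨∑ j ∈ range (d + 1), Polynomial.aeval (MvPolynomial.X 0) (B j) *
      MvPolynomial.rename Fin.succ (q j), fun k => ?_⟩
    rw [map_sum, List.ofFn_succ]
    have h2 : ∀ j : ℕ, MvPolynomial.eval (fun i => (k i : ℚ)) (Polynomial.aeval (MvPolynomial.X 0) (B j) *
        MvPolynomial.rename Fin.succ (q j)) = (B j).eval (k 0 : ℚ) *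
        f ((j : ℤ) :: List.ofFn (fun i : Fin n => k i.succ)) := by
      intro j
      rw [map_mul, MvPolynomial.eval_rename]
      have h3 := hq j (fun i : Fin n => k i.succ)
      have h4 : ((fun i => (k i : ℚ)) ∘ Fin.succ) = fun i : Fin n => ((k i.succ : ℤ) : ℚ) := rfl
      rw [h4, h3]
      congr 1
      have h5 : MvPolynomial.eval (fun i => (k i : ℚ)) (Polynomial.aeval (MvPolynomial.X 0) (B j)) =
          Polynomial.aeval (MvPolynomial.eval (fun i => (k i : ℚ)) (MvPolynomial.X 0)) (B j) :=
        (Polynomial.aeval_algHom_apply (MvPolynomial.aeval (fun i => (k i : ℚ))) _ _).symm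
      rw [h5, MvPolynomial.eval_X, Polynomial.coe_aeval_eq_eval]
    rw [Finset.sum_congr rfl (fun j _ => h2 j)]
    set l := List.ofFn (fun i : Fin n => k i.succ) with hl
    have h6 : PD d (fun x => ∑ j ∈ range (d + 1), (B j).eval (x : ℚ) * f ((j : ℤ) :: l) - f (x :: l)) := by
      refine PD.sub ?_ (hf [] l)
      have h7 : ∀ j : ℕ, PD d (fun x : ℤ => if j ∈ range (d + 1) then
          f ((j : ℤ) :: l) * (B j).eval (x : ℚ) else 0) := by
        intro j
        by_cases hj : j ∈ range (d + 1)
        · simp only [hj, if_true]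
          refine PD.mul _ (PD.poly _ ?_)
          apply le_of_eq
          have := Lagrange.degree_basis hinj hj
          rw [Polynomial.natDegree_eq_of_degree_eq_some this]
          simp
        · simp only [hj, if_false]
          exact PD.zero_fun d
      have h8 := PD.sum (range (d + 1)) h7
      have e : (fun x : ℤ => ∑ j ∈ range (d + 1), if j ∈ range (d + 1) then
          f ((j : ℤ) :: l) * (B j).eval (x : ℚ) else 0) =
          fun x : ℤ => ∑ j ∈ range (d + 1), (B j).eval (x : ℚ) * f ((j : ℤ) :: l) := by
        funext x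
        apply Finset.sum_congr rfl
        intro j hj
        rw [if_pos hj, mul_comm]
      rw [e] at h8
      exact h8
    have h9 := h6.eq_zero 0 (fun i hi => by
      have hi' : i ∈ range (d + 1) := Finset.mem_range.mpr (by omega)
      rw [Finset.sum_eq_single i]
      · have := Lagrange.eval_basis_self hinj hi'
        simp only [B, zero_add]
        push_cast
        rw [this, one_mul, sub_self]
      · intro j hj hji
        have := Lagrange.eval_basis_of_ne (s := range (d + 1)) (v := fun i : ℕ => (i : ℚ)) hji hi'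
        simp only [B, zero_add]
        push_cast
        rw [this, zero_mul]
      · intro h
        exact absurd hi' h) (k 0)
    linarith

theorem eval_eq_zero {n : ℕ} (r : MvPolynomial (Fin (n + 1)) ℚ)
    (h : ∀ k : Fin (n + 1) → ℤ, StrictMono k → MvPolynomial.eval (fun i => (k i : ℚ)) r = 0)
    (k : Fin (n + 1) → ℤ) : MvPolynomial.eval (fun i => (k i : ℚ)) r = 0 := by
  let p : Polynomial ℚ := MvPolynomial.aeval
    (fun i : Fin (n + 1) => Polynomial.C (k i : ℚ) + Polynomial.C ((i : ℕ) : ℚ) * Polynomial.X) r
  have hp : ∀ t : ℚ, p.eval t = MvPolynomial.eval (fun i => (k i : ℚ) + ((i : ℕ) : ℚ) * t) r := by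
    intro t
    have h1 : p.eval t = Polynomial.aeval t p := by rw [Polynomial.coe_aeval_eq_eval]
    rw [h1]
    have h2 : Polynomial.aeval t p = MvPolynomial.aeval (fun i : Fin (n + 1) => Polynomial.aeval t
      (Polynomial.C (k i : ℚ) + Polynomial.C ((i : ℕ) : ℚ) * Polynomial.X)) r := by
      exact MvPolynomial.comp_aeval_apply (f := fun i : Fin (n + 1) => Polynomial.C (k i : ℚ) +
        Polynomial.C ((i : ℕ) : ℚ) * Polynomial.X) (Polynomial.aeval t : Polynomial ℚ →ₐ[ℚ] ℚ) r
    rw [h2]
    simp only [map_add, map_mul, Polynomial.aeval_C, Polynomial.aeval_X]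
    rfl
  obtain ⟨M, hM⟩ : ∃ M : ℕ, ∀ i : Fin (n + 1), |k i| ≤ M := by
    refine ⟨∑ i : Fin (n + 1), (k i).natAbs, fun i => ?_⟩
    rw [Int.abs_eq_natAbs]
    exact_mod_cast Finset.single_le_sum (f := fun i : Fin (n + 1) => (k i).natAbs)
      (fun _ _ => Nat.zero_le _) (Finset.mem_univ i)
  have h0 : p = 0 := by
    apply Polynomial.eq_zero_of_infinite_isRoot
    refine Set.Infinite.mono (s := Set.range fun m : ℕ => ((2 * M + 1 + m : ℕ) : ℚ)) ?_ ?_
    · rintro _ ⟨m, rfl⟩
      simp only [Set.mem_ofPred_eq, Polynomial.IsRoot.def]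
      rw [hp]
      have h3 := h (fun i => k i + (i : ℕ) * (2 * M + 1 + m : ℕ)) (by
        intro i j hij
        have h4 := abs_le.mp (hM i)
        have h5 := abs_le.mp (hM j)
        have h6 : ((i : ℕ) : ℤ) + 1 ≤ (j : ℕ) := by exact_mod_cast hij
        have h7 : ((i : ℕ) : ℤ) * (2 * M + 1 + m : ℕ) + (2 * M + 1 + m : ℕ) ≤
            (j : ℕ) * (2 * M + 1 + m : ℕ) := by
          have : ((i : ℕ) + 1 : ℤ) * (2 * M + 1 + m : ℕ) ≤ (j : ℕ) * (2 * M + 1 + m : ℕ) :=
            mul_le_mul_of_nonneg_right h6 (by positivity)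
          linarith
        push_cast at h7 ⊢
        linarith)
      rw [← h3]
      congr 2
      funext i
      push_cast
      ring
    · apply Set.infinite_range_of_injective
      intro a b hab
      simp only at hab
      have := Nat.cast_injective (R := ℚ) hab
      omega
  have h8 := hp 0
  rw [h0, Polynomial.eval_zero] at h8
  rw [h8]
  congr 2
  funext i
  ring

theorem IsMTPoly.eval_eq {n : ℕ} {p : MvPolynomial (Fin (n + 1)) ℚ} (hp : IsMTPoly n p)
    (k : Fin (n + 1) → ℤ) :
    MvPolynomial.eval (fun i => (k i : ℚ)) p = al (n + 1) (List.ofFn k) := by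
  obtain ⟨q, hq⟩ := (al_SP (n + 1)).exists_poly (n + 1)
  have h := eval_eq_zero (p - q) (fun k hk => by
    rw [map_sub, hp k hk, hq, al_eq_count n k hk, sub_self]) k
  rw [map_sub, hq] at h
  linarith

/-- existence and uniqueness of the monotone triangle polynomial -/
theorem existsUnique_mtPoly (n : ℕ) : ∃! p : MvPolynomial (Fin (n + 1)) ℚ, IsMTPoly n p := by
  obtain ⟨q, hq⟩ := (al_SP (n + 1)).exists_poly (n + 1)
  refine ⟨q, fun k hk => by rw [hq, al_eq_count n k hk], ?_⟩
  intro p hp
  apply MvPolynomial.funext_set (s := fun _ => Set.range (Int.cast : ℤ → ℚ))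
  · intro i
    exact Set.infinite_range_of_injective Int.cast_injective
  · intro x hx
    rw [Set.mem_pi] at hx
    choose k hk using fun i => hx i (Set.mem_univ i)
    have h1 : x = fun i => (k i : ℚ) := by
      funext i
      exact (hk i).symm
    rw [h1, hq, hp.eval_eq]

end Pool.Agent.Q258.MT
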