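import Pool.Agent.Q258.MT.Core

set_option autoImplicit false

/-!
The recursion by generalised summation for the monotone triangle polynomial.
-/

noncomputable section

namespace Pool.Agent.Q258.MT

/-- the alternating sum over the lists with one entry erased -/
def D : List ℤ → (List ℤ → ℚ) → ℚ
  | [], _ => 0
  | x :: l, f => f l - D l (fun m => f (x :: m))

/-- the alternating sum over the lists with one entry erased and the later entries raised by one -/
def D' : List ℤ → (List ℤ → ℚ) → ℚ
  | [], _ => 0
  | x :: l, f => f (l.map (· + 1)) - D' l (fun m => f (x :: m))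

theorem D_add (l : List ℤ) : ∀ f g : List ℤ → ℚ, D l (fun m => f m + g m) = D l f + D l g := by
  induction l with
  | nil => intro f g; simp [D]
  | cons x l ih => intro f g; simp only [D, ih]; ring

theorem D_neg (l : List ℤ) : ∀ f : List ℤ → ℚ, D l (fun m => - f m) = - D l f := by
  induction l with
  | nil => intro f; simp [D]
  | cons x l ih => intro f; simp only [D, ih]; ring

theorem D_sub (l : List ℤ) (f g : List ℤ → ℚ) : D l (fun m => f m - g m) = D l f - D l g := by
  simp only [sub_eq_add_neg, D_add, D_neg]

theorem D_zero (l : List ℤ) : D l (fun _ => 0) = 0 := by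
  induction l with
  | nil => rfl
  | cons x l ih => simp only [D, ih]; ring

theorem D'_add (l : List ℤ) : ∀ f g : List ℤ → ℚ, D' l (fun m => f m + g m) = D' l f + D' l g := by
  induction l with
  | nil => intro f g; simp [D']
  | cons x l ih => intro f g; simp only [D', ih]; ring

theorem D'_neg (l : List ℤ) : ∀ f : List ℤ → ℚ, D' l (fun m => - f m) = - D' l f := by
  induction l with
  | nil => intro f; simp [D']
  | cons x l ih => intro f; simp only [D', ih]; ring

theorem D'_sub (l : List ℤ) (f g : List ℤ → ℚ) : D' l (fun m => f m - g m) = D' l f - D' l g := by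
  simp only [sub_eq_add_neg, D'_add, D'_neg]

theorem P_D (l : List ℤ) : ∀ (F : ℤ → List ℤ → ℚ) (z : ℤ),
    P l (fun z l => D l (F z)) z = D l (fun m => P m F z) := by
  induction l with
  | nil => intro F z; rfl
  | cons a l ih =>
    intro F z
    have h : P (a :: l) (fun z l => D l (F z)) z = P l (fun z l => F z l - D l ((fun z m =>
        F z (a :: m) - F (z + 1) (a :: m) + F (z + 1) ((a + 1) :: m)) z)) z := by
      simp only [P]
      congr 1
      funext z l
      simp only [D, D_add, D_sub]
      ring
    rw [h, P_sub, ih]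
    simp only [D]
    rfl

theorem P_raise (l : List ℤ) : ∀ (f : List ℤ → ℚ) (z : ℤ),
    P l (fun _ l => f l) z = f (l.map (· + 1)) := by
  induction l with
  | nil => intro f z; rfl
  | cons a l ih =>
    intro f z
    simp only [P, sub_self, zero_add, List.map_cons]
    exact ih (fun l => f ((a + 1) :: l)) z

theorem P_map (l : List ℤ) : ∀ (f : ℤ → List ℤ → ℚ) (z : ℤ),
    P (l.map (· + 1)) f z = P l (fun z l => f z (l.map (· + 1))) z := by
  induction l with
  | nil => intro f z; rfl
  | cons a l ih =>
    intro f z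
    simp only [List.map_cons, P, ih]

/-- translation -/
theorem T_map (w : List ℤ) : ∀ f : List ℤ → ℚ,
    T (w.map (· + 1)) f = T w (fun l => f (l.map (· + 1))) := by
  induction w with
  | nil => intro f; rfl
  | cons z w ih =>
    intro f
    simp only [List.map_cons, T, ih]
    congr 1
    funext l
    rw [P_map, ← P_shift]

theorem T_D (w : List ℤ) : ∀ f : List ℤ → ℚ,
    T w (fun l => D l f) = D' w (fun u => T u f) := by
  induction w with
  | nil => intro f; rfl
  | cons z w ih =>
    intro f
    simp only [T, D, D']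
    have h : (fun l => P l (fun z l => f l - D l (fun m => f (z :: m))) z) =
        fun l => f (l.map (· + 1)) - D l (fun m => P m (fun z l => f (z :: l)) z) := by
      funext l
      rw [P_sub, P_raise, P_D l (fun z m => f (z :: m))]
    rw [h, T_sub, ih, ← T_map]

/-- signed sum over `0 ≤ m < x` -/
def ss (x : ℤ) (g : ℤ → ℚ) : ℚ := ∑ m ∈ Finset.Ico 0 x, g m - ∑ m ∈ Finset.Ico x 0, g m

theorem ss_zero (g : ℤ → ℚ) : ss 0 g = 0 := by simp [ss]

theorem ss_succ (x : ℤ) (g : ℤ → ℚ) : ss (x + 1) g = ss x g + g x := by
  unfold ss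
  rcases le_or_gt 0 x with h | h
  · rw [Finset.Ico_eq_empty_of_le (a := x + 1) (b := 0) (by omega), Finset.Ico_eq_empty_of_le (a := x) (b := 0) h]
    rw [← Finset.insert_Ico_right_eq_Ico_add_one h]
    rw [Finset.sum_insert (by simp)]
    ring
  · rw [Finset.Ico_eq_empty_of_le (a := 0) (b := x + 1) (by omega),
      Finset.Ico_eq_empty_of_le (a := 0) (b := x) (by omega)]
    rw [← Finset.insert_Ico_add_one_left_eq_Ico h, Finset.sum_insert (by simp)]
    ring

theorem ss_add (x : ℤ) (f g : ℤ → ℚ) : ss x (fun m => f m + g m) = ss x f + ss x g := by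
  unfold ss
  rw [Finset.sum_add_distrib, Finset.sum_add_distrib]
  ring

theorem ss_neg (x : ℤ) (f : ℤ → ℚ) : ss x (fun m => - f m) = - ss x f := by
  unfold ss
  rw [Finset.sum_neg_distrib, Finset.sum_neg_distrib]
  ring

theorem ss_sub (x : ℤ) (f g : ℤ → ℚ) : ss x (fun m => f m - g m) = ss x f - ss x g := by
  simp only [sub_eq_add_neg, ss_add, ss_neg]

theorem ss_zero' (x : ℤ) : ss x (fun _ => 0) = 0 := by simp [ss]

theorem ss_comm (x y : ℤ) (f : ℤ → ℤ → ℚ) :
    ss x (fun m => ss y (fun n => f m n)) = ss y (fun n => ss x (fun m => f m n)) := by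
  unfold ss
  simp only [Finset.sum_sub_distrib]
  rw [Finset.sum_comm, Finset.sum_comm (s := Finset.Ico 0 x) (t := Finset.Ico y 0),
    Finset.sum_comm (s := Finset.Ico x 0) (t := Finset.Ico 0 y),
    Finset.sum_comm (s := Finset.Ico x 0) (t := Finset.Ico y 0)]
  ring

/-- telescoping -/
theorem ss_tel (x : ℤ) (g : ℤ → ℚ) : ss x (fun m => g (m + 1) - g m) = g x - g 0 := by
  induction x using Int.induction_on with
  | zero => simp [ss_zero]
  | succ i ih => rw [ss_succ, ih]; ring
  | pred i ih =>
    have h := ss_succ (-(i : ℤ) - 1) (fun m => g (m + 1) - g m)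
    rw [sub_add_cancel] at h
    rw [ih] at h
    linarith

/-- iterated signed sum -/
def S : List ℤ → (List ℤ → ℚ) → ℚ
  | [], f => f []
  | x :: l, f => ss x (fun m => S l (fun r => f (m :: r)))

theorem S_add (l : List ℤ) : ∀ f g : List ℤ → ℚ, S l (fun m => f m + g m) = S l f + S l g := by
  induction l with
  | nil => intro f g; rfl
  | cons x l ih => intro f g; simp only [S, ih, ss_add]

theorem S_neg (l : List ℤ) : ∀ f : List ℤ → ℚ, S l (fun m => - f m) = - S l f := by
  induction l with
  | nil => intro f; rfl
  | cons x l ih => intro f; simp only [S, ih, ss_neg]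

theorem S_sub (l : List ℤ) (f g : List ℤ → ℚ) : S l (fun m => f m - g m) = S l f - S l g := by
  simp only [sub_eq_add_neg, S_add, S_neg]

theorem S_zero (l : List ℤ) : S l (fun _ => 0) = 0 := by
  induction l with
  | nil => rfl
  | cons x l ih => simp only [S, ih, ss_zero']

/-- `∏ (E_q - 1)` applied to `f` -/
def Dl : List ℤ → (List ℤ → ℚ) → ℚ
  | [], f => f []
  | x :: l, f => Dl l (fun m => f ((x + 1) :: m) - f (x :: m))

theorem Dl_add (l : List ℤ) : ∀ f g : List ℤ → ℚ, Dl l (fun m => f m + g m) = Dl l f + Dl l g := by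
  induction l with
  | nil => intro f g; rfl
  | cons x l ih =>
    intro f g
    simp only [Dl]
    rw [← ih]
    congr 1
    funext m
    ring

theorem Dl_neg (l : List ℤ) : ∀ f : List ℤ → ℚ, Dl l (fun m => - f m) = - Dl l f := by
  induction l with
  | nil => intro f; rfl
  | cons x l ih =>
    intro f
    simp only [Dl]
    rw [← ih]
    congr 1
    funext m
    ring

theorem Dl_sub (l : List ℤ) (f g : List ℤ → ℚ) : Dl l (fun m => f m - g m) = Dl l f - Dl l g := by
  simp only [sub_eq_add_neg, Dl_add, Dl_neg]

theorem Dl_S (l : List ℤ) : ∀ f : List ℤ → ℚ, Dl l (fun m => S m f) = f l := by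
  induction l with
  | nil => intro f; rfl
  | cons x l ih =>
    intro f
    simp only [Dl, S, ss_succ, add_sub_cancel_left]
    exact ih (fun r => f (x :: r))

theorem P_Dl (l : List ℤ) : ∀ (F : ℤ → List ℤ → ℚ) (z : ℤ),
    P l (fun z l => Dl l (F z)) z = Dl l (fun m => P m F z) := by
  induction l with
  | nil => intro F z; rfl
  | cons a l ih =>
    intro F z
    have h : P (a :: l) (fun z l => Dl l (F z)) z = P l (fun z l => Dl l ((fun z m =>
        (F z ((a + 1) :: m) - F (z + 1) ((a + 1) :: m) + F (z + 1) ((a + 1 + 1) :: m)) -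
        (F z (a :: m) - F (z + 1) (a :: m) + F (z + 1) ((a + 1) :: m))) z)) z := by
      simp only [P]
      congr 1
      funext z l
      simp only [Dl]
      rw [← Dl_sub, ← Dl_add]
      congr 1
      funext m
      ring
    rw [h, ih]
    simp only [Dl]
    congr 1
    funext m
    rw [P_sub]
    rfl

theorem T_Dl (w : List ℤ) : ∀ f : List ℤ → ℚ,
    T w (fun l => Dl l f) = Dl w (fun u => T u f) := by
  induction w with
  | nil => intro f; rfl
  | cons z w ih =>
    intro f
    simp only [T, Dl]
    have h : (fun l => P l (fun z l => Dl l (fun m => f ((z + 1) :: m) - f (z :: m))) z) =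
        fun l => Dl l (fun m => P m (fun z l => f (z :: l)) (z + 1) - P m (fun z l => f (z :: l)) z) := by
      funext l
      rw [P_Dl l (fun z m => f ((z + 1) :: m) - f (z :: m))]
      congr 1
      funext m
      rw [P_sub, ← P_shift]
    rw [h, ih]
    congr 1
    funext u
    rw [T_sub]

theorem Anti.S {f : List ℤ → ℚ} (hf : Anti f) : Anti (fun l => S l f) := by
  intro u
  induction u generalizing f with
  | nil =>
    intro x y v
    simp only [List.nil_append, MT.S]
    rw [ss_comm, ← ss_neg]
    congr 1
    funext m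
    rw [← ss_neg]
    congr 1
    funext n
    rw [← S_neg]
    congr 1
    funext r
    exact hf [] n m r
  | cons a u ih =>
    intro x y v
    simp only [List.cons_append, MT.S]
    rw [← ss_neg]
    congr 1
    funext m
    exact ih (hf.cons m) x y v

theorem Anti.D {f : List ℤ → ℚ} (hf : Anti f) : Anti (fun l => D l f) := by
  intro u
  induction u generalizing f with
  | nil =>
    intro x y v
    simp only [List.nil_append, MT.D]
    have h : MT.D v (fun m => f (x :: y :: m)) = - MT.D v (fun m => f (y :: x :: m)) := by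
      rw [← D_neg]
      congr 1
      funext m
      exact hf [] x y m
    linarith
  | cons a u ih =>
    intro x y v
    simp only [List.cons_append, MT.D]
    have h := ih (hf.cons a) x y v
    simp only at h
    rw [h, hf u x y v]
    ring

/-- the antisymmetric functions `∏ (k_j - k_i) / (j - i)` -/
def b : ℕ → List ℤ → ℚ
  | 0, l => if l = [] then 1 else 0
  | n + 1, l => D l (fun m => S m (b n))

theorem b_anti : ∀ n : ℕ, Anti (b n)
  | 0 => by
    intro u x y v
    simp [b]
  | n + 1 => (b_anti n).S.D

/-- the monotone triangle polynomial -/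
def al (n : ℕ) (w : List ℤ) : ℚ := T w (b n)

/-- the antiderivative -/
def alb (n : ℕ) (w : List ℤ) : ℚ := T w (fun l => S l (b n))

theorem al_succ (n : ℕ) (w : List ℤ) : al (n + 1) w = D' w (alb n) := by
  unfold al alb
  exact T_D w _

theorem Dl_alb (n : ℕ) (w : List ℤ) : Dl w (alb n) = al n w := by
  unfold al alb
  rw [← T_Dl]
  congr 1
  funext l
  rw [Dl_S]

theorem al_rel (n : ℕ) : Rel (al n) := Rel_T (b_anti n)
theorem al_cub (n : ℕ) : Cub (al n) := Cub_T (b_anti n)
theorem al_ser (n : ℕ) : Ser (al n) := Ser_T (b_anti n)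
theorem alb_rel (n : ℕ) : Rel (alb n) := Rel_T (b_anti n).S

/-- the relation for two equal neighbours -/
def Diag (F : List ℤ → ℚ) : Prop :=
  ∀ (u : List ℤ) (x : ℤ) (v : List ℤ),
    F (u ++ x :: (x + 1) :: v) = F (u ++ x :: x :: v) + F (u ++ (x + 1) :: (x + 1) :: v)

theorem Rel.diag {F : List ℤ → ℚ} (h : Rel F) : Diag F := by
  intro u x v
  have := h u x x v
  linarith

theorem Diag.cons {F : List ℤ → ℚ} (h : Diag F) (z : ℤ) : Diag (fun l => F (z :: l)) :=
  fun u x v => h (z :: u) x v

/-- generalised summation of `A` over the rows above the row `x :: r` -/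
def gs : List ℤ → ℤ → (List ℤ → ℚ) → ℚ
  | [], _, A => A []
  | y :: r, x, A => ss y (fun l => gs r y (fun m => A (l :: m))) -
      ss x (fun l => gs r y (fun m => A (l :: m))) + gs r (y + 1) (fun m => A (y :: m))

theorem gs_Dl (r : List ℤ) : ∀ (x : ℤ) (F : List ℤ → ℚ), Diag F →
    gs r x (fun l => Dl l F) = D' (x :: r) F := by
  induction r with
  | nil => intro x F _; simp [gs, D', Dl]
  | cons y r ih =>
    intro x F hF
    simp only [gs, Dl]
    have h1 : ∀ (y' l : ℤ), gs r y' (fun m => Dl m (fun m => F ((l + 1) :: m) - F (l :: m))) =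
        D' (y' :: r) (fun m => F ((l + 1) :: m)) - D' (y' :: r) (fun m => F (l :: m)) := by
      intro y' l
      rw [ih, D'_sub]
      intro u x v
      have h2 := hF.cons (l + 1) u x v
      have h3 := hF.cons l u x v
      simp only at h2 h3 ⊢
      rw [h2, h3]; ring
    simp only [h1]
    rw [ss_tel y (fun l => D' (y :: r) (fun m => F (l :: m))),
      ss_tel x (fun l => D' (y :: r) (fun m => F (l :: m)))]
    simp only [D', List.map_cons]
    have h4 : D' r (fun m => F (y :: (y + 1) :: m)) = D' r (fun m => F (y :: y :: m)) +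
        D' r (fun m => F ((y + 1) :: (y + 1) :: m)) := by
      rw [← D'_add]
      congr 1
      funext m
      exact hF [] y m
    rw [h4]
    ring

/-- the recursion for the monotone triangle polynomial -/
theorem al_gs (n : ℕ) (x : ℤ) (r : List ℤ) : al (n + 1) (x :: r) = gs r x (al n) := by
  rw [al_succ, ← gs_Dl r x _ (alb_rel n).diag]
  congr 1
  funext l
  rw [Dl_alb]

end Pool.Agent.Q258.MT
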