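import Pool.Agent.Q258.MT.Ref5

set_option autoImplicit false

/-!
The row `1, ..., k - 3, k - 1, k, k - 1, k, k + 1, ..., n`.
-/

noncomputable section

namespace Pool.Agent.Q258.MT

open Finset

/-- the rows above without the first letter -/
def G (x : ℤ) (a : WA) : WA := d (X x * a) - X x * d a

theorem d_X_mul (x : ℤ) (a : WA) : d (X x * a) = G x a + X x * d a := by unfold G; abel

theorem G_one (x : ℤ) : G x 1 = 1 := by
  unfold G
  rw [mul_one, d_X, d_one, mul_zero, sub_zero]

theorem G_step1 (x : ℤ) (a : WA) : G x (X (x + 1) * a) = X (x + 1) * G (x + 1) a := by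
  unfold G
  rw [← mul_assoc, d_left, sgm_succ, sgm_self]
  noncomm_ring

theorem G_step2 (x : ℤ) (a : WA) : G x (X (x + 1 + 1) * a) =
    X (x + 1) * d (X (x + 1 + 1) * a) + X (x + 1 + 1) * G (x + 1 + 1) a := by
  unfold G
  rw [← mul_assoc, d_left, sgm_succ, sgm_succ, sgm_self]
  noncomm_ring

theorem G_S1 (m : ℕ) : ∀ x : ℤ, G x (S1 (x + 1) m) = S1 (x + 1) m := by
  induction m with
  | zero => intro x; rw [S1_zero, G_one]
  | succ m ih => intro x; rw [S1_succ, G_step1, ih]

theorem d_S1 (m : ℕ) : ∀ y : ℤ, d (S1 y (m + 1)) = ∑ q ∈ range (m + 1), W (del y (m + 1) q) := by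
  induction m with
  | zero => intro y; rw [S1_succ, S1_zero, mul_one, d_X]; simp [del, up, W_nil]
  | succ m ih =>
    intro y
    rw [S1_succ, d_X_mul, G_S1, ih, Finset.sum_range_succ' _ (m + 1), Finset.mul_sum, add_comm]
    rfl

/-- the row with one entry deleted -/
theorem G_del (j : ℕ) : ∀ (x : ℤ) (m : ℕ), j ≤ m →
    G x (W (del (x + 1) (m + 1) j)) = ∑ q ∈ Ico j (m + 1), W (del (x + 1) (m + 1) q) := by
  induction j with
  | zero =>
    intro x m _
    cases m with
    | zero =>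
      simp [del, up, W_nil, G_one]
    | succ m =>
      have h1 : W (del (x + 1) (m + 1 + 1) 0) = X (x + 1 + 1) * S1 (x + 1 + 1 + 1) m := rfl
      rw [h1, G_step2, G_S1, ← S1_succ, d_S1, ← Finset.range_eq_Ico, Finset.sum_range_succ' _ (m + 1),
        Finset.mul_sum]
      rfl
  | succ j ih =>
    intro x m hj
    obtain ⟨m, rfl⟩ : ∃ m', m = m' + 1 := ⟨m - 1, by omega⟩
    have h1 : W (del (x + 1) (m + 1 + 1) (j + 1)) = X (x + 1) * W (del (x + 1 + 1) (m + 1) j) := rfl
    rw [h1, G_step1, ih (x + 1) m (by omega), Finset.mul_sum,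
      ← Finset.sum_Ico_add' (fun q => W (del (x + 1) (m + 1 + 1) q)) j (m + 1) 1]
    rfl

theorem ring4 {R : Type*} [Ring R] (a c : R) (h1 : a * c = a * a + c * c) (h2 : a * a * a = 0)
    (h3 : c * c * c = 0) : a * c * (a * c) = c * c * (a * a) + a * a * (c * c) := by
  have : a * c * (a * c) = (a * a + c * c) * (a * a + c * c) := by rw [← h1]
  rw [this]
  have e1 : a * a * (a * a) = (a * a * a) * a := by noncomm_ring
  have e2 : c * c * (c * c) = (c * c * c) * c := by noncomm_ring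
  have : (a * a + c * c) * (a * a + c * c) = a * a * (a * a) + c * c * (c * c) + (c * c * (a * a) + a * a * (c * c)) := by
    noncomm_ring
  rw [this, e1, e2, h2, h3]
  simp

theorem aacc (x : ℤ) : X x * X x * (X (x + 1) * X (x + 1)) = 0 := by
  have h := dbl_mv_X x
  have e1 : X x * X x * (X (x + 1) * X (x + 1)) = X x * (X x * X (x + 1) * X (x + 1)) := by noncomm_ring
  have e2 : X x * (X x * X x * X (x + 1)) = X x * X x * X x * X (x + 1) := by noncomm_ring
  rw [e1, h, e2, cube, zero_mul]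

/-- `x (x+1) x (x+1)` -/
theorem word4 (x : ℤ) : X x * X (x + 1) * (X x * X (x + 1)) = X (x + 1) * X (x + 1) * (X x * X x) := by
  rw [ring4 _ _ (diag x) (cube x) (cube (x + 1)), aacc, add_zero]

/-- the rows above `x (x+1) x (x+1) a` -/
theorem d_word4 (x : ℤ) (a : WA) : d (X x * X (x + 1) * (X x * X (x + 1)) * a) =
    X x * X x * X (x + 1) * G (x + 1) a := by
  have h1 : d (X x * X (x + 1) * (X x * (X (x + 1) * a))) =
      (X x + X (x + 1)) * (- (X x * X x * d (X (x + 1) * a))) -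
        X (x + 1) * X (x + 1) * ((X x + X (x + 1)) * d (X (x + 1) * a) - X (x + 1) * X (x + 1) * d a) := by
    rw [d_left x (x + 1) (X x * (X (x + 1) * a)), ← mul_assoc (X (x + 1)) (X x), d_left (x + 1) x (X (x + 1) * a),
      ← mul_assoc (X x) (X (x + 1)), d_left x (x + 1) a, sgm_succ, sgm_self, sgm_succ_left, sgm_self, sub_self]
    noncomm_ring
  have h2 : X x * X (x + 1) * (X x * X (x + 1)) * a = X x * X (x + 1) * (X x * (X (x + 1) * a)) := by noncomm_ring
  rw [h2, h1, d_X_mul]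
  have c1 := cub2 (x + 1) x
  have c2 : X x * X (x + 1) * X x = X (x + 1) * X (x + 1) * X x := by
    have := congrArg (fun t => t * X x) (diag x)
    simp only [add_mul] at this
    rw [this, cube, zero_add]
  have c3 : X x * X x * X (x + 1) = - (X (x + 1) * (X x * X x)) - X (x + 1) * X (x + 1) * X x := by
    rw [← c2]
    have : X x * X x * X (x + 1) = (X (x + 1) * X x * X x + X x * X (x + 1) * X x + X x * X x * X (x + 1)) -
      (X (x + 1) * X x * X x + X x * X (x + 1) * X x) := by abel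
    rw [this, c1]
    noncomm_ring
  have c4 : X x * X x * X (x + 1) * X (x + 1) = 0 := by
    have := aacc x
    rw [← mul_assoc] at this
    exact this
  have e : (X x + X (x + 1)) * (- (X x * X x * (G (x + 1) a + X (x + 1) * d a))) -
        X (x + 1) * X (x + 1) * ((X x + X (x + 1)) * (G (x + 1) a + X (x + 1) * d a) -
          X (x + 1) * X (x + 1) * d a) =
      - (X x * X x * X x) * (G (x + 1) a + X (x + 1) * d a) -
      (X (x + 1) * X (x + 1) * X (x + 1)) * (G (x + 1) a + X (x + 1) * d a - X (x + 1) * d a) +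
      (- (X (x + 1) * (X x * X x)) - X (x + 1) * X (x + 1) * X x) * (G (x + 1) a + X (x + 1) * d a) := by
    noncomm_ring
  have e2 : X x * X x * X (x + 1) * (G (x + 1) a + X (x + 1) * d a) =
      X x * X x * X (x + 1) * G (x + 1) a + X x * X x * X (x + 1) * X (x + 1) * d a := by noncomm_ring
  rw [e, cube, cube, ← c3, e2, c4]
  simp

theorem ring5 {R : Type*} [Ring R] (a b c : R) (z1 : a * b - a * a - b * b = 0) (z2 : b * c - b * b - c * c = 0)
    (z3 : a * c - (a * a + b * b + c * c + b * a + c * b) = 0) (ha : a * a * a = 0) (hb : b * b * b = 0)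
    (hc : c * c * c = 0) (k1 : b * a * a + a * b * a + a * a * b = 0) (k2 : b * c * c + c * b * c + c * c * b = 0)
    (k3 : c * b * b + b * c * b + b * b * c = 0) :
    c * c * (b * b) = a * c * (b * c) + b * b * (a * a) := by
  rw [← sub_eq_zero]
  have key : c * c * (b * b) - (a * c * (b * c) + b * b * (a * a)) =
      -((a * c - (a * a + b * b + c * c + b * a + c * b)) * (b * c) + a * a * (b * c - b * b - c * c) +
        a * (a * b - a * a - b * b) * b + a * a * a * b + a * (b * b * b) + b * b * b * c + b * b * b * c +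
        b * (a * b - a * a - b * b) * c + c * (b * c * c + c * b * c + c * c * b) - c * c * c * b +
        c * b * (b * c - b * b - c * c) + c * (b * b * b)) -
      ((b * a * a + a * b * a + a * a * b) * c - (a * b - a * a - b * b) * (a * c) - a * a * a * c - a * a * a * c -
        a * (a * b - a * a - b * b) * c - (a * b - a * a - b * b) * (c * c) - b * (b * c - b * b - c * c) * c -
        b * b * b * c - b * (c * c * c) - a * b * (b * c - b * b - c * c) - a * (b * b * b) -
        b * b * (a * c - (a * a + b * b + c * c + b * a + c * b)) - b * (b * c - b * b - c * c) * c -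
        b * (c * c * c) - b * b * b * a - b * (c * b * b + b * c * b + b * b * c) +
        (b * c - b * b - c * c) * (b * b)) := by
    noncomm_ring
  rw [key, z1, z2, z3, ha, hb, hc, k1, k2, k3]
  simp

/-- the local identity -/
theorem word4_succ (x : ℤ) : X (x + 1 + 1) * X (x + 1 + 1) * (X (x + 1) * X (x + 1)) =
    X x * X (x + 1 + 1) * (X (x + 1) * X (x + 1 + 1)) + X (x + 1) * X (x + 1) * (X x * X x) := by
  have z1 : X x * X (x + 1) - X x * X x - X (x + 1) * X (x + 1) = 0 := by rw [diag]; abel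
  have z2 : X (x + 1) * X (x + 1 + 1) - X (x + 1) * X (x + 1) - X (x + 1 + 1) * X (x + 1 + 1) = 0 := by
    rw [diag]; abel
  have z3 := sub_eq_zero.mpr (r02 x)
  exact ring5 _ _ _ z1 z2 z3 (cube x) (cube (x + 1)) (cube (x + 1 + 1)) (cub2 (x + 1) x)
    (cub2 (x + 1) (x + 1 + 1)) (cub2 (x + 1 + 1) (x + 1))

theorem al_one_del (n j : ℕ) (hj : j ≤ n) :
    al (n + 1) (1 :: del 1 (n + 1) j) = ∑ p ∈ Ico j (n + 1), Bn n p := by
  rw [al_gs, gs_del j n 1 _ hj]
  rfl

theorem block_value (i m : ℕ) : evn (i + m + 4) (S1 1 i * W (dbl (1 + i) 2) * S1 (1 + i + 3) m) =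
    ∑ q ∈ Ico i (i + m + 1), ∑ p ∈ Ico (q + 2) (i + m + 3), Bn (i + m + 2) p := by
  have h1 := dbl_mv 2 i 0
  rw [S1_zero, mul_one, add_zero, kn] at h1
  have h2 : S1 1 2 = X 1 * X (1 + 1) := by rw [S1_succ, S1_succ, S1_zero, mul_one]
  have h3 : S1 1 (i + 2) = X 1 * X (1 + 1) * S1 (1 + 1 + 1) i := by
    rw [S1_succ, S1_succ, mul_assoc]
  have h4 : S1 (1 + 1 + 1) i * S1 (1 + i + 3) m = W (del (1 + 1 + 1) (i + m + 1) i) := by
    rw [del_eq i _ (i + m) (by omega), W_append]
    have e1 : i + m - i = m := by omega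
    have e2 : (1 : ℤ) + i + 3 = 1 + 1 + 1 + i + 1 := by ring
    rw [e1, e2]
    rfl
  have h5 : S1 1 i * W (dbl (1 + i) 2) * S1 (1 + i + 3) m =
      X 1 * X (1 + 1) * (X 1 * X (1 + 1)) * W (del (1 + 1 + 1) (i + m + 1) i) := by
    rw [h1, h2, h3, ← h4]
    noncomm_ring
  rw [h5]
  show evn (i + m + 3 + 1) _ = _
  rw [evn_succ, d_word4, G_del i (1 + 1) (i + m) (by omega), Finset.mul_sum, map_sum]
  apply Finset.sum_congr rfl
  intro q hq
  rw [Finset.mem_Ico] at hq
  have h6 : X 1 * X 1 * X (1 + 1) * W (del (1 + 1 + 1) (i + m + 1) q) =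
      W (1 :: del 1 (i + m + 2 + 1) (q + 2)) := by
    simp only [del, W_cons]
    noncomm_ring
  rw [h6, evn_W]
  exact al_one_del (i + m + 2) (q + 2) (by omega)

/-- the value at the row -/
theorem Tk_value (i m : ℕ) :
    al (i + m + 4) (up 1 i ++ (1 + (i : ℤ) + 1) :: (1 + (i : ℤ) + 1 + 1) :: (1 + (i : ℤ) + 1) ::
      (1 + (i : ℤ) + 1 + 1) :: up (1 + i + 3) m) =
      ∑ p ∈ range (i + 1), ((i : ℚ) + 1 - p) * Bn (i + m + 2) p := by
  have h1 : W (up 1 i ++ (1 + (i : ℤ) + 1) :: (1 + (i : ℤ) + 1 + 1) :: (1 + (i : ℤ) + 1) ::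
      (1 + (i : ℤ) + 1 + 1) :: up (1 + i + 3) m) =
      W (up 1 (i + 1) ++ (1 + ((i + 1 : ℕ) : ℤ) + 1) :: up (1 + ((i + 1 : ℕ) : ℤ)) (m + 2)) +
      S1 1 i * W (dbl (1 + i) 2) * S1 (1 + i + 3) m := by
    have e0 : (1 : ℤ) + ((i + 1 : ℕ) : ℤ) = 1 + i + 1 := by push_cast; ring
    rw [e0, up_snoc]
    simp only [dbl, up, W_append, W_cons, W_nil, mul_one]
    have e1 : (1 : ℤ) + i + ((1 : ℕ) : ℤ) = 1 + i + 1 := by push_cast; ring
    have e2 : (1 : ℤ) + i + ((0 : ℕ) : ℤ) = 1 + i := by push_cast; ring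
    have e3 : (1 : ℤ) + i + 1 + 1 + 1 = 1 + i + 3 := by ring
    rw [e1, e2, e3]
    have h2 := word4 (1 + (i : ℤ) + 1)
    have h3 := word4_succ (1 + (i : ℤ))
    rw [h3] at h2
    have h4 : W (up 1 i) * (X (1 + i + 1) * (X (1 + i + 1 + 1) * (X (1 + i + 1) * (X (1 + i + 1 + 1) *
        W (up (1 + i + 3) m))))) = W (up 1 i) * (X (1 + i + 1) * X (1 + i + 1 + 1) *
        (X (1 + i + 1) * X (1 + i + 1 + 1))) * W (up (1 + i + 3) m) := by noncomm_ring
    rw [h4, h2, S1, S1]
    noncomm_ring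
  rw [← evn_W, h1, map_add, evn_W, block_value]
  have h2 := hole_value (i + 1) m (i + m + 2) (by ring)
  rw [h2]
  have h3 : ∑ q ∈ Ico i (i + m + 1), ∑ p ∈ Ico (q + 2) (i + m + 3), Bn (i + m + 2) p =
      ∑ p ∈ range (i + m + 3), ((p - (i + 1) : ℕ) : ℚ) * Bn (i + m + 2) p := by
    rw [Finset.sum_comm' (t' := range (i + m + 3)) (s' := fun p => Ico i (p - 1)) (by
      intro x y
      simp only [Finset.mem_Ico, Finset.mem_range]
      omega)]
    apply Finset.sum_congr rfl
    intro p _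
    rw [Finset.sum_const, Nat.card_Ico, nsmul_eq_mul]
    congr 2
    omega
  rw [h3, ← Finset.sum_add_distrib]
  have h4 : ∑ p ∈ range (i + 1), ((i : ℚ) + 1 - p) * Bn (i + m + 2) p =
      ∑ p ∈ range (i + m + 2 + 1), if p ≤ i then ((i : ℚ) + 1 - p) * Bn (i + m + 2) p else 0 :=
    (Ref.sum_ite_le (i + m + 2) i (by omega) _).symm
  rw [h4]
  apply Finset.sum_congr rfl
  intro p _
  have h5 : al (i + m + 2) (del 1 (i + m + 2 + 1) p) = Bn (i + m + 2) p := rfl
  rw [h5]
  split_ifs with h6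
  · have : p - (i + 1) = 0 := by omega
    rw [this]
    push_cast
    ring
  · have : ((p - (i + 1) : ℕ) : ℚ) = (p : ℚ) - (i + 1) := by
      rw [Nat.cast_sub (by omega)]
      push_cast
      ring
    rw [this]
    push_cast
    ring

end Pool.Agent.Q258.MT
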