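import Pool.Agent.Q258.MT.AsmAll
import Pool.Agent.Q258.MT.Alg11

set_option autoImplicit false

/-!
Alternating sign matrices with a given first column.
-/

noncomputable section

namespace Pool.Agent.Q258.MT

open Finset

/-- the value of the monotone triangle polynomial with `m` rows -/
def evn (m : ℕ) : WA →ₗ[ℚ] ℚ := evq (b m) (b_anti m)

theorem evn_W (m : ℕ) (w : List ℤ) : evn m (W w) = al m w := by
  unfold evn al
  rw [evq_W]

theorem nx_evq (w : List ℤ) (f : List ℤ → ℚ) (hf : Anti f) :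
    evq f hf (d (W w)) = nx w (fun m => T m f) := by
  rw [d_W]
  cases w with
  | nil => simp [nxA, nx]
  | cons y r => rw [nxA, evq_gsA]; rfl

/-- a linear functional at the rows above -/
theorem nx_lin (φ : WA →ₗ[ℚ] ℚ) (w : List ℤ) (f : List ℤ → ℚ) (hf : Anti f) (c : WA)
    (h : ∀ a, φ a = evq f hf (c * a)) : nx w (fun m => φ (W m)) = φ (d (W w)) := by
  obtain ⟨c', rfl⟩ := mkA_surj c
  have h1 : ∀ a, evq f hf (mkA c' * a) = evq (MulOpposite.unop (rhoL c') f) (rhoL_anti c' hf) a := by
    intro a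
    obtain ⟨a', rfl⟩ := mkA_surj a
    rw [← mkA_mul, evq_mk, evq_mk, ev_mul]
  rw [h, h1, nx_evq]
  congr 1
  funext m
  rw [h, h1, evq_W]

theorem evn_succ (m : ℕ) (a : WA) : evn (m + 1) a = evn m (d a) := by
  induction a using W_induction with
  | h1 w =>
    rw [evn_W, al_nx]
    have := nx_evq w (b m) (b_anti m)
    unfold evn
    rw [this]
    rfl
  | h2 a b ha hb => rw [map_add, map_add, map_add, ha, hb]
  | h3 c a ha => rw [map_smul, map_smul, map_smul, ha]

theorem Rf_Sg (c : WA) : Rf (Sg c) = Sg (Rf c) := by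
  induction c using W_induction with
  | h1 w => rw [Sg_W, map_smul, Rf_W, Sg_W, rl_length]
  | h2 a b ha hb => simp only [map_add, ha, hb]
  | h3 r a ha => simp only [map_smul, ha]

/-- rows above with a given first letter -/
theorem d_M_mul (c a : WA) : d (M c * a) = c * d a := by
  have h1 : M c = M' (L (Sg c)) := by rw [M'_L, ← Sg_M, Sg_Sg]
  rw [h1, d_M'_mul, Rf_L, Ls_eq, L_Li, Rf_Sg, Rf_Rf, Sg_Sg]

theorem evn_M_mul (m : ℕ) (c a : WA) : evn (m + 1) (M c * a) = evn m (c * d a) := by
  rw [evn_succ, d_M_mul]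

/-- the number of the partial alternating sign matrices, by a property of the remaining rows -/
theorem good_card_succ (m : ℕ) {N : ℕ} (s : Fin N → Bool) (P : Good (m + 1) s → Prop)
    (Q : (s' : Fin N → Bool) → Good m s' → Prop)
    (h : ∀ a, P a ↔ Q (goodEquiv m s a).1.1 (goodEquiv m s a).2) :
    (Nat.card {a : Good (m + 1) s // P a} : ℚ) =
      rho 0 s (fun s' => (Nat.card {a : Good m s' // Q s' a} : ℚ)) := by
  classical
  have hfin := good_finite m (N := N)
  let e1 : {a : Good (m + 1) s // P a} ≃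
      {x : (Σ s' : {s' : Fin N → Bool // ps 0 (List.ofFn fun i => bv (s i) - bv (s' i))}, Good m s'.1) //
        Q x.1.1 x.2} := Equiv.subtypeEquiv (goodEquiv m s) h
  let e2 : {x : (Σ s' : {s' : Fin N → Bool // ps 0 (List.ofFn fun i => bv (s i) - bv (s' i))}, Good m s'.1) //
        Q x.1.1 x.2} ≃
      Σ s' : {s' : Fin N → Bool // ps 0 (List.ofFn fun i => bv (s i) - bv (s' i))},
        {a : Good m s'.1 // Q s'.1 a} :=
    { toFun := fun x => ⟨x.1.1, ⟨x.1.2, x.2⟩⟩
      invFun := fun x => ⟨⟨x.1, x.2.1⟩, x.2.2⟩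
      left_inv := fun _ => rfl
      right_inv := fun _ => rfl }
  rw [Nat.card_congr (e1.trans e2), Nat.card_sigma]
  push_cast
  unfold rho
  rw [← Finset.sum_filter, Finset.sum_subtype (p := fun s' : Fin N → Bool =>
    ps 0 (List.ofFn fun i => bv (s i) - bv (s' i))) _ (by simp)]

/-- the entries of the first column are `0` or `1` -/
theorem good_first {m N : ℕ} {s : Fin (N + 1) → Bool} (a : Good m s) (i : Fin m) : a.1 i 0 = 0 ∨ a.1 i 0 = 1 := by
  have h := a.2.1 i
  rw [List.ofFn_succ] at h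
  have h2 := ps_bit h.2
  simpa using h2

theorem cs_sum (l : List ℤ) : ∀ t : ℤ, cs l t → l.sum = t := by
  induction l with
  | nil => intro t h; exact h.symm
  | cons x l ih =>
    intro t h
    have := ih _ h.2
    simp only [List.sum_cons]
    linarith

theorem good_first_sum {m N : ℕ} {s : Fin (N + 1) → Bool} (a : Good m s) : ∑ i, a.1 i 0 = bv (s 0) := by
  have h := cs_sum _ _ (a.2.2 0)
  rwa [List.sum_ofFn] at h

theorem good_first_false {m N : ℕ} {s : Fin (N + 1) → Bool} (a : Good m s) (hs : s 0 = false) (i : Fin m) :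
    a.1 i 0 = 0 := by
  have h := good_first_sum a
  rw [hs] at h
  have h2 : ∀ i ∈ Finset.univ, a.1 i 0 = 0 := (Finset.sum_eq_zero_iff_of_nonneg (fun i _ => by
    rcases good_first a i with h | h
    · rw [h]
    · rw [h]; norm_num)).mp (by rw [h]; rfl)
  exact h2 i (Finset.mem_univ i)

/-- the number of the partial alternating sign matrices whose first column has its `1` in row `k` -/
theorem good_col (k : ℕ) : ∀ (m : ℕ) {N : ℕ} (s : Fin (N + 1) → Bool) (_ : s 0 = true) (hk : k < m),
    (Nat.card {a : Good m s // a.1 ⟨k, hk⟩ 0 = 1} : ℚ) =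
      evn m (M^[k] (X 2) * W (tl 2 (List.ofFn fun i => s (Fin.succ i)))) := by
  classical
  induction k with
  | zero =>
    intro m N s hs hk
    obtain ⟨m, rfl⟩ : ∃ m', m = m' + 1 := ⟨m - 1, by omega⟩
    have h1 := good_card_succ m s (fun a => a.1 ⟨0, hk⟩ 0 = 1) (fun s' _ => s' 0 = false) (by
      intro a
      have h2 := a.2.2 0
      rw [List.ofFn_succ] at h2
      have h3 := cs_bit h2.2
      show a.1 0 0 = 1 ↔ decide (bv (s 0) - a.1 0 0 = 1) = false
      rw [hs] at h3 ⊢
      have h4 : bv true = 1 := rfl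
      rw [h4] at h3 ⊢
      rw [decide_eq_false_iff_not]
      omega)
    rw [h1, rho_cons 0 (Or.inl rfl), hs]
    have h5 : ∀ s' : Fin N → Bool, (Nat.card {a : Good m (Fin.cons true s' : Fin (N + 1) → Bool) //
        (Fin.cons true s' : Fin (N + 1) → Bool) 0 = false} : ℚ) = 0 := by
      intro s'
      have : IsEmpty {a : Good m (Fin.cons true s' : Fin (N + 1) → Bool) //
        (Fin.cons true s' : Fin (N + 1) → Bool) 0 = false} := ⟨fun x => by simpa using x.2⟩
      rw [Nat.card_of_isEmpty]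
      norm_num
    have h6 : ∀ s' : Fin N → Bool, (Nat.card {a : Good m (Fin.cons false s' : Fin (N + 1) → Bool) //
        (Fin.cons false s' : Fin (N + 1) → Bool) 0 = false} : ℚ) = al m (tl 2 (List.ofFn s')) := by
      intro s'
      have e : {a : Good m (Fin.cons false s' : Fin (N + 1) → Bool) //
        (Fin.cons false s' : Fin (N + 1) → Bool) 0 = false} ≃ Good m (Fin.cons false s' : Fin (N + 1) → Bool) :=
        Equiv.subtypeUnivEquiv (fun _ => by simp)
      rw [Nat.card_congr e, good_card, List.ofFn_succ]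
      simp only [Fin.cons_zero, Fin.cons_succ, tl]
      norm_num
    simp only [h5, h6]
    have h7 : (0 : ℤ) + bv true = 1 := rfl
    have h8 : ∀ st : ℤ, rho st (fun i : Fin N => s i.succ) (fun _ => (0 : ℚ)) = 0 := by
      intro st
      unfold rho
      simp
    rw [h8, h7, zero_add, (rho_eq N 2 (fun i : Fin N => s i.succ) (al m)).1]
    show _ = evn (m + 1) (X 2 * W _)
    rw [← W_cons, evn_W, al_gs]
  | succ k ih =>
    intro m N s hs hk
    obtain ⟨m, rfl⟩ : ∃ m', m = m' + 1 := ⟨m - 1, by omega⟩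
    have hk' : k < m := by omega
    have h1 := good_card_succ m s (fun a => a.1 ⟨k + 1, hk⟩ 0 = 1) (fun s' a => a.1 ⟨k, hk'⟩ 0 = 1) (by
      intro a
      rfl)
    rw [h1, rho_cons 0 (Or.inl rfl), hs]
    have h5 : ∀ s' : Fin N → Bool, (Nat.card {a : Good m (Fin.cons true s' : Fin (N + 1) → Bool) //
        a.1 ⟨k, hk'⟩ 0 = 1} : ℚ) = evn m (M^[k] (X 2) * W (tl 2 (List.ofFn s'))) := by
      intro s'
      rw [ih m (Fin.cons true s' : Fin (N + 1) → Bool) (by simp) hk']
      simp only [Fin.cons_succ]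
    have h6 : ∀ s' : Fin N → Bool, (Nat.card {a : Good m (Fin.cons false s' : Fin (N + 1) → Bool) //
        a.1 ⟨k, hk'⟩ 0 = 1} : ℚ) = 0 := by
      intro s'
      have : IsEmpty {a : Good m (Fin.cons false s' : Fin (N + 1) → Bool) // a.1 ⟨k, hk'⟩ 0 = 1} :=
        ⟨fun x => by
          have h7 := good_first_false x.1 (by simp) ⟨k, hk'⟩
          have h8 := x.2
          rw [h7] at h8
          exact zero_ne_one h8⟩
      rw [Nat.card_of_isEmpty]
      norm_num
    simp only [h5, h6]
    have h8 : ∀ st : ℤ, rho st (fun i : Fin N => s i.succ) (fun _ => (0 : ℚ)) = 0 := by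
      intro st
      unfold rho
      simp
    have h9 : (0 : ℤ) + bv true - 1 = 0 := rfl
    rw [h8, h9, add_zero, (rho_eq N 2 (fun i : Fin N => s i.succ)
      (fun w => evn m (M^[k] (X 2) * W w))).2, Function.iterate_succ_apply', evn_M_mul]
    exact nx_lin (evn m ∘ₗ LinearMap.mulLeft ℚ (M^[k] (X 2))) _ (b m) (b_anti m) (M^[k] (X 2)) (fun a => rfl)

end Pool.Agent.Q258.MT
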