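import Mathlib

set_option autoImplicit false

/-!
A vector with two symmetries is proportional to the refined alternating sign matrix numbers.
-/

noncomputable section

namespace Pool.Agent.Q258.MT.Ref

open Polynomial Finset

/-- convolution of binomial coefficients -/
theorem conv (p r M : ℕ) : ∑ x ∈ antidiagonal M, ((p + x.1).choose p : ℚ) * ((r + x.2).choose r : ℚ) =
    ((p + r + 1 + M).choose (p + r + 1) : ℚ) := by
  have h := PowerSeries.invOneSubPow_add ℚ (p + 1) (r + 1)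
  have h2 := congrArg (fun u : (PowerSeries ℚ)ˣ => PowerSeries.coeff M u.val) h
  have e : p + 1 + (r + 1) = (p + r + 1) + 1 := by ring
  simp only [Units.val_mul] at h2
  rw [e, PowerSeries.invOneSubPow_val_succ_eq_mk_add_choose, PowerSeries.invOneSubPow_val_succ_eq_mk_add_choose,
    PowerSeries.invOneSubPow_val_succ_eq_mk_add_choose, PowerSeries.coeff_mul] at h2
  simp only [PowerSeries.coeff_mk] at h2
  exact h2.symm

theorem inner (n m i : ℕ) (hi : i ≤ m) (hm : m ≤ n) :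
    ∑ j ∈ Ico i (m + 1), ((n + j).choose (j - i) : ℚ) * ((n - j).choose (m - j) : ℚ) =
      ((2 * n + 1).choose (m - i) : ℚ) := by
  have h := conv (n + i) (n - m) (m - i)
  rw [Finset.Nat.sum_antidiagonal_eq_sum_range_succ
    (fun a c => ((n + i + a).choose (n + i) : ℚ) * ((n - m + c).choose (n - m) : ℚ))] at h
  have e : n + i + (n - m) + 1 + (m - i) = 2 * n + 1 := by omega
  have e2 : n + i + (n - m) + 1 = 2 * n + 1 - (m - i) := by omega
  rw [e, e2, Nat.choose_symm (by omega)] at h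
  rw [← h, Finset.sum_Ico_eq_sum_range, Nat.succ_eq_add_one]
  have e3 : m + 1 - i = m - i + 1 := by omega
  rw [e3]
  apply Finset.sum_congr rfl
  intro c hc
  rw [Finset.mem_range] at hc
  have a1 : (n + (i + c)).choose (i + c - i) = (n + i + c).choose (n + i) := by
    have : i + c - i = n + i + c - (n + i) := by omega
    rw [this, ← add_assoc, Nat.choose_symm (by omega)]
  have a2 : (n - (i + c)).choose (m - (i + c)) = (n - m + (m - i - c)).choose (n - m) := by
    have b1 : n - (i + c) = n - m + (m - i - c) := by omega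
    have b2 : m - (i + c) = n - m + (m - i - c) - (n - m) := by omega
    rw [b1, b2, Nat.choose_symm (by omega)]
  rw [a1, a2]

/-- the transformed relation -/
theorem relT (n : ℕ) (B : ℕ → ℚ)
    (hR : ∀ m ≤ n, B m = ∑ i ∈ range (m + 1), (-1) ^ i * ((n + m).choose (m - i) : ℚ) * B i)
    (m : ℕ) (hm : m ≤ n) :
    ∑ i ∈ range (m + 1), B i * ((n - i).choose (m - i) : ℚ) =
      ∑ i ∈ range (m + 1), (-1) ^ i * B i * ((2 * n + 1).choose (m - i) : ℚ) := by
  have h1 : ∑ j ∈ range (m + 1), B j * ((n - j).choose (m - j) : ℚ) =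
      ∑ j ∈ range (m + 1), ∑ i ∈ range (j + 1),
        (-1) ^ i * B i * (((n + j).choose (j - i) : ℚ) * ((n - j).choose (m - j) : ℚ)) := by
    apply Finset.sum_congr rfl
    intro j hj
    rw [Finset.mem_range] at hj
    rw [hR j (by omega), Finset.sum_mul]
    apply Finset.sum_congr rfl
    intro i _
    ring
  rw [h1, Finset.sum_comm' (t' := range (m + 1)) (s' := fun i => Ico i (m + 1))
    (by intro x y; simp only [Finset.mem_range, Finset.mem_Ico]; omega)]
  apply Finset.sum_congr rfl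
  intro i hi
  rw [Finset.mem_range] at hi
  rw [← Finset.mul_sum, inner n m i (by omega) hm]

theorem sum_ite_le (n m : ℕ) (hm : m ≤ n) (f : ℕ → ℚ) :
    ∑ i ∈ range (n + 1), (if i ≤ m then f i else 0) = ∑ i ∈ range (m + 1), f i := by
  rw [← Finset.sum_filter]
  apply Finset.sum_congr _ (fun _ _ => rfl)
  ext i
  simp only [Finset.mem_filter, Finset.mem_range]
  omega

/-- the remainder polynomial -/
def S (n : ℕ) (B : ℕ → ℚ) : ℚ[X] :=
  ∑ i ∈ range (n + 1), C (B i) * (X ^ i * (1 + X) ^ (n - i)) +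
    C ((-1) ^ n) * (X ^ (2 * n + 1) * ∑ i ∈ range (n + 1), C (B i) * (1 + X) ^ i) -
    ∑ i ∈ range (n + 1), C ((-1) ^ i * B i) * (X ^ i * (1 + X) ^ (2 * n + 1))

theorem S_coeff (n : ℕ) (B : ℕ → ℚ) (m : ℕ) : (S n B).coeff m =
    ∑ i ∈ range (n + 1), B i * (if i ≤ m then ((n - i).choose (m - i) : ℚ) else 0) +
      (-1) ^ n * (if 2 * n + 1 ≤ m then ∑ i ∈ range (n + 1), B i * (i.choose (m - (2 * n + 1)) : ℚ) else 0) -
      ∑ i ∈ range (n + 1), (-1) ^ i * B i * (if i ≤ m then ((2 * n + 1).choose (m - i) : ℚ) else 0) := by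
  unfold S
  rw [coeff_sub, coeff_add, finsetSum_coeff, finsetSum_coeff, coeff_C_mul, coeff_X_pow_mul', finsetSum_coeff]
  simp only [coeff_C_mul, coeff_X_pow_mul', coeff_one_add_X_pow]

theorem S_low (n : ℕ) (B : ℕ → ℚ)
    (hR : ∀ m ≤ n, B m = ∑ i ∈ range (m + 1), (-1) ^ i * ((n + m).choose (m - i) : ℚ) * B i)
    (m : ℕ) (hm : m ≤ n) : (S n B).coeff m = 0 := by
  rw [S_coeff, if_neg (by omega : ¬ 2 * n + 1 ≤ m)]
  simp only [mul_ite, mul_zero, add_zero]
  rw [sum_ite_le n m hm, sum_ite_le n m hm, relT n B hR m hm, sub_self]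

theorem S_high (n : ℕ) (B : ℕ → ℚ) (hpal : ∀ i ≤ n, B (n - i) = B i)
    (hR : ∀ m ≤ n, B m = ∑ i ∈ range (m + 1), (-1) ^ i * ((n + m).choose (m - i) : ℚ) * B i)
    (l : ℕ) : (S n B).coeff (2 * n + 1 + l) = 0 := by
  rw [S_coeff, if_pos (by omega : 2 * n + 1 ≤ 2 * n + 1 + l), Nat.add_sub_cancel_left]
  have h1 : ∑ i ∈ range (n + 1), B i *
      (if i ≤ 2 * n + 1 + l then ((n - i).choose (2 * n + 1 + l - i) : ℚ) else 0) = 0 := by
    apply Finset.sum_eq_zero
    intro i hi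
    rw [Finset.mem_range] at hi
    rw [if_pos (by omega), Nat.choose_eq_zero_of_lt (by omega), Nat.cast_zero, mul_zero]
  have h2 : ∑ i ∈ range (n + 1), B i * (i.choose l : ℚ) =
      ∑ i ∈ range (n + 1), B i * ((n - i).choose l : ℚ) := by
    rw [← Finset.sum_range_reflect]
    apply Finset.sum_congr rfl
    intro i hi
    rw [Finset.mem_range] at hi
    rw [Nat.add_sub_cancel, hpal i (by omega)]
  have h3 : ∑ i ∈ range (n + 1), (-1) ^ i * B i *
      (if i ≤ 2 * n + 1 + l then ((2 * n + 1).choose (2 * n + 1 + l - i) : ℚ) else 0) =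
      (-1) ^ n * ∑ i ∈ range (n + 1), (-1) ^ i * B i * ((2 * n + 1).choose (n + 1 + l + i) : ℚ) := by
    rw [← Finset.sum_range_reflect, Finset.mul_sum]
    apply Finset.sum_congr rfl
    intro i hi
    rw [Finset.mem_range] at hi
    rw [Nat.add_sub_cancel, hpal i (by omega), if_pos (by omega)]
    have e1 : 2 * n + 1 + l - (n - i) = n + 1 + l + i := by omega
    have e2 : (-1 : ℚ) ^ (n - i) = (-1) ^ n * (-1) ^ i := by
      have : (-1 : ℚ) ^ n = (-1) ^ (n - i) * (-1) ^ i := by rw [← pow_add]; congr 1; omega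
      rw [this, mul_assoc, ← mul_pow]
      norm_num
    rw [e1, e2]
    ring
  rw [h1, h2, h3, zero_add, ← mul_sub]
  by_cases hl : l ≤ n
  · have h4 : ∑ i ∈ range (n + 1), B i * ((n - i).choose l : ℚ) =
        ∑ i ∈ range (n - l + 1), B i * ((n - i).choose (n - l - i) : ℚ) := by
      rw [← sum_ite_le n (n - l) (by omega)]
      apply Finset.sum_congr rfl
      intro i hi
      rw [Finset.mem_range] at hi
      split_ifs with h
      · have : n - l - i = n - i - l := by omega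
        rw [this, Nat.choose_symm (by omega)]
      · rw [Nat.choose_eq_zero_of_lt (by omega), Nat.cast_zero, mul_zero]
    have h5 : ∑ i ∈ range (n + 1), (-1) ^ i * B i * ((2 * n + 1).choose (n + 1 + l + i) : ℚ) =
        ∑ i ∈ range (n - l + 1), (-1) ^ i * B i * ((2 * n + 1).choose (n - l - i) : ℚ) := by
      rw [← sum_ite_le n (n - l) (by omega)]
      apply Finset.sum_congr rfl
      intro i hi
      rw [Finset.mem_range] at hi
      split_ifs with h
      · have : n - l - i = 2 * n + 1 - (n + 1 + l + i) := by omega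
        rw [this, Nat.choose_symm (by omega)]
      · rw [Nat.choose_eq_zero_of_lt (by omega), Nat.cast_zero, mul_zero]
    rw [h4, h5, relT n B hR (n - l) (by omega), sub_self, mul_zero]
  · have h4 : ∑ i ∈ range (n + 1), B i * ((n - i).choose l : ℚ) = 0 := by
      apply Finset.sum_eq_zero
      intro i _
      rw [Nat.choose_eq_zero_of_lt (by omega), Nat.cast_zero, mul_zero]
    have h5 : ∑ i ∈ range (n + 1), (-1) ^ i * B i * ((2 * n + 1).choose (n + 1 + l + i) : ℚ) = 0 := by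
      apply Finset.sum_eq_zero
      intro i _
      rw [Nat.choose_eq_zero_of_lt (by omega), Nat.cast_zero, mul_zero]
    rw [h4, h5, sub_self, mul_zero]

theorem S_comp (n : ℕ) (B : ℕ → ℚ) (hpal : ∀ i ≤ n, B (n - i) = B i) :
    (S n B).comp (-1 - X) = C ((-1) ^ n) * S n B := by
  have hn1 : (1 : ℚ[X]) + (-1 - X) = -X := by ring
  have hn2 : (-1 - X : ℚ[X]) = -(1 + X) := by ring
  have hC : (C ((-1 : ℚ) ^ n) : ℚ[X]) = (-1) ^ n := by simp
  unfold S
  simp only [sub_comp, add_comp, mul_comp, C_comp, pow_comp, X_comp, one_comp, Polynomial.sum_comp]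
  rw [hn1, hn2, hC]
  have h1 : ∑ i ∈ range (n + 1), C (B i) * ((-(1 + X)) ^ i * (-X) ^ (n - i)) =
      (-1) ^ n * ∑ i ∈ range (n + 1), C (B i) * (X ^ i * (1 + X) ^ (n - i)) := by
    rw [← Finset.sum_range_reflect, Finset.mul_sum]
    apply Finset.sum_congr rfl
    intro i hi
    rw [Finset.mem_range] at hi
    rw [Nat.add_sub_cancel, hpal i (by omega)]
    have e1 : n - (n - i) = i := by omega
    have e2 : (-1 : ℚ[X]) ^ n = (-1) ^ (n - i) * (-1) ^ i := by rw [← pow_add]; congr 1; omega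
    rw [e1, e2, neg_pow (1 + X : ℚ[X]), neg_pow (X : ℚ[X])]
    ring
  have h2 : ∑ i ∈ range (n + 1), C (B i) * (-X) ^ i = ∑ i ∈ range (n + 1), C ((-1) ^ i * B i) * X ^ i := by
    apply Finset.sum_congr rfl
    intro i _
    rw [neg_pow (X : ℚ[X]), C_mul, C_pow, C_neg, C_1]
    ring
  have h3 : ∑ i ∈ range (n + 1), C ((-1) ^ i * B i) * ((-(1 + X)) ^ i * (-X) ^ (2 * n + 1)) =
      - (X ^ (2 * n + 1) * ∑ i ∈ range (n + 1), C (B i) * (1 + X) ^ i) := by
    rw [Finset.mul_sum, ← Finset.sum_neg_distrib]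
    apply Finset.sum_congr rfl
    intro i _
    rw [C_mul, C_pow, C_neg, C_1, neg_pow (1 + X : ℚ[X]), neg_pow (X : ℚ[X])]
    have e1 : (-1 : ℚ[X]) ^ (2 * n + 1) = -1 := by rw [pow_succ, pow_mul]; norm_num
    have e2 : (-1 : ℚ[X]) ^ i * (-1) ^ i = 1 := by rw [← mul_pow]; norm_num
    rw [e1]
    linear_combination (-(C (B i) * (1 + X) ^ i * X ^ (2 * n + 1))) * e2
  have h4 : ∑ i ∈ range (n + 1), C ((-1) ^ i * B i) * (X ^ i * (1 + X) ^ (2 * n + 1)) =
      (1 + X) ^ (2 * n + 1) * ∑ i ∈ range (n + 1), C ((-1) ^ i * B i) * X ^ i := by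
    rw [Finset.mul_sum]
    apply Finset.sum_congr rfl
    intro i _
    ring
  rw [h1, h2, h3, h4]
  have e1 : (-(1 + X) : ℚ[X]) ^ (2 * n + 1) = -(1 + X) ^ (2 * n + 1) := by
    rw [neg_pow, pow_succ (-1 : ℚ[X]), pow_mul]; norm_num
  have e3 : (-1 : ℚ[X]) ^ n * (-1) ^ n = 1 := by rw [← mul_pow]; norm_num
  rw [e1]
  linear_combination (-(X ^ (2 * n + 1) * ∑ i ∈ range (n + 1), C (B i) * (1 + X) ^ i)) * e3

theorem one_add_dvd {k : ℕ} {P : ℚ[X]} {c : ℚ} (hc : c ≠ 0) (h : X ^ k ∣ P) (hP : P.comp (-1 - X) = C c * P) :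
    (1 + X) ^ k ∣ P := by
  obtain ⟨T, hT⟩ := h
  have h1 : C c * P = (-(1 + X)) ^ k * T.comp (-1 - X) := by
    rw [← hP, hT, mul_comp, pow_comp, X_comp]
    congr 2
    ring
  have h2 : P = C c⁻¹ * (C c * P) := by
    rw [← mul_assoc, ← C_mul, inv_mul_cancel₀ hc, C_1, one_mul]
  rw [h2, h1, neg_pow (1 + X : ℚ[X])]
  exact ⟨C c⁻¹ * ((-1) ^ k * T.comp (-1 - X)), by ring⟩

theorem prod_dvd {k : ℕ} {P : ℚ[X]} (h1 : X ^ k ∣ P) (h2 : (1 + X) ^ k ∣ P) : X ^ k * (1 + X) ^ k ∣ P :=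
  IsCoprime.mul_dvd (IsCoprime.pow ⟨-1, 1, by ring⟩) h1 h2

theorem prod_natDegree (k : ℕ) : (X ^ k * (1 + X) ^ k : ℚ[X]).natDegree = 2 * k := by
  have h : (1 + X : ℚ[X]) = X + C 1 := by rw [C_1]; ring
  rw [h, (monic_X_pow k).natDegree_mul ((monic_X_add_C 1).pow k), natDegree_X_pow,
    (monic_X_add_C (1 : ℚ)).natDegree_pow, natDegree_X_add_C]
  ring

theorem S_zero (n : ℕ) (B : ℕ → ℚ) (hpal : ∀ i ≤ n, B (n - i) = B i)
    (hR : ∀ m ≤ n, B m = ∑ i ∈ range (m + 1), (-1) ^ i * ((n + m).choose (m - i) : ℚ) * B i) :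
    S n B = 0 := by
  have h1 : X ^ (n + 1) ∣ S n B := by
    rw [X_pow_dvd_iff]
    intro d hd
    exact S_low n B hR d (by omega)
  have h2 := one_add_dvd (pow_ne_zero n (by norm_num : (-1 : ℚ) ≠ 0)) h1 (S_comp n B hpal)
  apply eq_zero_of_dvd_of_natDegree_lt (prod_dvd h1 h2)
  rw [prod_natDegree]
  have h3 : (S n B).natDegree ≤ 2 * n := by
    rw [natDegree_le_iff_coeff_eq_zero]
    intro N hN
    obtain ⟨l, rfl⟩ : ∃ l, N = 2 * n + 1 + l := ⟨N - (2 * n + 1), by omega⟩
    exact S_high n B hpal hR l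
  omega

/-- the polynomial with the coefficients `B` in the basis `(1 + X)^i` -/
def R (n : ℕ) (B : ℕ → ℚ) : ℚ[X] := ∑ i ∈ range (n + 1), C (B i) * (1 + X) ^ i

theorem der_comp (k : ℕ) (u : ℚ[X]) :
    derivative^[k] (u.comp (-1 - X)) = C ((-1) ^ k) * (derivative^[k] u).comp (-1 - X) := by
  induction k generalizing u with
  | zero => simp
  | succ k ih =>
    rw [Function.iterate_succ_apply, Function.iterate_succ_apply, derivative_comp]
    have h : derivative (-1 - X : ℚ[X]) = -1 := by simp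
    rw [h]
    have h2 : (-1 : ℚ[X]) * (derivative u).comp (-1 - X) = ((- derivative u)).comp (-1 - X) := by
      rw [neg_comp]; ring
    rw [h2, ih]
    simp only [Polynomial.iterate_derivative_neg, neg_comp, pow_succ, C_mul, C_neg, C_1]
    ring

theorem R_coeff (n : ℕ) (B : ℕ → ℚ) (m : ℕ) : (R n B).coeff m = ∑ i ∈ range (n + 1), B i * (i.choose m : ℚ) := by
  unfold R
  rw [finsetSum_coeff]
  simp only [coeff_C_mul, coeff_one_add_X_pow]

theorem R_high (n : ℕ) (B : ℕ → ℚ) (m : ℕ) (h : n < m) : (R n B).coeff m = 0 := by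
  rw [R_coeff]
  apply Finset.sum_eq_zero
  intro i hi
  rw [Finset.mem_range] at hi
  rw [Nat.choose_eq_zero_of_lt (by omega), Nat.cast_zero, mul_zero]

theorem R_formula (n : ℕ) (B : ℕ → ℚ) (hpal : ∀ i ≤ n, B (n - i) = B i)
    (hR : ∀ m ≤ n, B m = ∑ i ∈ range (m + 1), (-1) ^ i * ((n + m).choose (m - i) : ℚ) * B i) :
    ∃ κ : ℚ, ∀ i, ((2 * n + 1 + i).descFactorial (n + 1) : ℚ) * (R n B).coeff i = κ * (n.choose i : ℚ) := by
  have hS := S_zero n B hpal hR
  set u : ℚ[X] := X ^ (2 * n + 1) * R n B with hu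
  have hq : ∑ i ∈ range (n + 1), C ((-1) ^ i * B i) * (X ^ i * (1 + X) ^ (2 * n + 1)) = - u.comp (-1 - X) := by
    rw [hu, R]
    simp only [add_comp, mul_comp, C_comp, pow_comp, X_comp, one_comp, Polynomial.sum_comp]
    have hn1 : (1 : ℚ[X]) + (-1 - X) = -X := by ring
    have hn2 : (-1 - X : ℚ[X]) = -(1 + X) := by ring
    rw [hn1, hn2, Finset.mul_sum, ← Finset.sum_neg_distrib]
    apply Finset.sum_congr rfl
    intro i _
    rw [C_mul, C_pow, C_neg, C_1, neg_pow (1 + X : ℚ[X]), neg_pow (X : ℚ[X])]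
    have e1 : (-1 : ℚ[X]) ^ (2 * n + 1) = -1 := by rw [pow_succ, pow_mul]; norm_num
    rw [e1]
    ring
  have h1 : ∑ i ∈ range (n + 1), C (B i) * (X ^ i * (1 + X) ^ (n - i)) + C ((-1) ^ n) * u + u.comp (-1 - X) = 0 := by
    have h := hS
    unfold S at h
    rw [hq] at h
    rw [← h, hu, R]
    ring
  have h2 : derivative^[n + 1] (∑ i ∈ range (n + 1), C (B i) * (X ^ i * (1 + X) ^ (n - i))) = 0 := by
    apply iterate_derivative_eq_zero
    rw [Nat.lt_succ_iff]
    apply natDegree_sum_le_of_forall_le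
    intro i hi
    rw [Finset.mem_range] at hi
    refine (natDegree_C_mul_le _ _).trans (natDegree_mul_le.trans ?_)
    have a1 : (X ^ i : ℚ[X]).natDegree = i := natDegree_X_pow i
    have a2 : ((1 + X) ^ (n - i) : ℚ[X]).natDegree ≤ n - i := by
      refine natDegree_pow_le.trans ?_
      have : (1 + X : ℚ[X]) = X + C 1 := by rw [C_1]; ring
      rw [this, natDegree_X_add_C, mul_one]
    omega
  set v : ℚ[X] := derivative^[n + 1] u with hv
  have h3 : v.comp (-1 - X) = C 1 * v := by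
    have h := congrArg (derivative^[n + 1]) h1
    rw [iterate_map_add, iterate_map_add, h2, iterate_derivative_C_mul, der_comp, ← hv,
      iterate_derivative_zero, zero_add, pow_succ, C_mul, C_neg, C_1] at h
    have h4 : C ((-1 : ℚ) ^ n) * (v - v.comp (-1 - X)) = 0 := by rw [← h]; ring
    have h5 : C ((-1 : ℚ) ^ n) ≠ 0 := by
      rw [Ne, C_eq_zero]
      exact pow_ne_zero _ (by norm_num)
    have h6 := (mul_eq_zero.mp h4).resolve_left h5
    rw [C_1, one_mul]
    exact (sub_eq_zero.mp h6).symm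
  have hvc : ∀ m, v.coeff m = ((m + (n + 1)).descFactorial (n + 1) : ℚ) * u.coeff (m + (n + 1)) := by
    intro m
    rw [hv, coeff_iterate_derivative, nsmul_eq_mul]
  have h4 : X ^ n ∣ v := by
    rw [X_pow_dvd_iff]
    intro m hm
    rw [hvc, hu, coeff_X_pow_mul', if_neg (by omega), mul_zero]
  have h5 := prod_dvd h4 (one_add_dvd one_ne_zero h4 h3)
  have h6 : v.natDegree ≤ 2 * n := by
    rw [natDegree_le_iff_coeff_eq_zero]
    intro m hm
    rw [hvc, hu, coeff_X_pow_mul', if_pos (by omega), R_high _ _ _ (by omega), mul_zero]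
  obtain ⟨w, hw⟩ := h5
  have h7 : ∃ κ : ℚ, w = C κ := by
    by_cases hw0 : w = 0
    · exact ⟨0, by rw [hw0, C_0]⟩
    · have hne : (X ^ n * (1 + X) ^ n : ℚ[X]) ≠ 0 := by
        have h : (1 + X : ℚ[X]) = X + C 1 := by rw [C_1]; ring
        rw [h]
        exact ((monic_X_pow n).mul ((monic_X_add_C 1).pow n)).ne_zero
      have h8 := natDegree_mul hne hw0
      rw [← hw, prod_natDegree] at h8
      exact ⟨w.coeff 0, eq_C_of_natDegree_eq_zero (by omega)⟩
  obtain ⟨κ, rfl⟩ := h7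
  refine ⟨κ, fun i => ?_⟩
  have h8 := hvc (n + i)
  rw [hw, mul_comm _ (C κ), coeff_C_mul, mul_comm (X ^ n), coeff_mul_X_pow', if_pos (by omega),
    Nat.add_sub_cancel_left, coeff_one_add_X_pow, hu, coeff_X_pow_mul', if_pos (by omega)] at h8
  have e1 : n + i + (n + 1) = 2 * n + 1 + i := by ring
  have e2 : n + i + (n + 1) - (2 * n + 1) = i := by omega
  rw [e2, e1] at h8
  exact h8.symm

end Pool.Agent.Q258.MT.Ref
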