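import Pool.Agent.Q258.MT.Ref3

set_option autoImplicit false

/-!
The closed form of the vector with two symmetries.
-/

noncomputable section

namespace Pool.Agent.Q258.MT.Ref

open Polynomial Finset
open scoped Nat

theorem altsum_succ (m a : ℕ) (g : ℕ → ℚ) :
    ∑ k ∈ range (m + 1 + 1), (-1) ^ k * ((m + 1).choose k : ℚ) * g (a + k) =
      ∑ k ∈ range (m + 1), (-1) ^ k * (m.choose k : ℚ) * g (a + k) -
        ∑ k ∈ range (m + 1), (-1) ^ k * (m.choose k : ℚ) * g (a + 1 + k) := by
  rw [Finset.sum_range_succ', Finset.sum_range_succ' (fun k => (-1) ^ k * (m.choose k : ℚ) * g (a + k)) m]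
  have h1 : ∑ k ∈ range (m + 1), (-1 : ℚ) ^ (k + 1) * ((m + 1).choose (k + 1) : ℚ) * g (a + (k + 1)) =
      ∑ k ∈ range m, (-1 : ℚ) ^ (k + 1) * (m.choose (k + 1) : ℚ) * g (a + (k + 1)) -
        ∑ k ∈ range (m + 1), (-1 : ℚ) ^ k * (m.choose k : ℚ) * g (a + 1 + k) := by
    have h2 : ∑ k ∈ range m, (-1 : ℚ) ^ (k + 1) * (m.choose (k + 1) : ℚ) * g (a + (k + 1)) =
        ∑ k ∈ range (m + 1), (-1 : ℚ) ^ (k + 1) * (m.choose (k + 1) : ℚ) * g (a + (k + 1)) := by
      rw [Finset.sum_range_succ, Nat.choose_eq_zero_of_lt (Nat.lt_succ_self m)]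
      simp
    rw [h2, ← Finset.sum_sub_distrib]
    apply Finset.sum_congr rfl
    intro k _
    have e : a + (k + 1) = a + 1 + k := by ring
    rw [Nat.choose_succ_succ, e]
    push_cast
    ring
  rw [h1]
  simp
  ring

/-- an alternating sum of quotients of factorials -/
theorem altsum (b m : ℕ) : ∀ a : ℕ,
    ∑ k ∈ range (m + 1), (-1) ^ k * (m.choose k : ℚ) * (((a + k)! : ℚ) / ((a + k + b + 1)! : ℚ)) =
      (a ! : ℚ) * ((b + m)! : ℚ) / ((b ! : ℚ) * ((a + b + 1 + m)! : ℚ)) := by
  induction m with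
  | zero =>
    intro a
    have : (b ! : ℚ) ≠ 0 := by positivity
    have h2 : ((a + b + 1)! : ℚ) ≠ 0 := by positivity
    simp
    field_simp
  | succ m ih =>
    intro a
    rw [altsum_succ m a (fun x => ((x)! : ℚ) / ((x + b + 1)! : ℚ)), ih a, ih (a + 1)]
    have e1 : a + b + 1 + (m + 1) = (a + b + 1 + m) + 1 := by ring
    have e2 : a + 1 + b + 1 + m = (a + b + 1 + m) + 1 := by ring
    have e3 : b + (m + 1) = b + m + 1 := by ring
    rw [e1, e2, e3, Nat.factorial_succ (a + b + 1 + m), Nat.factorial_succ (b + m), Nat.factorial_succ a]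
    have h1 : (b ! : ℚ) ≠ 0 := by positivity
    have h2 : ((a + b + 1 + m)! : ℚ) ≠ 0 := by positivity
    have h3 : ((a : ℚ) + b + 1 + m + 1) ≠ 0 := by positivity
    push_cast
    field_simp
    ring

theorem R_inv (n : ℕ) (B : ℕ → ℚ) (j : ℕ) (hj : j ≤ n) :
    B j = ∑ i ∈ range (n + 1), (R n B).coeff i * ((-1) ^ (i - j) * (i.choose j : ℚ)) := by
  have h1 : (R n B).comp (X + C (-1)) = ∑ i ∈ range (n + 1), C (B i) * X ^ i := by
    rw [R]
    simp only [mul_comp, C_comp, pow_comp, X_comp, one_comp, Polynomial.sum_comp, add_comp]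
    apply Finset.sum_congr rfl
    intro i _
    congr 2
    rw [C_neg, C_1]; ring
  have h2 : R n B = ∑ i ∈ range (n + 1), C ((R n B).coeff i) * X ^ i := by
    ext m
    rw [finsetSum_coeff]
    simp only [coeff_C_mul, coeff_X_pow, mul_ite, mul_one, mul_zero]
    rw [Finset.sum_ite_eq]
    split_ifs with h
    · rfl
    · rw [Finset.mem_range] at h
      exact R_high n B m (by omega)
  have h3 : ((R n B).comp (X + C (-1))).coeff j =
      ((∑ i ∈ range (n + 1), C ((R n B).coeff i) * X ^ i).comp (X + C (-1))).coeff j := by rw [← h2]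
  rw [h1] at h3
  simp only [mul_comp, C_comp, pow_comp, X_comp, Polynomial.sum_comp, finsetSum_coeff, coeff_C_mul,
    coeff_X_add_C_pow, coeff_X_pow, mul_ite, mul_one, mul_zero] at h3
  rw [Finset.sum_ite_eq, if_pos (Finset.mem_range.mpr (by omega))] at h3
  exact h3

/-- **a vector with two symmetries is given by a product formula** -/
theorem closed (n : ℕ) (B : ℕ → ℚ) (hpal : ∀ i ≤ n, B (n - i) = B i)
    (hR : ∀ m ≤ n, B m = ∑ i ∈ range (m + 1), (-1) ^ i * ((n + m).choose (m - i) : ℚ) * B i)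
    (j : ℕ) (hj : j ≤ n) :
    B j = B 0 * ((n.choose j : ℚ) * ((n + j)! : ℚ) * ((2 * n - j)! : ℚ) / ((n ! : ℚ) * ((2 * n)! : ℚ))) := by
  obtain ⟨κ, hκ⟩ := R_formula n B hpal hR
  have hc : ∀ i, (R n B).coeff i = κ * (n.choose i : ℚ) * (((n + i)! : ℚ) / ((n + i + n + 1)! : ℚ)) := by
    intro i
    have h := hκ i
    have h1 : ((n + i)! : ℚ) * ((2 * n + 1 + i).descFactorial (n + 1) : ℚ) = ((n + i + n + 1)! : ℚ) := by
      have e : 2 * n + 1 + i - (n + 1) = n + i := by omega
      have e2 : n + i + n + 1 = 2 * n + 1 + i := by ring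
      have := Nat.factorial_mul_descFactorial (n := 2 * n + 1 + i) (k := n + 1) (by omega)
      rw [e] at this
      rw [e2]
      exact_mod_cast this
    have h2 : ((n + i + n + 1)! : ℚ) ≠ 0 := by positivity
    have h3 : ((n + i)! : ℚ) ≠ 0 := by positivity
    rw [← mul_div_assoc, eq_div_iff h2, ← h1]
    linear_combination ((n + i)! : ℚ) * h
  have key : ∀ j ≤ n, B j = κ * (n.choose j : ℚ) * (((n + j)! : ℚ) * ((2 * n - j)! : ℚ) / ((n ! : ℚ) * ((3 * n + 1)! : ℚ))) := by
    intro j hj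
    rw [R_inv n B j hj]
    have h1 : ∑ i ∈ range (n + 1), (R n B).coeff i * ((-1) ^ (i - j) * (i.choose j : ℚ)) =
        ∑ i ∈ Ico j (n + 1), (R n B).coeff i * ((-1) ^ (i - j) * (i.choose j : ℚ)) := by
      symm
      apply Finset.sum_subset
      · intro i hi
        rw [Finset.mem_Ico] at hi
        rw [Finset.mem_range]
        omega
      · intro i hi hi2
        rw [Finset.mem_range] at hi
        rw [Finset.mem_Ico] at hi2
        rw [Nat.choose_eq_zero_of_lt (by omega)]
        simp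
    rw [h1, Finset.sum_Ico_eq_sum_range]
    have e3 : n + 1 - j = n - j + 1 := by omega
    rw [e3]
    have h2 : ∀ k ∈ range (n - j + 1), (R n B).coeff (j + k) * ((-1) ^ (j + k - j) * ((j + k).choose j : ℚ)) =
        κ * (n.choose j : ℚ) * ((-1) ^ k * ((n - j).choose k : ℚ) * (((n + j + k)! : ℚ) / ((n + j + k + n + 1)! : ℚ))) := by
      intro k hk
      rw [Finset.mem_range] at hk
      rw [hc, Nat.add_sub_cancel_left]
      have h3 : n.choose (j + k) * (j + k).choose j = n.choose j * (n - j).choose k := by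
        have := Nat.choose_mul (n := n) (k := j + k) (s := j) (by omega)
        rw [this, Nat.add_sub_cancel_left]
      have h4 : (n.choose (j + k) : ℚ) * ((j + k).choose j : ℚ) = (n.choose j : ℚ) * ((n - j).choose k : ℚ) := by
        exact_mod_cast h3
      have e4 : n + (j + k) = n + j + k := by ring
      rw [e4]
      linear_combination (κ * (-1) ^ k * (((n + j + k)! : ℚ) / ((n + j + k + n + 1)! : ℚ))) * h4
    rw [Finset.sum_congr rfl h2, ← Finset.mul_sum, altsum n (n - j) (n + j)]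
    have e5 : n + (n - j) = 2 * n - j := by omega
    have e6 : n + j + n + 1 + (n - j) = 3 * n + 1 := by omega
    rw [e5, e6]
  have h0 := key 0 (by omega)
  rw [key j hj, h0]
  have h1 : (n ! : ℚ) ≠ 0 := by positivity
  have h2 : ((3 * n + 1)! : ℚ) ≠ 0 := by positivity
  have h3 : ((2 * n)! : ℚ) ≠ 0 := by positivity
  simp only [Nat.choose_zero_right, Nat.cast_one, mul_one, add_zero, Nat.sub_zero]
  field_simp

end Pool.Agent.Q258.MT.Ref
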