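import Pool.Agent.Q258.MT.Ref2
import Pool.Agent.Q258.MT.Ref4

set_option autoImplicit false

/-!
The refined alternating sign matrix numbers.
-/

noncomputable section

namespace Pool.Agent.Q258.MT

open Finset
open scoped Nat

/-- the refined alternating sign matrix numbers (size `n + 1`, positions counted from `0`) -/
def Bn (n j : ℕ) : ℚ := al n (del 1 (n + 1) j)

/-- the differences of the monotone triangle polynomial in the first variable -/
def Df (n j : ℕ) (x : ℤ) : ℚ := evn (n + 1) (M^[j] (X x) * S1 2 n)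

theorem asm_transpose (n : ℕ) (j : Fin (n + 1)) :
    Nat.card {a : Fin (n + 1) → Fin (n + 1) → ℤ // IsASM a ∧ a 0 j = 1} =
      Nat.card {a : Fin (n + 1) → Fin (n + 1) → ℤ // IsASM a ∧ a j 0 = 1} :=
  Nat.card_congr
    { toFun := fun a => ⟨fun i k => a.1 k i, ⟨a.2.1.2, a.2.1.1⟩, a.2.2⟩
      invFun := fun a => ⟨fun i k => a.1 k i, ⟨a.2.1.2, a.2.1.1⟩, a.2.2⟩
      left_inv := fun _ => rfl
      right_inv := fun _ => rfl }

theorem asm_good (n : ℕ) (j : Fin (n + 1)) :
    Nat.card {a : Fin (n + 1) → Fin (n + 1) → ℤ // IsASM a ∧ a j 0 = 1} =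
      Nat.card {a : Good (n + 1) (fun _ : Fin (n + 1) => true) // a.1 j 0 = 1} :=
  Nat.card_congr
    { toFun := fun a => ⟨⟨a.1, (isASM_iff a.1).mp a.2.1⟩, a.2.2⟩
      invFun := fun a => ⟨a.1.1, (isASM_iff a.1.1).mpr a.1.2, a.2⟩
      left_inv := fun _ => rfl
      right_inv := fun _ => rfl }

theorem Bn_eq_Df (n j : ℕ) (hj : j ≤ n) : Bn n j = Df n j 2 := by
  have h1 := asm_card n ⟨j, by omega⟩
  rw [asm_transpose, asm_good] at h1
  rw [Bn, ← h1, good_col j (n + 1) (fun _ : Fin (n + 1) => true) rfl (by omega), tl_true]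
  rfl

theorem Df_zero (n : ℕ) (x : ℤ) : Df n 0 x = al (n + 1) (x :: up 2 n) := by
  unfold Df S1
  rw [Function.iterate_zero, id, ← W_cons, evn_W]

theorem M_it_X (j : ℕ) (x : ℤ) : M^[j + 1] (X x) = M^[j] (X x) - M^[j] (X (x + 1)) := by
  rw [Function.iterate_succ_apply, M_X, iterate_map_sub]

theorem Df_succ (n j : ℕ) (x : ℤ) : Df n (j + 1) x = Df n j x - Df n j (x + 1) := by
  unfold Df
  rw [M_it_X, sub_mul, map_sub]

theorem evn_M_it (k : ℕ) : ∀ (m : ℕ) (c a : WA), evn (m + k) (M^[k] c * a) = evn m (c * d^[k] a) := by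
  induction k with
  | zero => intro m c a; rfl
  | succ k ih =>
    intro m c a
    rw [Function.iterate_succ_apply', ← add_assoc, evn_M_mul, ih, ← Function.iterate_succ_apply]

theorem V_d_it (k : ℕ) : ∀ {a m n : ℤ} {x : WA}, x ∈ V a m n → d^[k] x ∈ V a m (n - k) := by
  induction k with
  | zero => intro a m n x hx; simpa using hx
  | succ k ih =>
    intro a m n x hx
    rw [Function.iterate_succ_apply]
    exact V_cast (ih (V_d hx)) (by push_cast; ring)

theorem Df_big (n j : ℕ) (x : ℤ) (h : n < j) : Df n j x = 0 := by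
  obtain ⟨k, rfl⟩ : ∃ k, j = n + 1 + k := ⟨j - (n + 1), by omega⟩
  unfold Df
  have h1 := evn_M_it (n + 1) 0 (M^[k] (X x)) (S1 2 n)
  rw [zero_add, ← Function.iterate_add_apply] at h1
  rw [h1, V_neg (V_d_it (n + 1) (S1_mem 2 n)) (by push_cast; omega), mul_zero, map_zero]

/-- Newton expansion -/
theorem Df_newton (n y : ℕ) : ∀ x : ℤ, Df n 0 (x + y) =
    ∑ j ∈ range (y + 1), (-1) ^ j * (y.choose j : ℚ) * Df n j x := by
  induction y with
  | zero => intro x; simp
  | succ y ih =>
    intro x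
    have e : x + ((y + 1 : ℕ) : ℤ) = x + 1 + y := by push_cast; ring
    rw [e, ih (x + 1)]
    have h1 : ∀ j ∈ range (y + 1), (-1 : ℚ) ^ j * (y.choose j : ℚ) * Df n j (x + 1) =
        (-1) ^ j * (y.choose j : ℚ) * Df n j x - (-1) ^ j * (y.choose j : ℚ) * Df n (j + 1) x := by
      intro j _
      rw [Df_succ]; ring
    rw [Finset.sum_congr rfl h1, Finset.sum_sub_distrib, Finset.sum_range_succ' _ (y + 1)]
    have h2 : ∑ j ∈ range (y + 1), (-1 : ℚ) ^ (j + 1) * ((y + 1).choose (j + 1) : ℚ) * Df n (j + 1) x =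
        ∑ j ∈ range y, (-1 : ℚ) ^ (j + 1) * (y.choose (j + 1) : ℚ) * Df n (j + 1) x -
        ∑ j ∈ range (y + 1), (-1 : ℚ) ^ j * (y.choose j : ℚ) * Df n (j + 1) x := by
      have h3 : ∑ j ∈ range y, (-1 : ℚ) ^ (j + 1) * (y.choose (j + 1) : ℚ) * Df n (j + 1) x =
          ∑ j ∈ range (y + 1), (-1 : ℚ) ^ (j + 1) * (y.choose (j + 1) : ℚ) * Df n (j + 1) x := by
        rw [Finset.sum_range_succ, Nat.choose_eq_zero_of_lt (Nat.lt_succ_self y)]
        simp
      rw [h3, ← Finset.sum_sub_distrib]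
      apply Finset.sum_congr rfl
      intro j _
      rw [Nat.choose_succ_succ]
      push_cast
      ring
    rw [h2, Finset.sum_range_succ' (fun j => (-1 : ℚ) ^ j * (y.choose j : ℚ) * Df n j x) y]
    simp only [Nat.choose_zero_right]
    ring

theorem Df_diff (n j : ℕ) : ∀ x : ℤ, Df n j x =
    ∑ i ∈ range (j + 1), (-1) ^ i * (j.choose i : ℚ) * Df n 0 (x + i) := by
  induction j with
  | zero => intro x; simp
  | succ j ih =>
    intro x
    rw [Df_succ, ih x, ih (x + 1)]
    have h := Ref.altsum_succ j 0 (fun i => Df n 0 (x + i))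
    simp only [zero_add] at h
    rw [h]
    congr 1
    apply Finset.sum_congr rfl
    intro i _
    congr 2
    push_cast
    ring

theorem up_reflect (n : ℕ) : ∀ a : ℤ, ((up a n).map (fun x => -x)).reverse = up (-(a + n - 1)) n := by
  induction n with
  | zero => intro a; rfl
  | succ n ih =>
    intro a
    rw [up_snoc, List.map_append, List.reverse_append, ih]
    simp only [List.map_cons, List.map_nil, List.reverse_cons, List.reverse_nil, List.nil_append,
      List.singleton_append, up]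
    congr 1
    · push_cast; ring
    · congr 1
      push_cast; ring

theorem up_shift (n : ℕ) (c : ℤ) : ∀ a : ℤ, (up a n).map (· + c) = up (a + c) n := by
  induction n with
  | zero => intro a; rfl
  | succ n ih =>
    intro a
    rw [up, List.map_cons, ih, up]
    congr 2
    ring

/-- the symmetry in the first variable -/
theorem Df_parity (n : ℕ) (x : ℤ) : Df n 0 (2 * n + 4 - x) = (-1) ^ n * Df n 0 x := by
  rw [Df_zero, Df_zero, al_rot (n + 1) x, up_length]
  have h1 := al_reflect n (up 2 n ++ [x - ((n : ℤ) + 1)]) (by rw [List.length_append, up_length]; rfl)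
  rw [List.map_append, List.reverse_append, up_reflect] at h1
  rw [← h1]
  have h2 := al_map_int (n + 1) ((List.map (fun x => -x) [x - ((n : ℤ) + 1)]).reverse ++
    up (-(2 + (n : ℤ) - 1)) n) ((n : ℤ) + 3)
  rw [List.map_append, up_shift] at h2
  have e1 : -((2 : ℤ) + n - 1) + (n + 3) = 2 := by ring
  rw [e1] at h2
  simp only [List.map_cons, List.map_nil, List.reverse_cons, List.reverse_nil, List.nil_append,
    List.singleton_append] at h2 ⊢
  have e2 : -(x - ((n : ℤ) + 1)) + (n + 3) = 2 * n + 4 - x := by ring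
  rw [e2] at h2
  rw [h2, ← mul_assoc, ← mul_pow]
  norm_num

theorem binsum (k : ℕ) (j : ℕ) : ∀ N : ℕ, j ≤ N →
    ∑ i ∈ range (j + 1), (-1) ^ i * (j.choose i : ℚ) * ((N - i).choose k : ℚ) =
      if j ≤ k then ((N - j).choose (k - j) : ℚ) else 0 := by
  induction j with
  | zero => intro N _; simp
  | succ j ih =>
    intro N hN
    obtain ⟨N, rfl⟩ : ∃ N', N = N' + 1 := ⟨N - 1, by omega⟩
    have h := Ref.altsum_succ j 0 (fun i => ((N + 1 - i).choose k : ℚ))
    simp only [zero_add] at h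
    rw [h, ih (N + 1) (by omega)]
    have h2 : ∑ i ∈ range (j + 1), (-1 : ℚ) ^ i * (j.choose i : ℚ) * ((N + 1 - (1 + i)).choose k : ℚ) =
        ∑ i ∈ range (j + 1), (-1 : ℚ) ^ i * (j.choose i : ℚ) * ((N - i).choose k : ℚ) := by
      apply Finset.sum_congr rfl
      intro i _
      have : N + 1 - (1 + i) = N - i := by omega
      rw [this]
    rw [h2, ih N (by omega)]
    by_cases h3 : j + 1 ≤ k
    · rw [if_pos (by omega), if_pos (by omega), if_pos h3]
      have e1 : N + 1 - j = N - j + 1 := by omega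
      have e2 : k - j = k - (j + 1) + 1 := by omega
      have e3 : N + 1 - (j + 1) = N - j := by omega
      rw [e1, e2, e3, Nat.choose_succ_succ]
      push_cast
      ring
    · rw [if_neg h3]
      by_cases h4 : j ≤ k
      · have : k = j := by omega
        subst this
        simp
      · rw [if_neg h4, if_neg h4, sub_self]

theorem del_eq (j : ℕ) : ∀ (a : ℤ) (m : ℕ), j ≤ m → del a (m + 1) j = up a j ++ up (a + j + 1) (m - j) := by
  induction j with
  | zero => intro a m _; simp [del, up]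
  | succ j ih =>
    intro a m hm
    obtain ⟨m, rfl⟩ : ∃ m', m = m' + 1 := ⟨m - 1, by omega⟩
    rw [del, ih (a + 1) m (by omega), up, List.cons_append]
    congr 3
    · push_cast; ring
    · omega

theorem Bn_pal (n i : ℕ) (hi : i ≤ n) : Bn n (n - i) = Bn n i := by
  cases n with
  | zero =>
    obtain rfl : i = 0 := by omega
    rfl
  | succ n =>
    unfold Bn
    rw [del_eq i 1 (n + 1) hi, del_eq (n + 1 - i) 1 (n + 1) (by omega)]
    have h1 := al_reflect n (up 1 i ++ up (1 + i + 1) (n + 1 - i)) (by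
      rw [List.length_append, up_length, up_length]; omega)
    rw [List.map_append, List.reverse_append, up_reflect, up_reflect] at h1
    have h2 := al_map_int (n + 1) (up (-(1 + (i : ℤ) + 1 + ((n + 1 - i : ℕ) : ℤ) - 1)) (n + 1 - i) ++
      up (-(1 + (i : ℤ) - 1)) i) ((n : ℤ) + 3)
    rw [List.map_append, up_shift, up_shift, h1] at h2
    rw [← h2]
    have e0 : ((n + 1 - i : ℕ) : ℤ) = n + 1 - i := by omega
    have e1 : -(1 + (i : ℤ) + 1 + ((n + 1 - i : ℕ) : ℤ) - 1) + (n + 3) = 1 := by rw [e0]; ring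
    have e2 : -(1 + (i : ℤ) - 1) + (n + 3) = 1 + ((n + 1 - i : ℕ) : ℤ) + 1 := by rw [e0]; ring
    have e3 : n + 1 - (n + 1 - i) = i := by omega
    rw [e1, e2, e3]

theorem Bn_R (n m : ℕ) (hm : m ≤ n) :
    Bn n m = ∑ i ∈ range (m + 1), (-1) ^ i * ((n + m).choose (m - i) : ℚ) * Bn n i := by
  obtain ⟨j, hj⟩ : ∃ j, j = n - m := ⟨_, rfl⟩
  have h1 : Bn n m = Df n j 2 := by
    rw [← Bn_pal n m hm, ← hj, Bn_eq_Df n j (by omega)]
  have h2 : ∀ i ∈ range (j + 1), Df n 0 (2 + i) =
      (-1) ^ n * ∑ k ∈ range (n + 1), (-1) ^ k * ((2 * n - i).choose k : ℚ) * Bn n k := by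
    intro i hi
    rw [Finset.mem_range] at hi
    have h3 := Df_parity n (2 + (i : ℤ))
    have e1 : 2 * (n : ℤ) + 4 - (2 + i) = 2 + ((2 * n - i : ℕ) : ℤ) := by
      have : ((2 * n - i : ℕ) : ℤ) = 2 * n - i := by omega
      rw [this]; ring
    rw [e1, Df_newton] at h3
    have h4 : ∑ k ∈ range (n + 1), (-1 : ℚ) ^ k * ((2 * n - i).choose k : ℚ) * Bn n k =
        ∑ k ∈ range (2 * n - i + 1), (-1 : ℚ) ^ k * ((2 * n - i).choose k : ℚ) * Df n k 2 := by
      have h5 : ∑ k ∈ range (n + 1), (-1 : ℚ) ^ k * ((2 * n - i).choose k : ℚ) * Bn n k =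
          ∑ k ∈ range (n + 1), (-1 : ℚ) ^ k * ((2 * n - i).choose k : ℚ) * Df n k 2 := by
        apply Finset.sum_congr rfl
        intro k hk
        rw [Finset.mem_range] at hk
        rw [Bn_eq_Df n k (by omega)]
      rw [h5]
      apply Finset.sum_subset
      · intro k hk
        rw [Finset.mem_range] at hk ⊢
        omega
      · intro k _ hk
        rw [Finset.mem_range] at hk
        rw [Df_big n k 2 (by omega), mul_zero]
    rw [h4, h3, ← mul_assoc, ← mul_pow]
    norm_num
  rw [h1, Df_diff, Finset.sum_congr rfl (fun i hi => by rw [h2 i hi])]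
  have h3 : ∑ i ∈ range (j + 1), (-1 : ℚ) ^ i * (j.choose i : ℚ) *
      ((-1) ^ n * ∑ k ∈ range (n + 1), (-1) ^ k * ((2 * n - i).choose k : ℚ) * Bn n k) =
      (-1) ^ n * ∑ k ∈ range (n + 1), (-1) ^ k * Bn n k *
        (∑ i ∈ range (j + 1), (-1 : ℚ) ^ i * (j.choose i : ℚ) * ((2 * n - i).choose k : ℚ)) := by
    simp only [Finset.mul_sum]
    rw [Finset.sum_comm]
    apply Finset.sum_congr rfl
    intro k _
    apply Finset.sum_congr rfl
    intro i _
    ring
  rw [h3, ← Finset.sum_range_reflect, Finset.mul_sum, ← Ref.sum_ite_le n m hm]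
  apply Finset.sum_congr rfl
  intro k hk
  rw [Finset.mem_range] at hk
  rw [Nat.add_sub_cancel, binsum (n - k) j (2 * n) (by omega), Bn_pal n k (by omega)]
  have e2 : (-1 : ℚ) ^ n * (-1) ^ (n - k) = (-1) ^ k := by
    rw [← pow_add]
    apply neg_one_pow_congr
    omega
  by_cases h4 : k ≤ m
  · rw [if_pos h4, if_pos (by omega)]
    have e3 : 2 * n - j = n + m := by omega
    have e4 : n - k - j = m - k := by omega
    rw [e3, e4, ← e2]
    ring
  · rw [if_neg h4, if_neg (by omega)]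
    ring

/-- **the refined alternating sign matrix theorem** -/
theorem Bn_closed (n j : ℕ) (hj : j ≤ n) :
    Bn n j = Bn n 0 * ((n.choose j : ℚ) * ((n + j)! : ℚ) * ((2 * n - j)! : ℚ) / ((n ! : ℚ) * ((2 * n)! : ℚ))) :=
  Ref.closed n (Bn n) (Bn_pal n) (Bn_R n) j hj

theorem Bn_zero (n : ℕ) : Bn n 0 = al n (up 1 n) := by
  unfold Bn
  show al n (up (1 + 1) n) = _
  rw [← up_shift, al_map_int]

end Pool.Agent.Q258.MT
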