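import Pool.Agent.Q258.MT.Ref1

set_option autoImplicit false

/-!
Rational functions.
-/

noncomputable section

namespace Pool.Agent.Q258.MTR

open Finset Polynomial
open Pool.Agent.Q258.MT (Bn al up Bn_closed Bn_zero)
open scoped Nat

/-- `(n - 1) (n - 2) ... (n - p)` -/
def Up (p : ℕ) : ℚ[X] := ∏ s ∈ range p, (X + C (-(1 + (s : ℚ))))

/-- `n (n + 1) ... (n + p - 1)` -/
def Vp (p : ℕ) : ℚ[X] := ∏ s ∈ range p, (X + C (s : ℚ))

/-- the product of `2 n - 2 - s` over `a ≤ s < c` -/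
def Dp (a c : ℕ) : ℚ[X] := ∏ s ∈ Ico a c, (C 2 * X + C (-(2 + (s : ℚ))))

/-- the numerator -/
def Pi (i : ℕ) : ℚ[X] := ∑ p ∈ range (i + 1), C (((i : ℚ) + 1 - p) / (p ! : ℚ)) * (Up p * Vp p * Dp p i)

theorem Up_monic (p : ℕ) : (Up p).Monic := monic_prod_of_monic _ _ fun _ _ => monic_X_add_C _

theorem Vp_monic (p : ℕ) : (Vp p).Monic := monic_prod_of_monic _ _ fun _ _ => monic_X_add_C _

theorem Up_natDegree (p : ℕ) : (Up p).natDegree = p := by
  unfold Up
  rw [natDegree_prod_of_monic _ _ fun s _ => monic_X_add_C _]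
  simp only [natDegree_X_add_C]
  simp

theorem Vp_natDegree (p : ℕ) : (Vp p).natDegree = p := by
  unfold Vp
  rw [natDegree_prod_of_monic _ _ fun s _ => monic_X_add_C _]
  simp only [natDegree_X_add_C]
  simp

theorem lin_natDegree (c : ℚ) : (C 2 * X + C c : ℚ[X]).natDegree = 1 := natDegree_linear (by norm_num)

theorem Dp_natDegree (a c : ℕ) : (Dp a c).natDegree = c - a := by
  unfold Dp
  rw [natDegree_prod]
  · simp only [lin_natDegree]
    simp
  · intro s _ h
    have := lin_natDegree (-(2 + (s : ℚ)))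
    rw [h, natDegree_zero] at this
    exact zero_ne_one this

theorem Pi_natDegree (i : ℕ) (hi : 1 ≤ i) : (Pi i).natDegree = 2 * i := by
  unfold Pi
  rw [Finset.sum_range_succ]
  have h1 : (C (((i : ℚ) + 1 - i) / (i ! : ℚ)) * (Up i * Vp i * Dp i i)).natDegree = 2 * i := by
    have e : ((i : ℚ) + 1 - i) / (i ! : ℚ) ≠ 0 := by
      have : (i ! : ℚ) ≠ 0 := by positivity
      rw [add_sub_cancel_left]
      exact div_ne_zero one_ne_zero this
    have e2 : Dp i i = 1 := by simp [Dp]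
    rw [natDegree_C_mul e, e2, mul_one, (Up_monic i).natDegree_mul (Vp_monic i), Up_natDegree, Vp_natDegree]
    ring
  rw [natDegree_add_eq_right_of_natDegree_lt, h1]
  rw [h1]
  refine lt_of_le_of_lt (natDegree_sum_le_of_forall_le (n := 2 * i - 1) _ _ ?_) (by omega)
  intro p hp
  rw [Finset.mem_range] at hp
  refine (natDegree_C_mul_le _ _).trans (natDegree_mul_le.trans ?_)
  rw [Dp_natDegree]
  have := natDegree_mul_le (p := Up p) (q := Vp p)
  rw [Up_natDegree, Vp_natDegree] at this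
  omega

theorem Up_eval (p : ℕ) : ∀ N : ℕ, p ≤ N → (Up p).eval ((N + 1 : ℕ) : ℚ) * ((N - p)! : ℚ) = (N ! : ℚ) := by
  induction p with
  | zero => intro N _; simp [Up]
  | succ p ih =>
    intro N hN
    have h := ih N (by omega)
    have e : N - p = (N - (p + 1)) + 1 := by omega
    rw [e, Nat.factorial_succ] at h
    rw [← h, Up, Finset.prod_range_succ, ← Up, eval_mul, eval_add, eval_X, eval_C]
    have e2 : (((N - (p + 1) + 1 : ℕ)) : ℚ) = (N : ℚ) - p := by
      have : N - (p + 1) + 1 = N - p := by omega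
      rw [this, Nat.cast_sub (by omega)]
    rw [Nat.cast_mul, e2]
    push_cast
    ring

theorem Vp_eval (p : ℕ) (N : ℕ) : (Vp p).eval ((N + 1 : ℕ) : ℚ) * (N ! : ℚ) = ((N + p)! : ℚ) := by
  induction p with
  | zero => simp [Vp]
  | succ p ih =>
    rw [Vp, Finset.prod_range_succ, ← Vp, eval_mul, eval_add, eval_X, eval_C, ← add_assoc, Nat.factorial_succ,
      Nat.cast_mul, ← ih]
    push_cast
    ring

theorem Dp_eval (p : ℕ) : ∀ N : ℕ, p ≤ 2 * N →
    (Dp 0 p).eval ((N + 1 : ℕ) : ℚ) * ((2 * N - p)! : ℚ) = ((2 * N)! : ℚ) := by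
  induction p with
  | zero => intro N _; simp [Dp]
  | succ p ih =>
    intro N hN
    have h := ih N (by omega)
    have e : 2 * N - p = (2 * N - (p + 1)) + 1 := by omega
    rw [e, Nat.factorial_succ] at h
    rw [← h, Dp, Finset.prod_Ico_succ_top (by omega), ← Dp, eval_mul, eval_add, eval_mul, eval_X, eval_C, eval_C]
    have e2 : (((2 * N - (p + 1) + 1 : ℕ)) : ℚ) = 2 * (N : ℚ) - p := by
      have : 2 * N - (p + 1) + 1 = 2 * N - p := by omega
      rw [this, Nat.cast_sub (by omega)]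
      push_cast; ring
    rw [Nat.cast_mul, e2]
    push_cast
    ring

theorem Dp_mul (p i : ℕ) (h : p ≤ i) : Dp 0 p * Dp p i = Dp 0 i := by
  unfold Dp
  exact Finset.prod_Ico_consecutive _ (Nat.zero_le p) h

theorem Dp_ne (N i : ℕ) (h : i ≤ 2 * N) : (Dp 0 i).eval ((N + 1 : ℕ) : ℚ) ≠ 0 := by
  intro h0
  have := Dp_eval i N h
  rw [h0, zero_mul] at this
  have h2 : ((2 * N)! : ℚ) ≠ 0 := by positivity
  exact h2 this.symm

/-- the ratio of the refined numbers -/
theorem ratio (N p : ℕ) (hp : p ≤ N) :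
    (N.choose p : ℚ) * ((N + p)! : ℚ) * ((2 * N - p)! : ℚ) / ((N ! : ℚ) * ((2 * N)! : ℚ)) =
      1 / (p ! : ℚ) * ((Up p).eval ((N + 1 : ℕ) : ℚ) * (Vp p).eval ((N + 1 : ℕ) : ℚ)) /
        (Dp 0 p).eval ((N + 1 : ℕ) : ℚ) := by
  have h1 := Up_eval p N hp
  have h2 := Vp_eval p N
  have h3 := Dp_eval p N (by omega)
  have h4 : (N.choose p : ℚ) * (p ! : ℚ) * ((N - p)! : ℚ) = (N ! : ℚ) := by
    exact_mod_cast Nat.choose_mul_factorial_mul_factorial hp
  have n1 : (N ! : ℚ) ≠ 0 := by positivity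
  have n2 : ((2 * N)! : ℚ) ≠ 0 := by positivity
  have n3 : (p ! : ℚ) ≠ 0 := by positivity
  have n4 := Dp_ne N p (by omega)
  have n5 : ((N - p)! : ℚ) ≠ 0 := by positivity
  have h5 : (Up p).eval ((N + 1 : ℕ) : ℚ) = (N.choose p : ℚ) * (p ! : ℚ) := by
    apply mul_right_cancel₀ n5
    rw [h1, h4]
  rw [h5, ← h2]
  rw [div_eq_div_iff (mul_ne_zero n1 n2) n4, ← h3]
  field_simp

/-- the value as a rational multiple -/
theorem Pi_eval (N i : ℕ) (hi : i ≤ N) :
    ∑ p ∈ range (i + 1), ((i : ℚ) + 1 - p) * Bn N p =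
      (Pi i).eval ((N + 1 : ℕ) : ℚ) / (Dp 0 i).eval ((N + 1 : ℕ) : ℚ) * al N (up 1 N) := by
  have n4 := Dp_ne N i (by omega)
  unfold Pi
  rw [eval_finsetSum, Finset.sum_div, Finset.sum_mul]
  apply Finset.sum_congr rfl
  intro p hp
  rw [Finset.mem_range] at hp
  rw [Bn_closed N p (by omega), Bn_zero, ratio N p (by omega), eval_mul, eval_mul, eval_mul, eval_C]
  have n5 := Dp_ne N p (by omega)
  have h := congrArg (fun q => q.eval ((N + 1 : ℕ) : ℚ)) (Dp_mul p i (by omega))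
  simp only [eval_mul] at h
  rw [← h]
  have n6 : (Dp p i).eval ((N + 1 : ℕ) : ℚ) ≠ 0 := by
    intro h0
    rw [h0, mul_zero] at h
    exact n4 h.symm
  have n7 : (p ! : ℚ) ≠ 0 := by positivity
  field_simp

end Pool.Agent.Q258.MTR
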